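import Pool.Agent.Lib.BAC.Blue

/-! A priori bounds for the uniformising rational functions. -/

namespace Pool.Agent.BAC

open Set

namespace APR

variable {m : ℕ} (U : Uni m)

lemma monoA : StrictMono U.A := Fin.strictMono_iff_lt_succ.2 fun i =>
  ((U.hAB _).trans (U.hBp i)).trans (U.hpA i)

lemma monoB : StrictMono U.B := Fin.strictMono_iff_lt_succ.2 fun i =>
  ((U.hBp i).trans (U.hpA i)).trans (U.hAB _)

lemma side {i k : Fin m} (h : k ≠ i) : U.p k < U.A i.castSucc ∨ U.B i.succ < U.p k := by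
  rcases lt_or_gt_of_ne h with h | h
  · exact Or.inl ((U.hpA k).trans_le ((monoA U).monotone (Fin.succ_le_castSucc_iff.2 h)))
  · exact Or.inr (((monoB U).monotone (Fin.succ_le_castSucc_iff.2 h)).trans_lt (U.hBp k))

lemma deriv_FR {x : ℝ} (hx : ∀ i, x ≠ U.p i) : HasDerivAt U.FR (U.dFR x) x := by
  have h1 : ∀ i ∈ Finset.univ, HasDerivAt (fun y => U.r i / (y - U.p i))
      (-(U.r i / (x - U.p i) ^ 2)) x := fun i _ => by
    have h := (hasDerivAt_const x (U.r i)).fun_div ((hasDerivAt_id' x).sub_const (U.p i))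
      (sub_ne_zero.2 (hx i))
    refine h.congr_deriv ?_
    ring
  have h2 := ((((hasDerivAt_pow 3 x).fun_neg.fun_add ((hasDerivAt_id' x).const_mul U.c)).add_const
    U.d).fun_add (HasDerivAt.fun_sum h1))
  refine h2.congr_deriv ?_
  simp only [Uni.dFR, dpsiR, Finset.sum_neg_distrib]
  norm_num
  ring

lemma dFR_le (x : ℝ) : U.dFR x ≤ U.c := by
  have h : 0 ≤ ∑ i, U.r i / (x - U.p i) ^ 2 :=
    Finset.sum_nonneg fun i _ => div_nonneg (U.hr i).le (sq_nonneg _)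
  simp only [Uni.dFR, dpsiR]
  nlinarith [sq_nonneg x]

lemma mvt (hREAL : St_REAL) (j : Fin (m + 1)) : ∃ y ∈ Ioo (U.A j) (U.B j),
    U.dFR y * (U.B j - U.A j) = U.f j - U.e j := by
  have h := fun x hx => deriv_FR U ((hREAL m U).2.2.2.2.1 j x hx).1
  obtain ⟨y, hy, h1⟩ := exists_hasDerivAt_eq_slope U.FR U.dFR (U.hAB j)
    (fun x hx => (h x hx).continuousAt.continuousWithinAt) fun x hx => h x (Ioo_subset_Icc_self hx)
  refine ⟨y, hy, ?_⟩
  rw [h1, div_mul_cancel₀ _ (sub_pos.2 (U.hAB j)).ne']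
  rfl

lemma conv {u v s t : ℝ} (hu : 0 < u) (hv : 0 < v) (hs : 0 ≤ s) (ht : 0 ≤ t) (h : s + t = 1) :
    1 / (s * u + t * v) ^ 2 ≤ s * (1 / u ^ 2) + t * (1 / v ^ 2) := by
  have h1 := (convexOn_zpow (𝕜 := ℝ) (-2)).2 hu hv hs ht h
  simpa [zpow_neg] using h1

lemma conv' {y z q s t : ℝ} (hq : (q < y ∧ q < z) ∨ (y < q ∧ z < q)) (hs : 0 ≤ s) (ht : 0 ≤ t)
    (h : s + t = 1) :
    1 / (s * y + t * z - q) ^ 2 ≤ s * (1 / (y - q) ^ 2) + t * (1 / (z - q) ^ 2) := by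
  have h0 : t = 1 - s := by linarith
  rcases hq with hq | hq
  · have h1 := conv (sub_pos.2 hq.1) (sub_pos.2 hq.2) hs ht h
    rwa [show s * (y - q) + t * (z - q) = s * y + t * z - q by rw [h0]; ring] at h1
  · have h1 := conv (sub_pos.2 hq.1) (sub_pos.2 hq.2) hs ht h
    rwa [show (s * (q - y) + t * (q - z)) ^ 2 = (s * y + t * z - q) ^ 2 by rw [h0]; ring,
      show (q - y) ^ 2 = (y - q) ^ 2 by ring, show (q - z) ^ 2 = (z - q) ^ 2 by ring] at h1

lemma split (i : Fin m) (x : ℝ) : U.dFR x + U.r i / (x - U.p i) ^ 2 =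
    U.c - 3 * x ^ 2 - ∑ k ∈ Finset.univ.erase i, U.r k / (x - U.p k) ^ 2 := by
  simp only [Uni.dFR, dpsiR]
  rw [← Finset.add_sum_erase _ _ (Finset.mem_univ i)]
  ring

lemma conc (i : Fin m) {y z x κ : ℝ} (hy : U.A i.castSucc < y) (hz : z < U.B i.succ)
    (hx : x ∈ Icc y z) (h1 : κ ≤ U.dFR y) (h2 : κ ≤ U.dFR z) (h0 : U.dFR x = 0) :
    κ ≤ U.r i / (x - U.p i) ^ 2 ∧ U.r i / (x - U.p i) ^ 2 ≤ U.c := by
  have hyz := hx.1.trans hx.2
  obtain ⟨s, t, hs, ht, h, rfl⟩ := (Convex.mem_Icc hyz).1 hx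
  have h3 := split U i y
  have h4 := split U i z
  have h5 := split U i (s * y + t * z)
  have h6 : ∑ k ∈ Finset.univ.erase i, U.r k / (s * y + t * z - U.p k) ^ 2 ≤
      s * ∑ k ∈ Finset.univ.erase i, U.r k / (y - U.p k) ^ 2 +
        t * ∑ k ∈ Finset.univ.erase i, U.r k / (z - U.p k) ^ 2 := by
    rw [Finset.mul_sum, Finset.mul_sum, ← Finset.sum_add_distrib]
    refine Finset.sum_le_sum fun k hk => ?_
    have h7 := conv' (y := y) (z := z) (q := U.p k) ((side U (Finset.ne_of_mem_erase hk)).imp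
      (fun h => ⟨by linarith, by linarith⟩) fun h => ⟨by linarith, by linarith⟩) hs ht h
    have h8 := mul_le_mul_of_nonneg_left h7 (U.hr k).le
    calc _ = U.r k * (1 / (s * y + t * z - U.p k) ^ 2) := by ring
      _ ≤ _ := h8
      _ = _ := by ring
  have h7 : 0 ≤ ∑ k ∈ Finset.univ.erase i, U.r k / (s * y + t * z - U.p k) ^ 2 :=
    Finset.sum_nonneg fun k _ => div_nonneg (U.hr k).le (sq_nonneg _)
  have h8 : 0 ≤ U.r i / (y - U.p i) ^ 2 := div_nonneg (U.hr i).le (sq_nonneg _)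
  have h9 : 0 ≤ U.r i / (z - U.p i) ^ 2 := div_nonneg (U.hr i).le (sq_nonneg _)
  rw [h0, zero_add] at h5
  refine ⟨?_, by nlinarith [sq_nonneg (s * y + t * z)]⟩
  rw [h5]
  generalize ∑ k ∈ Finset.univ.erase i, U.r k / (s * y + t * z - U.p k) ^ 2 = G at h6 ⊢
  generalize ∑ k ∈ Finset.univ.erase i, U.r k / (y - U.p k) ^ 2 = G1 at h3 h6
  generalize ∑ k ∈ Finset.univ.erase i, U.r k / (z - U.p k) ^ 2 = G2 at h4 h6
  have a1 : κ ≤ U.c - 3 * y ^ 2 - G1 := by linarith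
  have a2 : κ ≤ U.c - 3 * z ^ 2 - G2 := by linarith
  have a3 := mul_le_mul_of_nonneg_left a1 hs
  have a4 := mul_le_mul_of_nonneg_left a2 ht
  have a5 := mul_nonneg (mul_nonneg hs ht) (sq_nonneg (y - z))
  obtain rfl : t = 1 - s := by linarith
  nlinarith

lemma gap (i : Fin m) : U.e i.succ - U.f i.castSucc ≤ U.c * (U.A i.succ - U.B i.castSucc) +
    U.r i / (U.A i.succ - U.p i) - U.r i / (U.B i.castSucc - U.p i) := by
  have h1 := U.hBp i
  have h2 := U.hpA i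
  have h3 := U.hAB i.castSucc
  have h4 := U.hAB i.succ
  have h5 : ∑ k ∈ Finset.univ.erase i, U.r k / (U.A i.succ - U.p k) ≤
      ∑ k ∈ Finset.univ.erase i, U.r k / (U.B i.castSucc - U.p k) := by
    refine Finset.sum_le_sum fun k hk => ?_
    rcases side U (Finset.ne_of_mem_erase hk) with h | h
    · exact div_le_div_of_nonneg_left (U.hr k).le (by linarith) (by linarith)
    · rw [← neg_sub (U.p k), ← neg_sub (U.p k), div_neg, div_neg, neg_le_neg_iff]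
      exact div_le_div_of_nonneg_left (U.hr k).le (by linarith) (by linarith)
  have h6 : U.B i.castSucc ^ 3 ≤ U.A i.succ ^ 3 :=
    (Odd.strictMono_pow (by decide)).monotone (h1.trans h2).le
  simp only [Uni.e, Uni.f, Uni.FR, psiR]
  rw [← Finset.add_sum_erase _ _ (Finset.mem_univ i),
    ← Finset.add_sum_erase _ (fun k => U.r k / (U.B i.castSucc - U.p k)) (Finset.mem_univ i)]
  linarith

lemma num {η L c r u v : ℝ} (hη : 0 < η) (hL : 0 < L) (hc : 0 < c) (hcL : c ≤ 6 * L ^ 2)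
    (hu : 0 < u) (hv : 0 < v) (h1 : η / L ≤ r / u ^ 2) (h2 : η / L ≤ r / v ^ 2)
    (h3 : r / u ^ 2 ≤ c) (h4 : r / v ^ 2 ≤ c) (h5 : η ≤ c * (u + v) + r / v + r / u) :
    η ^ 3 / (576 * L ^ 5) ≤ r ∧ √(η ^ 3 / (576 * L ^ 5) / (6 * L ^ 2)) ≤ u ∧
      √(η ^ 3 / (576 * L ^ 5) / (6 * L ^ 2)) ≤ v := by
  rw [div_le_div_iff₀ hL (by positivity)] at h1 h2
  rw [div_le_iff₀ (by positivity)] at h3 h4
  have h6 : r / u ≤ c * u := by rw [div_le_iff₀ hu]; nlinarith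
  have h7 : r / v ≤ c * v := by rw [div_le_iff₀ hv]; nlinarith
  have h8 : η ≤ 12 * L ^ 2 * (u + v) := by nlinarith
  have h9 : η ^ 2 ≤ (12 * L ^ 2 * (u + v)) ^ 2 := pow_le_pow_left₀ hη.le h8 2
  have a1 : η * (u + v) ^ 2 ≤ 4 * (r * L) := by nlinarith [mul_nonneg hη.le (sq_nonneg (u - v))]
  have a2 : η ^ 3 / (576 * L ^ 5) ≤ r := by
    rw [div_le_iff₀ (by positivity)]
    have a3 := mul_le_mul_of_nonneg_left h9 hη.le
    have a4 := mul_le_mul_of_nonneg_left a1 (show 0 ≤ 144 * L ^ 4 by positivity)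
    nlinarith
  refine ⟨a2, Real.sqrt_le_iff.2 ⟨hu.le, ?_⟩, Real.sqrt_le_iff.2 ⟨hv.le, ?_⟩⟩
  · rw [div_le_iff₀ (by positivity)]
    nlinarith [mul_le_mul_of_nonneg_right hcL (sq_nonneg u)]
  · rw [div_le_iff₀ (by positivity)]
    nlinarith [mul_le_mul_of_nonneg_right hcL (sq_nonneg v)]

end APR

open APR in
theorem st_APR (hREAL : St_REAL) (hSIZE : St_SIZE) : St_APR := by
  intro m η hη
  obtain ⟨L, hL⟩ : ∃ L : ℝ, L = 1 + 4 * (1 / η) := ⟨_, rfl⟩
  have hη' : 0 < 1 / η := by positivity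
  have hL1 : 1 ≤ L := by linarith
  have hL0 : 0 < L := by linarith
  obtain ⟨ρ, h0, h1, h2, h3, h4⟩ : ∃ ρ : ℝ, 0 < ρ ∧ ρ ≤ 1 / (8 * L ^ 3) ∧ ρ ≤ η / (6 * L ^ 2) ∧
      ρ ≤ η ^ 3 / (576 * L ^ 5) ∧ ρ ≤ √(η ^ 3 / (576 * L ^ 5) / (6 * L ^ 2)) :=
    ⟨min (min (1 / (8 * L ^ 3)) (η / (6 * L ^ 2))) (min (η ^ 3 / (576 * L ^ 5))
      √(η ^ 3 / (576 * L ^ 5) / (6 * L ^ 2))), by positivity,
      (min_le_left _ _).trans (min_le_left _ _), (min_le_left _ _).trans (min_le_right _ _),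
      (min_le_right _ _).trans (min_le_left _ _), (min_le_right _ _).trans (min_le_right _ _)⟩
  have h5 : 8 * L ^ 3 ≤ 1 / ρ := by
    rw [le_div_iff₀ (by positivity)] at h1
    rw [le_div_iff₀ h0]
    linarith
  refine ⟨ρ, h0, fun U hU hg => ?_⟩
  obtain ⟨s1, s2, s3, s4, s5, s6, s7, s8⟩ := hSIZE m U
  have hL2 : L ≤ L ^ 2 := by nlinarith
  have hL3 : L ^ 2 ≤ L ^ 3 := by nlinarith
  have hD : U.f (Fin.last m) - U.e 0 ≤ 2 * (1 / η) := by
    linarith [(abs_le.1 (hU (Fin.last m)).2.2).2, (abs_le.1 (hU 0).2.1).1]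
  have hba : U.B (Fin.last m) - U.A 0 ≤ L := by
    by_contra h
    have h6 : 1 ≤ U.B (Fin.last m) - U.A 0 := by linarith
    have h7 := le_self_pow₀ h6 (show 3 ≠ 0 by decide)
    linarith
  have hc : U.c ≤ 6 * L ^ 2 := by
    have h6 := pow_le_pow_left₀ (by linarith) hba 2
    linarith
  have hA : ∀ j, |U.A j| ≤ L ∧ |U.B j| ≤ L ∧ U.B j - U.A j ≤ L := fun j => by
    have h6 := s8 j
    have h7 := U.hAB j
    exact ⟨abs_le.2 ⟨by linarith, by linarith⟩, abs_le.2 ⟨by linarith, by linarith⟩, by linarith⟩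
  choose y hy hy' using mvt U hREAL
  have hκ : ∀ j, η / L ≤ U.dFR (y j) := fun j => by
    have h6 := (hREAL m U).2.1 j _ (hy j).1 (hy j).2
    rw [div_le_iff₀ hL0]
    nlinarith [hy' j, (hU j).1, mul_le_mul_of_nonneg_left (hA j).2.2 h6.le]
  refine ⟨by rw [abs_of_pos s3]; linarith, ?_, fun j => ⟨by linarith [(hA j).1],
    by linarith [(hA j).2.1], h2.trans ?_⟩, fun i => ?_⟩
  · have h6 : U.d = U.e 0 + U.A 0 ^ 3 - U.c * U.A 0 - ∑ i, U.r i / (U.A 0 - U.p i) := by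
      simp only [Uni.e, Uni.FR, psiR]; ring
    have h7 : |U.A 0 ^ 3| ≤ L ^ 3 := by
      rw [abs_pow]; exact pow_le_pow_left₀ (abs_nonneg _) (hA 0).1 3
    have h8 : |U.c * U.A 0| ≤ 6 * L ^ 2 * L := by
      rw [abs_mul, abs_of_pos s3]
      exact mul_le_mul hc (hA 0).1 (abs_nonneg _) (by positivity)
    have h9 := abs_le.1 (hU 0).2.1
    rw [abs_le] at h7 h8 s7 ⊢
    constructor <;> nlinarith
  · have h6 := sub_pos.2 (U.hAB j)
    rw [div_le_iff₀ (by positivity)]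
    nlinarith [hy' j, (hU j).1, mul_le_mul_of_nonneg_right ((dFR_le U (y j)).trans hc) h6.le]
  · have b1 := U.hBp i
    have b2 := U.hpA i
    have b3 := hy i.castSucc
    have b4 := hy i.succ
    have c1 := conc U i b3.1 b4.2 (x := U.B i.castSucc) ⟨b3.2.le, by linarith [b4.1]⟩ (hκ _) (hκ _)
      (U.hB _)
    have c2 := conc U i b3.1 b4.2 (x := U.A i.succ) ⟨by linarith [b3.2], b4.1.le⟩ (hκ _) (hκ _)
      (U.hA _)
    have c3 := (hg i).trans (gap U i)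
    rw [show (U.B i.castSucc - U.p i) ^ 2 = (U.p i - U.B i.castSucc) ^ 2 by ring] at c1
    rw [← neg_sub (U.p i) (U.B i.castSucc), div_neg, sub_neg_eq_add, show
      U.A i.succ - U.B i.castSucc = U.p i - U.B i.castSucc + (U.A i.succ - U.p i) by ring] at c3
    obtain ⟨d1, d2, d3⟩ := num hη hL0 s3 hc (sub_pos.2 b1) (sub_pos.2 b2) c1.1 c2.1 c1.2 c2.2 c3
    refine ⟨h3.trans d1, ?_, h4.trans d2, h4.trans d3⟩
    have d4 : U.r i ≤ ∑ k, U.r k :=
      Finset.single_le_sum (fun k _ => (U.hr k).le) (Finset.mem_univ i)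
    have d5 := mul_le_mul hba (hD.trans (show 2 * (1 / η) ≤ L by linarith))
      ((abs_nonneg _).trans s7) hL0.le
    nlinarith

end Pool.Agent.BAC
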