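import Pool.Agent.Lib.BAC.PT

namespace Pool.Agent.BAC

open Set Filter Topology Metric Complex
open scoped ComplexConjugate Real

namespace Base

theorem minF (hANG : St_ANG) {α β : ℝ} (h0 : 0 < α) (hαβ : α < β) (h1 : β < 1) :
    MinF {z : ℂ | 0 < z.im} (DR ((Icc α β).indicator 1)) (ang α β) := by
  obtain ⟨a1, a2, a3, -, -, -⟩ := hANG α β hαβ
  have hmv : ∀ z : ℂ, 0 < z.im → MV (ang α β) z := fun z hz => a2 id z analyticAt_id hz
  refine ⟨fun z hz => (hmv z hz).1.continuousWithinAt, fun z hz => (hmv z hz).subAt,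
    fun z hz => (a1 z (le_of_lt hz)).1, fun ζ hζ η hη => ?_, fun η hη => ?_⟩
  · rw [Complex.frontier_setOfPred_lt_im] at hζ
    have hζ' : ζ.im = 0 := hζ
    rw [DR, if_pos hζ']
    by_cases hm : ζ.re ∈ Icc α β
    · rw [indicator_of_mem hm, Pi.one_apply]
      filter_upwards [self_mem_nhdsWithin] with z hz
      have := (a1 z (le_of_lt hz)).2
      linarith
    · rw [indicator_of_notMem hm]
      obtain ⟨D, hD, hDb⟩ : ∃ D > 0, ∀ t ∈ Icc α β, 2 * D ≤ |ζ.re - t| := by
        rw [mem_Icc, not_and_or, not_le, not_le] at hm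
        rcases hm with hm | hm
        · refine ⟨(α - ζ.re) / 2, by linarith, fun t ht => ?_⟩
          have := neg_le_abs (ζ.re - t)
          linarith [ht.1]
        · refine ⟨(ζ.re - β) / 2, by linarith, fun t ht => ?_⟩
          have := le_abs_self (ζ.re - t)
          linarith [ht.2]
      have hc : ContinuousAt (fun z : ℂ => (β - α) * z.im / (π * D ^ 2)) ζ := by fun_prop
      have hc' : ∀ᶠ z in 𝓝 ζ, (β - α) * z.im / (π * D ^ 2) < η :=
        hc.eventually_lt continuousAt_const (by simpa [hζ'] using hη)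
      have hb : ∀ᶠ z in 𝓝 ζ, z ∈ ball ζ D := ball_mem_nhds ζ hD
      filter_upwards [self_mem_nhdsWithin, nhdsWithin_le_nhds hc', nhdsWithin_le_nhds hb]
        with z hz h2 h3
      have h4 : ∀ t ∈ Icc α β, D ≤ ‖z - t‖ := fun t ht => by
        have e1 := abs_re_le_norm (z - t)
        have e2 := abs_re_le_norm (z - ζ)
        rw [mem_ball, dist_eq_norm] at h3
        simp only [sub_re, ofReal_re] at e1 e2
        have e3 := hDb t ht
        have e4 := abs_sub_le ζ.re z.re t
        rw [abs_sub_comm ζ.re z.re] at e4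
        linarith
      have := (a3 z D (le_of_lt hz) hD h4).1
      linarith
  · have hb : ∀ᶠ z : ℂ in cocompact ℂ, z ∈ (closedBall (0 : ℂ) (1 + 1 / η))ᶜ :=
      (isCompact_closedBall _ _).compl_mem_cocompact
    filter_upwards [hb] with z hz hz0
    rw [mem_compl_iff, mem_closedBall, dist_zero_right, not_le] at hz
    have h4 : ∀ t ∈ Icc α β, 1 / η ≤ ‖z - t‖ := fun t ht => by
      have e1 := norm_sub_norm_le z (t : ℂ)
      rw [norm_real, Real.norm_of_nonneg (by linarith [ht.1])] at e1
      linarith [ht.2]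
    have h5 := (a3 z (1 / η) (le_of_lt hz0) (by positivity) h4).2
    have h6 : (β - α) / (π * (1 / η)) ≤ η := by
      rw [div_le_iff₀ (by positivity)]
      have : η * (π * (1 / η)) = π := by field_simp
      rw [this]
      linarith [Real.pi_gt_three]
    linarith

end Base

theorem st_BASE (hANG : St_ANG) : St_BASE := by
  refine ⟨⟨isOpen_lt continuous_const continuous_im, fun z hz => hz,
    ⟨1, fun z hz => lt_trans (by norm_num) hz⟩, fun y => y.2, continuous_snd.continuousOn,
    fun _ _ => rfl, fun _ _ z hz => ⟨hz, rfl, fun _ => rfl⟩, fun z hz s hs => ?_⟩, ?_,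
    List.pairwise_singleton _ _⟩
  · have : 0 < z.im := hz
    change 0 < (z + s * I).im
    simp only [add_im, mul_im, ofReal_re, I_im, mul_one, ofReal_im, I_re, mul_zero, add_zero]
    linarith
  · intro p hp
    rw [List.mem_singleton] at hp
    subst hp
    refine ⟨le_rfl, one_pos, le_rfl, by norm_num, one_pos, fun z hz _ _ _ => hz,
      fun α β h0 hαβ h1 η hη => ⟨ang α β, Base.minF hANG h0 hαβ h1, ?_⟩⟩
    obtain ⟨-, -, -, a4, -, -⟩ := hANG α β hαβ
    have him : zb.im = 3 := by simp [zb]
    have hre : zb.re = 1 / 2 := by simp [zb]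
    have h4 : ∀ t ∈ Icc α β, ‖zb - t‖ ≤ 4 := fun t ht => by
      have e1 := norm_le_abs_re_add_abs_im (zb - t)
      simp only [sub_re, ofReal_re, sub_im, ofReal_im, sub_zero, him, hre] at e1
      have e2 : |1 / 2 - t| ≤ 1 := abs_le.2 ⟨by linarith [ht.2], by linarith [ht.1]⟩
      rw [abs_of_pos (by norm_num : (0 : ℝ) < 3)] at e1
      linarith
    have h5 := a4 zb 4 (by rw [him]; norm_num) h4
    rw [him] at h5
    have h6 : 1 / 20 * (β - α) ≤ (β - α) * 3 / (π * 4 ^ 2) := by
      rw [le_div_iff₀ (by positivity)]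
      have := Real.pi_lt_d2
      nlinarith
    change 1 / 20 * (β - α) - η ≤ _
    linarith

end Pool.Agent.BAC
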