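import Pool.Agent.Lib.BAC.PT

/-! Row BIG: the comparison function is at least `1` on the discs. -/

namespace Pool.Agent.BAC

open Set Filter Topology Metric Complex
open scoped ComplexConjugate Real

namespace Big

theorem sum_nn (hANG : St_ANG) {m : ℕ} {U : Uni m} {φ : ℂ → ℂ} {α β : Fin (m + 1) → ℝ}
    (hφ : IsMain U φ) (hαβ : ∀ j, α j < U.A j ∧ U.B j < β j) (j : Fin (m + 1)) {z : ℂ}
    (hz : 0 ≤ z.im) : 0 ≤ ang (α j) (β j) (φ z) :=
  ((hANG _ _ ((hαβ j).1.trans ((U.hAB j).trans (hαβ j).2))).1 _ (hφ.inv z hz).1).1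

theorem real_pt (hANG : St_ANG) (hREAL : St_REAL) {m : ℕ} {U : Uni m} {φ : ℂ → ℂ}
    {α β : Fin (m + 1) → ℝ} (hφ : IsMain U φ) (hαβ : ∀ j, α j < U.A j ∧ U.B j < β j)
    (j : Fin (m + 1)) {y : ℝ} (hy : y ∈ Icc (U.e j) (U.f j)) {η : ℝ} (hη : 0 < η) :
    ∀ᶠ z in 𝓝[{z : ℂ | 0 ≤ z.im}] (y : ℂ), 1 - η ≤ ∑ k, ang (α k) (β k) (φ z) := by
  obtain ⟨x, hx, rfl⟩ := (hREAL m U).2.2.2.2.2.1 j y hy
  have hlt : α j < β j := (hαβ j).1.trans ((U.hAB j).trans (hαβ j).2)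
  have h1 : Tendsto φ (𝓝[{z : ℂ | 0 ≤ z.im}] (U.FR x : ℂ)) (𝓝[{z : ℂ | 0 ≤ z.im}] (x : ℂ)) := by
    have h := (hφ.cont (U.FR x : ℂ) (by simp)).tendsto_nhdsWithin
      (t := {z : ℂ | 0 ≤ z.im}) fun z hz => (hφ.inv z hz).1
    rwa [hφ.top j x hx] at h
  have h2 := ((hANG _ _ hlt).2.2.2.2.1 x
    ⟨(hαβ j).1.trans_le hx.1, hx.2.trans_lt (hαβ j).2⟩).comp h1
  filter_upwards [h2.eventually (lt_mem_nhds (show 1 - η < 1 by linarith)), self_mem_nhdsWithin]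
    with z hz hz0
  exact hz.le.trans (Finset.single_le_sum (f := fun k => ang (α k) (β k) (φ z))
    (fun k _ => sum_nn hANG hφ hαβ k hz0) (Finset.mem_univ j))

theorem off_pt (hANG : St_ANG) {e f y : ℝ} (hef : e < f) (hy : y ∉ Icc e f) {η : ℝ}
    (hη : 0 < η) : ∀ᶠ z in 𝓝 (y : ℂ), 0 ≤ z.im → ang e f z ≤ η := by
  obtain ⟨D, hD, hD'⟩ : ∃ D : ℝ, 0 < D ∧ ∀ t ∈ Icc e f, 2 * D ≤ |y - t| := by
    rcases not_and_or.1 hy with h | h
    · refine ⟨(e - y) / 2, by linarith [not_le.1 h], fun t ht => ?_⟩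
      rw [abs_sub_comm]
      exact le_trans (by linarith [ht.1]) (le_abs_self _)
    · exact ⟨(y - f) / 2, by linarith [not_le.1 h], fun t ht =>
        le_trans (by linarith [ht.2]) (le_abs_self _)⟩
  have hc : ContinuousAt (fun z : ℂ => (f - e) * z.im / (π * D ^ 2)) y := by fun_prop
  have h1 : ∀ᶠ z in 𝓝 (y : ℂ), (f - e) * z.im / (π * D ^ 2) < η :=
    hc.eventually (gt_mem_nhds (by simpa using hη))
  filter_upwards [h1, ball_mem_nhds (y : ℂ) hD] with z hz hzb hz0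
  refine ((hANG e f hef).2.2.1 z D hz0 hD fun t ht => ?_).1.trans hz.le
  have h2 : ‖(y : ℂ) - t‖ ≤ ‖(y : ℂ) - z‖ + ‖z - t‖ := norm_sub_le_norm_sub_add_norm_sub _ _ _
  have h3 : ‖(y : ℂ) - t‖ = |y - t| := by rw [← ofReal_sub, norm_real, Real.norm_eq_abs]
  have h4 : ‖(y : ℂ) - z‖ < D := by rw [← dist_eq_norm, dist_comm]; exact hzb
  linarith [hD' t ht]

theorem inf_pt (hANG : St_ANG) {e f : ℝ} (hef : e < f) {η : ℝ} (hη : 0 < η) :
    ∀ᶠ z in cocompact ℂ, 0 ≤ z.im → ang e f z ≤ η := by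
  have hD : 0 < (f - e) / (π * η) := by
    have := Real.pi_pos
    have : 0 < f - e := by linarith
    positivity
  have h1 : ∀ᶠ z in cocompact ℂ, (f - e) / (π * η) + (|e| + |f|) ≤ ‖z‖ :=
    (tendsto_norm_cocompact_atTop (E := ℂ)).eventually (eventually_ge_atTop _)
  filter_upwards [h1] with z hz hz0
  refine ((hANG e f hef).2.2.1 z _ hz0 hD fun t ht => ?_).2.trans (le_of_eq ?_)
  · have h2 : ‖z‖ - ‖(t : ℂ)‖ ≤ ‖z - t‖ := norm_sub_norm_le _ _
    have h3 : ‖(t : ℂ)‖ = |t| := by rw [norm_real, Real.norm_eq_abs]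
    have h4 : |t| ≤ |e| + |f| := abs_le.2
      ⟨by linarith [neg_abs_le e, abs_nonneg f, ht.1], by linarith [le_abs_self f, abs_nonneg e, ht.2]⟩
    linarith
  · have := Real.pi_pos
    have : 0 < f - e := by linarith
    field_simp

theorem compare (hANG : St_ANG) (hREAL : St_REAL) {m : ℕ} {U : Uni m} {φ : ℂ → ℂ}
    {α β : Fin (m + 1) → ℝ} (hφ : IsMain U φ) (hαβ : ∀ j, α j < U.A j ∧ U.B j < β j)
    (hMV : ∀ z : ℂ, 0 < z.im → MV (fun y => 2 * ∑ j, ang (α j) (β j) (φ y)) z)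
    (j : Fin (m + 1)) : ∀ z ∈ {z : ℂ | 0 < z.im},
      2 * ang (U.e j) (U.f j) z - 2 * ∑ k, ang (α k) (β k) (φ z) ≤ 0 := by
  have hef : U.e j < U.f j := (hREAL m U).2.2.2.2.2.2.1 j
  have hnn : ∀ z : ℂ, 0 ≤ z.im → 0 ≤ ∑ k, ang (α k) (β k) (φ z) := fun z hz =>
    Finset.sum_nonneg fun k _ => sum_nn hANG hφ hαβ k hz
  refine maxp (isOpen_lt continuous_const continuous_im) (fun z hz => ?_)
    (fun ζ hζ η hη => ?_) fun η hη => ?_
  · exact ((((hANG _ _ hef).2.1 id z analyticAt_id hz).const_mul 2).sub (hMV z hz)).subAt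
  · rw [frontier_setOfPred_lt_im] at hζ
    have hζ' : ζ = (ζ.re : ℂ) := Complex.ext (by simp) (by simpa using hζ)
    rw [hζ']
    by_cases hy : ζ.re ∈ Icc (U.e j) (U.f j)
    · have h := (real_pt hANG hREAL hφ hαβ j hy (half_pos hη)).filter_mono
        (nhdsWithin_mono (s := {z : ℂ | 0 < z.im}) _ fun z (hz : 0 < z.im) => hz.le)
      filter_upwards [h, self_mem_nhdsWithin] with z hz (hz0 : 0 < z.im)
      linarith [((hANG _ _ hef).1 z hz0.le).2]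
    · filter_upwards [nhdsWithin_le_nhds (off_pt hANG hef hy (half_pos hη)), self_mem_nhdsWithin]
        with z hz (hz0 : 0 < z.im)
      linarith [hz hz0.le, hnn z hz0.le]
  · filter_upwards [inf_pt hANG hef (half_pos hη)] with z hz (hz0 : 0 < z.im)
    linarith [hz hz0.le, hnn z hz0.le]

end Big

theorem st_BIG (hANG : St_ANG) (hREAL : St_REAL) : St_BIG := by
  intro m U φ ε c α β hφ hε hc hαβ hMV j ζ hζ hζ0 η hη
  rw [mem_closedBall, dist_eq_norm] at hζ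
  rcases hζ0.eq_or_lt with h0 | h0
  · have hζ' : ζ = (ζ.re : ℂ) := Complex.ext (by simp) (by simpa using h0.symm)
    have h1 : |ζ.re - c j| ≤ ε := by simpa using (abs_re_le_norm (ζ - c j)).trans hζ
    have hy : ζ.re ∈ Icc (U.e j) (U.f j) := by
      rw [(hc j).1, (hc j).2]
      exact ⟨by linarith [(abs_le.1 h1).1], by linarith [(abs_le.1 h1).2]⟩
    rw [hζ']
    filter_upwards [Big.real_pt hANG hREAL hφ hαβ j hy hη, self_mem_nhdsWithin] with z hz hz0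
    have : 0 ≤ ∑ k, ang (α k) (β k) (φ z) :=
      Finset.sum_nonneg fun k _ => Big.sum_nn hANG hφ hαβ k hz0
    linarith
  · have hef : U.e j < U.f j := (hREAL m U).2.2.2.2.2.2.1 j
    have h1 := Big.compare hANG hREAL hφ hαβ hMV j ζ h0
    have h2 := (hANG _ _ hef).2.2.2.2.2 ζ h0 (by
      rw [(hc j).1, (hc j).2, show (c j - ε + (c j + ε)) / 2 = c j by ring]
      linarith)
    have h3 : 1 - η < 2 * ∑ k, ang (α k) (β k) (φ ζ) := by linarith
    exact nhdsWithin_le_nhds (((hMV ζ h0).1.eventually (lt_mem_nhds h3)).mono fun z hz => hz.le)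

end Pool.Agent.BAC
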