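import Pool.Agent.Lib.BAC.Blue

namespace Pool.Agent.BAC

open Set Filter Topology Metric Complex MeasureTheory
open scoped ComplexConjugate Real

namespace Cau

variable {m : ℕ} (U : Uni m)

/-- the inverse square root of the derivative -/
noncomputable def g (w : ℂ) : ℂ := U.dF w ^ (((-(1 / 2) : ℝ)) : ℂ)

theorem re_nonneg (w : ℂ) : 0 ≤ (g U w).re := by
  rw [g, cpow_ofReal_re]
  refine mul_nonneg (Real.rpow_nonneg (norm_nonneg _) _) (Real.cos_nonneg_of_mem_Icc ⟨?_, ?_⟩)
  · have := arg_le_pi (U.dF w)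
    linarith
  · have := neg_pi_lt_arg (U.dF w)
    linarith

theorem diff_dF {w : ℂ} (h : ∀ i, w ≠ U.p i) : DifferentiableAt ℂ U.dF w := by
  have h1 : ∀ i, (w - U.p i) ^ 2 ≠ 0 := fun i => pow_ne_zero _ (sub_ne_zero.2 (h i))
  change DifferentiableAt ℂ (fun w : ℂ => (U.c : ℂ) - 3 * w ^ 2 - ∑ i, (U.r i : ℂ) / (w - U.p i) ^ 2) w
  refine DifferentiableAt.sub (by fun_prop) (DifferentiableAt.fun_sum fun i _ => ?_)
  exact DifferentiableAt.div (by fun_prop) (by fun_prop) (h1 i)

theorem diff_g {w : ℂ} (h : ∀ i, w ≠ U.p i) (hs : U.dF w ∈ slitPlane) :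
    DifferentiableAt ℂ (g U) w := (diff_dF U h).cpow_const hs

theorem ne_p {w : ℂ} (h : 0 < w.im) (i : Fin m) : w ≠ U.p i := by
  rintro rfl
  simp at h

theorem dF_real (x : ℝ) : U.dF x = (U.dFR x : ℝ) := by
  simp only [Uni.dF, Uni.dFR, dpsi, dpsiR]
  push_cast
  rfl

theorem norm_g {R : ℝ} (h1 : ∀ i, 1 + |U.p i| ≤ R) (h2 : 1 + |U.c| + ∑ i, U.r i ≤ R) {w : ℂ}
    (hw : R ≤ ‖w‖) : ‖g U w‖ ≤ 1 / R := by
  have hr : 0 ≤ ∑ i, U.r i := Finset.sum_nonneg fun i _ => (U.hr i).le
  have hc := abs_nonneg U.c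
  have hR : 1 ≤ R := by linarith
  have h3 : ‖∑ i, (U.r i : ℂ) / (w - U.p i) ^ 2‖ ≤ ∑ i, U.r i := by
    refine (norm_sum_le _ _).trans (Finset.sum_le_sum fun i _ => ?_)
    have h4 : 1 ≤ ‖w - U.p i‖ := by
      have := norm_sub_norm_le w (U.p i)
      rw [norm_real, Real.norm_eq_abs] at this
      linarith [h1 i]
    rw [norm_div, norm_pow, norm_real, Real.norm_of_nonneg (U.hr i).le]
    exact div_le_self (U.hr i).le (one_le_pow₀ h4)
  have h5 : R ^ 2 ≤ ‖U.dF w‖ := by
    have e : (3 : ℂ) * w ^ 2 = (U.c - ∑ i, (U.r i : ℂ) / (w - U.p i) ^ 2) - U.dF w := by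
      simp only [Uni.dF, dpsi]; ring
    have h6 := congrArg norm e
    rw [norm_mul, norm_pow] at h6
    have h7 := norm_sub_le ((U.c : ℂ) - ∑ i, (U.r i : ℂ) / (w - U.p i) ^ 2) (U.dF w)
    have h8 := norm_sub_le (U.c : ℂ) (∑ i, (U.r i : ℂ) / (w - U.p i) ^ 2)
    rw [norm_real, Real.norm_eq_abs] at h8
    have h9 : ‖(3 : ℂ)‖ = 3 := by simp
    rw [h9] at h6
    nlinarith
  rw [g, norm_cpow_real]
  refine (Real.rpow_le_rpow_of_nonpos (by positivity) h5 (by norm_num)).trans (le_of_eq ?_)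
  rw [← Real.rpow_natCast, ← Real.rpow_mul (by linarith), one_div R, ← Real.rpow_neg_one]
  norm_num

theorem line_le (hS : St_SLIT) {R η : ℝ} (h1 : ∀ i, 1 + |U.p i| ≤ R)
    (h2 : 1 + |U.c| + ∑ i, U.r i ≤ R) (h0 : 0 < η) (hη : η ≤ 1) :
    ∫ x in (-R)..R, (g U (x + η * I)).re ≤ 4 := by
  have hr : 0 ≤ ∑ i, U.r i := Finset.sum_nonneg fun i _ => (U.hr i).le
  have hc := abs_nonneg U.c
  have hR : 1 ≤ R := by linarith
  have hd : ∀ w : ℂ, 0 < w.im → DifferentiableAt ℂ (g U) w := fun w hw =>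
    diff_g U (ne_p U hw) (hS m U w hw)
  have h3 := integral_boundary_rect_eq_zero_of_differentiableOn (g U) ⟨-R, η⟩ ⟨R, R⟩
    fun w hw => (hd w (by
      have := (mem_reProdIm.1 hw).2
      rw [uIcc_of_le (by linarith : η ≤ R)] at this
      exact h0.trans_le this.1)).differentiableWithinAt
  dsimp only at h3
  have h4 : ‖∫ x in (-R)..R, g U (x + R * I)‖ ≤ 1 / R * |R - -R| :=
    intervalIntegral.norm_integral_le_of_norm_le_const fun x _ => norm_g U h1 h2 (by
      simpa using (le_abs_self _).trans (abs_im_le_norm ((x : ℂ) + R * I)))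
  have h5 : ‖∫ y in η..R, g U (R + y * I)‖ ≤ 1 / R * |R - η| :=
    intervalIntegral.norm_integral_le_of_norm_le_const fun y _ => norm_g U h1 h2 (by
      simpa using (le_abs_self _).trans (abs_re_le_norm ((R : ℂ) + y * I)))
  have h6 : ‖∫ y in η..R, g U (((-R : ℝ) : ℂ) + y * I)‖ ≤ 1 / R * |R - η| :=
    intervalIntegral.norm_integral_le_of_norm_le_const fun y _ => norm_g U h1 h2 (by
      simpa using (neg_le_abs _).trans (abs_re_le_norm (((-R : ℝ) : ℂ) + y * I)))
  have h7 : 1 / R * |R - -R| = 2 := by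
    rw [abs_of_nonneg (by linarith)]; field_simp; ring
  have h8 : 1 / R * |R - η| ≤ 1 := by
    rw [abs_of_nonneg (by linarith), one_div, inv_mul_le_iff₀ (by linarith)]; linarith
  have hc : Continuous fun x : ℝ => g U (x + η * I) := continuous_iff_continuousAt.2 fun x =>
    ContinuousAt.comp (f := fun x : ℝ => (x : ℂ) + η * I) (hd _ (by simpa using h0)).continuousAt
      (by fun_prop)
  have h9 := reCLM.intervalIntegral_comp_comm (hc.intervalIntegrable (μ := volume) (-R) R)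
  simp only [reCLM_apply] at h9
  rw [h9]
  refine (re_le_norm _).trans ?_
  have e : ∫ x in (-R)..R, g U (x + η * I) = (∫ x in (-R)..R, g U (x + R * I)) -
      I • (∫ y in η..R, g U (R + y * I)) + I • ∫ y in η..R, g U (((-R : ℝ) : ℂ) + y * I) := by
    linear_combination h3
  rw [e]
  refine (norm_add_le _ _).trans ((add_le_add (norm_sub_le _ _) le_rfl).trans ?_)
  rw [norm_smul, norm_smul, norm_I]
  linarith

theorem B_lt_A (hp : StrictMono U.p) {i j : Fin (m + 1)} (h : i < j) : U.B i < U.A j := by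
  obtain ⟨i', rfl⟩ := Fin.exists_castSucc_eq.2 (Fin.ne_last_of_lt h)
  obtain ⟨j', rfl⟩ := Fin.exists_succ_eq.2 (Fin.ne_zero_of_lt h)
  exact (U.hBp i').trans ((hp.monotone (Fin.castSucc_lt_succ_iff.1 h)).trans_lt (U.hpA j'))

end Cau

theorem st_CAU (hREAL : St_REAL) (hSLIT : St_SLIT) : St_CAU := by
  intro m U α β hab
  obtain ⟨hp, hpos, -, -, hne, -, -⟩ := hREAL m U
  obtain ⟨R, h1, h2, h3⟩ : ∃ R : ℝ, (∀ i, 1 + |U.p i| ≤ R) ∧ 1 + |U.c| + ∑ i, U.r i ≤ R ∧
      ∀ j, -R ≤ α j ∧ β j ≤ R := by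
    have hr : 0 ≤ ∑ i, U.r i := Finset.sum_nonneg fun i _ => (U.hr i).le
    have hc := abs_nonneg U.c
    have a1 : 0 ≤ ∑ i, |U.p i| := Finset.sum_nonneg fun i _ => abs_nonneg _
    have a2 : 0 ≤ ∑ j, (|α j| + |β j|) := Finset.sum_nonneg fun i _ => by positivity
    refine ⟨1 + |U.c| + ∑ i, U.r i + ∑ i, |U.p i| + ∑ j, (|α j| + |β j|), fun i => ?_,
      by linarith, fun j => ?_⟩
    · have := Finset.single_le_sum (f := fun i => |U.p i|) (fun i _ => abs_nonneg _)
        (Finset.mem_univ i)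
      linarith
    · have := Finset.single_le_sum (f := fun j => |α j| + |β j|) (fun i _ => by positivity)
        (Finset.mem_univ j)
      constructor <;> linarith [neg_abs_le (α j), le_abs_self (β j), abs_nonneg (α j),
        abs_nonneg (β j)]
  let G : Fin (m + 1) → ℝ → ℝ → ℝ := fun j η x =>
    (Cau.g U (((max (α j) (min x (β j)) : ℝ) : ℂ) + ((max η 0 : ℝ) : ℂ) * I)).re
  have hG : ∀ j, Continuous (G j).uncurry := fun j => by
    refine continuous_re.comp (continuous_iff_continuousAt.2 fun q => ?_)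
    have a0 : Continuous fun q : ℝ × ℝ =>
      ((max (α j) (min q.2 (β j)) : ℝ) : ℂ) + ((max q.1 0 : ℝ) : ℂ) * I := by fun_prop
    refine ContinuousAt.comp (g := Cau.g U) (x := q) ?_ a0.continuousAt
    rcases (le_max_right q.1 0).eq_or_lt with h | h
    · have a1 : U.A j < max (α j) (min q.2 (β j)) := (hab j).1.trans_le (le_max_left _ _)
      have a2 : max (α j) (min q.2 (β j)) < U.B j :=
        (max_le (hab j).2.1 (min_le_right _ _)).trans_lt (hab j).2.2
      rw [← h, ofReal_zero, zero_mul, add_zero]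
      refine (Cau.diff_g U (fun i e => (hne j _ ⟨a1.le, a2.le⟩).1 i (ofReal_injective e))
        ?_).continuousAt
      rw [Cau.dF_real]
      exact ofReal_mem_slitPlane.2 (hpos j _ a1 a2)
    · have a1 : 0 < (((max (α j) (min q.2 (β j)) : ℝ) : ℂ) + ((max q.1 0 : ℝ) : ℂ) * I).im := by
        simpa using h
      exact (Cau.diff_g U (Cau.ne_p U a1) (hSLIT m U _ a1)).continuousAt
  have hcl : ∀ j, ∀ x ∈ uIcc (α j) (β j), max (α j) (min x (β j)) = x := fun j x hx => by
    rw [uIcc_of_le (hab j).2.1] at hx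
    rw [min_eq_left hx.2, max_eq_right hx.1]
  have hc : Continuous fun η => ∑ j, ∫ x in (α j)..(β j), G j η x :=
    continuous_finsetSum _ fun j _ =>
      intervalIntegral.continuous_parametric_intervalIntegral_of_continuous' (hG j) _ _
  have h0 : ∑ j, ∫ x in (α j)..(β j), (U.dFR x) ^ (-(1 / 2 : ℝ)) =
      ∑ j, ∫ x in (α j)..(β j), G j 0 x := by
    refine Finset.sum_congr rfl fun j _ => intervalIntegral.integral_congr fun x hx => ?_
    have hx' := hx
    rw [uIcc_of_le (hab j).2.1] at hx'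
    have a1 := hpos j x ((hab j).1.trans_le hx'.1) (hx'.2.trans_lt (hab j).2.2)
    simp only [G, hcl j x hx, max_self, ofReal_zero, zero_mul, add_zero, Cau.g, Cau.dF_real]
    rw [← ofReal_cpow a1.le, ofReal_re]
  rw [h0]
  refine le_trans (b := 4) ?_ (by norm_num)
  refine le_of_tendsto ((hc.tendsto 0).mono_left (nhdsWithin_le_nhds (s := Ioi 0))) ?_
  filter_upwards [Ioo_mem_nhdsGT (zero_lt_one' ℝ)] with η hη
  refine le_trans ?_ (Cau.line_le U hSLIT h1 h2 hη.1 hη.2.le)
  have hcg : Continuous fun x : ℝ => (Cau.g U (x + η * I)).re :=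
    continuous_re.comp (continuous_iff_continuousAt.2 fun x => by
      have a1 : 0 < ((x : ℂ) + η * I).im := by simpa using hη.1
      exact ContinuousAt.comp (f := fun x : ℝ => (x : ℂ) + η * I)
        (Cau.diff_g U (Cau.ne_p U a1) (hSLIT m U _ a1)).continuousAt (by fun_prop))
  have e : ∀ j, ∫ x in (α j)..(β j), G j η x = ∫ x in Ioc (α j) (β j), (Cau.g U (x + η * I)).re :=
    fun j => by
      rw [← intervalIntegral.integral_of_le (hab j).2.1]
      refine intervalIntegral.integral_congr fun x hx => ?_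
      simp only [G, hcl j x hx, max_eq_left hη.1.le]
  have hRR : -R ≤ R := (h3 0).1.trans ((hab 0).2.1.trans (h3 0).2)
  simp only [e]
  rw [← integral_iUnion_fintype (fun _ => measurableSet_Ioc) ?_
    (fun j => hcg.integrableOn_Ioc), intervalIntegral.integral_of_le hRR]
  · refine setIntegral_mono_set hcg.integrableOn_Ioc (Eventually.of_forall fun x => Cau.re_nonneg U _)
      (LE.le.eventuallyLE (iUnion_subset fun j => Ioc_subset_Ioc (h3 j).1 (h3 j).2))
  · have key : ∀ i j, i < j → Disjoint (Ioc (α i) (β i)) (Ioc (α j) (β j)) := fun i j h =>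
      Ioc_disjoint_Ioc_of_le ((hab i).2.2.trans ((Cau.B_lt_A U hp h).trans (hab j).1)).le
    intro i j hij
    rcases lt_or_gt_of_ne hij with h | h
    · exact key i j h
    · exact (key j i h).symm

end Pool.Agent.BAC
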