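import Pool.Agent.Lib.BAC.Blue

namespace Pool.Agent.BAC

open Set Filter Topology

namespace Closed

theorem lim (𝒰 : Ultrafilter ℕ) {g : ℕ → ℝ} {R : ℝ} (h : ∀ k, |g k| ≤ R) :
    ∃ x, Tendsto g 𝒰 (𝓝 x) := by
  obtain ⟨x, -, hx⟩ := (isCompact_Icc (a := -R) (b := R)).ultrafilter_le_nhds (𝒰.map g)
    (le_principal_iff.2 (mem_map.2 (Eventually.of_forall fun k => abs_le.1 (h k))))
  exact ⟨x, hx⟩

theorem ne_pole {m : ℕ} {p : Fin m → ℝ} {A B : Fin (m + 1) → ℝ} (hAB : ∀ j, A j < B j)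
    (hBp : ∀ i : Fin m, B i.castSucc < p i) (hpA : ∀ i : Fin m, p i < A i.succ) (j : Fin (m + 1))
    (i : Fin m) : A j - p i ≠ 0 ∧ B j - p i ≠ 0 := by
  have hA : Monotone A := Fin.monotone_iff_le_succ.2 fun i => by
    linarith [hAB i.castSucc, hBp i, hpA i]
  have hB : Monotone B := Fin.monotone_iff_le_succ.2 fun i => by
    linarith [hAB i.succ, hBp i, hpA i]
  rcases le_or_gt j i.castSucc with h | h
  · have := hB h
    constructor <;> apply ne_of_lt <;> linarith [hAB j, hBp i]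
  · have := hA (Fin.castSucc_lt_iff_succ_le.1 h)
    constructor <;> apply ne_of_gt <;> linarith [hAB j, hpA i]

theorem small {m : ℕ} {e f : Fin (m + 1) → ℝ} (h : Ord e f) : ∃ η : ℝ, 0 < η ∧
    (∀ j, 3 * η < f j - e j ∧ η * (|e j| + η) < 1 ∧ η * (|f j| + η) < 1) ∧
    ∀ i : Fin m, 3 * η < e i.succ - f i.castSucc := by
  have a1 : ∀ t : ℝ, 0 < t → ∀ᶠ η in 𝓝 (0 : ℝ), 3 * η < t := fun t ht =>
    ContinuousAt.eventually_lt (by fun_prop) continuousAt_const (by simpa using ht)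
  have a2 : ∀ t : ℝ, ∀ᶠ η in 𝓝 (0 : ℝ), η * (t + η) < 1 := fun t =>
    ContinuousAt.eventually_lt (by fun_prop) continuousAt_const (by simp)
  have a3 : ∀ᶠ η in 𝓝 (0 : ℝ),
      (∀ j, 3 * η < f j - e j ∧ η * (|e j| + η) < 1 ∧ η * (|f j| + η) < 1) ∧
      ∀ i : Fin m, 3 * η < e i.succ - f i.castSucc :=
    (eventually_all.2 fun j => (a1 _ (sub_pos.2 (h.1 j))).and ((a2 _).and (a2 _))).and
      (eventually_all.2 fun i => a1 _ (sub_pos.2 (h.2 i)))
  exact ((eventually_mem_nhdsWithin (s := Ioi (0 : ℝ))).and (nhdsWithin_le_nhds a3)).exists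

theorem near {η x y : ℝ} (h0 : 0 < η) (h1 : η * (|y| + η) < 1) (h2 : |x - y| < η) :
    |x| ≤ 1 / η := by
  rw [le_div_iff₀ h0]
  have := abs_sub_abs_le_abs_sub x y
  nlinarith

end Closed

open Closed in
theorem st_CLOSED (hAPR : St_APR) : St_CLOSED := by
  intro m e f hO hU
  obtain ⟨η, h0, h1, h2⟩ := small hO
  obtain ⟨ρ, hρ, hb⟩ := hAPR m η h0
  choose U hU using fun k : ℕ => hU (min η (1 / ((k : ℝ) + 1))) (lt_min h0 (by positivity))
  have hb' := fun k => hb (U k)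
    (fun j => by
      have a1 := (hU k j).1.trans_le (min_le_left _ _)
      have a2 := (hU k j).2.trans_le (min_le_left _ _)
      refine ⟨?_, near h0 (h1 j).2.1 a1, near h0 (h1 j).2.2 a2⟩
      linarith [(h1 j).1, (abs_lt.1 a1).2, (abs_lt.1 a2).1])
    (fun i => by
      have a1 := (hU k i.succ).1.trans_le (min_le_left _ _)
      have a2 := (hU k i.castSucc).2.trans_le (min_le_left _ _)
      linarith [h2 i, (abs_lt.1 a1).1, (abs_lt.1 a2).2])
  obtain ⟨𝒰, h𝒰⟩ := Ultrafilter.exists_le (atTop : Filter ℕ)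
  obtain ⟨c, hc⟩ := lim 𝒰 fun k => (hb' k).1
  obtain ⟨d, hd⟩ := lim 𝒰 fun k => (hb' k).2.1
  choose A hA using fun j => lim 𝒰 fun k => ((hb' k).2.2.1 j).1
  choose B hB using fun j => lim 𝒰 fun k => ((hb' k).2.2.1 j).2.1
  choose r hr using fun i => lim 𝒰 (g := fun k => (U k).r i) (R := 1 / ρ) fun k => by
    rw [abs_of_pos ((U k).hr i)]; exact ((hb' k).2.2.2 i).2.1
  choose p hp using fun i => lim 𝒰 (g := fun k => (U k).p i) (R := 1 / ρ) fun k => abs_le.2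
    ⟨by linarith [(abs_le.1 ((hb' k).2.2.1 i.castSucc).2.1).1, (U k).hBp i],
      by linarith [(abs_le.1 ((hb' k).2.2.1 i.succ).1).2, (U k).hpA i]⟩
  have r0 : ∀ i, 0 < r i := fun i =>
    hρ.trans_le (ge_of_tendsto' (hr i) fun k => ((hb' k).2.2.2 i).1)
  have hAB : ∀ j, A j < B j := fun j => sub_pos.1
    (hρ.trans_le (ge_of_tendsto' ((hB j).sub (hA j)) fun k => ((hb' k).2.2.1 j).2.2))
  have hBp : ∀ i : Fin m, B i.castSucc < p i := fun i => sub_pos.1
    (hρ.trans_le (ge_of_tendsto' ((hp i).sub (hB _)) fun k => ((hb' k).2.2.2 i).2.2.1))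
  have hpA : ∀ i : Fin m, p i < A i.succ := fun i => sub_pos.1
    (hρ.trans_le (ge_of_tendsto' ((hA _).sub (hp i)) fun k => ((hb' k).2.2.2 i).2.2.2))
  have hne := ne_pole hAB hBp hpA
  have t1 : ∀ {x : ℕ → ℝ} {y : ℝ}, Tendsto x 𝒰 (𝓝 y) → (∀ i, y - p i ≠ 0) →
      (∀ k, dpsiR (U k).c (U k).r (U k).p (x k) = 0) → dpsiR c r p y = 0 := fun hx hy h =>
    tendsto_nhds_unique ((hc.sub ((hx.pow 2).const_mul 3)).sub (tendsto_finsetSum _ fun i _ =>
      (hr i).div ((hx.sub (hp i)).pow 2) (pow_ne_zero 2 (hy i))))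
      (tendsto_const_nhds.congr fun k => (h k).symm)
  have t2 : ∀ {x : ℕ → ℝ} {y z : ℝ}, Tendsto x 𝒰 (𝓝 y) → (∀ i, y - p i ≠ 0) →
      (∀ k, |(U k).FR (x k) - z| < min η (1 / ((k : ℝ) + 1))) → psiR c d r p y = z :=
    fun {x y z} hx hy h => by
      refine tendsto_nhds_unique (((((hx.pow 3).neg.add (hc.mul hx)).add hd)).add
        (tendsto_finsetSum _ fun i _ => (hr i).div (hx.sub (hp i)) (hy i))) ?_
      refine tendsto_iff_norm_sub_tendsto_zero.2 (squeeze_zero (fun k => norm_nonneg _)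
        (fun k => ((h k).trans_le (min_le_right _ _)).le) ?_)
      exact tendsto_one_div_add_atTop_nhds_zero_nat.mono_left h𝒰
  exact ⟨⟨c, d, r, p, A, B, r0, hAB, hBp, hpA,
    fun j => t1 (hA j) (fun i => (hne j i).1) fun k => (U k).hA j,
    fun j => t1 (hB j) (fun i => (hne j i).2) fun k => (U k).hB j⟩,
    funext fun j => t2 (hA j) (fun i => (hne j i).1) fun k => (hU k j).1,
    funext fun j => t2 (hB j) (fun i => (hne j i).2) fun k => (hU k j).2⟩

end Pool.Agent.BAC
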