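import Pool.Agent.Lib.BAC.PT

/-! The scaled local model is a minorant on the enlarged domain. -/

namespace Pool.Agent.BAC

open Set Filter Topology Metric Complex

namespace EMB

/-- upper half plane together with the cavity -/
def WW (x δ σ : ℝ) : Set ℂ := {z | 0 < z.im} ∪ Cav x δ σ

theorem isOpen_WW (x δ σ : ℝ) : IsOpen (WW x δ σ) := by
  have e : WW x δ σ = {z : ℂ | 0 < z.im} ∪
      ({z : ℂ | ‖z - x‖ < 2 * δ / σ} ∩ {z : ℂ | |z.re - x| < δ - z.im / σ}) := by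
    ext z
    simp only [WW, Cav, mem_union, mem_ofPred_eq, mem_inter_iff]
    constructor
    · rintro (h | h)
      · exact Or.inl h
      · exact Or.inr h.2
    · rintro (h | h)
      · exact Or.inl h
      · rcases lt_or_ge 0 z.im with h0 | h0
        · exact Or.inl h0
        · exact Or.inr ⟨h0, h⟩
  rw [e]
  refine (isOpen_lt continuous_const continuous_im).union (IsOpen.inter ?_ ?_)
  · exact isOpen_lt (by fun_prop) continuous_const
  · exact isOpen_lt (by fun_prop) (by fun_prop)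

theorem isOpen_Slit : IsOpen Slit := by
  have e : Slit = {z : ℂ | z.im ≠ 0} ∪ {z : ℂ | |z.re| < 1} := rfl
  rw [e]
  exact (isOpen_ne_fun continuous_im continuous_const).union
    (isOpen_lt (by fun_prop) continuous_const)

theorem sc_re (z : ℂ) (x δ : ℝ) : ((z - x) / δ).re = (z.re - x) / δ := by
  rw [div_ofReal_re, sub_re, ofReal_re]

theorem sc_im (z : ℂ) (x δ : ℝ) : ((z - x) / δ).im = z.im / δ := by
  rw [div_ofReal_im, sub_im, ofReal_im, sub_zero]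

theorem sc_norm (z : ℂ) (x : ℝ) {δ : ℝ} (hδ : 0 < δ) : ‖(z - x) / δ‖ = ‖z - x‖ / δ := by
  rw [norm_div, Complex.norm_real, Real.norm_eq_abs, abs_of_pos hδ]

theorem mem_Slit {x δ σ : ℝ} (hδ : 0 < δ) {z : ℂ} (hz : z ∈ WW x δ σ) :
    (z - x) / δ ∈ Slit := by
  by_cases h0 : z.im = 0
  · right
    rcases hz with hz | hz
    · exact absurd h0 (ne_of_gt hz)
    · have h1 := hz.2.2
      rw [h0, zero_div, sub_zero] at h1
      rw [sc_re, abs_div, abs_of_pos hδ, div_lt_one hδ]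
      exact h1
  · left
    rw [sc_im]
    exact div_ne_zero h0 hδ.ne'

/-- the closed set carrying the lower support -/
def KK (x δ σ : ℝ) : Set ℂ :=
  {z | z.im ≤ 0 ∧ ‖z - x‖ ≤ δ / σ ∧ |z.re - x| ≤ δ * (1 - σ ^ 2 / 2) - z.im / σ}

theorem isClosed_KK (x δ σ : ℝ) : IsClosed (KK x δ σ) := by
  have e : KK x δ σ = {z : ℂ | z.im ≤ 0} ∩ ({z : ℂ | ‖z - x‖ ≤ δ / σ} ∩
      {z : ℂ | |z.re - x| ≤ δ * (1 - σ ^ 2 / 2) - z.im / σ}) := rfl
  rw [e]
  refine (isClosed_le continuous_im continuous_const).inter (IsClosed.inter ?_ ?_)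
  · exact isClosed_le (by fun_prop) continuous_const
  · exact isClosed_le (by fun_prop) (by fun_prop)

theorem KK_sub {x δ σ : ℝ} (hδ : 0 < δ) (hσ : 0 < σ) : KK x δ σ ⊆ Cav x δ σ := by
  rintro z ⟨h1, h2, h3⟩
  refine ⟨h1, h2.trans_lt ?_, h3.trans_lt ?_⟩
  · exact div_lt_div_of_pos_right (by linarith) hσ
  · have : 0 < δ * (σ ^ 2 / 2) := by positivity
    nlinarith

theorem zero_low {x δ σ κ s t : ℝ} {h : ℂ → ℝ} (hδ : 0 < δ) (hσ : 0 < σ)
    (hl : IsLoc σ κ s t h) {z : ℂ} (hz : z ∈ WW x δ σ) (h0 : z.im ≤ 0) (hK : z ∉ KK x δ σ) :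
    h ((z - x) / δ) = 0 := by
  by_contra hne
  have h1 : ((z - x) / δ).im ≤ 0 := by
    rw [sc_im]; exact div_nonpos_of_nonpos_of_nonneg h0 hδ.le
  obtain ⟨h2, h3⟩ := hl.supp _ (mem_Slit hδ hz) h1 hne
  rw [sc_norm _ _ hδ, div_le_iff₀ hδ] at h2
  rw [sc_re, sc_im, abs_div, abs_of_pos hδ, div_le_iff₀ hδ] at h3
  refine hK ⟨h0, h2.trans (le_of_eq (by ring)), h3.trans (le_of_eq ?_)⟩
  field_simp

open Classical in
/-- the scaled local model, extended by zero -/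
noncomputable def HH (x δ σ : ℝ) (h : ℂ → ℝ) (z : ℂ) : ℝ :=
  if z ∈ WW x δ σ then h ((z - x) / δ) else 0

theorem HH_in {x δ σ : ℝ} {h : ℂ → ℝ} {z : ℂ} (hz : z ∈ WW x δ σ) :
    HH x δ σ h z = h ((z - x) / δ) := if_pos hz

theorem HH_out {x δ σ : ℝ} {h : ℂ → ℝ} {z : ℂ} (hz : z ∉ WW x δ σ) :
    HH x δ σ h z = 0 := if_neg hz

theorem HH_zero {x δ σ : ℝ} {h : ℂ → ℝ} {z : ℂ}
    (hz : z ∈ WW x δ σ → h ((z - x) / δ) = 0) : HH x δ σ h z = 0 := by
  by_cases hw : z ∈ WW x δ σ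
  · rw [HH_in hw, hz hw]
  · exact HH_out hw

theorem real_mem {x δ σ : ℝ} (hδ : 0 < δ) (hσ : 0 < σ) (hσ1 : σ < 1) {z : ℂ} (h0 : z.im = 0)
    (hz : |z.re - x| < δ) : z ∈ WW x δ σ := by
  refine Or.inr ⟨h0.le, ?_, by rw [h0, zero_div, sub_zero]; exact hz⟩
  have e : z - x = ((z.re - x : ℝ) : ℂ) := by
    apply Complex.ext <;> simp [h0]
  rw [e, Complex.norm_real, Real.norm_eq_abs, lt_div_iff₀ hσ]
  nlinarith [abs_nonneg (z.re - x)]

theorem ev_zero {x δ σ κ s t : ℝ} {h : ℂ → ℝ} (hδ : 0 < δ) (hσ : 0 < σ) (hσ1 : σ < 1)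
    (hl : IsLoc σ κ s t h) {ζ : ℂ} (hζ : ζ ∉ WW x δ σ)
    (hI : ζ.im = 0 → ζ.re ∉ Icc (x + δ * Jr s) (x + δ * Jr t)) :
    ∀ᶠ z in 𝓝 ζ, HH x δ σ h z = 0 := by
  have hK : ζ ∉ KK x δ σ := fun hk => hζ (Or.inr (KK_sub hδ hσ hk))
  have hKe : ∀ᶠ z in 𝓝 ζ, z ∉ KK x δ σ := (isClosed_KK x δ σ).isOpen_compl.mem_nhds hK
  have h0 : ζ.im ≤ 0 := not_lt.1 fun hp => hζ (Or.inl hp)
  have hup : ∀ᶠ z in 𝓝 ζ, 0 < z.im → h ((z - x) / δ) = 0 := by
    rcases h0.eq_or_lt with h0 | h0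
    · have h1 : δ ≤ |ζ.re - x| := not_lt.1 fun hp => hζ (real_mem hδ hσ hσ1 h0 hp)
      have h2 : 1 ≤ |(ζ.re - x) / δ| := by
        rw [abs_div, abs_of_pos hδ, le_div_iff₀ hδ, one_mul]; exact h1
      have h3 : (ζ.re - x) / δ ∉ Icc (Jr s) (Jr t) := by
        rintro ⟨h4, h5⟩
        rw [le_div_iff₀ hδ] at h4
        rw [div_le_iff₀ hδ] at h5
        exact hI h0 ⟨by linarith, by linarith⟩
      have h4 := hl.off _ h2 h3
      have e : (((ζ.re - x) / δ : ℝ) : ℂ) = (ζ - x) / δ := by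
        apply Complex.ext
        · rw [sc_re, ofReal_re]
        · rw [sc_im, ofReal_im, h0, zero_div]
      rw [e] at h4
      have hc : ContinuousAt (fun y : ℂ => (y - x) / δ) ζ := by fun_prop
      filter_upwards [hc.eventually h4] with z hz hp
      exact hz (by rw [sc_im]; exact div_pos hp hδ)
    · filter_upwards [(isOpen_lt continuous_im continuous_const).mem_nhds h0] with z hz hp
      exact absurd hp (not_lt.2 (le_of_lt hz))
  filter_upwards [hKe, hup] with z h1 h2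
  refine HH_zero fun hw => ?_
  rcases lt_or_ge 0 z.im with hp | hp
  · exact h2 hp
  · exact zero_low hδ hσ hl hw hp h1

theorem ev_eq {x δ σ : ℝ} {h : ℂ → ℝ} {z : ℂ} (hz : z ∈ WW x δ σ) :
    (fun y : ℂ => h ((y - x) / δ)) =ᶠ[𝓝 z] HH x δ σ h := by
  filter_upwards [(isOpen_WW x δ σ).mem_nhds hz] with y hy
  exact (HH_in hy).symm

theorem HH_bd {x δ σ κ s t : ℝ} {h : ℂ → ℝ} (hδ : 0 < δ) (hl : IsLoc σ κ s t h) (z : ℂ) :
    0 ≤ HH x δ σ h z ∧ HH x δ σ h z ≤ 1 := by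
  by_cases hw : z ∈ WW x δ σ
  · rw [HH_in hw]; exact hl.nn _ (mem_Slit hδ hw)
  · rw [HH_out hw]; exact ⟨le_rfl, zero_le_one⟩

theorem sc_cocompact (x : ℝ) {δ : ℝ} (hδ : 0 < δ) :
    Tendsto (fun y : ℂ => (y - x) / δ) (cocompact ℂ) (cocompact ℂ) := by
  have hne : (δ : ℂ) ≠ 0 := ofReal_ne_zero.2 hδ.ne'
  have h1 := ((Homeomorph.subRight (x : ℂ)).trans
    (Homeomorph.mulRight₀ (δ : ℂ)⁻¹ (inv_ne_zero hne))).isClosedEmbedding.tendsto_cocompact
  refine h1.congr fun y => ?_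
  simp [div_eq_mul_inv]

end EMB

open EMB in
theorem st_EMB (hGOODC : St_GOODC) : St_EMB := by
  intro Ω a b τ x δ σ κ s t h hG hF hδ hσ hσ1 ha hb hτ hs ht hl
  have hopen : IsOpen (Ω ∪ Cav x δ σ) := (hGOODC Ω a b τ x δ σ hG hF hδ hσ hσ1 ha hb hτ).1
  have hτ0 : 0 ≤ τ := le_trans (by positivity) hτ
  have hWsub : WW x δ σ ⊆ Ω ∪ Cav x δ σ := by
    rintro z (hz | hz)
    · exact Or.inl (hG.2.1 z hz)
    · exact Or.inr hz
  have hout : ∀ z ∈ Ω ∪ Cav x δ σ, z ∉ WW x δ σ → ∀ᶠ y in 𝓝 z, HH x δ σ h y = 0 := by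
    intro z hz hw
    refine ev_zero hδ hσ hσ1 hl hw fun h0 hI => ?_
    rcases hz with hz | hz
    · have := hF z hz (hs.trans_le hI.1) (hI.2.trans_lt ht) (by rw [h0]; linarith)
      exact absurd h0 this.ne'
    · exact hw (Or.inr hz)
  refine ⟨HH x δ σ h, ⟨fun z hz => ?_, fun z hz => ?_, fun z _ => (HH_bd hδ hl z).1,
    fun ζ hζ η hη => ?_, fun η hη => ?_⟩, fun y hy => ?_⟩
  · apply ContinuousAt.continuousWithinAt
    by_cases hw : z ∈ WW x δ σ
    · have h1 : ContinuousAt h ((z - x) / δ) :=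
        hl.cont.continuousAt (isOpen_Slit.mem_nhds (mem_Slit hδ hw))
      have hc : ContinuousAt (fun y : ℂ => (y - x) / δ) z := by fun_prop
      exact (ContinuousAt.comp (f := fun y : ℂ => (y - x) / δ) h1 hc).congr (ev_eq hw)
    · exact (continuousAt_const (y := (0 : ℝ))).congr
        ((hout z hz hw).mono fun y hy => hy.symm)
  · by_cases hw : z ∈ WW x δ σ
    · exact (SubAt.affine hδ (hl.sub _ (mem_Slit hδ hw))).congr (ev_eq hw)
    · exact (SubAt.const 0 z).congr ((hout z hz hw).mono fun y hy => hy.symm)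
  · have hw : ζ ∉ WW x δ σ := fun hw => by
      rw [hopen.frontier_eq] at hζ
      exact hζ.2 (hWsub hw)
    by_cases hI : ζ.im = 0 ∧ ζ.re ∈ Icc (x + δ * Jr s) (x + δ * Jr t)
    · refine Eventually.of_forall fun z => ?_
      have e : DR ((Icc (x + δ * Jr s) (x + δ * Jr t)).indicator 1) ζ = 1 := by
        rw [DR, if_pos hI.1, indicator_of_mem hI.2]; rfl
      rw [e]
      linarith [(HH_bd (x := x) hδ hl z).2]
    · have h1 := ev_zero hδ hσ hσ1 hl hw fun h0 h2 => hI ⟨h0, h2⟩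
      have h2 : 0 ≤ DR ((Icc (x + δ * Jr s) (x + δ * Jr t)).indicator 1) ζ := by
        unfold DR
        split_ifs
        · exact indicator_nonneg (fun _ _ => zero_le_one) _
        · exact le_rfl
      filter_upwards [h1.filter_mono nhdsWithin_le_nhds] with z hz
      rw [hz]; linarith
  · filter_upwards [(sc_cocompact x hδ).eventually hl.inf] with z hz _
    rw [HH_zero fun hw => hz (mem_Slit hδ hw)]
    linarith
  · have hw : (y : ℂ) ∈ WW x δ σ := real_mem hδ hσ hσ1 (ofReal_im y) (by rw [ofReal_re]; exact hy)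
    rw [HH_in hw]
    push_cast
    rfl

end Pool.Agent.BAC
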