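import Pool.Agent.Lib.BAC.Blue

namespace Pool.Agent.BAC

open Set Filter Topology Metric

namespace Exist

theorem base (hROOT : St_ROOT) (m : ℕ) : Nonempty (Uni m) := by
  let p : Fin m → ℝ := fun i => (i : ℝ) + 1 / 2
  let y : Fin (m + 1) → ℝ := fun j => (j : ℝ)
  let t : Fin (m + 1) → ℝ := fun j => 3 * y j ^ 2 + ∑ i, (1 : ℝ) / (y j - p i) ^ 2
  have ht : ∀ j, 0 ≤ t j := fun j =>
    add_nonneg (by positivity) (Finset.sum_nonneg fun i _ => by positivity)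
  obtain ⟨A, B, h1, h2, h3⟩ := hROOT m (∑ j, t j + 1) (fun _ => 1) p y (fun _ => one_pos)
    (fun i => by
      simp only [p, y, Fin.val_castSucc, Fin.val_succ]
      push_cast
      constructor <;> linarith)
    (fun j => by
      have h := Finset.single_le_sum (f := t) (fun i _ => ht i) (Finset.mem_univ j)
      have e : dpsiR (∑ j, t j + 1) (fun _ => 1) p (y j) = ∑ j, t j + 1 - t j := by
        simp only [dpsiR, t]
        ring
      rw [e]
      linarith)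
  exact ⟨⟨_, 0, fun _ => 1, p, A, B, fun _ => one_pos, fun j => (h1 j).1.trans (h1 j).2,
    fun i => (h2 i).1, fun i => (h2 i).2, fun j => (h3 j).1, fun j => (h3 j).2⟩⟩

theorem comb_lt {a b x y z w : ℝ} (ha : 0 ≤ a) (hb : 0 ≤ b) (hab : a + b = 1) (h1 : x < z)
    (h2 : y < w) : a * x + b * y < a * z + b * w := by
  rcases ha.eq_or_lt with h | h
  · have : b = 1 := by linarith
    rw [← h, this]
    linarith
  · nlinarith [mul_pos h (sub_pos.2 h1), mul_nonneg hb (sub_pos.2 h2).le]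

theorem convex (m : ℕ) :
    Convex ℝ {x : (Fin (m + 1) → ℝ) × (Fin (m + 1) → ℝ) | Ord x.1 x.2} :=
  fun _ hx _ hy _ _ ha hb hab =>
    ⟨fun j => comb_lt ha hb hab (hx.1 j) (hy.1 j), fun i => comb_lt ha hb hab (hx.2 i) (hy.2 i)⟩

theorem near {m : ℕ} {x y : (Fin (m + 1) → ℝ) × (Fin (m + 1) → ℝ)} {η : ℝ} (h : dist x y < η)
    (j : Fin (m + 1)) : |x.1 j - y.1 j| < η ∧ |x.2 j - y.2 j| < η := by
  rw [Prod.dist_eq, max_lt_iff] at h
  exact ⟨(dist_le_pi_dist x.1 y.1 j).trans_lt h.1, (dist_le_pi_dist x.2 y.2 j).trans_lt h.2⟩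

end Exist

theorem st_EXIST (hREAL : St_REAL) (hROOT : St_ROOT) (hOPEN : St_OPEN) (hCLOSED : St_CLOSED) :
    St_EXIST := by
  intro m e f hef
  have ho : IsOpen {x : (Fin (m + 1) → ℝ) × (Fin (m + 1) → ℝ) |
      ∃ U : Uni m, U.e = x.1 ∧ U.f = x.2} := by
    refine Metric.isOpen_iff.2 fun x ⟨U, h1, h2⟩ => ?_
    obtain ⟨η, hη, h⟩ := hOPEN m U
    refine ⟨η, hη, fun y hy => h y.1 y.2 fun j => ?_⟩
    rw [h1, h2]
    exact Exist.near hy j
  obtain ⟨U₀⟩ := Exist.base hROOT m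
  refine (Exist.convex m).isPreconnected.subset_of_closure_inter_subset ho
    ⟨(U₀.e, U₀.f), (hREAL m U₀).2.2.2.2.2.2, U₀, rfl, rfl⟩ (fun x hx => ?_)
    (show (e, f) ∈ _ from hef)
  refine hCLOSED m x.1 x.2 hx.2 fun η hη => ?_
  obtain ⟨y, ⟨U, h1, h2⟩, hy⟩ := Metric.mem_closure_iff.1 hx.1 η hη
  refine ⟨U, fun j => ?_⟩
  rw [h1, h2]
  exact Exist.near (by rwa [dist_comm]) j

end Pool.Agent.BAC
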