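import Pool.Agent.Lib.BAC.PT

/-! From the ball and chain bound to a bound on the length of the pieces of large density. -/

namespace Pool.Agent.BAC

open Set Filter Topology Metric Complex
open scoped ComplexConjugate Real

namespace FIN

/-- A small radius for finitely many pieces. -/
lemma exists_eps (l : List Pc) (h : ∀ p ∈ l, p.a < p.b ∧ 0 < p.τ) :
    ∃ ε : ℝ, 0 < ε ∧ ε ≤ 1 / 10 ∧ ∀ p ∈ l, ε ≤ p.τ ∧ 12 * ε ≤ p.b - p.a := by
  induction l with
  | nil => exact ⟨1 / 10, by norm_num, le_rfl, by simp⟩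
  | cons p l ih =>
    obtain ⟨ε, h0, h1, h2⟩ := ih fun q hq => h q (List.mem_cons_of_mem _ hq)
    obtain ⟨h3, h4⟩ := h p List.mem_cons_self
    have h5 := min_le_left ε (min p.τ ((p.b - p.a) / 12))
    have h6 := (min_le_right ε (min p.τ ((p.b - p.a) / 12))).trans (min_le_left _ _)
    have h7 := (min_le_right ε (min p.τ ((p.b - p.a) / 12))).trans (min_le_right _ _)
    refine ⟨min ε (min p.τ ((p.b - p.a) / 12)), lt_min h0 (lt_min h4 (by linarith)), h5.trans h1,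
      fun q hq => ?_⟩
    rcases List.mem_cons.1 hq with rfl | hq
    · exact ⟨h6, by linarith⟩
    · exact ⟨h5.trans (h2 q hq).1, by linarith [(h2 q hq).2]⟩

/-- Grid intervals inside one interval. -/
lemma one_piece {a b ε : ℝ} (hε : 0 < ε) (h : 12 * ε ≤ b - a) :
    ∃ S : Finset ℤ, (∀ k ∈ S, a < (3 * k - 1) * ε ∧ (3 * k + 1) * ε < b) ∧
      b - a ≤ 6 * (S.card * ε) := by
  obtain ⟨x, hx⟩ : ∃ x : ℝ, 3 * x * ε = a + ε := ⟨(a / ε + 1) / 3, by field_simp⟩
  obtain ⟨y, hy⟩ : ∃ y : ℝ, 3 * y * ε = b - ε := ⟨(b / ε - 1) / 3, by field_simp⟩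
  refine ⟨Finset.Ioo ⌊x⌋ ⌈y⌉, fun k hk => ?_, ?_⟩
  · obtain ⟨h1, h2⟩ := Finset.mem_Ioo.1 hk
    have h3 := Int.floor_lt.1 h1
    have h4 := Int.lt_ceil.1 h2
    constructor <;> nlinarith
  · have h1 : ((⌈y⌉ - ⌊x⌋ - 1 : ℤ) : ℝ) ≤ ((Finset.Ioo ⌊x⌋ ⌈y⌉).card : ℝ) := by
      rw [Int.card_Ioo]
      exact_mod_cast Int.self_le_toNat _
    have h2 := Int.floor_le x
    have h3 := Int.le_ceil y
    push_cast at h1
    nlinarith

/-- Grid intervals inside the pieces of density at least `s`. -/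
lemma grid {ε : ℝ} (hε : 0 < ε) (s : ℝ) (l : List Pc) (hl : l.Pairwise Sep)
    (h : ∀ p ∈ l, 12 * ε ≤ p.b - p.a) :
    ∃ S : Finset ℤ, (∀ k ∈ S, ∃ p ∈ l, s ≤ p.r ∧ p.a < (3 * k - 1) * ε ∧ (3 * k + 1) * ε < p.b) ∧
      lenGe s l ≤ 6 * (S.card * ε) := by
  induction l with
  | nil => exact ⟨∅, by simp, by simp [lenGe]⟩
  | cons p l ih =>
    obtain ⟨hp, hl'⟩ := List.pairwise_cons.1 hl
    obtain ⟨S, hS, hc⟩ := ih hl' fun q hq => h q (List.mem_cons_of_mem _ hq)
    have he : lenGe s (p :: l) = (if s ≤ p.r then p.b - p.a else 0) + lenGe s l := by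
      simp [lenGe]
    by_cases hs : s ≤ p.r
    · obtain ⟨T, hT, hc'⟩ := one_piece hε (h p List.mem_cons_self)
      have hd : Disjoint T S := Finset.disjoint_left.2 fun k hk hk' => by
        obtain ⟨q, hq, -, h1, h2⟩ := hS k hk'
        obtain ⟨h3, h4⟩ := hT k hk
        rcases hp q hq with h5 | h5 <;> nlinarith
      refine ⟨T ∪ S, fun k hk => ?_, ?_⟩
      · rcases Finset.mem_union.1 hk with hk | hk
        · exact ⟨p, List.mem_cons_self, hs, hT k hk⟩
        · obtain ⟨q, hq, h1⟩ := hS k hk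
          exact ⟨q, List.mem_cons_of_mem _ hq, h1⟩
      · rw [he, if_pos hs, Finset.card_union_of_disjoint hd]
        push_cast
        linarith
    · refine ⟨S, fun k hk => ?_, by rw [he, if_neg hs, zero_add]; exact hc⟩
      obtain ⟨q, hq, h1⟩ := hS k hk
      exact ⟨q, List.mem_cons_of_mem _ hq, h1⟩

lemma dr_le (s : Set ℝ) (ζ : ℂ) : DR (s.indicator 1) ζ ≤ 1 := by
  unfold DR
  split_ifs
  · by_cases h : ζ.re ∈ s <;> simp [h]
  · exact zero_le_one

lemma dr_zero {c ε : ℝ} {ζ : ℂ} (h : ζ ∉ closedBall (c : ℂ) ε) :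
    DR ((Icc (c - ε) (c + ε)).indicator 1) ζ = 0 := by
  unfold DR
  split_ifs with h1
  · refine indicator_of_notMem (fun h2 => h ?_) _
    have h3 : ζ - c = ((ζ.re - c : ℝ) : ℂ) := Complex.ext (by simp) (by simpa using h1)
    rw [mem_closedBall, dist_eq_norm, h3, Complex.norm_real, Real.norm_eq_abs, abs_le]
    constructor <;> linarith [h2.1, h2.2]
  · rfl

/-- A sum of minorants for the diameters is in the Perron family of the domain minus the discs. -/
lemma perron {n : ℕ} {ε : ℝ} {c : Fin n → ℝ} {Ω : Set ℂ} {u : Fin n → ℂ → ℝ} (hΩ : IsOpen Ω)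
    (hΩ' : IsOpen (Ω \ ⋃ j, closedBall (c j : ℂ) ε))
    (hd : Pairwise fun i j => Disjoint (closedBall (c i : ℂ) ε) (closedBall (c j : ℂ) ε))
    (hu : ∀ j, MinF Ω (DR ((Icc (c j - ε) (c j + ε)).indicator 1)) (u j)) :
    Perron (Ω \ ⋃ j, closedBall (c j : ℂ) ε)
      (frontier (Ω \ ⋃ j, closedBall (c j : ℂ) ε) ∩ ⋃ j, closedBall (c j : ℂ) ε)
      fun z => ∑ j, u j z := by
  have hU := MinF.sum Finset.univ fun j (_ : j ∈ Finset.univ) => hu j
  have h0 : ∀ ζ, ζ ∉ ⋃ j, closedBall (c j : ℂ) ε →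
      ∑ j, DR ((Icc (c j - ε) (c j + ε)).indicator 1) ζ = 0 := fun ζ h =>
    Finset.sum_eq_zero fun j _ => dr_zero fun h' => h (mem_iUnion.2 ⟨j, h'⟩)
  have h1 := hU.le hΩ zero_le_one fun ζ _ => by
    by_cases h : ζ ∈ ⋃ j, closedBall (c j : ℂ) ε
    · obtain ⟨j, hj⟩ := mem_iUnion.1 h
      rw [Finset.sum_eq_single j (fun i _ hi => dr_zero fun h' => disjoint_left.1 (hd hi) h' hj)
        (by simp)]
      exact dr_le _ _
    · rw [h0 ζ h]
      exact zero_le_one
  refine ⟨fun z hz => hU.sub z hz.1, fun ζ hζ η hη => ?_, fun η hη => ?_⟩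
  · by_cases h : ζ ∈ ⋃ j, closedBall (c j : ℂ) ε
    · rw [indicator_of_mem (mem_inter hζ h)]
      filter_upwards [self_mem_nhdsWithin] with z hz
      have := h1 z hz.1
      simp only [Pi.one_apply]
      linarith
    · rw [indicator_of_notMem fun h' => h h'.2]
      rw [hΩ'.frontier_eq] at hζ
      have h2 : ζ ∈ frontier Ω := by
        rw [hΩ.frontier_eq]
        exact ⟨closure_mono sdiff_subset hζ.1, fun h3 => hζ.2 ⟨h3, h⟩⟩
      have h3 := hU.bd ζ h2 η hη
      rw [h0 ζ h] at h3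
      exact h3.filter_mono (nhdsWithin_mono _ sdiff_subset)
  · filter_upwards [hU.inf η hη] with z hz hz'
    linarith [hz hz'.1]

lemma solve {γ C s X : ℝ} (hγ : γ < 1) (hC : 0 < C) (hs : 0 < s) (hX : 0 < X)
    (h : s * X ≤ C * X ^ γ) : X ≤ (C / s) ^ (1 / (1 - γ)) := by
  have h1 : 0 < 1 - γ := sub_pos.2 hγ
  have h2 : 0 < X ^ γ := Real.rpow_pos_of_pos hX γ
  have h3 : X ^ (1 - γ) ≤ C / s := by
    rw [Real.rpow_sub hX, Real.rpow_one, div_le_div_iff₀ h2 hs]
    linarith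
  rw [one_div]
  exact (Real.le_rpow_inv_iff_of_pos hX.le (by positivity) h1).2 h3

end FIN

theorem st_FIN (hSC : St_SC) : St_FIN := by
  intro γ C _ hγ hC H Ω l s hl hs
  obtain ⟨hG, hOK, hsep⟩ := hl
  obtain ⟨ε, hε, hε1, hp⟩ := FIN.exists_eps l fun p hp => ⟨(hOK p hp).2.1, (hOK p hp).2.2.2.2.1⟩
  obtain ⟨S, hS, hc⟩ := FIN.grid hε s l hsep fun p h => (hp p h).2
  have hR : 0 ≤ (C / s) ^ (1 / (1 - γ)) := by positivity
  rcases Nat.eq_zero_or_pos S.card with h0 | h0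
  · rw [h0] at hc
    simp only [Nat.cast_zero, zero_mul, mul_zero] at hc
    linarith
  have hn : (0 : ℝ) < S.card := by exact_mod_cast h0
  let k : Fin S.card → ℤ := fun j => S.equivFin.symm j
  have hk : ∀ j, k j ∈ S := fun j => (S.equivFin.symm j).2
  have hki : Function.Injective k := Subtype.val_injective.comp S.equivFin.symm.injective
  let c : Fin S.card → ℝ := fun j => 3 * k j * ε
  have hcp : ∀ j, ∃ p ∈ l, s ≤ p.r ∧ p.a < c j - ε ∧ c j + ε < p.b := fun j => by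
    obtain ⟨p, h1, h2, h3, h4⟩ := hS _ (hk j)
    exact ⟨p, h1, h2, by simp only [c]; linarith, by simp only [c]; linarith⟩
  obtain ⟨ho, hsc⟩ := hSC Ω S.card c ε hG hε fun j z hz h1 h2 => by
    obtain ⟨p, h3, -, h4, h5⟩ := hcp j
    rw [abs_le] at h1
    exact (hOK p h3).2.2.2.2.2.1 z hz (by linarith) (by linarith) (by linarith [(hp p h3).1])
  have hd : Pairwise fun i j => Disjoint (closedBall (c i : ℂ) ε) (closedBall (c j : ℂ) ε) := by
    intro i j hij
    refine closedBall_disjoint_closedBall ?_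
    have h1 : (1 : ℝ) ≤ |(k i : ℝ) - k j| := by
      exact_mod_cast Int.one_le_abs (sub_ne_zero.2 (hki.ne hij))
    have h2 : c i - c j = 3 * ε * ((k i : ℝ) - k j) := by simp only [c]; ring
    rw [dist_eq_norm, ← ofReal_sub, Complex.norm_real, Real.norm_eq_abs, h2, abs_mul,
      abs_of_pos (by positivity : 0 < 3 * ε)]
    nlinarith
  have hfar : ∀ j, ∀ y ∈ closedBall (c j : ℂ) ε, 1 ≤ dist zb y := fun j y hy => by
    have h1 : |(y - c j).im| ≤ ε := (abs_im_le_norm _).trans (by rwa [← dist_eq_norm])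
    have h2 : (zb - y).im ≤ dist zb y := by rw [dist_eq_norm]; exact im_le_norm _
    have h3 : zb.im = 3 := by simp [zb]
    simp only [sub_im, ofReal_im, sub_zero, abs_le] at h1 h2
    linarith [h1.2]
  have hz : zb ∈ Ω \ ⋃ j, closedBall (c j : ℂ) ε := by
    refine ⟨hG.2.1 _ (by simp [zb]), fun h => ?_⟩
    obtain ⟨j, hj⟩ := mem_iUnion.1 h
    have := hfar j zb hj
    rw [dist_self] at this
    linarith
  have hcard : (S.card : ℝ) * ε < 1 := by
    have h1 : S ⊆ Finset.Icc 1 ⌊1 / (3 * ε)⌋ := fun m hm => by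
      obtain ⟨p, h2, -, h3, h4⟩ := hS m hm
      have h5 := (hOK p h2).1
      have h6 := (hOK p h2).2.2.1
      refine Finset.mem_Icc.2 ⟨?_, Int.le_floor.2 ?_⟩
      · have h7 : (0 : ℝ) < m := by nlinarith
        exact_mod_cast h7
      · rw [le_div_iff₀ (by positivity)]
        nlinarith
    have h2 := Finset.card_le_card h1
    have h3 : (0 : ℤ) ≤ ⌊1 / (3 * ε)⌋ := Int.floor_nonneg.2 (by positivity)
    rw [Int.card_Icc, add_sub_cancel_right] at h2
    have h4 : (S.card : ℤ) ≤ ⌊1 / (3 * ε)⌋ := (Int.le_toNat h3).1 h2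
    have h5 : (S.card : ℝ) ≤ 1 / (3 * ε) := by exact_mod_cast Int.le_floor.1 h4
    rw [le_div_iff₀ (by positivity)] at h5
    linarith
  have hB : BallChain S.card ε c (Ω \ ⋃ j, closedBall (c j : ℂ) ε) zb := by
    refine ⟨h0, hε, by rw [lt_div_iff₀ hn]; linarith, ho, hsc, fun j => ?_, fun j => ?_, hd, hz,
      fun j => (le_infDist (nonempty_closedBall.2 hε.le)).2 fun y hy => hfar j y hy⟩
    · obtain ⟨p, h1, -, h2, h3⟩ := hcp j
      exact ⟨by linarith [(hOK p h1).1], by linarith [(hOK p h1).2.2.1]⟩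
    · exact disjoint_left.2 fun y hy hy' => hy'.2 (mem_iUnion.2 ⟨j, hy⟩)
  have hw := H _ _ _ _ _ hB
  choose p hpl hps hpa hpb using hcp
  choose u hu hu' using fun j => (hOK _ (hpl j)).2.2.2.2.2.2 (c j - ε) (c j + ε) (hpa j)
    (by linarith) (hpb j) (s * ε) (by positivity)
  have h1 : ∑ j, u j zb ≤ wt ε c (Ω \ ⋃ j, closedBall (c j : ℂ) ε) zb :=
    le_hm ho hz (FIN.perron hG.1 ho hd hu)
  have h2 : ∑ _j : Fin S.card, s * ε ≤ ∑ j, u j zb := Finset.sum_le_sum fun j _ => by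
    have h3 := hu' j
    have h4 := mul_le_mul_of_nonneg_right (hps j) hε.le
    linarith
  rw [Finset.sum_const, Finset.card_univ, Fintype.card_fin, nsmul_eq_mul] at h2
  have h3 := FIN.solve (X := S.card * ε) hγ hC hs (by positivity) (by linarith)
  linarith

end Pool.Agent.BAC
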