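import Pool.Agent.Lib.BAC.PT

/-! The gain of density next to a cavity. -/

namespace Pool.Agent.BAC

open Set Filter Topology Metric Complex MeasureTheory

namespace Gain

theorem Jr_sub {u v : ℝ} (hu : u ≠ 0) (hv : v ≠ 0) :
    Jr v - Jr u = (v - u) * (1 - (u * v)⁻¹) / 2 := by
  unfold Jr; field_simp; ring

theorem Jr_neg (u : ℝ) : Jr (-u) = -Jr u := by unfold Jr; rw [inv_neg]; ring

theorem Jr_mono {u v : ℝ} (hu : 1 ≤ u) (h : u ≤ v) : Jr u ≤ Jr v := by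
  have h1 := Jr_sub (u := u) (v := v) (by linarith) (by linarith)
  have h2 : (u * v)⁻¹ ≤ 1 := inv_le_one_of_one_le₀ (by nlinarith)
  have h3 := mul_nonneg (sub_nonneg.2 h) (sub_nonneg.2 h2)
  linarith

theorem one_le_Jr {u : ℝ} (hu : 1 ≤ u) : 1 ≤ Jr u := by
  have := Jr_mono le_rfl hu
  have e : Jr 1 = 1 := by unfold Jr; norm_num
  linarith

theorem Jr_surj {y : ℝ} (hy : 1 ≤ y) : ∃ s, 1 ≤ s ∧ Jr s = y := by
  have h0 := Real.sqrt_nonneg (y ^ 2 - 1)
  have h1 := Real.sq_sqrt (show 0 ≤ y ^ 2 - 1 by nlinarith)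
  refine ⟨y + Real.sqrt (y ^ 2 - 1), by linarith, ?_⟩
  have e : (y + Real.sqrt (y ^ 2 - 1))⁻¹ = y - Real.sqrt (y ^ 2 - 1) :=
    inv_eq_of_mul_eq_one_right (by linear_combination -h1)
  unfold Jr
  rw [e]; ring

theorem inv {T₀ T₁ y y' : ℝ} (h0 : 1 ≤ T₀) (h01 : T₀ < T₁) (h1 : Jr T₀ < y) (h2 : y < y')
    (h3 : y' < Jr T₁) : ∃ s t, T₀ < s ∧ s < t ∧ t < T₁ ∧ Jr s = y ∧ Jr t = y' := by
  have := one_le_Jr h0
  obtain ⟨s, hs, rfl⟩ := Jr_surj (y := y) (by linarith)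
  obtain ⟨t, ht, rfl⟩ := Jr_surj (y := y') (by linarith)
  exact ⟨s, t, lt_of_not_ge fun h => absurd (Jr_mono hs h) (not_le.2 h1),
    lt_of_not_ge fun h => absurd (Jr_mono ht h) (not_le.2 h2),
    lt_of_not_ge fun h => absurd (Jr_mono (by linarith) h) (not_le.2 h3), rfl, rfl⟩

theorem mem_slit {y : ℝ} (h : |y| < 1) : (y : ℂ) ∈ Slit := Or.inr (by simpa using h)

theorem int_eq {σ κ s t : ℝ} {h : ℂ → ℝ} (H : IsLoc σ κ s t h) (h0 : 0 < σ) (h1 : σ < 1) :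
    ∫ y in (-1 : ℝ)..1, h y = ∫ y in (-(1 - σ ^ 2 / 2) : ℝ)..(1 - σ ^ 2 / 2), h y := by
  have hc : 0 < σ ^ 2 := by positivity
  have hc' : σ ^ 2 < 1 := by nlinarith
  rw [intervalIntegral.integral_of_le (by norm_num), intervalIntegral.integral_of_le (by linarith),
    integral_Ioc_eq_integral_Ioo, ← integral_Icc_eq_integral_Ioc]
  refine setIntegral_eq_of_subset_of_forall_sdiff_eq_zero measurableSet_Ioo
    (Icc_subset_Ioo (by linarith) (by linarith)) fun y hy => ?_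
  by_contra hne
  have := (H.supp y (mem_slit (abs_lt.2 hy.1)) (by simp) hne).2
  simp only [ofReal_re, ofReal_im, zero_div, sub_zero] at this
  exact hy.2 (abs_le.1 this)

theorem core (hG : St_GOODC) (hLC : St_LC) (hGL : St_GLUE) (hE : St_EMB) {Ω : Set ℂ}
    {a b τ r x δ σ κ T s t : ℝ} {h : ℂ → ℝ} (g : Good Ω) (fr : Free Ω a b τ) (ld : LD Ω a b r)
    (hr : 0 ≤ r) (hδ : 0 < δ) (h0 : 0 < σ) (h1 : σ < 1) (hκ : κ < 1 / 4)
    (ha : a ≤ x - 2 * δ / σ) (hb : x + 2 * δ / σ ≤ b) (hτ : 2 * δ / σ ≤ τ)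
    (H : IsLoc σ κ s t h) (hst : s < t) (hp : 0 < s * t) (hT : s * t ≤ T ^ 2) (hT1 : 1 < T)
    {α β : ℝ} (eα : x + δ * Jr s = α) (eβ : x + δ * Jr t = β) (h2 : a < α) (h3 : α < β)
    (h4 : β < b) (h5 : x + δ ≤ α ∨ β ≤ x - δ) (ε : ℝ) (hε : 0 < ε) :
    ∃ u, MinF (Ω ∪ Cav x δ σ) (DR ((Icc α β).indicator 1)) u ∧
      r * ((1 - 4 * κ) / (1 - (T ^ 2)⁻¹)) * (β - α) - ε ≤ u zb := by
  have hd : δ < 2 * δ / σ := by
    rw [lt_div_iff₀ h0]; nlinarith
  have g' := hG Ω a b τ x δ σ g fr hδ h0 h1 ha hb hτ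
  obtain ⟨F, hF, eF⟩ := hE Ω a b τ x δ σ κ s t h g fr hδ h0 h1 ha hb hτ (eα ▸ h2) (eβ ▸ h4) H
  rw [eα, eβ] at hF
  obtain ⟨u1, m1, l1⟩ := ld α β h2 h3 h4 (ε / 2) (by linarith)
  obtain ⟨c, ec⟩ : ∃ c, c = 1 - σ ^ 2 / 2 := ⟨_, rfl⟩
  have c0 : 0 < c := by nlinarith
  have c1 : c < 1 := by nlinarith
  have hdc : δ * c < δ := by nlinarith
  have hdc0 : 0 < δ * c := mul_pos hδ c0
  let hh : ℝ → ℝ := fun y => if |y - x| < δ then h (((y - x) / δ : ℝ) : ℂ) else 0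
  have sl : ∀ y : ℝ, |y - x| < δ → (((y - x) / δ : ℝ) : ℂ) ∈ Slit := fun y hy =>
    mem_slit (by rwa [abs_div, abs_of_pos hδ, div_lt_one hδ])
  have im : ∀ y ∈ Icc (x - δ * c) (x + δ * c), |y - x| < δ := fun y hy =>
    abs_lt.2 ⟨by linarith [hy.1], by linarith [hy.2]⟩
  have eq : EqOn hh (fun y => h (((y - x) / δ : ℝ) : ℂ)) (Icc (x - δ * c) (x + δ * c)) :=
    fun y hy => if_pos (im y hy)
  obtain ⟨u2, m2, l2⟩ := hLC Ω a b r (x - δ * c) (x + δ * c) hh ld hr (by linarith) (by linarith)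
    (by linarith) ((H.cont.comp (by fun_prop) fun y hy => sl y (im y hy)).congr eq)
    (fun y => by
      by_cases hy : |y - x| < δ
      · exact (H.nn _ (sl y hy)).1.trans_eq (if_pos hy).symm
      · exact (if_neg hy).ge) (ε / 2) (by linarith)
  have e1 : ∫ y in (x - δ * c)..(x + δ * c), hh y = δ * ∫ y in (-1 : ℝ)..1, h y := by
    rw [intervalIntegral.integral_congr (by rwa [uIcc_of_le (by linarith)]),
      intervalIntegral.integral_comp_sub_right (fun y : ℝ => h ((y / δ : ℝ) : ℂ)) x,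
      intervalIntegral.integral_comp_div (fun y : ℝ => h (y : ℂ)) hδ.ne', int_eq H h0 h1, ← ec,
      show (x - δ * c - x) / δ = -c by field_simp; ring,
      show (x + δ * c - x) / δ = c by field_simp; ring, smul_eq_mul]
  obtain ⟨u, m, l⟩ := hGL Ω (Ω ∪ Cav x δ σ) _ _ (DR ((Icc α β).indicator 1)) _ F g.1 g'.1
    subset_union_left (m1.add m2) hF (fun ζ hζ hζ' => by
      have n1 : ζ ∉ Ω := (g.1.frontier_eq ▸ hζ).2
      have n2 : ζ ∈ Cav x δ σ := hζ'.resolve_left n1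
      by_cases hi : ζ.im = 0
      · have n3 : |ζ.re - x| < δ := by simpa [hi] using n2.2.2
        have n4 : ζ.re ∉ Icc α β := fun hm => by
          have := abs_lt.1 n3
          rcases h5 with h5 | h5 <;> linarith [hm.1, hm.2]
        have n5 : (ζ.re : ℂ) = ζ := Complex.ext (by simp) (by simp [hi])
        have n6 := eF _ n3
        rw [n5] at n6
        simp only [DR, hi, if_true, indicator_of_notMem n4, zero_add, hh, n3, n6, le_refl]
      · simpa only [DR, hi, if_false, add_zero] using hF.nn ζ hζ') (fun ζ hζ => by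
      refine ⟨?_, le_rfl⟩
      have n1 : ζ ∉ Ω ∪ Cav x δ σ := (g'.1.frontier_eq ▸ hζ).2
      by_cases hi : ζ.im = 0
      · have n3 : ¬ |ζ.re - x| < δ := fun n3 => n1 (Or.inr ⟨hi.le, by
          have n5 : ζ - x = ((ζ.re - x : ℝ) : ℂ) := Complex.ext (by simp) (by simp [hi])
          rw [n5, norm_real, Real.norm_eq_abs]
          linarith, by simpa [hi] using n3⟩)
        simp only [DR, hi, if_true, hh, n3, if_false, add_zero, le_refl]
      · simp only [DR, hi, if_false, add_zero, le_refl])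
  refine ⟨u, m, le_trans ?_ (l zb (g.2.1 _ (by simp [zb])))⟩
  have s0 : s ≠ 0 := left_ne_zero_of_mul hp.ne'
  have t0 : t ≠ 0 := right_ne_zero_of_mul hp.ne'
  have e2 : β - α = δ * ((t - s) * (1 - (s * t)⁻¹) / 2) := by
    rw [← eα, ← eβ, ← Jr_sub s0 t0]; ring
  have p1 : 0 < 1 - (T ^ 2)⁻¹ := sub_pos.2 (inv_lt_one_of_one_lt₀ (by nlinarith))
  have p2 : (T ^ 2)⁻¹ ≤ (s * t)⁻¹ := inv_anti₀ hp hT
  have p3 : (1 - 4 * κ) / (1 - (T ^ 2)⁻¹) * (1 - (s * t)⁻¹) ≤ 1 - 4 * κ := by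
    rw [div_mul_eq_mul_div, div_le_iff₀ p1]
    exact mul_le_mul_of_nonneg_left (by linarith) (by linarith)
  have p4 : 0 ≤ r * δ * (t - s) := mul_nonneg (mul_nonneg hr hδ.le) (by linarith)
  have p5 := mul_le_mul_of_nonneg_left p3 p4
  have p6 := mul_le_mul_of_nonneg_left H.int (mul_nonneg hr hδ.le)
  have e3 : (t - s) / (2 * s * t) = (t - s) * (s * t)⁻¹ / 2 := by field_simp
  rw [e1] at l2
  rw [e2] at l1 ⊢
  rw [e3] at p6
  nlinarith

end Gain

open Gain in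
theorem st_GAIN (hGOODC : St_GOODC) (hLC : St_LC) (hGLUE : St_GLUE) (hEMB : St_EMB) : St_GAIN := by
  intro Ω a b τ r x δ σ η κ T₀ T₁ g fr ld hr hδ h0 h1 hη hκ ha hb hτ hL hT0 hT ha' hb'
  have t1 : 1 ≤ T₀ := by linarith
  have j0 := mul_le_mul_of_nonneg_left (one_le_Jr t1) hδ.le
  have hd : 0 < 2 * δ / σ := by positivity
  refine ⟨fun α β h2 h3 h4 ε hε => ?_, fun α β h2 h3 h4 ε hε => ?_⟩
  · obtain ⟨s, t, s0, st, t1', es, et⟩ := inv (y := (α - x) / δ) (y' := (β - x) / δ) t1 hT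
      (by rw [lt_div_iff₀ hδ]; linarith) (div_lt_div_of_pos_right (by linarith) hδ)
      (by rw [div_lt_iff₀ hδ]; linarith)
    have hp : 0 < s * t := mul_pos (by linarith) (by linarith)
    obtain ⟨h, H⟩ := hL s t (le_trans (by linarith) (le_abs_self s))
      (le_trans (by linarith) (le_abs_self t)) st hp
    exact core hGOODC hLC hGLUE hEMB g fr ld hr hδ h0 h1 hκ ha hb hτ H st hp (by nlinarith)
      (by linarith) (by rw [es]; field_simp; ring) (by rw [et]; field_simp; ring) (by linarith) h3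
      (by linarith) (Or.inl (by linarith)) ε hε
  · obtain ⟨s, t, s0, st, t1', es, et⟩ := inv (y := (x - β) / δ) (y' := (x - α) / δ) t1 hT
      (by rw [lt_div_iff₀ hδ]; linarith) (div_lt_div_of_pos_right (by linarith) hδ)
      (by rw [div_lt_iff₀ hδ]; linarith)
    have hp : 0 < -t * -s := mul_pos_of_neg_of_neg (by linarith) (by linarith)
    obtain ⟨h, H⟩ := hL (-t) (-s) (le_trans (by linarith) (neg_le_abs (-t)))
      (le_trans (by linarith) (neg_le_abs (-s))) (by linarith) hp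
    exact core hGOODC hLC hGLUE hEMB g fr ld hr hδ h0 h1 hκ ha hb hτ H (by linarith) hp
      (by nlinarith) (by linarith) (by rw [Jr_neg, et]; field_simp; ring)
      (by rw [Jr_neg, es]; field_simp; ring) (by linarith) h3 (by linarith)
      (Or.inr (by linarith)) ε hε

end Pool.Agent.BAC
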