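import Pool.Agent.Lib.BAC.PT

/-! Gluing of subharmonic minorants. -/

namespace Pool.Agent.BAC

open Set Filter Topology Metric

namespace Glue

open Classical in
/-- the glued function -/
noncomputable def gl (Ω : Set ℂ) (u h : ℂ → ℝ) (z : ℂ) : ℝ :=
  if z ∈ Ω then max (u z) (h z) else h z

theorem gl_mem {Ω : Set ℂ} {u h : ℂ → ℝ} {z : ℂ} (hz : z ∈ Ω) : gl Ω u h z = max (u z) (h z) := by
  simp [gl, hz]

theorem gl_not {Ω : Set ℂ} {u h : ℂ → ℝ} {z : ℂ} (hz : z ∉ Ω) : gl Ω u h z = h z := by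
  simp [gl, hz]

theorem le_gl (Ω : Set ℂ) (u h : ℂ → ℝ) (z : ℂ) : h z ≤ gl Ω u h z := by
  by_cases hz : z ∈ Ω
  · rw [gl_mem hz]; exact le_max_right _ _
  · rw [gl_not hz]

theorem gl_le {Ω : Set ℂ} {u h : ℂ → ℝ} {z : ℂ} {M : ℝ} (h1 : z ∈ Ω → u z ≤ M) (h2 : h z ≤ M) :
    gl Ω u h z ≤ M := by
  by_cases hz : z ∈ Ω
  · rw [gl_mem hz]; exact max_le (h1 hz) h2
  · rw [gl_not hz]; exact h2

theorem ev_out {Ω : Set ℂ} {G u : ℂ → ℝ} (hΩ : IsOpen Ω) (hu : MinF Ω G u) {ζ : ℂ} (hζ : ζ ∉ Ω)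
    {M : ℝ} (hM : ζ ∈ frontier Ω → G ζ ≤ M) {η : ℝ} (hη : 0 < η) :
    ∀ᶠ z in 𝓝 ζ, z ∈ Ω → u z ≤ M + η := by
  by_cases hc : ζ ∈ closure Ω
  · have hf : ζ ∈ frontier Ω := by
      rw [hΩ.frontier_eq]; exact ⟨hc, hζ⟩
    have := eventually_nhdsWithin_iff.1 (hu.bd ζ hf η hη)
    filter_upwards [this] with z hz hzΩ
    linarith [hz hzΩ, hM hf]
  · have : (closure Ω)ᶜ ∈ 𝓝 ζ := isClosed_closure.isOpen_compl.mem_nhds hc
    filter_upwards [this] with z hz hzΩ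
    exact absurd (subset_closure hzΩ) hz

theorem ev_in {Ω : Set ℂ} {u h : ℂ → ℝ} (hΩ : IsOpen Ω) {z : ℂ} (hz : z ∈ Ω) :
    (fun y => max (u y) (h y)) =ᶠ[𝓝 z] gl Ω u h := by
  filter_upwards [hΩ.mem_nhds hz] with y hy
  exact (gl_mem hy).symm

theorem contAt {Ω Ω' : Set ℂ} {G G' u h : ℂ → ℝ} (hΩ : IsOpen Ω) (hΩ' : IsOpen Ω')
    (hu : MinF Ω G u) (hh : MinF Ω' G' h) (hG : ∀ ζ ∈ frontier Ω, ζ ∈ Ω' → G ζ ≤ h ζ)
    {z : ℂ} (hz : z ∈ Ω') : ContinuousAt (gl Ω u h) z := by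
  have hc : ContinuousAt h z := hh.cont.continuousAt (hΩ'.mem_nhds hz)
  by_cases hzΩ : z ∈ Ω
  · have hm : ContinuousAt (fun y => max (u y) (h y)) z :=
      (hu.cont.continuousAt (hΩ.mem_nhds hzΩ)).max hc
    exact hm.congr (ev_in hΩ hzΩ)
  · rw [Metric.continuousAt_iff']
    intro ε hε
    have h1 := ev_out hΩ hu hzΩ (M := h z) (fun hf => hG z hf hz) (half_pos hε)
    have h2 := Metric.continuousAt_iff'.1 hc (ε / 2) (half_pos hε)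
    filter_upwards [h1, h2] with y hy1 hy2
    rw [Real.dist_eq, abs_lt] at hy2
    rw [gl_not hzΩ, Real.dist_eq, abs_lt]
    have a1 := le_gl Ω u h y
    have a2 : gl Ω u h y ≤ h z + ε / 2 := gl_le hy1 (by linarith [hy2.2])
    constructor <;> linarith [hy2.1]

end Glue

open Glue in
theorem st_GLUE : St_GLUE := by
  intro Ω Ω' G G' G'' u h hΩ hΩ' hsub hu hh hG hG'
  refine ⟨gl Ω u h, ⟨fun z hz => (contAt hΩ hΩ' hu hh hG hz).continuousWithinAt,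
    fun z hz => ?_, fun z hz => (hh.nn z hz).trans (le_gl Ω u h z), fun ζ hζ η hη => ?_,
    fun η hη => ?_⟩, fun z hz => ?_⟩
  · by_cases hzΩ : z ∈ Ω
    · exact ((hu.sub z hzΩ).max (hh.sub z hz)).congr (ev_in hΩ hzΩ)
    · refine SubAt.of_ge (hh.sub z hz) ?_ (Eventually.of_forall fun y => le_gl Ω u h y)
        (gl_not hzΩ)
      filter_upwards [hΩ'.mem_nhds hz] with y hy
      exact contAt hΩ hΩ' hu hh hG hy
  · have hζ' : ζ ∉ Ω' := by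
      rw [hΩ'.frontier_eq] at hζ; exact hζ.2
    have h1 := ev_out hΩ hu (fun hh' => hζ' (hsub hh')) (M := G'' ζ) (fun _ => (hG' ζ hζ).1) hη
    filter_upwards [nhdsWithin_le_nhds h1, hh.bd ζ hζ η hη] with y hy1 hy2
    exact gl_le hy1 (by linarith [(hG' ζ hζ).2])
  · filter_upwards [hu.inf η hη, hh.inf η hη] with y hy1 hy2 hy
    exact gl_le hy1 (hy2 hy)
  · rw [gl_mem hz]; exact le_max_left _ _

end Pool.Agent.BAC
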