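import Pool.Agent.Lib.BAC.PT

/-! Block HARM of the ball and chain project: the harmonic part of the surface functions. -/

namespace Pool.Agent.BAC

open Set Filter Topology Metric Complex
open scoped ComplexConjugate Real

namespace Harm

theorem mv_sum (hANG : St_ANG) {n : ℕ} {α β : Fin n → ℝ} (hαβ : ∀ j, α j < β j)
    {χ : ℂ → ℂ} {z : ℂ} (hχ : AnalyticAt ℂ χ z) (hz : 0 < (χ z).im) :
    MV (fun y => 2 * ∑ j, ang (α j) (β j) (χ y)) z :=
  MV.const_mul 2 (MV.sum Finset.univ (u := fun j y => ang (α j) (β j) (χ y))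
    fun j _ => (hANG (α j) (β j) (hαβ j)).2.1 χ z hχ hz)

theorem nn_sum (hANG : St_ANG) {n : ℕ} {α β : Fin n → ℝ} (hαβ : ∀ j, α j < β j)
    {w : ℂ} (hw : 0 ≤ w.im) : 0 ≤ 2 * ∑ j, ang (α j) (β j) w :=
  mul_nonneg zero_le_two
    (Finset.sum_nonneg fun j _ => ((hANG (α j) (β j) (hαβ j)).1 w hw).1)

/-- local inverse at a point of the upper half plane over a prescribed value -/
theorem loc_inv (hLOCINV : St_LOCINV) {m : ℕ} (U : Uni m) {w z : ℂ} (hw : 0 < w.im)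
    (hz : U.F w = z) :
    ∃ χ : ℂ → ℂ, AnalyticAt ℂ χ z ∧ χ z = w ∧ Tendsto χ (𝓝 z) (𝓝 w) ∧
      ∀ᶠ y in 𝓝 z, U.F (χ y) = y ∧ 0 < (χ y).im := by
  obtain ⟨-, χ, h1, h2, h3, -⟩ := hLOCINV m U w hw
  rw [hz] at h1 h2 h3
  have ht : Tendsto χ (𝓝 z) (𝓝 w) := h2 ▸ h1.continuousAt.tendsto
  have hp : ∀ᶠ y in 𝓝 w, 0 < y.im := (isOpen_lt continuous_const continuous_im).mem_nhds hw
  exact ⟨χ, h1, h2, ht, h3.and (ht.eventually hp)⟩

theorem lab_le {n : ℕ} (c : Fin n → ℝ) (x : ℝ) : lab c x ≤ n := by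
  unfold lab
  exact (Finset.card_filter_le _ _).trans (by simp)

end Harm

open Harm in
theorem st_HARM (hANG : St_ANG) (hLOCINV : St_LOCINV) (hWLAB : St_WLAB) (hSHEET : St_SHEET) :
    St_HARM := by
  intro m U φ ε c α β hφ hε hef hαβ
  have hc : ∀ j, c j ∈ Icc (U.e j) (U.f j) := fun j => by
    rw [(hef j).1, (hef j).2]; constructor <;> linarith
  obtain ⟨ν, hν⟩ := hWLAB m U c hc
  have hS := hSHEET m U c ν hc hν
  -- the inverse branches on the lower sheets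
  have hex : ∀ (k : ℕ) (z : ℂ), ∃ w : ℂ, 0 < w.im ∧ (m + 1 < k → w = I) ∧
      (k ≤ m + 1 → z.im < 0 → U.F w = z ∧ ν w = k) := by
    intro k z
    by_cases h : k ≤ m + 1 ∧ z.im < 0
    · obtain ⟨w, h1, h2, h3⟩ := (hS k h.1 z h.2).exists
      exact ⟨w, h1, fun hk => absurd h.1 (by omega), fun _ _ => ⟨h2, h3⟩⟩
    · exact ⟨I, by simp, fun _ => rfl, fun h1 h2 => absurd ⟨h1, h2⟩ h⟩
  choose ψ hψ0 hψ1 hψ2 using hex
  have huniq : ∀ k ≤ m + 1, ∀ z w : ℂ, z.im < 0 → 0 < w.im → U.F w = z → ν w = k →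
      ψ k z = w := fun k hk z w hz h1 h2 h3 =>
    (hS k hk z hz).unique ⟨hψ0 k z, hψ2 k z hk hz⟩ ⟨h1, h2, h3⟩
  refine ⟨fun k z => 2 * ∑ j, ang (α j) (β j) (ψ k (conj z)),
    fun k z _ => nn_sum hANG hαβ (hψ0 k _).le, ?_, ?_, ?_⟩
  · intro z hz
    have hw : 0 < (φ z).im := hφ.pos z hz.le fun h => absurd h hz.ne'
    obtain ⟨χ, h1, h2, -, h4⟩ := loc_inv hLOCINV U hw (hφ.inv z hz.le).2.1
    refine (mv_sum hANG hαβ h1 (h2 ▸ hw)).congr ?_
    have h5 : ∀ᶠ y in 𝓝 z, 0 < y.im := (isOpen_lt continuous_const continuous_im).mem_nhds hz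
    filter_upwards [h4, h5] with y hy hy'
    have h6 : φ y = χ y := by
      have := hφ.left (χ y) hy.2 (by rw [hy.1]; exact hy'.le)
      rwa [hy.1] at this
    rw [h6]
  · intro k z hz
    by_cases hk : k ≤ m + 1
    · have hz' : (conj z).im < 0 := by simpa using hz
      refine MV.conj (u := fun y => 2 * ∑ j, ang (α j) (β j) (ψ k y)) ?_
      obtain ⟨h7, h8⟩ := hψ2 k (conj z) hk hz'
      obtain ⟨χ, h1, h2, h3, h4⟩ := loc_inv hLOCINV U (hψ0 k (conj z)) h7
      refine (mv_sum hANG hαβ h1 (h2 ▸ hψ0 k (conj z))).congr ?_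
      have h5 : ∀ᶠ y in 𝓝 (conj z), y.im < 0 :=
        (isOpen_lt continuous_im continuous_const).mem_nhds hz'
      have h6 := h3.eventually (hν.loc _ (hψ0 k (conj z)) (by rw [h7]; exact hz'))
      filter_upwards [h4, h5, h6] with y hy hy' hy''
      rw [huniq k hk y (χ y) hy' hy.2 hy.1 (hy''.trans h8)]
    · have h1 : ∀ y, ψ k y = I := fun y => hψ1 k y (by omega)
      simp only [h1]
      exact MV.const _ z
  · intro x hx
    have hx0 : (0 : ℝ) ≤ (x : ℂ).im := by simp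
    have hw : 0 < (φ x).im := by
      refine hφ.pos x hx0 fun _ j hj => ?_
      rw [(hef j).1, (hef j).2, ofReal_re] at hj
      have := hx j
      rw [lt_abs] at this
      rcases this with h | h <;> linarith [hj.1, hj.2]
    have hF : U.F (φ x) = x := (hφ.inv x hx0).2.1
    obtain ⟨χ, h1, h2, h3, h4⟩ := loc_inv hLOCINV U hw hF
    refine ⟨fun y => 2 * ∑ j, ang (α j) (β j) (χ y), mv_sum hANG hαβ h1 (h2 ▸ hw), ?_⟩
    have h6 := h3.eventually (hν.gap _ hw (by rw [hF]; simp))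
    have hcj : Tendsto (fun y : ℂ => conj y) (𝓝 (x : ℂ)) (𝓝 (x : ℂ)) := by
      have := continuous_conj.tendsto (x : ℂ)
      rwa [conj_ofReal] at this
    filter_upwards [h4, hcj.eventually (h4.and h6)] with y hy hy'
    constructor
    · intro h0
      have h7 : φ y = χ y := by
        have := hφ.left (χ y) hy.2 (by rw [hy.1]; exact h0)
        rwa [hy.1] at this
      rw [h7]
    · intro h0
      have hz' : (conj y).im < 0 := by simpa using h0
      have h8 : ν (χ (conj y)) = lab c x := by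
        have := hy'.2 (by rw [hy'.1.1]; exact hz')
        rwa [hF, ofReal_re] at this
      rw [huniq _ (lab_le c x) (conj y) (χ (conj y)) hz' hy'.1.2 hy'.1.1 h8]

end Pool.Agent.BAC
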