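import Pool.Agent.Lib.BAC.Blue

namespace Pool.Agent.BAC

open Set

namespace Iter

/-- every piece with `P` can be replaced by pieces with `Q`, gaining the factor `κ` -/
def Step (q κ : ℝ) (P Q : Pc → Prop) : Prop :=
  ∀ (Ω : Set ℂ) (p : Pc), Good Ω → OK Ω p → P p → ∃ (Ω' : Set ℂ) (l : List Pc), Conf Ω' l ∧
    (∀ p' ∈ l, p.a ≤ p'.a ∧ p'.b ≤ p.b) ∧ κ * ((p.b - p.a) * p.r ^ q) ≤ mass q l ∧
    (∀ p' : Pc, OK Ω p' → Sep p p' → OK Ω' p') ∧ ∀ p' ∈ l, Q p'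

theorem sep_mono {p p' s s' : Pc} (h : Sep p p') (h1 : p.a ≤ s.a ∧ s.b ≤ p.b)
    (h2 : p'.a ≤ s'.a ∧ s'.b ≤ p'.b) : Sep s s' := by
  rcases h with h | h
  · exact Or.inl (by linarith [h1.2, h2.1])
  · exact Or.inr (by linarith [h1.1, h2.2])

theorem all {q κ : ℝ} {P Q : Pc → Prop} (h : Step q κ P Q) (l : List Pc) : ∀ Ω : Set ℂ,
    Conf Ω l → (∀ p ∈ l, P p) → ∃ (Ω' : Set ℂ) (l' : List Pc), Conf Ω' l' ∧ (∀ p' ∈ l', Q p') ∧
      κ * mass q l ≤ mass q l' ∧ (∀ p' ∈ l', ∃ p ∈ l, p.a ≤ p'.a ∧ p'.b ≤ p.b) ∧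
      ∀ p', OK Ω p' → (∀ p ∈ l, Sep p p') → OK Ω' p' := by
  induction l with
  | nil => exact fun Ω hc _ => ⟨Ω, [], hc, by simp, by simp [mass], by simp, fun _ h _ => h⟩
  | cons p t ih =>
    intro Ω ⟨hG, hO, hS⟩ hP
    rw [List.pairwise_cons] at hS
    obtain ⟨Ω₁, l₁, c1, i1, m1, k1, q1⟩ := h Ω p hG (hO p List.mem_cons_self)
      (hP p List.mem_cons_self)
    obtain ⟨Ω₂, l₂, c2, q2, m2, i2, k2⟩ := ih Ω₁ ⟨c1.1, fun s hs =>
      k1 s (hO s (List.mem_cons_of_mem _ hs)) (hS.1 s hs), hS.2⟩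
      fun s hs => hP s (List.mem_cons_of_mem _ hs)
    refine ⟨Ω₂, l₁ ++ l₂, ⟨c2.1, fun s hs => ?_, ?_⟩, fun s hs => ?_, ?_, fun s hs => ?_,
      fun s h1 h2 => k2 s (k1 s h1 (h2 p List.mem_cons_self))
        fun s' hs' => h2 s' (List.mem_cons_of_mem _ hs')⟩
    · rcases List.mem_append.1 hs with hs | hs
      · exact k2 s (c1.2.1 s hs) fun s' hs' =>
          sep_mono (hS.1 s' hs').symm ⟨le_rfl, le_rfl⟩ (i1 s hs)
      · exact c2.2.1 s hs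
    · refine List.pairwise_append.2 ⟨c1.2.2, c2.2.2, fun s hs s' hs' => ?_⟩
      obtain ⟨p', hp', e⟩ := i2 s' hs'
      exact sep_mono (hS.1 p' hp') (i1 s hs) e
    · exact (List.mem_append.1 hs).elim (q1 s) (q2 s)
    · simp only [mass, List.map_cons, List.sum_cons, List.map_append, List.sum_append] at m1 m2 ⊢
      linarith
    · rcases List.mem_append.1 hs with hs | hs
      · exact ⟨p, List.mem_cons_self, i1 s hs⟩
      · obtain ⟨p', hp', e⟩ := i2 s hs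
        exact ⟨p', List.mem_cons_of_mem _ hp', e⟩

theorem split (q : ℝ) : Step q 1 (fun _ => True) fun p => p.b - p.a ≤ p.τ := by
  intro Ω p hG ⟨h0, hab, h1, hr, hτ, hF, hL⟩ _
  obtain ⟨N, hN⟩ := exists_nat_gt ((p.b - p.a) / p.τ)
  have hN0 : (0 : ℝ) < N := lt_trans (div_pos (sub_pos.2 hab) hτ) hN
  obtain ⟨h, hh⟩ : ∃ h : ℝ, h = (p.b - p.a) / N := ⟨_, rfl⟩
  have hp : 0 < h := hh ▸ div_pos (sub_pos.2 hab) hN0
  have hNh : N * h = p.b - p.a := by rw [hh]; field_simp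
  have hτ' : h ≤ p.τ := by
    rw [div_lt_iff₀ hτ] at hN
    rw [hh, div_le_iff₀ hN0]; linarith
  have hin : ∀ s ∈ (List.range N).map fun i : ℕ => (⟨p.a + i * h, p.a + (i + 1) * h, p.r, p.τ⟩ : Pc),
      p.a ≤ s.a ∧ s.b ≤ p.b ∧ s.b - s.a = h ∧ s.r = p.r ∧ s.τ = p.τ := by
    intro s hs
    obtain ⟨i, hi, rfl⟩ := List.mem_map.1 hs
    have : (i : ℝ) + 1 ≤ N := by exact_mod_cast List.mem_range.1 hi
    have h2 : (0 : ℝ) ≤ i := Nat.cast_nonneg i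
    exact ⟨by simp only; nlinarith, by simp only; nlinarith, by ring, rfl, rfl⟩
  refine ⟨Ω, _, ⟨hG, fun s hs => ?_, ?_⟩, fun s hs => ⟨(hin s hs).1, (hin s hs).2.1⟩, ?_,
    fun _ h _ => h, fun s hs => ?_⟩
  · obtain ⟨a1, a2, a3, a4, a5⟩ := hin s hs
    refine ⟨by linarith, by linarith, by linarith, a4 ▸ hr, a5 ▸ hτ,
      fun z hz z1 z2 z3 => hF z hz (by linarith) (by linarith) (a5 ▸ z3),
      fun α β b1 b2 b3 => a4 ▸ hL α β (by linarith) b2 (by linarith)⟩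
  · rw [List.pairwise_map]
    refine List.pairwise_lt_range.imp fun {i j} hij => Or.inl ?_
    have : (i : ℝ) + 1 ≤ j := by exact_mod_cast hij
    simp only
    nlinarith
  · rw [mass, List.map_congr_left (g := fun _ => h * p.r ^ q) fun s hs => by
      rw [(hin s hs).2.2.1, (hin s hs).2.2.2.1]]
    simp only [List.map_const', List.sum_replicate, List.length_map, List.length_range,
      nsmul_eq_mul]
    rw [← hNh, one_mul, mul_assoc]
  · exact (hin s hs).2.2.1.le.trans (hτ'.trans (hin s hs).2.2.2.2.ge)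

end Iter

theorem st_ITER (hREF : St_REF) (hBASE : St_BASE) : St_ITER := by
  intro q hq K
  obtain ⟨g, hg, hR⟩ := hREF q hq
  have hS : Iter.Step q (1 + g) (fun p => p.b - p.a ≤ p.τ) fun _ => True := fun Ω p h1 h2 h3 => by
    obtain ⟨Ω', l, a, b, c, d⟩ := hR Ω p h1 h2 h3
    exact ⟨Ω', l, a, b, c, d, fun _ _ => trivial⟩
  have h0 : (0 : ℝ) < (1 / 20) ^ q := by positivity
  have key : ∀ k : ℕ, ∃ (Ω : Set ℂ) (l : List Pc), Conf Ω l ∧
      (1 + g) ^ k * (1 / 20) ^ q ≤ mass q l := by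
    intro k
    induction k with
    | zero => exact ⟨_, _, hBASE, by simp [mass]⟩
    | succ k ih =>
      obtain ⟨Ω, l, hc, hm⟩ := ih
      obtain ⟨Ω₁, l₁, c1, q1, m1, -⟩ := Iter.all (Iter.split q) l Ω hc fun _ _ => trivial
      obtain ⟨Ω₂, l₂, c2, -, m2, -⟩ := Iter.all hS l₁ Ω₁ c1 q1
      refine ⟨Ω₂, l₂, c2, le_trans ?_ m2⟩
      rw [pow_succ', mul_assoc]
      exact mul_le_mul_of_nonneg_left (by linarith) (by linarith)
  obtain ⟨k, hk⟩ := pow_unbounded_of_one_lt (K / (1 / 20) ^ q) (show 1 < 1 + g by linarith)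
  obtain ⟨Ω, l, hc, hm⟩ := key k
  exact ⟨Ω, l, hc, le_trans ((div_lt_iff₀ h0).1 hk).le hm⟩

end Pool.Agent.BAC
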