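import Pool.Agent.Lib.BAC.PT

namespace Pool.Agent.BAC

open Set Filter Topology Metric Complex

theorem st_KEEP (hGOODC : St_GOODC) (hGLUE : St_GLUE) : St_KEEP := by
  intro Ω a b τ x δ σ a' b' r hG hF hδ hσ hσ1 ha hb hτ hsep hL α β h1 h2 h3 η hη
  obtain ⟨u, hu, hu'⟩ := hL α β h1 h2 h3 η hη
  have hG' := hGOODC Ω a b τ x δ σ hG hF hδ hσ hσ1 ha hb hτ
  have h0 : ∀ ζ : ℂ, 0 ≤ DR ((Icc α β).indicator 1) ζ := fun ζ => by
    unfold DR
    split_ifs
    · exact indicator_nonneg (fun _ _ => zero_le_one) _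
    · exact le_rfl
  obtain ⟨u', h4, h5⟩ := hGLUE Ω (Ω ∪ Cav x δ σ) _ _ (DR ((Icc α β).indicator 1)) u (fun _ => 0)
    hG.1 hG'.1 subset_union_left hu (MinF.zero fun ζ _ => h0 ζ) (fun ζ hζ hζ' => by
      have h6 : ζ ∈ Cav x δ σ := hζ'.resolve_left (hG.1.frontier_eq ▸ hζ).2
      unfold DR
      split_ifs with h7
      · have h8 := abs_lt.1 h6.2.2
        rw [h7, zero_div, sub_zero] at h8
        refine (indicator_of_notMem (fun h9 => ?_) _).le
        rcases hsep with h | h <;> linarith [h9.1, h9.2, h8.1, h8.2]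
      · exact le_rfl) fun ζ _ => ⟨le_rfl, le_rfl⟩
  exact ⟨u', h4, hu'.trans (h5 zb (hG.2.1 zb (by simp [zb])))⟩

end Pool.Agent.BAC
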