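import Pool.Agent.Lib.BAC.Blue

/-! The integral of the angle function over the upper unit semicircle. -/

namespace Pool.Agent.BAC

open Set Filter Topology Metric Complex
open scoped ComplexConjugate Real

namespace Kint

/-- the upper semicircle -/
noncomputable def sc (y : ℝ) : ℂ := y + Real.sqrt (1 - y ^ 2) * I

lemma sc_re (y : ℝ) : (sc y).re = y := by simp [sc]

lemma sc_im (y : ℝ) : (sc y).im = Real.sqrt (1 - y ^ 2) := by simp [sc]

lemma cont_sc : Continuous sc := by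
  unfold sc
  fun_prop

lemma arg_cw {z : ℂ} (h0 : z ≠ 0) :
    ContinuousWithinAt arg {z : ℂ | 0 ≤ z.im} z := by
  by_cases hs : z ∈ slitPlane
  · exact (continuousAt_arg hs).continuousWithinAt
  · rw [mem_slitPlane_iff, not_or, not_lt, not_not] at hs
    refine continuousWithinAt_arg_of_re_neg_of_im_zero (lt_of_le_of_ne hs.1 fun h => h0 ?_) hs.2
    exact Complex.ext h hs.2

lemma cont_arg {τ : ℝ} (hτ : 1 < |τ|) :
    ContinuousOn (fun y : ℝ => arg (sc y - τ)) (Icc (-1) 1) := by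
  intro y hy
  have h0 : sc y - τ ≠ 0 := by
    intro h
    have h1 := congrArg Complex.re h
    simp only [sub_re, sc_re, ofReal_re, zero_re] at h1
    have h2 : τ = y := by linarith
    rw [h2] at hτ
    exact absurd (abs_le.2 hy) (not_le.2 hτ)
  have him : ∀ x : ℝ, 0 ≤ (sc x - τ).im := fun x => by
    simp only [sub_im, sc_im, ofReal_im, sub_zero]
    exact Real.sqrt_nonneg _
  have hc : Continuous fun x : ℝ => sc x - τ := cont_sc.sub continuous_const
  exact (arg_cw h0).comp (f := fun x : ℝ => sc x - τ) hc.continuousWithinAt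
    fun x _ => him x

lemma deriv_sqrt {y : ℝ} (hy : y ∈ Ioo (-1 : ℝ) 1) :
    HasDerivAt (fun x : ℝ => Real.sqrt (1 - x ^ 2)) (-y / Real.sqrt (1 - y ^ 2)) y := by
  have hp : 0 < 1 - y ^ 2 := by nlinarith [hy.1, hy.2]
  have h1 : HasDerivAt (fun x : ℝ => 1 - x ^ 2) (-(2 * y)) y := by
    simpa using (hasDerivAt_pow 2 y).const_sub 1
  have h2 := h1.sqrt hp.ne'
  have h3 : -(2 * y) / (2 * Real.sqrt (1 - y ^ 2)) = -y / Real.sqrt (1 - y ^ 2) := by
    have := (Real.sqrt_pos.2 hp).ne'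
    field_simp
  rwa [h3] at h2

lemma deriv_arg {τ y : ℝ} (hy : y ∈ Ioo (-1 : ℝ) 1) :
    HasDerivAt (fun x : ℝ => arg (sc x - τ))
      (-(1 - τ * y) / ((1 - 2 * τ * y + τ ^ 2) * Real.sqrt (1 - y ^ 2))) y := by
  have hp : 0 < 1 - y ^ 2 := by nlinarith [hy.1, hy.2]
  have hq : 0 < Real.sqrt (1 - y ^ 2) := Real.sqrt_pos.2 hp
  have hq2 : Real.sqrt (1 - y ^ 2) ^ 2 = 1 - y ^ 2 := Real.sq_sqrt hp.le
  have h1 : HasDerivAt (fun x : ℝ => sc x - τ)
      (((1 : ℝ) : ℂ) + ((-y / Real.sqrt (1 - y ^ 2) : ℝ) : ℂ) * I) y :=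
    ((hasDerivAt_id y).ofReal_comp.add ((deriv_sqrt hy).ofReal_comp.mul_const I)).sub_const _
  have hs : sc y - τ ∈ slitPlane := Or.inr (by simpa [sc_im] using hq.ne')
  have h2 := imCLM.hasFDerivAt.comp_hasDerivAt y (h1.clog_real hs)
  have hn : normSq (sc y - τ) = 1 - 2 * τ * y + τ ^ 2 := by
    rw [normSq_apply]
    simp only [sub_re, sc_re, ofReal_re, sub_im, sc_im, ofReal_im, sub_zero]
    nlinarith
  have hn0 : 1 - 2 * τ * y + τ ^ 2 ≠ 0 := by
    rw [← hn]
    exact (normSq_pos.2 (slitPlane_ne_zero hs)).ne'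
  have h3 : imCLM ((((1 : ℝ) : ℂ) + ((-y / Real.sqrt (1 - y ^ 2) : ℝ) : ℂ) * I) / (sc y - τ)) =
      -(1 - τ * y) / ((1 - 2 * τ * y + τ ^ 2) * Real.sqrt (1 - y ^ 2)) := by
    rw [imCLM_apply, div_im, hn]
    simp only [add_im, ofReal_im, mul_im, ofReal_re, I_im, I_re, add_re, mul_re, sub_re, sc_re,
      sub_im, sc_im, mul_one, mul_zero, add_zero, zero_add, sub_zero]
    generalize 1 - 2 * τ * y + τ ^ 2 = N at hn0
    generalize Real.sqrt (1 - y ^ 2) = q at hq hq2
    have := hq.ne'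
    field_simp
    linear_combination (-1) * hq2
  rw [h3] at h2
  exact h2.congr_of_eventuallyEq (Eventually.of_forall fun s => (log_im _).symm)

lemma int_arg {τ : ℝ} (hτ : 1 < |τ|) :
    ∫ y in (-1 : ℝ)..1, arg (sc y - τ) =
      arg (1 - (τ : ℂ)) * (1 - Jr τ) - arg (-1 - (τ : ℂ)) * (-1 - Jr τ) - π / (2 * τ) := by
  have hτ0 : τ ≠ 0 := by
    rintro rfl
    norm_num at hτ
  have hc := cont_arg hτ
  have key := intervalIntegral.integral_eq_sub_of_hasDerivAt_of_le (a := -1) (b := 1)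
    (f := fun y : ℝ => arg (sc y - τ) * (y - Jr τ) - Real.sqrt (1 - y ^ 2) / 2 +
      Real.arccos y / (2 * τ)) (f' := fun y : ℝ => arg (sc y - τ)) (by norm_num)
    (((hc.mul (by fun_prop)).sub (by fun_prop)).add
      (Real.continuous_arccos.div_const _).continuousOn) (fun y hy => by
      have hp : 0 < 1 - y ^ 2 := by nlinarith [hy.1, hy.2]
      have hq : 0 < Real.sqrt (1 - y ^ 2) := Real.sqrt_pos.2 hp
      have h1 := (((deriv_arg (τ := τ) hy).mul ((hasDerivAt_id y).sub_const (Jr τ))).sub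
        ((deriv_sqrt hy).div_const 2)).add
        ((Real.hasDerivAt_arccos hy.1.ne' hy.2.ne).div_const (2 * τ))
      have hn0 : 1 - 2 * τ * y + τ ^ 2 ≠ 0 := by
        have : 0 < 1 - 2 * τ * y + τ ^ 2 := by nlinarith [sq_nonneg (τ - y)]
        exact this.ne'
      refine h1.congr_deriv ?_
      have e : y - Jr τ = -(1 - 2 * τ * y + τ ^ 2) / (2 * τ) := by
        simp only [Jr]
        field_simp
        ring
      simp only [id]
      rw [e]
      generalize 1 - 2 * τ * y + τ ^ 2 = N at hn0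
      generalize Real.sqrt (1 - y ^ 2) = q at hq
      have := hq.ne'
      field_simp
      ring) (hc.intervalIntegrable_of_Icc (by norm_num))
  rw [key]
  simp [sc]
  ring

end Kint

theorem st_KINT : St_KINT := by
  intro s t hs ht hst hpos
  have i1 := (Kint.cont_arg hs).intervalIntegrable_of_Icc (μ := MeasureTheory.volume)
    (by norm_num)
  have i2 := (Kint.cont_arg ht).intervalIntegrable_of_Icc (μ := MeasureTheory.volume)
    (by norm_num)
  have e : ∫ y in (-1 : ℝ)..1, ang s t (y + Real.sqrt (1 - y ^ 2) * I) =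
      ((∫ y in (-1 : ℝ)..1, arg (Kint.sc y - t)) - ∫ y in (-1 : ℝ)..1, arg (Kint.sc y - s)) / π := by
    rw [← intervalIntegral.integral_sub i2 i1, ← intervalIntegral.integral_div]
    rfl
  have hs0 : s ≠ 0 := left_ne_zero_of_mul hpos.ne'
  have ht0 : t ≠ 0 := right_ne_zero_of_mul hpos.ne'
  have hπ := Real.pi_pos.ne'
  rw [e, Kint.int_arg hs, Kint.int_arg ht]
  rcases pos_and_pos_or_neg_and_neg_of_mul_pos hpos with h | h
  · rw [abs_of_pos h.1] at hs
    rw [abs_of_pos h.2] at ht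
    have a : ∀ τ : ℝ, 1 < τ → arg (1 - (τ : ℂ)) = π ∧ arg (-1 - (τ : ℂ)) = π := fun τ hτ =>
      ⟨arg_eq_pi_iff.2 ⟨by simpa using hτ, by simp⟩,
        arg_eq_pi_iff.2 ⟨by simp; linarith, by simp⟩⟩
    rw [(a s hs).1, (a s hs).2, (a t ht).1, (a t ht).2]
    field_simp
    ring
  · rw [abs_of_neg h.1] at hs
    rw [abs_of_neg h.2] at ht
    have a : ∀ τ : ℝ, 1 < -τ → arg (1 - (τ : ℂ)) = 0 ∧ arg (-1 - (τ : ℂ)) = 0 := fun τ hτ =>
      ⟨arg_eq_zero_iff.2 ⟨by simp; linarith, by simp⟩,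
        arg_eq_zero_iff.2 ⟨by simp; linarith, by simp⟩⟩
    rw [(a s hs).1, (a s hs).2, (a t ht).1, (a t ht).2]
    field_simp
    ring

end Pool.Agent.BAC
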