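import Pool.Agent.Lib.BAC.Blue

/-! The locally constant label of pairs of conjugate points of a simply connected domain. -/

namespace Pool.Agent.BAC

open Set Filter Topology Metric Complex
open scoped ComplexConjugate Real

namespace LAB

lemma round_ev {K : ℂ → ℝ} {l : Filter ℂ} {m : ℤ} (h : Tendsto K l (𝓝 (m : ℝ))) :
    ∀ᶠ y in l, round (K y) = m := by
  have h1 : Ioo ((m : ℝ) - 1 / 2) (m + 1 / 2) ∈ 𝓝 (m : ℝ) :=
    Ioo_mem_nhds (by linarith) (by linarith)
  filter_upwards [h h1] with y hy
  rw [round_eq, Int.floor_eq_iff]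
  exact ⟨by linarith [hy.1], by linarith [hy.2]⟩

lemma single (c : ℝ) {Ω : Set ℂ} (ho : IsOpen Ω) (hs : IsSimplyConnected Ω) (hc : (c : ℂ) ∉ Ω) :
    ∃ k : ℂ → ℤ, (∀ z : ℂ, 0 < z.im → z ∈ Ω → conj z ∈ Ω → ∀ᶠ y in 𝓝 z, k y = k z) ∧
      ∀ x : ℝ, (x : ℂ) ∈ Ω → ∀ᶠ z in 𝓝 (x : ℂ), 0 < z.im → k z = if x < c then 1 else 0 := by
  obtain ⟨L, hL, hE⟩ := exists_continuousOn_eqOn_exp_comp hs ho (g := fun z => z - c)
    (by fun_prop) (by
      rintro ⟨z, hz, h0⟩
      exact hc (sub_eq_zero.1 h0 ▸ hz))
  have hπ : (2 * π) ≠ 0 := by positivity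
  have hD : ∀ z : ℂ, z ∈ Ω → conj z ∈ Ω →
      ContinuousAt (fun y => (L (conj y)).im - (L y).im) z := fun z h1 h2 =>
    (continuous_im.continuousAt.comp (ContinuousAt.comp (f := fun y : ℂ => conj y)
      (hL.continuousAt (ho.mem_nhds h2)) continuous_conj.continuousAt)).sub
      (continuous_im.continuousAt.comp (hL.continuousAt (ho.mem_nhds h1)))
  refine ⟨fun y => round (((L (conj y)).im - (L y).im + 2 * arg (y - c)) / (2 * π)), ?_, ?_⟩
  · intro z hz h1 h2
    have hw : z - c ≠ 0 := fun h => hc (sub_eq_zero.1 h ▸ h1)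
    have hn : ((‖z - c‖ : ℝ) : ℂ) ≠ 0 := by exact_mod_cast norm_ne_zero_iff.2 hw
    have e1 : exp (L z) = ‖z - c‖ * exp (arg (z - c) * I) := by
      rw [norm_mul_exp_arg_mul_I]
      exact hE h1
    have e2 : exp (L (conj z)) = ‖z - c‖ * exp (-(arg (z - c) * I)) := by
      have h3 := congrArg conj (norm_mul_exp_arg_mul_I (z - c))
      rw [map_mul, ← exp_conj, map_mul, conj_ofReal, conj_ofReal, conj_I, mul_neg, map_sub,
        conj_ofReal] at h3
      rw [h3]
      exact hE h2
    have e3 : exp (L (conj z) - L z + 2 * (arg (z - c) * I)) = 1 := by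
      rw [exp_add, exp_sub, e1, e2, two_mul, exp_add, exp_neg]
      field_simp
    obtain ⟨m, hm⟩ := exp_eq_one_iff.1 e3
    have e4 : ((L (conj z)).im - (L z).im + 2 * arg (z - c)) / (2 * π) = m := by
      have h4 := congrArg im hm
      rw [div_eq_iff hπ]
      simpa using h4
    have hA : ContinuousAt (fun y : ℂ => arg (y - c)) z :=
      ContinuousAt.comp (f := fun y : ℂ => y - c)
        (continuousAt_arg (Or.inr (by simpa using hz.ne'))) (by fun_prop)
    have hK : ContinuousAt
        (fun y => ((L (conj y)).im - (L y).im + 2 * arg (y - c)) / (2 * π)) z :=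
      ((hD z h1 h2).add (continuousAt_const.mul hA)).div_const _
    have h5 := hK.tendsto
    simp only [e4] at h5 ⊢
    rw [round_intCast]
    exact round_ev h5
  · intro x hx
    have hxc : x ≠ c := fun h => hc (h ▸ hx)
    have hA : ContinuousWithinAt (fun y : ℂ => arg (y - c)) {y : ℂ | 0 < y.im} x := by
      rcases lt_or_gt_of_ne hxc with h | h
      · exact ContinuousWithinAt.comp (f := fun y : ℂ => y - c)
          (continuousWithinAt_arg_of_re_neg_of_im_zero (by simpa using h) (by simp))
          (by fun_prop) fun y hy => by simpa using le_of_lt hy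
      · exact (ContinuousAt.comp (f := fun y : ℂ => y - c)
          (continuousAt_arg (Or.inl (by simpa using h))) (by fun_prop)).continuousWithinAt
    have hK : ContinuousWithinAt
        (fun y => ((L (conj y)).im - (L y).im + 2 * arg (y - c)) / (2 * π)) {y : ℂ | 0 < y.im} x :=
      ((hD x hx (by simpa using hx)).continuousWithinAt.add
        (continuousWithinAt_const.mul hA)).div_const _
    have e4 : ((L (conj (x : ℂ))).im - (L x).im + 2 * arg ((x : ℂ) - c)) / (2 * π) =
        ((if x < c then 1 else 0 : ℤ) : ℝ) := by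
      rw [conj_ofReal, sub_self, zero_add, ← ofReal_sub, div_eq_iff hπ]
      split_ifs with h
      · rw [arg_ofReal_of_neg (by linarith)]
        simp
      · rw [arg_ofReal_of_nonneg (by linarith)]
        simp
    have h5 := hK.tendsto
    simp only [e4] at h5
    exact eventually_nhdsWithin_iff.1 (round_ev h5)

end LAB

theorem st_LAB : St_LAB := by
  intro n c Ω ho hs hc
  choose k h1 h2 using fun j => LAB.single (c j) ho hs (hc j)
  refine ⟨fun z => (∑ j, k j z).toNat, fun z hz a b => ?_, fun x hx => ?_⟩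
  · filter_upwards [eventually_all.2 fun j => h1 j z hz a b] with y hy
    simp only [hy]
  · filter_upwards [eventually_all.2 fun j => h2 j x hx] with y hy hy0
    simp only [fun j => hy j hy0]
    rw [Finset.sum_boole, Int.toNat_natCast, lab]

end Pool.Agent.BAC
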