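import Pool.Agent.Lib.BAC.Blue

/-! Layer cake bound for the mass of a list of pieces. -/

namespace Pool.Agent.BAC

open Finset

namespace LAYER

lemma pt {q r : ℝ} (hq : 0 < q) (hr : 0 < r) (N : ℕ) (h : r < 2 ^ N) :
    r ^ q ≤ 1 + ∑ k ∈ range N, ((2 : ℝ) ^ (k + 1)) ^ q * if (2 : ℝ) ^ k ≤ r then 1 else 0 := by
  have h0 : ∀ k : ℕ, 0 ≤ ((2 : ℝ) ^ (k + 1)) ^ q * if (2 : ℝ) ^ k ≤ r then 1 else 0 := fun k =>
    mul_nonneg (by positivity) (by split_ifs <;> norm_num)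
  induction N with
  | zero => simpa using Real.rpow_le_one hr.le (by simpa using h.le) hq.le
  | succ N ih =>
    rw [sum_range_succ]
    by_cases h1 : r < 2 ^ N
    · linarith [ih h1, h0 N]
    · rw [if_pos (not_lt.1 h1), mul_one]
      linarith [Real.rpow_le_rpow hr.le h.le hq.le, sum_nonneg fun k (_ : k ∈ range N) => h0 k]

lemma lst {q : ℝ} (hq : 0 < q) (N : ℕ) (l : List Pc)
    (h : ∀ p ∈ l, p.a < p.b ∧ 0 < p.r ∧ p.r < 2 ^ N) :
    mass q l ≤ (l.map fun p => p.b - p.a).sum +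
      ∑ k ∈ range N, ((2 : ℝ) ^ (k + 1)) ^ q * lenGe (2 ^ k) l := by
  induction l with
  | nil => simp [mass, lenGe]
  | cons p l ih =>
    obtain ⟨h1, h2, h3⟩ := h p List.mem_cons_self
    have h4 := ih fun p hp => h p (List.mem_cons_of_mem _ hp)
    have h5 := mul_le_mul_of_nonneg_left (pt hq h2 N h3) (sub_pos.2 h1).le
    rw [mul_add, mul_one, mul_sum] at h5
    have h6 : ∑ k ∈ range N, ((2 : ℝ) ^ (k + 1)) ^ q * lenGe (2 ^ k) (p :: l) =
        ∑ k ∈ range N, (p.b - p.a) * (((2 : ℝ) ^ (k + 1)) ^ q *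
          if (2 : ℝ) ^ k ≤ p.r then 1 else 0) +
        ∑ k ∈ range N, ((2 : ℝ) ^ (k + 1)) ^ q * lenGe (2 ^ k) l := by
      rw [← sum_add_distrib]
      refine sum_congr rfl fun k _ => ?_
      simp only [lenGe, List.map_cons, List.sum_cons]
      split_ifs <;> ring
    rw [h6]
    simp only [mass, List.map_cons, List.sum_cons] at h4 ⊢
    linarith

lemma bdd (l : List Pc) : ∃ N : ℕ, ∀ p ∈ l, p.r < 2 ^ N := by
  induction l with
  | nil => exact ⟨0, by simp⟩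
  | cons p l ih =>
    obtain ⟨N, hN⟩ := ih
    obtain ⟨M, hM⟩ := pow_unbounded_of_one_lt p.r (one_lt_two (α := ℝ))
    refine ⟨max N M, fun p' hp' => ?_⟩
    rcases List.mem_cons.1 hp' with rfl | h
    · exact hM.trans_le (pow_le_pow_right₀ one_le_two (le_max_right _ _))
    · exact (hN _ h).trans_le (pow_le_pow_right₀ one_le_two (le_max_left _ _))

end LAYER

theorem st_LAYER : St_LAYER := by
  intro q P K hq hP hK
  have ht0 : (0 : ℝ) ≤ 2 ^ (q - P) := by positivity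
  have ht1 : (2 : ℝ) ^ (q - P) < 1 := Real.rpow_lt_one_of_one_lt_of_neg one_lt_two (sub_neg.2 hP)
  refine ⟨1 + K * 2 ^ q * (1 - 2 ^ (q - P))⁻¹, fun l h1 h2 h3 => ?_⟩
  obtain ⟨N, hN⟩ := LAYER.bdd l
  refine (LAYER.lst hq N l fun p hp => ⟨(h1 p hp).1, (h1 p hp).2, hN p hp⟩).trans
    (add_le_add h2 ?_)
  have h4 : ∀ k ∈ range N, ((2 : ℝ) ^ (k + 1)) ^ q * lenGe (2 ^ k) l ≤
      K * 2 ^ q * (2 ^ (q - P)) ^ k := fun k _ => by
    refine (mul_le_mul_of_nonneg_left (h3 _ (by positivity)) (by positivity)).trans_eq ?_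
    rw [pow_succ, Real.mul_rpow (by positivity) (by positivity), Real.rpow_sub two_pos, div_pow,
      ← Real.rpow_pow_comm zero_le_two, ← Real.rpow_pow_comm zero_le_two]
    ring
  refine (sum_le_sum h4).trans ?_
  rw [← mul_sum]
  refine mul_le_mul_of_nonneg_left ?_ (by positivity)
  rw [← tsum_geometric_of_lt_one ht0 ht1]
  exact (summable_geometric_of_lt_one ht0 ht1).sum_le_tsum _ fun k _ => pow_nonneg ht0 k

end Pool.Agent.BAC
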