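import Pool.Agent.Lib.BAC.PT

/-! From a lower density bound on intervals to continuous boundary weights. -/

namespace Pool.Agent.BAC

open Set Filter Topology Metric Complex MeasureTheory

namespace LC

/-- the weight `h` on `[s, t)` has minorants up to the defect `ε (t - s)` -/
def P (Ω : Set ℂ) (r ε : ℝ) (h : ℝ → ℝ) (s t : ℝ) : Prop :=
  ∀ η > 0, ∃ u, MinF Ω (DR ((Ico s t).indicator h)) u ∧
    r * ((∫ y in s..t, h y) - ε * (t - s)) - η ≤ u zb

theorem DR_mono {g g' : ℝ → ℝ} (h : ∀ y, g y ≤ g' y) (ζ : ℂ) : DR g ζ ≤ DR g' ζ := by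
  unfold DR
  split_ifs
  · exact h _
  · exact le_rfl

theorem P_refl (Ω : Set ℂ) (r ε : ℝ) (h : ℝ → ℝ) (s : ℝ) : P Ω r ε h s s := fun η hη =>
  ⟨fun _ => 0, MinF.zero fun ζ _ => by simp [DR], by simp [hη.le]⟩

theorem P_trans {Ω : Set ℂ} {r ε : ℝ} {h : ℝ → ℝ} {s t w : ℝ} (hst : s ≤ t) (htw : t ≤ w)
    (i1 : IntervalIntegrable h volume s t) (i2 : IntervalIntegrable h volume t w)
    (h1 : P Ω r ε h s t) (h2 : P Ω r ε h t w) : P Ω r ε h s w := by
  intro η hη
  obtain ⟨u, hu, hu'⟩ := h1 (η / 2) (by linarith)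
  obtain ⟨v, hv, hv'⟩ := h2 (η / 2) (by linarith)
  refine ⟨_, (hu.add hv).mono fun ζ _ => le_of_eq ?_, ?_⟩
  · unfold DR
    split_ifs
    · rw [← Ico_union_Ico_eq_Ico hst htw, indicator_union_of_disjoint Ico_disjoint_Ico_same]
    · exact add_zero _
  · rw [← intervalIntegral.integral_add_adjacent_intervals i1 i2]
    nlinarith

theorem P_base {Ω : Set ℂ} {a b r ε s t : ℝ} {h : ℝ → ℝ} (hL : LD Ω a b r) (hr : 0 ≤ r)
    (has : a < s) (hst : s < t) (htb : t < b) (i1 : IntervalIntegrable h volume s t)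
    (h0 : ∀ y, 0 ≤ h y) (hc : ∀ y ∈ Icc s t, |h y - h s| ≤ ε / 2) : P Ω r ε h s t := by
  intro η hη
  obtain ⟨m, hm0, hm1, hm2⟩ : ∃ m : ℝ, 0 ≤ m ∧ (∀ y ∈ Icc s t, m ≤ h y) ∧
      ∀ y ∈ Icc s t, h y ≤ m + ε :=
    ⟨max 0 (h s - ε / 2), le_max_left _ _,
      fun y hy => max_le (h0 y) (by linarith [(abs_le.1 (hc y hy)).1]),
      fun y hy => by linarith [(abs_le.1 (hc y hy)).2, le_max_right 0 (h s - ε / 2)]⟩
  have hmr : 0 ≤ m * r := mul_nonneg hm0 hr
  obtain ⟨θ, hθ0, hθ1, hθ2⟩ : ∃ θ : ℝ, 0 < θ ∧ θ < t - s ∧ m * r * θ ≤ η / 2 := by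
    refine ⟨min ((t - s) / 2) (η / 2 / (m * r + 1)), lt_min (by linarith) (by positivity),
      (min_le_left _ _).trans_lt (by linarith), ?_⟩
    refine (mul_le_mul_of_nonneg_left (min_le_right _ _) hmr).trans ?_
    rw [← mul_div_assoc, div_le_iff₀ (by linarith)]
    nlinarith
  obtain ⟨u, hu, hu'⟩ := hL s (t - θ) has (by linarith) (by linarith) (η / 2 / (m + 1))
    (by positivity)
  refine ⟨_, (hu.const_mul hm0).mono fun ζ _ => ?_, ?_⟩
  · unfold DR
    split_ifs
    · by_cases hζ : ζ.re ∈ Icc s (t - θ)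
      · rw [indicator_of_mem hζ, indicator_of_mem (show ζ.re ∈ Ico s t from
          ⟨hζ.1, by linarith [hζ.2]⟩), Pi.one_apply, mul_one]
        exact hm1 _ ⟨hζ.1, by linarith [hζ.2]⟩
      · rw [indicator_of_notMem hζ, mul_zero]
        exact indicator_nonneg (fun y _ => h0 y) _
    · exact (mul_zero m).le
  · have e1 : ∫ y in s..t, h y ≤ (t - s) * (m + ε) := by
      have := intervalIntegral.integral_mono_on hst.le i1 intervalIntegrable_const hm2
      rwa [intervalIntegral.integral_const, smul_eq_mul] at this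
    have e2 : m * (η / 2 / (m + 1)) ≤ η / 2 := by
      rw [← mul_div_assoc, div_le_iff₀ (by linarith)]
      nlinarith
    have e3 := mul_le_mul_of_nonneg_left hu' hm0
    have e4 := mul_le_mul_of_nonneg_left e1 hr
    nlinarith

end LC

theorem st_LC : St_LC := by
  intro Ω a b r α β h hL hr ha hαβ hb hc h0 η hη
  have hrb : 0 ≤ r * (β - α) := mul_nonneg hr (by linarith)
  obtain ⟨ε, hε, hε'⟩ : ∃ ε : ℝ, 0 < ε ∧ r * (β - α) * ε ≤ η / 2 := by
    refine ⟨η / 2 / (r * (β - α) + 1), by positivity, ?_⟩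
    rw [← mul_div_assoc, div_le_iff₀ (by linarith)]
    nlinarith
  obtain ⟨δ, hδ, hδ'⟩ := Metric.uniformContinuousOn_iff_le.1
    (isCompact_Icc.uniformContinuousOn_of_continuous hc) (ε / 2) (by linarith)
  have hi : ∀ s t, α ≤ s → s ≤ t → t ≤ β → IntervalIntegrable h volume s t :=
    fun s t h1 h2 h3 => (hc.mono (Icc_subset_Icc h1 h3)).intervalIntegrable_of_Icc h2
  have key : ∀ k : ℕ, ∀ t, α ≤ t → t ≤ β → t - α ≤ k * δ → LC.P Ω r ε h α t := by
    intro k
    induction k with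
    | zero =>
      intro t h1 _ h3
      rw [show t = α by simp at h3; linarith]
      exact LC.P_refl _ _ _ _ _
    | succ k ih =>
      intro t h1 h2 h3
      rcases h1.eq_or_lt with rfl | h1'
      · exact LC.P_refl _ _ _ _ _
      have hs1 : α ≤ max α (t - δ) := le_max_left _ _
      have hs2 : max α (t - δ) < t := max_lt h1' (by linarith)
      have hs3 : t - δ ≤ max α (t - δ) := le_max_right _ _
      have hk : (0 : ℝ) ≤ k * δ := by positivity
      refine LC.P_trans hs1 hs2.le (hi _ _ le_rfl hs1 (by linarith)) (hi _ _ hs1 hs2.le h2)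
        (ih _ hs1 (by linarith) ?_)
        (LC.P_base hL hr (by linarith) hs2 (by linarith) (hi _ _ hs1 hs2.le h2) h0 ?_)
      · rw [sub_le_iff_le_add]
        push_cast at h3
        exact max_le (by linarith) (by linarith)
      · intro y hy
        refine hδ' y ⟨by linarith [hy.1], by linarith [hy.2]⟩ _ ⟨hs1, by linarith⟩ ?_
        rw [Real.dist_eq, abs_le]
        constructor <;> linarith [hy.1, hy.2]
  obtain ⟨k, hk⟩ := exists_nat_ge ((β - α) / δ)
  obtain ⟨u, hu, hu'⟩ := key k β hαβ.le le_rfl ((div_le_iff₀ hδ).1 hk) (η / 2) (by linarith)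
  exact ⟨u, hu.mono fun ζ _ => LC.DR_mono (fun y => indicator_le_self' (fun y _ => h0 y) y) ζ,
    by nlinarith⟩

end Pool.Agent.BAC
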