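import Pool.Agent.Lib.BAC.Blue

namespace Pool.Agent.BAC

open Set Filter Topology

namespace Len

theorem hasDerivAt_FR {m : ℕ} (U : Uni m) {x : ℝ} (hx : ∀ i, x ≠ U.p i) :
    HasDerivAt U.FR (U.dFR x) x := by
  have h1 : HasDerivAt (fun y : ℝ => -y ^ 3 + U.c * y + U.d) (U.c - 3 * x ^ 2) x := by
    have h := (((hasDerivAt_pow 3 x).fun_neg).fun_add ((hasDerivAt_id' x).const_mul U.c)).add_const U.d
    exact h.congr_deriv (by push_cast; ring)
  have h2 : HasDerivAt (fun y : ℝ => ∑ i, U.r i / (y - U.p i))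
      (∑ i, -(U.r i / (x - U.p i) ^ 2)) x := by
    refine HasDerivAt.fun_sum fun i _ => ?_
    have h := (hasDerivAt_const x (U.r i)).fun_div ((hasDerivAt_id' x).sub_const (U.p i))
      (sub_ne_zero.2 (hx i))
    exact h.congr_deriv (by ring)
  refine (h1.fun_add h2).congr_deriv ?_
  rw [Finset.sum_neg_distrib, Uni.dFR, dpsiR]
  ring

theorem continuousAt_dFR {m : ℕ} (U : Uni m) {x : ℝ} (hx : ∀ i, x ≠ U.p i) :
    ContinuousAt U.dFR x := by
  unfold Uni.dFR dpsiR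
  refine ContinuousAt.sub (by fun_prop) (tendsto_finsetSum _ fun i _ => ?_)
  exact ContinuousAt.div continuousAt_const (by fun_prop) (pow_ne_zero 2 (sub_ne_zero.2 (hx i)))

theorem young {l y : ℝ} (hl : 0 < l) (hy : 0 < y) :
    1 ≤ l ^ 2 / 3 * y + 2 / (3 * l) * y ^ (-(1 / 2 : ℝ)) := by
  have hs : 0 < √y := Real.sqrt_pos.2 hy
  rw [Real.rpow_neg hy.le, ← Real.sqrt_eq_rpow]
  have e : l ^ 2 / 3 * y + 2 / (3 * l) * (√y)⁻¹ - 1 =
      (l * √y - 1) ^ 2 * (l * √y + 2) / (3 * (l * √y)) := by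
    have h2 : y = √y ^ 2 := (Real.sq_sqrt hy.le).symm
    generalize √y = s at hs h2
    subst h2
    field_simp
    ring
  have : 0 ≤ (l * √y - 1) ^ 2 * (l * √y + 2) / (3 * (l * √y)) := by positivity
  linarith

theorem piece (hREAL : St_REAL) {m : ℕ} (U : Uni m) (j : Fin (m + 1)) {a b l : ℝ} (hl : 0 < l)
    (h1 : U.A j < a) (h2 : a ≤ b) (h3 : b < U.B j) :
    b - a ≤ l ^ 2 / 3 * (U.f j - U.e j) +
      2 / (3 * l) * ∫ x in a..b, (U.dFR x) ^ (-(1 / 2 : ℝ)) := by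
  obtain ⟨-, hpos, -, -, hin, -, -⟩ := hREAL m U
  have hm : ∀ x ∈ uIcc a b, U.A j < x ∧ x < U.B j := fun x hx => by
    rw [uIcc_of_le h2] at hx
    exact ⟨h1.trans_le hx.1, hx.2.trans_lt h3⟩
  have hp : ∀ x ∈ uIcc a b, ∀ i, x ≠ U.p i := fun x hx =>
    (hin j x ⟨(hm x hx).1.le, (hm x hx).2.le⟩).1
  have h0 : ∀ x ∈ uIcc a b, 0 < U.dFR x := fun x hx => hpos j x (hm x hx).1 (hm x hx).2
  have hc : ContinuousOn U.dFR (uIcc a b) := fun x hx =>
    (continuousAt_dFR U (hp x hx)).continuousWithinAt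
  have hc2 : ContinuousOn (fun x => (U.dFR x) ^ (-(1 / 2 : ℝ))) (uIcc a b) :=
    hc.rpow_const fun x hx => Or.inl (h0 x hx).ne'
  have hi := hc.intervalIntegrable (μ := MeasureTheory.volume)
  have hi2 := hc2.intervalIntegrable (μ := MeasureTheory.volume)
  have hF := intervalIntegral.integral_eq_sub_of_hasDerivAt
    (fun x hx => hasDerivAt_FR U (hp x hx)) hi
  have hle := intervalIntegral.integral_mono_on h2
    (intervalIntegrable_const (c := (1 : ℝ)) (μ := MeasureTheory.volume))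
    ((hi.const_mul (l ^ 2 / 3)).add (hi2.const_mul (2 / (3 * l))))
    fun x hx => young hl (h0 x (by rwa [uIcc_of_le h2]))
  rw [intervalIntegral.integral_add (hi.const_mul _) (hi2.const_mul _),
    intervalIntegral.integral_const_mul, intervalIntegral.integral_const_mul, hF,
    intervalIntegral.integral_const, smul_eq_mul, mul_one] at hle
  have ha := (hin j a ⟨h1.le, (h2.trans_lt h3).le⟩).2.1
  have hb := (hin j b ⟨(h1.trans_le h2).le, h3.le⟩).2.2
  have : l ^ 2 / 3 * (U.FR b - U.FR a) ≤ l ^ 2 / 3 * (U.f j - U.e j) :=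
    mul_le_mul_of_nonneg_left (by linarith) (by positivity)
  linarith

end Len

theorem st_LEN (hREAL : St_REAL) (hCAU : St_CAU) : St_LEN := by
  intro m U
  have hE : 0 < ∑ j, (U.f j - U.e j) :=
    Finset.sum_pos (fun j _ => sub_pos.2 ((hREAL m U).2.2.2.2.2.2.1 j)) Finset.univ_nonempty
  obtain ⟨t, ht⟩ : ∃ t, t = (∑ j, (U.f j - U.e j)) ^ (1 / 3 : ℝ) := ⟨_, rfl⟩
  have ht0 : 0 < t := ht ▸ Real.rpow_pos_of_pos hE _
  have ht3 : t ^ 3 = ∑ j, (U.f j - U.e j) := by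
    rw [ht, ← Real.rpow_natCast, ← Real.rpow_mul hE.le]
    norm_num
  rw [← ht]
  have key : ∀ δ : ℝ, δ ∈ Ioo (0 : ℝ) (1 / 2) → (1 - 2 * δ) * ∑ j, (U.B j - U.A j) ≤ 4 * t := by
    intro δ hδ
    have hab : ∀ j, U.A j < U.A j + δ * (U.B j - U.A j) ∧
        U.A j + δ * (U.B j - U.A j) ≤ U.B j - δ * (U.B j - U.A j) ∧
        U.B j - δ * (U.B j - U.A j) < U.B j := fun j => by
      have h := sub_pos.2 (U.hAB j)
      have h1 := mul_pos hδ.1 h
      have h2 := mul_pos (sub_pos.2 hδ.2) h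
      exact ⟨by linarith, by linarith, by linarith⟩
    have h8 := hCAU m U _ _ hab
    have hl : 0 < 2 / t := by positivity
    have hs := Finset.sum_le_sum fun j (_ : j ∈ Finset.univ) =>
      Len.piece hREAL U j hl (hab j).1 (hab j).2.1 (hab j).2.2
    rw [Finset.sum_add_distrib, ← Finset.mul_sum, ← Finset.mul_sum, ← ht3] at hs
    have h9 := mul_le_mul_of_nonneg_left h8 (show 0 ≤ 2 / (3 * (2 / t)) by positivity)
    have e1 : (2 / t) ^ 2 / 3 * t ^ 3 + 2 / (3 * (2 / t)) * 8 = 4 * t := by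
      field_simp
      ring
    have e2 : (1 - 2 * δ) * ∑ j, (U.B j - U.A j) = ∑ j, (U.B j - δ * (U.B j - U.A j) -
        (U.A j + δ * (U.B j - U.A j))) := by
      rw [Finset.mul_sum]
      exact Finset.sum_congr rfl fun j _ => by ring
    linarith
  have hc : Continuous fun δ : ℝ => (1 - 2 * δ) * ∑ j, (U.B j - U.A j) := by fun_prop
  have hlim := (hc.tendsto 0).mono_left (nhdsWithin_le_nhds (s := Ioi (0 : ℝ)))
  have := le_of_tendsto hlim (mem_of_superset (Ioo_mem_nhdsGT (show (0 : ℝ) < 1 / 2 by norm_num)) key)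
  simpa using this

end Pool.Agent.BAC
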