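import Pool.Agent.Lib.BAC.PT

/-! The local model: a truncated angle function pulled back by the inverse Joukowski map. -/

namespace Pool.Agent.BAC

open Set Filter Topology Metric Complex
open scoped ComplexConjugate Real

namespace Loc

/-- the square root of `1 - z ^ 2` -/
noncomputable def sq1 (z : ℂ) : ℂ := (1 - z ^ 2) ^ (2⁻¹ : ℂ)

/-- the inverse Joukowski map -/
noncomputable def zt (z : ℂ) : ℂ := z + I * sq1 z

lemma slit {z : ℂ} (hz : z ∈ Slit) : 1 - z ^ 2 ∈ slitPlane := by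
  rw [mem_slitPlane_iff]
  simp only [sq, sub_re, one_re, mul_re, sub_im, one_im, mul_im]
  by_cases hx : z.re = 0
  · left
    rw [hx]
    nlinarith [sq_nonneg z.im]
  · by_cases hy : z.im = 0
    · left
      rcases hz with h | h
      · exact absurd hy h
      · rw [hy]
        have := abs_lt.1 h
        nlinarith [this.1, this.2]
    · right
      intro h
      exact mul_ne_zero hx hy (by linarith)

lemma sq1_re (z : ℂ) : (sq1 z).re = Real.sqrt ((‖1 - z ^ 2‖ + (1 - z ^ 2).re) / 2) :=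
  cpow_inv_two_re _

lemma sq1_pos {z : ℂ} (hz : z ∈ Slit) : 0 < (sq1 z).re := by
  rw [sq1_re, Real.sqrt_pos]
  rcases mem_slitPlane_iff.1 (slit hz) with h | h
  · have := norm_nonneg (1 - z ^ 2)
    linarith
  · have := (abs_lt.1 (abs_re_lt_norm.2 h)).1
    linarith

lemma analytic {z : ℂ} (hz : z ∈ Slit) : AnalyticAt ℂ zt z :=
  analyticAt_id.add (analyticAt_const.mul
    (AnalyticAt.cpow (analyticAt_const.sub (analyticAt_id.pow 2)) analyticAt_const (slit hz)))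

lemma zt_mul (z : ℂ) : zt z * (z - I * sq1 z) = 1 := by
  have h : sq1 z ^ 2 = 1 - z ^ 2 := cpow_ofNat_inv_pow _ 2
  rw [zt]
  linear_combination h - sq1 z ^ 2 * I_sq

lemma zt_ne (z : ℂ) : zt z ≠ 0 := left_ne_zero_of_mul_eq_one (zt_mul z)

lemma zt_inv (z : ℂ) : (zt z)⁻¹ = z - I * sq1 z := inv_eq_of_mul_eq_one_right (zt_mul z)

lemma jouk (z : ℂ) : z = (zt z + (zt z)⁻¹) / 2 := by
  rw [zt_inv, zt]
  ring

lemma coords (z : ℂ) : 2 * z.re = (zt z).re * (1 + (normSq (zt z))⁻¹) ∧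
    2 * z.im = (zt z).im * (1 - (normSq (zt z))⁻¹) ∧
    2 * (sq1 z).re = (zt z).im * (1 + (normSq (zt z))⁻¹) := by
  have h1 := congrArg Complex.re (zt_inv z)
  have h2 := congrArg Complex.im (zt_inv z)
  have h3 : (zt z).re = z.re - (sq1 z).im := by simp [zt, sub_eq_add_neg]
  have h4 : (zt z).im = z.im + (sq1 z).re := by simp [zt]
  rw [inv_re] at h1
  rw [inv_im] at h2
  simp only [sub_re, mul_re, I_re, I_im, sub_im, mul_im, zero_mul, one_mul, zero_sub, zero_add,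
    div_eq_mul_inv] at h1 h2
  refine ⟨by linarith, by linarith, by linarith⟩

lemma im_pos {z : ℂ} (hz : z ∈ Slit) : 0 < (zt z).im := by
  have h := (coords z).2.2
  have h1 := sq1_pos hz
  have h2 : 0 < (normSq (zt z))⁻¹ := inv_pos.2 (normSq_pos.2 (zt_ne z))
  by_contra hn
  nlinarith [not_lt.1 hn]

lemma im_le {z : ℂ} (hz : z ∈ Slit) : (zt z).im ≤ 2 * (sq1 z).re := by
  have h := (coords z).2.2
  have h2 : 0 < (normSq (zt z))⁻¹ := inv_pos.2 (normSq_pos.2 (zt_ne z))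
  nlinarith [mul_pos (im_pos hz) h2]

lemma norm_le_one {z : ℂ} (hz : z ∈ Slit) (hy : z.im ≤ 0) : ‖zt z‖ ≤ 1 := by
  have h := (coords z).2.1
  have h1 := im_pos hz
  have h2 : 1 ≤ (normSq (zt z))⁻¹ := by
    by_contra hn
    nlinarith [mul_pos h1 (sub_pos.2 (not_le.1 hn))]
  have h3 := (one_le_inv₀ (normSq_pos.2 (zt_ne z))).1 h2
  rw [normSq_eq_norm_sq] at h3
  nlinarith [norm_nonneg (zt z)]

lemma one_le_norm {z : ℂ} (hy : 0 < z.im) : 1 ≤ ‖zt z‖ := by
  have h := (coords z).2.1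
  have h1 := im_pos (z := z) (Or.inl hy.ne')
  have h2 : (normSq (zt z))⁻¹ ≤ 1 := by
    by_contra hn
    nlinarith [mul_pos h1 (sub_pos.2 (not_le.1 hn))]
  have h3 := (inv_le_one₀ (normSq_pos.2 (zt_ne z))).1 h2
  rw [normSq_eq_norm_sq] at h3
  nlinarith [norm_nonneg (zt z)]

lemma norm_jouk (z : ℂ) : ‖z‖ ≤ (‖zt z‖ + ‖zt z‖⁻¹) / 2 := by
  have h := norm_add_le (zt z) (zt z)⁻¹
  rw [norm_inv] at h
  have h2 : ‖z‖ = ‖zt z + (zt z)⁻¹‖ / 2 := by
    conv_lhs => rw [jouk z]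
    simp
  linarith

lemma norm_le_zt {z : ℂ} (hy : 0 < z.im) : ‖z‖ ≤ ‖zt z‖ := by
  have h := norm_jouk z
  have h1 := one_le_norm hy
  have h2 : ‖zt z‖⁻¹ ≤ 1 := inv_le_one_of_one_le₀ h1
  linarith

lemma lip {z : ℂ} (hy : 0 < z.im) {τ : ℝ} (hτ : 1 ≤ |τ|) : ‖z - (Jr τ : ℝ)‖ ≤ ‖zt z - τ‖ := by
  have hτ0 : τ ≠ 0 := by
    rintro rfl
    norm_num at hτ
  have hτ1 : (τ : ℂ) ≠ 0 := ofReal_ne_zero.2 hτ0
  have h0 := zt_ne z
  have e : z - (Jr τ : ℝ) = (zt z - τ) * ((1 - (zt z * τ)⁻¹) / 2) := by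
    conv_lhs => rw [jouk z]
    simp only [Jr]
    push_cast
    field_simp
    ring
  have h1 : ‖(zt z * τ)⁻¹‖ ≤ 1 := by
    rw [norm_inv, norm_mul, norm_real, Real.norm_eq_abs]
    exact inv_le_one_of_one_le₀ (one_le_mul_of_one_le_of_one_le (one_le_norm hy) hτ)
  have h2 : ‖(1 - (zt z * τ)⁻¹) / 2‖ ≤ 1 := by
    have := norm_sub_le 1 (zt z * τ)⁻¹
    rw [norm_one] at this
    rw [norm_div, Complex.norm_ofNat]
    linarith
  rw [e, norm_mul]
  exact mul_le_of_le_one_right (norm_nonneg _) h2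

lemma supp {z : ℂ} (hz : z ∈ Slit) (hy : z.im ≤ 0) {σ : ℝ} (h0 : 0 < σ) (h1 : σ < 1)
    (h : σ ≤ (zt z).im) : ‖z‖ ≤ 1 / σ ∧ |z.re| ≤ 1 - σ ^ 2 / 2 - z.im / σ := by
  have hn := norm_le_one hz hy
  constructor
  · have h2 : σ ≤ ‖zt z‖ := h.trans ((le_abs_self _).trans (abs_im_le_norm _))
    have h3 : ‖zt z‖⁻¹ ≤ σ⁻¹ := inv_anti₀ h0 h2
    have h4 : 1 ≤ σ⁻¹ := (one_le_inv₀ h0).2 h1.le
    have := norm_jouk z
    rw [one_div]
    linarith
  · obtain ⟨c1, c2, -⟩ := coords z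
    have hN : normSq (zt z) ≤ 1 := by
      rw [normSq_eq_norm_sq]
      nlinarith [norm_nonneg (zt z)]
    have hM : 1 ≤ (normSq (zt z))⁻¹ := (one_le_inv₀ (normSq_pos.2 (zt_ne z))).2 hN
    rw [normSq_apply] at hN
    generalize (normSq (zt z))⁻¹ = M at c1 c2 hM
    generalize (zt z).re = a at c1 hN
    generalize (zt z).im = b at c2 hN h
    have ha : |a| ≤ 1 - σ ^ 2 / 2 := by
      refine abs_le_of_sq_le_sq' ?_ (by nlinarith) |> abs_le.2
      nlinarith [sq_nonneg (σ ^ 2)]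
    have h5 : (M - 1) / 2 ≤ -(z.im / σ) := by
      rw [← neg_div, le_div_iff₀ h0]
      nlinarith
    have h6 : |z.re| = |a| * (1 + M) / 2 := by
      have : z.re = a * ((1 + M) / 2) := by linarith
      rw [this, abs_mul, abs_of_pos (by linarith : 0 < (1 + M) / 2)]
      ring
    have h7 : |a| * (M - 1) ≤ 1 * (M - 1) :=
      mul_le_mul_of_nonneg_right (by nlinarith) (by linarith)
    rw [h6]
    linarith

lemma abs_mem {s t τ c : ℝ} (hs : c ≤ |s|) (ht : c ≤ |t|) (hpos : 0 < s * t)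
    (hτ : τ ∈ Icc s t) : c ≤ |τ| ∧ 0 < s * τ ∧ 0 < τ * t := by
  rcases pos_and_pos_or_neg_and_neg_of_mul_pos hpos with h | h
  · have : 0 < τ := h.1.trans_le hτ.1
    rw [abs_of_pos h.1] at hs
    exact ⟨by rw [abs_of_pos this]; linarith [hτ.1], mul_pos h.1 this, mul_pos this h.2⟩
  · have : τ < 0 := hτ.2.trans_lt h.2
    rw [abs_of_neg h.2] at ht
    exact ⟨by rw [abs_of_neg this]; linarith [hτ.2], mul_pos_of_neg_of_neg h.1 this,
      mul_pos_of_neg_of_neg this h.2⟩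

lemma Jr_mono {s t : ℝ} (hs : 1 ≤ |s|) (ht : 1 ≤ |t|) (hpos : 0 < s * t) (hst : s ≤ t) :
    Jr s ≤ Jr t := by
  have hs0 : s ≠ 0 := left_ne_zero_of_mul hpos.ne'
  have ht0 : t ≠ 0 := right_ne_zero_of_mul hpos.ne'
  have h1 : 1 ≤ s * t := by
    rw [← abs_of_pos hpos, abs_mul]
    exact one_le_mul_of_one_le_of_one_le hs ht
  have e : Jr t - Jr s = (t - s) * (1 - (s * t)⁻¹) / 2 := by
    simp only [Jr]
    field_simp
    ring
  have h2 : (s * t)⁻¹ ≤ 1 := inv_le_one_of_one_le₀ h1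
  have h3 := mul_nonneg (sub_nonneg.2 hst) (sub_nonneg.2 h2)
  linarith

lemma zt_real {y : ℝ} (hy : y ∈ Icc (-1 : ℝ) 1) : zt y = y + Real.sqrt (1 - y ^ 2) * I := by
  have hp : 0 ≤ 1 - y ^ 2 := by nlinarith [hy.1, hy.2]
  have h : sq1 y = (Real.sqrt (1 - y ^ 2) : ℝ) := by
    rw [sq1, Real.sqrt_eq_rpow, ofReal_cpow hp]
    push_cast
    rw [one_div]
  rw [zt, h, mul_comm]

lemma tendsto_sq1 {x : ℝ} (hx : 1 ≤ |x|) : Tendsto (fun z => (sq1 z).re) (𝓝 (x : ℂ)) (𝓝 0) := by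
  have hc : Continuous fun z : ℂ => Real.sqrt ((‖1 - z ^ 2‖ + (1 - z ^ 2).re) / 2) := by
    fun_prop
  have h1 : 1 - x ^ 2 ≤ 0 := by nlinarith [sq_abs x, abs_nonneg x]
  have h2 : (1 - (x : ℂ) ^ 2) = ((1 - x ^ 2 : ℝ) : ℂ) := by push_cast; rfl
  have h3 := hc.tendsto x
  rw [h2, norm_real, ofReal_re, Real.norm_eq_abs, abs_of_nonpos h1] at h3
  simp only [neg_add_cancel, zero_div, Real.sqrt_zero] at h3
  exact h3.congr fun z => (sq1_re z).symm

end Loc

theorem st_LOC (hANG : St_ANG) (hKINT : St_KINT) : St_LOC := by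
  intro η κ hη hκ
  have hσ0 : 0 < min (κ * η ^ 2) (1 / 2) := lt_min (by positivity) (by norm_num)
  have hσ1 : min (κ * η ^ 2) (1 / 2) < 1 := (min_le_right _ _).trans_lt (by norm_num)
  refine ⟨min (κ * η ^ 2) (1 / 2), hσ0, hσ1, fun s t hs ht hst hpos => ?_⟩
  obtain ⟨a1, a2, a3, -⟩ := hANG s t hst
  have hts : 0 < t - s := sub_pos.2 hst
  have hπ : 1 ≤ π := by linarith [Real.pi_gt_three]
  have hmv : ∀ z ∈ Slit, MV (fun y => ang s t (Loc.zt y) - κ * (t - s)) z := fun z hz =>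
    (a2 Loc.zt z (Loc.analytic hz) (Loc.im_pos hz)).sub (MV.const _ z)
  have hsupp : ∀ z ∈ Slit, z.im ≤ 0 → max (ang s t (Loc.zt z) - κ * (t - s)) 0 ≠ 0 →
      ‖z‖ ≤ 1 / min (κ * η ^ 2) (1 / 2) ∧
        |z.re| ≤ 1 - min (κ * η ^ 2) (1 / 2) ^ 2 / 2 - z.im / min (κ * η ^ 2) (1 / 2) := by
    intro z hz hy hne
    refine Loc.supp hz hy hσ0 hσ1 ((min_le_left _ _).trans ?_)
    have h1 : κ * (t - s) < ang s t (Loc.zt z) := by
      by_contra hn
      exact hne (max_eq_right (sub_nonpos.2 (not_lt.1 hn)))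
    have h2 := (a3 (Loc.zt z) η (Loc.im_pos hz).le hη fun τ hτ => by
      have h3 := (Loc.abs_mem hs ht hpos hτ).1
      have h4 := Loc.norm_le_one hz hy
      have h5 := norm_sub_norm_le (τ : ℂ) (Loc.zt z)
      rw [norm_real, Real.norm_eq_abs, norm_sub_rev] at h5
      linarith).1
    have h3 := h1.trans_le h2
    rw [lt_div_iff₀ (by positivity)] at h3
    have h4 : κ * (π * η ^ 2) < (Loc.zt z).im := by
      by_contra hn
      nlinarith [mul_le_mul_of_nonneg_left (not_lt.1 hn) hts.le]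
    have h5 : 0 < κ * η ^ 2 := by positivity
    nlinarith
  refine ⟨fun z => max (ang s t (Loc.zt z) - κ * (t - s)) 0, ?_, ?_, ?_, hsupp, ?_, ?_, ?_⟩
  · exact fun z hz => ContinuousAt.continuousWithinAt
      (Filter.Tendsto.max (hmv z hz).1 tendsto_const_nhds)
  · exact fun z hz => (hmv z hz).subAt.max (SubAt.const 0 z)
  · intro z hz
    have := (a1 _ (Loc.im_pos hz).le).2
    exact ⟨le_max_right _ _, max_le (by nlinarith [mul_pos hκ hts]) zero_le_one⟩
  · intro x hx hxn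
    obtain ⟨d, hd, hb⟩ := Metric.isOpen_iff.1 isClosed_Icc.isOpen_compl x hxn
    have e1 : ∀ᶠ z in 𝓝 (x : ℂ), z ∈ ball (x : ℂ) (d / 2) := ball_mem_nhds _ (half_pos hd)
    have e2 : ∀ᶠ z in 𝓝 (x : ℂ), (Loc.sq1 z).re < κ * (d / 2) ^ 2 / 2 :=
      (Loc.tendsto_sq1 hx).eventually (gt_mem_nhds (by positivity))
    filter_upwards [e1, e2] with z h1 h2 hy
    have hz : z ∈ Slit := Or.inl hy.ne'
    have h3 := (a3 (Loc.zt z) (d / 2) (Loc.im_pos hz).le (half_pos hd) fun τ hτ => by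
      obtain ⟨b1, b2, b3⟩ := Loc.abs_mem hs ht hpos hτ
      have hm : Jr τ ∈ Icc (Jr s) (Jr t) :=
        ⟨Loc.Jr_mono (by linarith) (by linarith) b2 hτ.1,
          Loc.Jr_mono (by linarith) (by linarith) b3 hτ.2⟩
      have h4 : d ≤ dist (Jr τ) x := not_lt.1 fun h => hb h hm
      have h5 := Loc.lip hy (τ := τ) (by linarith)
      have h6 := dist_triangle ((Jr τ : ℝ) : ℂ) z x
      rw [dist_of_im_eq (by simp), ofReal_re, ofReal_re, dist_comm _ z, dist_eq_norm z] at h6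
      have h7 := mem_ball.1 h1
      linarith).1
    refine max_eq_right (sub_nonpos.2 (h3.trans ?_))
    rw [div_le_iff₀ (by positivity)]
    have h4 := Loc.im_le hz
    have h5 : 0 < κ * (d / 2) ^ 2 := by positivity
    have h6 : (Loc.zt z).im ≤ κ * (π * (d / 2) ^ 2) := by nlinarith
    nlinarith [mul_le_mul_of_nonneg_left h6 hts.le]
  · have e1 := (tendsto_norm_cocompact_atTop (E := ℂ)).eventually_gt_atTop
      (max (1 / min (κ * η ^ 2) (1 / 2)) (1 / κ + (|s| + |t|)))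
    filter_upwards [e1] with z h1 hz
    rcases le_or_gt z.im 0 with hy | hy
    · by_contra hne
      exact absurd (hsupp z hz hy hne).1 (not_le.2 ((le_max_left _ _).trans_lt h1))
    · have h2 := (le_max_right _ _).trans_lt h1
      have h3 := (a3 (Loc.zt z) (1 / κ) (Loc.im_pos hz).le (by positivity) fun τ hτ => by
        have h4 := Loc.norm_le_zt hy
        have h5 := norm_sub_norm_le (Loc.zt z) (τ : ℂ)
        rw [norm_real, Real.norm_eq_abs] at h5
        have h6 : |τ| ≤ |s| + |t| := abs_le.2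
          ⟨by linarith [hτ.1, neg_abs_le s, abs_nonneg t],
            by linarith [hτ.2, le_abs_self t, abs_nonneg s]⟩
        linarith).2
      refine max_eq_right (sub_nonpos.2 (h3.trans ?_))
      rw [div_le_iff₀ (by positivity)]
      have e : κ * (t - s) * (π * (1 / κ)) = (t - s) * π := by field_simp
      rw [e]
      nlinarith
  · have hk := hKINT s t (by linarith) (by linarith) hst hpos
    have hne : (t - s) / (2 * s * t) ≠ 0 := by
      rw [mul_assoc]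
      positivity
    have i1 : IntervalIntegrable (fun y : ℝ => ang s t (y + Real.sqrt (1 - y ^ 2) * I))
        MeasureTheory.volume (-1) 1 :=
      intervalIntegral.intervalIntegrable_of_integral_ne_zero (hk ▸ hne)
    have i2 := i1.sub (intervalIntegrable_const (c := κ * (t - s)))
    have i0 : IntervalIntegrable (fun _ : ℝ => (0 : ℝ)) MeasureTheory.volume (-1) 1 :=
      intervalIntegrable_const
    have i3 : IntervalIntegrable (fun y : ℝ =>
        max (ang s t (y + Real.sqrt (1 - y ^ 2) * I) - κ * (t - s)) 0)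
        MeasureTheory.volume (-1) 1 := ⟨i2.1.sup i0.1, i2.2.sup i0.2⟩
    have e : ∫ y in (-1 : ℝ)..1, max (ang s t (Loc.zt y) - κ * (t - s)) 0 =
        ∫ y in (-1 : ℝ)..1, max (ang s t (y + Real.sqrt (1 - y ^ 2) * I) - κ * (t - s)) 0 :=
      intervalIntegral.integral_congr fun y hy => by
        rw [uIcc_of_le (by norm_num)] at hy
        simp only [Loc.zt_real hy]
    have h1 := intervalIntegral.integral_mono_on (by norm_num) i2 i3 fun y _ => le_max_left _ _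
    rw [intervalIntegral.integral_sub i1 intervalIntegrable_const, hk,
      intervalIntegral.integral_const, smul_eq_mul] at h1
    rw [e]
    linarith

end Pool.Agent.BAC
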