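import Pool.Agent.Lib.BAC.Blue

namespace Pool.Agent.BAC

open Set Filter Topology Complex

namespace LocInv

theorem ne_pole {w : ℂ} (hw : 0 < w.im) (x : ℝ) : w - x ≠ 0 := fun h => by
  have := congrArg im h
  simp at this
  linarith

theorem hasDeriv {m : ℕ} (U : Uni m) {w : ℂ} (hw : 0 < w.im) : HasDerivAt U.F (U.dF w) w := by
  have h1 : ∀ i ∈ Finset.univ, HasDerivAt (fun w : ℂ => (U.r i : ℂ) / (w - U.p i))
      (-((U.r i : ℂ) / (w - U.p i) ^ 2)) w := fun i _ => by
    have h2 := ((hasDerivAt_const w (U.r i : ℂ)).div ((hasDerivAt_id w).sub_const (U.p i : ℂ))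
      (ne_pole hw _))
    refine h2.congr_deriv ?_
    simp [neg_div]
  have h3 := ((((hasDerivAt_pow 3 w).neg).add ((hasDerivAt_id w).const_mul (U.c : ℂ))).add_const
    (U.d : ℂ)).add (HasDerivAt.fun_sum h1)
  refine HasDerivAt.congr_deriv h3 ?_
  simp [Uni.dF, dpsi]
  ring

theorem analytic {m : ℕ} (U : Uni m) {w : ℂ} (hw : 0 < w.im) : AnalyticAt ℂ U.F w := by
  refine analyticAt_iff_eventually_differentiableAt.2 ?_
  filter_upwards [(isOpen_lt continuous_const continuous_im).mem_nhds hw] with z hz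
  exact (hasDeriv U hz).differentiableAt

end LocInv

theorem st_LOCINV (hSLIT : St_SLIT) : St_LOCINV := by
  intro m U w hw
  have ha := LocInv.analytic U hw
  have hne : deriv U.F w ≠ 0 := by
    rw [(LocInv.hasDeriv U hw).deriv]; exact slitPlane_ne_zero (hSLIT m U w hw)
  have hs := ha.hasStrictDerivAt
  refine ⟨ha, hs.localInverse _ _ _ hne, ha.analyticAt_localInverse hne, ?_, ?_, ?_⟩
  · exact (hs.hasStrictFDerivAt_equiv hne).localInverse_apply_image
  · exact hs.eventually_right_inverse hne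
  · exact hs.eventually_left_inverse hne

end Pool.Agent.BAC
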