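import Pool.Agent.Lib.BAC.Blue

namespace Pool.Agent.BAC

open Set MeasureTheory

namespace Low

theorem len_le_vol (l : List Pc) (h : l.Pairwise Sep) :
    ENNReal.ofReal (l.map fun p => p.b - p.a).sum ≤
      volume {x : ℝ | ∃ p ∈ l, x ∈ Ioo p.a p.b} := by
  induction l with
  | nil => simp
  | cons p l ih =>
    rw [List.pairwise_cons] at h
    have e : {x : ℝ | ∃ p' ∈ p :: l, x ∈ Ioo p'.a p'.b} =
        Ioo p.a p.b ∪ {x : ℝ | ∃ p' ∈ l, x ∈ Ioo p'.a p'.b} := by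
      ext x; simp
    have hd : Disjoint (Ioo p.a p.b) {x : ℝ | ∃ p' ∈ l, x ∈ Ioo p'.a p'.b} := by
      rw [Set.disjoint_left]
      rintro x hx ⟨p', hp', hx'⟩
      rcases h.1 p' hp' with h1 | h1 <;> linarith [hx.1, hx.2, hx'.1, hx'.2]
    rw [e, measure_union' hd measurableSet_Ioo, Real.volume_Ioo, List.map_cons, List.sum_cons]
    exact ENNReal.ofReal_add_le.trans (add_le_add le_rfl (ih h.2))

theorem len_le_one {Ω : Set ℂ} {l : List Pc} (h : Conf Ω l) :
    (l.map fun p => p.b - p.a).sum ≤ 1 := by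
  have h1 := (len_le_vol l h.2.2).trans (measure_mono (t := Icc (0 : ℝ) 1) (by
    rintro x ⟨p, hp, hx⟩
    have := h.2.1 p hp
    exact ⟨this.1.trans hx.1.le, hx.2.le.trans this.2.2.1⟩))
  rw [Real.volume_Icc, sub_zero] at h1
  exact (ENNReal.ofReal_le_ofReal_iff zero_le_one).1 h1

end Low

theorem st_LOW (hITER : St_ITER) (hFIN : St_FIN) (hLAYER : St_LAYER) : St_LOW := by
  intro γ C h
  by_contra hγ
  rw [not_le] at hγ
  have h1 : 1 / 3 < min γ (1 / 2) := lt_min hγ (by norm_num)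
  have h2 : min γ (1 / 2) ≤ 1 / 2 := min_le_right _ _
  have h3 : min γ (1 / 2) ≤ γ := min_le_left _ _
  generalize min γ (1 / 2) = g at h1 h2 h3
  have hC : (0 : ℝ) < max C 1 := lt_max_of_lt_right one_pos
  have hF := hFIN g (max C 1) (by linarith) (by linarith) hC fun n ε c Ω z₀ hB => by
    have hn : (0 : ℝ) < n := by exact_mod_cast hB.1
    have h4 : 0 < (n : ℝ) * ε := mul_pos hn hB.2.1
    have h5 : (n : ℝ) * ε ≤ 1 := by
      have := (lt_div_iff₀ hn).1 hB.2.2.1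
      linarith
    exact (h n ε c Ω z₀ hB).trans (mul_le_mul (le_max_left _ _)
      (Real.rpow_le_rpow_of_exponent_ge h4 h5 h3) (Real.rpow_nonneg h4.le _) hC.le)
  have hP : 3 / 2 < 1 / (1 - g) := by
    rw [lt_div_iff₀ (by linarith)]
    linarith
  generalize 1 / (1 - g) = P at hP hF
  obtain ⟨M, hM⟩ := hLAYER ((3 / 2 + P) / 2) P (6 * max C 1 ^ P) (by linarith) (by linarith)
    (mul_pos (by norm_num) (Real.rpow_pos_of_pos hC _))
  obtain ⟨Ω, l, hl, hK⟩ := hITER ((3 / 2 + P) / 2) (by linarith) (M + 1)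
  have := hM l (fun p hp => ⟨(hl.2.1 p hp).2.1, (hl.2.1 p hp).2.2.2.1⟩) (Low.len_le_one hl)
    fun s hs => by
      have := hF Ω l s hl hs
      rwa [Real.div_rpow hC.le hs.le, ← mul_div_assoc] at this
  linarith

end Pool.Agent.BAC
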