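import Pool.Agent.Lib.BAC.Blue

/-! The main sheet: the inverse branch of the uniformiser on the closed upper half plane. -/

namespace Pool.Agent.BAC

open Set Filter Topology Metric Complex

namespace Main

variable {m : ℕ} (U : Uni m)

/-- the factor in `Im F w = Im w * bb w` -/
noncomputable def bb (w : ℂ) : ℝ :=
  U.c - 3 * w.re ^ 2 + w.im ^ 2 - ∑ i, U.r i / ‖w - U.p i‖ ^ 2

/-- the difference quotient of `F` -/
noncomputable def KK (w w' : ℂ) : ℂ :=
  U.c - (w ^ 2 + w * w' + w' ^ 2) - ∑ i, (U.r i : ℂ) / ((w - U.p i) * (w' - U.p i))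

/-- the main sheet -/
def MM : Set ℂ := {w | 0 ≤ w.im ∧ (∀ i, w ≠ U.p i) ∧ 0 ≤ bb U w}

theorem diff {w w' : ℂ} (h : ∀ i, w ≠ U.p i) (h' : ∀ i, w' ≠ U.p i) :
    U.F w - U.F w' = (w - w') * KK U w w' := by
  have e : ∑ i, (U.r i : ℂ) / (w - U.p i) - ∑ i, (U.r i : ℂ) / (w' - U.p i) =
      -((w - w') * ∑ i, (U.r i : ℂ) / ((w - U.p i) * (w' - U.p i))) := by
    rw [← Finset.sum_sub_distrib, Finset.mul_sum, ← Finset.sum_neg_distrib]
    refine Finset.sum_congr rfl fun i _ => ?_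
    have h1 := sub_ne_zero.2 (h i)
    have h2 := sub_ne_zero.2 (h' i)
    field_simp
    ring
  simp only [Uni.F, psi, KK]
  linear_combination e

theorem im_F (w : ℂ) : (U.F w).im = w.im * bb U w := by
  have e : ∀ i, ((U.r i : ℂ) / (w - U.p i)).im = -(w.im * (U.r i / ‖w - U.p i‖ ^ 2)) := by
    intro i
    rw [div_im, ← Complex.normSq_eq_norm_sq]
    simp only [ofReal_im, ofReal_re, sub_re, sub_im, zero_mul, sub_zero, zero_div]
    ring
  have e3 : (w ^ 3).im = 3 * w.re ^ 2 * w.im - w.im ^ 3 := by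
    simp only [pow_succ, pow_zero, one_mul, mul_im, mul_re]; ring
  simp only [Uni.F, psi, bb, add_im, neg_im, e3, im_sum, e, mul_im, ofReal_re, ofReal_im,
    Finset.sum_neg_distrib, ← Finset.mul_sum]
  ring

theorem term_le (a b : ℂ) {r : ℝ} (hr : 0 < r) (ha : a ≠ 0) (hb : b ≠ 0) :
    ‖(r : ℂ) / (a * b)‖ ≤ (r / ‖a‖ ^ 2 + r / ‖b‖ ^ 2) / 2 := by
  have h1 : 0 < ‖a‖ := norm_pos_iff.2 ha
  have h2 : 0 < ‖b‖ := norm_pos_iff.2 hb
  rw [norm_div, norm_mul, Complex.norm_real, Real.norm_eq_abs, abs_of_pos hr]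
  have e : (r / ‖a‖ ^ 2 + r / ‖b‖ ^ 2) / 2 - r / (‖a‖ * ‖b‖) =
      r * (1 / ‖a‖ - 1 / ‖b‖) ^ 2 / 2 := by
    field_simp
    ring
  have : 0 ≤ r * (1 / ‖a‖ - 1 / ‖b‖) ^ 2 / 2 := by positivity
  linarith

theorem sum_le {w w' : ℂ} (h : ∀ i, w ≠ U.p i) (h' : ∀ i, w' ≠ U.p i) :
    ‖∑ i, (U.r i : ℂ) / ((w - U.p i) * (w' - U.p i))‖ ≤
      (∑ i, U.r i / ‖w - U.p i‖ ^ 2 + ∑ i, U.r i / ‖w' - U.p i‖ ^ 2) / 2 := by
  rw [← Finset.sum_add_distrib, Finset.sum_div]
  exact norm_sum_le_of_le _ fun i _ =>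
    term_le _ _ (U.hr i) (sub_ne_zero.2 (h i)) (sub_ne_zero.2 (h' i))

theorem re_KK {w w' : ℂ} (h : w ∈ MM U) (h' : w' ∈ MM U) :
    ‖w - w'‖ ^ 2 / 2 ≤ (KK U w w').re := by
  have h1 := sum_le U h.2.1 h'.2.1
  have h2 := Complex.re_le_norm (∑ i, (U.r i : ℂ) / ((w - U.p i) * (w' - U.p i)))
  have h3 := h.2.2
  have h4 := h'.2.2
  have h5 := mul_nonneg h.1 h'.1
  have e : (KK U w w').re = U.c - (w.re ^ 2 - w.im ^ 2 + (w.re * w'.re - w.im * w'.im) +
      (w'.re ^ 2 - w'.im ^ 2)) - (∑ i, (U.r i : ℂ) / ((w - U.p i) * (w' - U.p i))).re := by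
    simp only [KK, sub_re, add_re, ofReal_re, pow_two, mul_re]
  have e2 : ‖w - w'‖ ^ 2 = (w.re - w'.re) ^ 2 + (w.im - w'.im) ^ 2 := by
    rw [← Complex.normSq_eq_norm_sq, normSq_apply, sub_re, sub_im]; ring
  simp only [bb] at h3 h4
  rw [e, e2]
  nlinarith

theorem cube_le {w w' : ℂ} (h : w ∈ MM U) (h' : w' ∈ MM U) :
    ‖w - w'‖ ^ 3 ≤ 2 * ‖U.F w - U.F w'‖ := by
  rw [diff U h.2.1 h'.2.1, norm_mul]
  have h1 := (re_KK U h h').trans (Complex.re_le_norm _)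
  have h2 := mul_le_mul_of_nonneg_left h1 (norm_nonneg (w - w'))
  nlinarith

theorem injOn : InjOn U.F (MM U) := fun w h w' h' e => by
  have h1 := cube_le U h h'
  rw [e, sub_self, norm_zero, mul_zero] at h1
  have h2 : ‖w - w'‖ ^ 3 = 0 := le_antisymm h1 (by positivity)
  exact sub_eq_zero.1 (norm_eq_zero.1 (pow_eq_zero_iff (by norm_num) |>.1 h2))

theorem contAt_bb {w : ℂ} (h : ∀ i, w ≠ U.p i) : ContinuousAt (bb U) w := by
  unfold bb
  refine ContinuousAt.sub (by fun_prop) (tendsto_finsetSum _ fun i _ => ?_)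
  have : ‖w - U.p i‖ ^ 2 ≠ 0 := pow_ne_zero _ (norm_ne_zero_iff.2 (sub_ne_zero.2 (h i)))
  exact ContinuousAt.div continuousAt_const (by fun_prop) this

theorem contAt_F {w : ℂ} (h : ∀ i, w ≠ U.p i) : ContinuousAt U.F w := by
  unfold Uni.F psi
  refine ContinuousAt.add (by fun_prop) (tendsto_finsetSum _ fun i _ => ?_)
  exact ContinuousAt.div continuousAt_const (by fun_prop) (sub_ne_zero.2 (h i))

theorem off_pole {w : ℂ} (h : w ∈ MM U) (i : Fin m) :
    U.r i ≤ (U.c + w.im ^ 2) * ‖w - U.p i‖ ^ 2 := by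
  have h0 : 0 < ‖w - U.p i‖ ^ 2 := pow_pos (norm_pos_iff.2 (sub_ne_zero.2 (h.2.1 i))) 2
  have h1 : U.r i / ‖w - U.p i‖ ^ 2 ≤ ∑ i, U.r i / ‖w - U.p i‖ ^ 2 :=
    Finset.single_le_sum (f := fun i => U.r i / ‖w - U.p i‖ ^ 2)
      (fun j _ => div_nonneg (U.hr j).le (by positivity)) (Finset.mem_univ i)
  have h2 := h.2.2
  simp only [bb] at h2
  rw [← div_le_iff₀ h0]
  nlinarith [sq_nonneg w.re]

theorem closed_image : IsClosed (U.F '' MM U) := by
  refine isClosed_of_closure_subset fun z hz => ?_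
  obtain ⟨zs, hzs, hlim⟩ := mem_closure_iff_seq_limit.1 hz
  choose ws hws hF using hzs
  have hc : CauchySeq ws := by
    rw [Metric.cauchySeq_iff]
    intro ε hε
    obtain ⟨N, hN⟩ := Metric.cauchySeq_iff.1 hlim.cauchySeq (ε ^ 3 / 2) (by positivity)
    refine ⟨N, fun a ha b hb => ?_⟩
    have h1 := cube_le U (hws a) (hws b)
    have h2 := hN a ha b hb
    rw [dist_eq_norm] at h2 ⊢
    rw [hF, hF] at h1
    exact lt_of_pow_lt_pow_left₀ 3 hε.le (by linarith)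
  obtain ⟨w, hw⟩ := cauchySeq_tendsto_of_complete hc
  have hp : ∀ i, w ≠ U.p i := by
    intro i e
    have hcont : Continuous fun w : ℂ => (U.c + w.im ^ 2) * ‖w - U.p i‖ ^ 2 := by fun_prop
    have h1 := ge_of_tendsto' ((hcont.tendsto w).comp hw) fun k => off_pole U (hws k) i
    rw [e, sub_self, norm_zero] at h1
    have := U.hr i
    simp at h1
    linarith
  refine ⟨w, ⟨?_, hp, ?_⟩, ?_⟩
  · exact ge_of_tendsto' ((continuous_im.tendsto w).comp hw) fun k => (hws k).1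
  · exact ge_of_tendsto' ((contAt_bb U hp).tendsto.comp hw) fun k => (hws k).2.2
  · refine tendsto_nhds_unique ((contAt_F U hp).tendsto.comp hw) ?_
    exact hlim.congr fun k => (hF k).symm

theorem ne_pole {w : ℂ} (h : 0 < w.im) (i : Fin m) : w ≠ U.p i := by
  rintro rfl
  simp at h

theorem mem_MM {w : ℂ} (h : 0 < w.im) (h' : 0 ≤ (U.F w).im) : w ∈ MM U := by
  refine ⟨h.le, ne_pole U h, ?_⟩
  rw [im_F] at h'
  exact nonneg_of_mul_nonneg_right h' h

theorem exists_pt (hc : 0 < U.c) : ∃ w : ℂ, 0 < w.im ∧ 0 < (U.F w).im := by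
  have hs : 0 ≤ ∑ i, U.r i := Finset.sum_nonneg fun i _ => (U.hr i).le
  set Y : ℝ := 1 + ∑ i, U.r i with hY
  have hre : ((Y : ℂ) * I).re = 0 := by simp
  have him : ((Y : ℂ) * I).im = Y := by simp
  refine ⟨Y * I, by rw [him]; linarith, ?_⟩
  rw [im_F, him]
  refine mul_pos (by linarith) ?_
  have h1 : ∑ i, U.r i / ‖(Y : ℂ) * I - U.p i‖ ^ 2 ≤ ∑ i, U.r i := by
    refine Finset.sum_le_sum fun i _ => div_le_self (U.hr i).le ?_
    have h2 := Complex.im_le_norm ((Y : ℂ) * I - U.p i)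
    rw [sub_im, him, ofReal_im, sub_zero] at h2
    nlinarith
  simp only [bb, hre, him]
  nlinarith

theorem surj (hc : 0 < U.c) (hLOCINV : St_LOCINV) {z : ℂ} (hz : 0 ≤ z.im) : z ∈ U.F '' MM U := by
  have hopen : IsOpen {z : ℂ | 0 < z.im ∧ z ∈ U.F '' MM U} := by
    rw [isOpen_iff_mem_nhds]
    rintro _ ⟨h0, w, hw, rfl⟩
    have hw0 : 0 < w.im := by
      rcases hw.1.eq_or_lt with e | e
      · rw [im_F, ← e, zero_mul] at h0; exact absurd h0 (lt_irrefl _)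
      · exact e
    obtain ⟨-, χ, hχ, hχw, hinv, -⟩ := hLOCINV m U w hw0
    have h1 : ∀ᶠ z in 𝓝 (U.F w), 0 < z.im := continuous_im.continuousAt.eventually_const_lt h0
    have h2 : ∀ᶠ z in 𝓝 (U.F w), 0 < (χ z).im :=
      (continuous_im.continuousAt.comp hχ.continuousAt).eventually_const_lt
        (by simpa [hχw] using hw0)
    filter_upwards [h1, h2, hinv] with y hy1 hy2 hy3
    exact ⟨hy1, χ y, mem_MM U hy2 (by rw [hy3]; exact hy1.le), hy3⟩
  have hH : {z : ℂ | 0 < z.im} ⊆ {z : ℂ | 0 < z.im ∧ z ∈ U.F '' MM U} := by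
    refine (convex_halfSpace_im_gt 0).isPreconnected.subset_of_closure_inter_subset hopen ?_ ?_
    · obtain ⟨w, h1, h2⟩ := exists_pt U hc
      exact ⟨U.F w, h2, h2, w, mem_MM U h1 h2.le, rfl⟩
    · rintro y ⟨hy1, hy2⟩
      exact ⟨hy2, (closed_image U).closure_subset (closure_mono (fun _ h => h.2) hy1)⟩
  have h3 : z ∈ closure {z : ℂ | 0 < z.im} := by
    rw [Complex.closure_setOfPred_lt_im]; exact hz
  exact (closed_image U).closure_subset (closure_mono (fun _ h => (hH h).2) h3)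

theorem F_real (x : ℝ) : U.F x = U.FR x := by
  simp only [Uni.F, Uni.FR, psi, psiR]
  push_cast
  rfl

theorem bb_real (x : ℝ) : bb U x = U.dFR x := by
  simp only [bb, Uni.dFR, dpsiR, ofReal_re, ofReal_im, ← ofReal_sub, Complex.norm_real,
    Real.norm_eq_abs, sq_abs]
  ring

theorem top_mem (hREAL : St_REAL) {j : Fin (m + 1)} {x : ℝ} (hx : x ∈ Icc (U.A j) (U.B j)) :
    (x : ℂ) ∈ MM U := by
  obtain ⟨-, h2, -, -, h5, -⟩ := hREAL m U
  refine ⟨by simp, fun i e => (h5 j x hx).1 i (ofReal_injective e), ?_⟩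
  rw [bb_real]
  rcases hx.1.eq_or_lt with e | h
  · rw [← e]; exact (U.hA j).ge
  rcases hx.2.eq_or_lt with e | h'
  · rw [e]; exact (U.hB j).ge
  exact (h2 j x h h').le

theorem norm_KK (hc : 0 < U.c) {w : ℂ} {x : ℝ} (h : w ∈ MM U) (h' : (x : ℂ) ∈ MM U)
    (hd : ‖w - x‖ ≤ 1) : ‖KK U w x‖ ≤ 2 * U.c + 1 + 3 * (|x| + 1) ^ 2 := by
  have h1 := sum_le U h.2.1 h'.2.1
  have h3 := h.2.2
  have h4 := h'.2.2
  have hx : ‖(x : ℂ)‖ = |x| := by rw [Complex.norm_real, Real.norm_eq_abs]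
  have hw : ‖w‖ ≤ |x| + 1 := by
    have := norm_add_le (x : ℂ) (w - x)
    rw [add_sub_cancel, hx] at this
    linarith
  have hy : w.im ≤ 1 := by
    have := Complex.im_le_norm (w - x)
    rw [sub_im, ofReal_im, sub_zero] at this
    linarith
  have h5 : ‖w ^ 2 + w * x + (x : ℂ) ^ 2‖ ≤ 3 * (|x| + 1) ^ 2 := by
    refine (norm_add₃_le).trans ?_
    rw [norm_pow, norm_mul, norm_pow, hx]
    have := norm_nonneg w
    have := abs_nonneg x
    nlinarith
  have h6 : ‖KK U w x‖ ≤ ‖(U.c : ℂ)‖ + ‖w ^ 2 + w * x + (x : ℂ) ^ 2‖ +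
      ‖∑ i, (U.r i : ℂ) / ((w - U.p i) * (x - U.p i))‖ :=
    (norm_sub_le _ _).trans (add_le_add_left (norm_sub_le _ _) _)
  rw [Complex.norm_real, Real.norm_eq_abs, abs_of_pos hc] at h6
  simp only [bb, ofReal_re, ofReal_im] at h3 h4
  have := h.1
  nlinarith [sq_nonneg w.re, sq_nonneg x]

end Main

open Main in
theorem st_MAIN (hREAL : St_REAL) (hSIZE : St_SIZE) (hLOCINV : St_LOCINV) : St_MAIN := by
  intro m U
  have hc : 0 < U.c := (hSIZE m U).2.2.1
  have hmem : ∀ z : ℂ, 0 ≤ z.im → Function.invFunOn U.F (MM U) z ∈ MM U := fun z hz =>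
    Function.invFunOn_mem (surj U hc hLOCINV hz)
  have heq : ∀ z : ℂ, 0 ≤ z.im → U.F (Function.invFunOn U.F (MM U) z) = z := fun z hz =>
    Function.invFunOn_eq (surj U hc hLOCINV hz)
  have hleft : ∀ w ∈ MM U, Function.invFunOn U.F (MM U) (U.F w) = w := fun w hw =>
    (injOn U).leftInvOn_invFunOn hw
  refine ⟨Function.invFunOn U.F (MM U), ?_, ?_, ?_, ?_, ?_, ?_⟩
  · rw [Metric.continuousOn_iff]
    intro b hb ε hε
    refine ⟨ε ^ 3 / 2, by positivity, fun a ha hab => ?_⟩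
    have h1 := cube_le U (hmem a ha) (hmem b hb)
    rw [heq a ha, heq b hb] at h1
    rw [dist_eq_norm] at hab ⊢
    exact lt_of_pow_lt_pow_left₀ 3 hε.le (by linarith)
  · exact fun z hz => ⟨(hmem z hz).1, heq z hz, (hmem z hz).2.1⟩
  · exact fun w hw hw' => hleft w (mem_MM U hw hw')
  · intro j x hx
    rw [← F_real]
    exact hleft _ (top_mem U hREAL hx)
  · intro z hz hE
    obtain ⟨-, -, h3, -, h5, -⟩ := hREAL m U
    have hw := hmem z hz
    have hF := heq z hz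
    generalize Function.invFunOn U.F (MM U) z = w at hw hF
    rcases hw.1.eq_or_lt with e | e
    · exfalso
      have hx : w = (w.re : ℂ) := Complex.ext (by simp) (by simp [← e])
      have hb := hw.2.2
      have hp := hw.2.1
      rw [hx] at hb hp hF
      rw [bb_real] at hb
      rw [F_real] at hF
      obtain ⟨j, hj⟩ := h3 w.re (fun i e' => hp i (by rw [e'])) hb
      refine hE (by rw [← hF, ofReal_im]) j ?_
      rw [← hF, ofReal_re]
      exact (h5 j _ hj).2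
    · exact e
  · intro z hz j x hx hd
    have hw := hmem z hz
    have hF := heq z hz
    have hxm := top_mem U hREAL hx
    generalize Function.invFunOn U.F (MM U) z = w at hw hF hd
    rw [← hF, ← F_real, diff U hw.2.1 hxm.2.1, norm_mul, mul_comm]
    exact mul_le_mul_of_nonneg_right (norm_KK U hc hw hxm hd) (norm_nonneg _)

end Pool.Agent.BAC
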