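import Pool.Agent.Lib.BAC.Blue

/-! The numerical gain of one step of the cascade. -/

namespace Pool.Agent.BAC

open Set Filter Topology

namespace Num

/-- the density on the roof, to the power `q` -/
noncomputable def g (q t : ℝ) : ℝ := (1 / (1 - (t ^ 2)⁻¹)) ^ q

lemma den_pos {t : ℝ} (ht : 1 < t) : 0 < 1 - (t ^ 2)⁻¹ :=
  sub_pos.2 (inv_lt_one_of_one_lt₀ (by nlinarith))

lemma g_nonneg (q : ℝ) {t : ℝ} (ht : 1 < t) : 0 ≤ g q t :=
  Real.rpow_nonneg (one_div_pos.2 (den_pos ht)).le _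

lemma g_anti {q a b : ℝ} (hq : 0 ≤ q) (ha : 1 < a) (hab : a ≤ b) : g q b ≤ g q a := by
  refine Real.rpow_le_rpow (one_div_pos.2 (den_pos (ha.trans_le hab))).le
    (one_div_le_one_div_of_le (den_pos ha) ?_) hq
  have : (b ^ 2)⁻¹ ≤ (a ^ 2)⁻¹ := inv_anti₀ (by positivity) (by nlinarith)
  linarith

lemma g_lower {δ a s : ℝ} (hδ : 0 ≤ δ) (ha : 1 < a) (hs : 0 < s) (hs2 : s ^ 2 = a ^ 2 - 1) :
    (a / s) ^ 3 + δ * (s ^ 2)⁻¹ ≤ g (3 / 2 + δ) a := by
  have ha0 : 0 < a := by linarith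
  have e : 1 / (1 - (a ^ 2)⁻¹) = (a / s) ^ 2 := by
    rw [div_pow, hs2]
    have : a ^ 2 - 1 ≠ 0 := by nlinarith
    field_simp
  have hu : 1 ≤ a / s := (one_le_div hs).2 (by nlinarith)
  have hu2 : 0 < (a / s) ^ 2 := by positivity
  have e1 : ((a / s) ^ 2) ^ (3 / 2 : ℝ) = (a / s) ^ 3 := by
    rw [← Real.rpow_natCast, ← Real.rpow_mul (by positivity), ← Real.rpow_natCast]; norm_num
  have e2 : 1 + δ * (a ^ 2)⁻¹ ≤ ((a / s) ^ 2) ^ δ := by
    rw [Real.rpow_def_of_pos hu2]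
    have h1 := Real.one_sub_inv_le_log_of_pos hu2
    have h2 : ((a / s) ^ 2)⁻¹ = 1 - (a ^ 2)⁻¹ := by rw [← e, one_div, inv_inv]
    have h3 := Real.add_one_le_exp (Real.log ((a / s) ^ 2) * δ)
    rw [h2] at h1
    nlinarith
  rw [g, e, Real.rpow_add hu2, e1]
  have h4 : (s ^ 2)⁻¹ = (a / s) ^ 2 * (a ^ 2)⁻¹ := by field_simp
  have h5 : (a / s) ^ 2 ≤ (a / s) ^ 3 := pow_le_pow_right₀ hu (by norm_num)
  have h6 := mul_le_mul_of_nonneg_left e2 (show 0 ≤ (a / s) ^ 3 by positivity)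
  have h7 := mul_le_mul_of_nonneg_right h5 (show 0 ≤ δ * (a ^ 2)⁻¹ by positivity)
  rw [h4]
  nlinarith

lemma Jr_sub {a b : ℝ} (ha : 1 < a) (hab : a ≤ b) :
    Jr b - Jr a = (b - a) * (a * b - 1) / (2 * a * b) := by
  have : a ≠ 0 := by linarith
  have : b ≠ 0 := by linarith
  unfold Jr; field_simp; ring

lemma step0 {δ a b : ℝ} (hδ : 0 ≤ δ) (ha : 1 < a) (hab : a ≤ b) :
    (√(b ^ 2 - 1) - δ / b) / 2 - (√(a ^ 2 - 1) - δ / a) / 2 ≤ (Jr b - Jr a) * g (3 / 2 + δ) a := by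
  have ha0 : 0 < a := by linarith
  have hb0 : 0 < b := by linarith
  have h1 : 0 < a ^ 2 - 1 := by nlinarith
  have h2 : 0 < b ^ 2 - 1 := by nlinarith
  have hs := Real.sqrt_pos.2 h1
  have ht := Real.sqrt_pos.2 h2
  have hs2 := Real.sq_sqrt h1.le
  have ht2 := Real.sq_sqrt h2.le
  generalize √(a ^ 2 - 1) = s at *
  generalize √(b ^ 2 - 1) = t at *
  have hJ : (b - a) * s ^ 2 / (2 * a ^ 2) ≤ Jr b - Jr a := by
    rw [Jr_sub ha hab, hs2, div_le_div_iff₀ (by positivity) (by positivity)]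
    have : 0 ≤ (b - a) * (b - a) * a := by positivity
    nlinarith
  have hst : b * s ≤ a * t := by
    refine le_of_pow_le_pow_left₀ (n := 2) two_ne_zero (by positivity) ?_
    rw [mul_pow, mul_pow, hs2, ht2]; nlinarith
  have hts : (t - s) * s ≤ (b - a) * a := by
    refine le_of_mul_le_mul_right (a := t + s) ?_ (by positivity)
    have e : (t - s) * s * (t + s) = (b - a) * ((a + b) * s) := by
      have : (t - s) * (t + s) = (b - a) * (a + b) := by nlinarith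
      linear_combination s * this
    rw [e, mul_assoc]
    exact mul_le_mul_of_nonneg_left (by nlinarith) (by linarith)
  refine le_trans ?_ (mul_le_mul hJ (g_lower hδ ha hs hs2) (by positivity)
    (le_trans (div_nonneg (mul_nonneg (by linarith) (by positivity)) (by positivity)) hJ))
  have e : (b - a) * s ^ 2 / (2 * a ^ 2) * ((a / s) ^ 3 + δ * (s ^ 2)⁻¹) =
      ((b - a) * a / s + δ * ((b - a) / a ^ 2)) / 2 := by field_simp
  have h3 : t - s ≤ (b - a) * a / s := (le_div_iff₀ hs).2 hts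
  have h4 : 1 / a - 1 / b ≤ (b - a) / a ^ 2 := by
    rw [div_sub_div _ _ ha0.ne' hb0.ne', one_mul, mul_one]
    exact div_le_div_of_nonneg_left (by linarith) (by positivity) (by nlinarith)
  have h5 := mul_le_mul_of_nonneg_left h4 hδ
  rw [e, div_eq_mul_one_div δ b, div_eq_mul_one_div δ a]
  linarith

lemma step {δ a h : ℝ} (hδ : 0 ≤ δ) (ha : 1 < a) (hh : 0 ≤ h) :
    (√((a + h) ^ 2 - 1) - δ / (a + h) + h * g (3 / 2 + δ) (a + h)) / 2 -
      (√(a ^ 2 - 1) - δ / a + h * g (3 / 2 + δ) a) / 2 ≤ (Jr (a + h) - Jr a) * g (3 / 2 + δ) (a + h) := by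
  have hab : a ≤ a + h := by linarith
  have h1 := step0 hδ ha hab
  have h2 := g_anti (q := 3 / 2 + δ) (by linarith) ha hab
  have h3 : Jr (a + h) - Jr a ≤ h / 2 := by
    rw [Jr_sub ha hab, div_le_div_iff₀ (by positivity) (by positivity)]
    nlinarith
  nlinarith [mul_le_mul_of_nonneg_right h3 (sub_nonneg.2 h2)]

lemma main {δ : ℝ} (hδ : 0 < δ) : ∃ η h : ℝ, 0 < η ∧ 0 < h ∧ ∃ N : ℕ,
    Jr (1 + η + N * h) < ∑ i ∈ Finset.range N,
      (Jr (1 + η + (i + 1 : ℕ) * h) - Jr (1 + η + i * h)) * g (3 / 2 + δ) (1 + η + (i + 1 : ℕ) * h) := by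
  obtain ⟨η, hη, hη1, hη2⟩ : ∃ η : ℝ, 0 < η ∧ η ≤ 1 ∧ η ≤ δ ^ 2 / 192 :=
    ⟨min 1 (δ ^ 2 / 192), by positivity, min_le_left _ _, min_le_right _ _⟩
  have hg := g_nonneg (3 / 2 + δ) (show 1 < 1 + η by linarith)
  obtain ⟨h, hh, hh1⟩ : ∃ h : ℝ, 0 < h ∧ h * g (3 / 2 + δ) (1 + η) < δ / 4 := by
    refine ⟨δ / 4 / (g (3 / 2 + δ) (1 + η) + 1), by positivity, ?_⟩
    rw [div_mul_eq_mul_div, div_lt_iff₀ (by positivity)]
    nlinarith
  obtain ⟨N, hN⟩ := exists_nat_ge (8 * (2 + δ) / δ / h)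
  refine ⟨η, h, hη, hh, N, ?_⟩
  have h1 := Finset.sum_range_sub (fun i : ℕ => (√((1 + η + i * h) ^ 2 - 1) - δ / (1 + η + i * h) +
    h * g (3 / 2 + δ) (1 + η + i * h)) / 2) N
  refine lt_of_lt_of_le ?_ (h1.symm.le.trans (Finset.sum_le_sum fun i _ => ?_))
  · simp only [Nat.cast_zero, zero_mul, add_zero]
    have hX : 8 * (2 + δ) / δ ≤ 1 + η + N * h := by
      rw [div_le_iff₀ hh] at hN
      linarith
    have hX1 : 1 < 1 + η + N * h := by nlinarith [mul_nonneg (Nat.cast_nonneg (α := ℝ) N) hh.le]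
    have h2 := mul_nonneg hh.le (g_nonneg (3 / 2 + δ) hX1)
    generalize 1 + η + N * h = X at *
    have hX0 : 0 < X := by linarith
    have h3 : X - X⁻¹ ≤ √(X ^ 2 - 1) := by
      refine Real.le_sqrt_of_sq_le ?_
      have a1 : X * X⁻¹ = 1 := mul_inv_cancel₀ hX0.ne'
      have a2 : X⁻¹ ≤ 1 := inv_le_one_of_one_le₀ hX1.le
      have a3 : 0 < X⁻¹ := inv_pos.2 hX0
      nlinarith
    have h4 : √((1 + η) ^ 2 - 1) ≤ δ / 8 := Real.sqrt_le_iff.2 ⟨by positivity, by nlinarith⟩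
    have h5 : δ / 2 ≤ δ / (1 + η) := div_le_div_of_nonneg_left hδ.le (by linarith) (by linarith)
    have h6 : (2 + δ) * X⁻¹ ≤ δ / 8 := by
      rw [div_le_iff₀ hδ] at hX
      rw [← div_eq_mul_inv, div_le_div_iff₀ hX0 (by norm_num)]
      linarith
    rw [Jr, div_eq_mul_inv δ X]
    linarith
  · have := step (a := 1 + η + i * h) hδ.le
      (by nlinarith [mul_nonneg (Nat.cast_nonneg (α := ℝ) i) hh.le]) hh.le
    rwa [show 1 + η + i * h + h = 1 + η + (i + 1 : ℕ) * h by push_cast; ring] at this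

end Num

theorem st_NUM : St_NUM := by
  intro q hq
  obtain ⟨δ, rfl⟩ : ∃ δ, q = 3 / 2 + δ := ⟨q - 3 / 2, by ring⟩
  have hδ : 0 < δ := by linarith
  obtain ⟨η, h, hη, hh, N, hN⟩ := Num.main hδ
  set S := ∑ i ∈ Finset.range N, (Jr (1 + η + (i + 1 : ℕ) * h) - Jr (1 + η + i * h)) *
    Num.g (3 / 2 + δ) (1 + η + (i + 1 : ℕ) * h) with hS
  have hc : ContinuousAt (fun κ : ℝ => (1 - 4 * κ) ^ (3 / 2 + δ) * S) 0 :=
    (ContinuousAt.rpow_const (by fun_prop) (Or.inr (by linarith))).mul continuousAt_const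
  have h1 : ∀ᶠ κ in 𝓝 (0 : ℝ), Jr (1 + η + N * h) < (1 - 4 * κ) ^ (3 / 2 + δ) * S :=
    hc.eventually (lt_mem_nhds (by simpa using hN))
  obtain ⟨κ, ⟨h2, h3⟩, h4⟩ := (((h1.and (gt_mem_nhds (show (0 : ℝ) < 1 / 4 by norm_num))).filter_mono
    (nhdsWithin_le_nhds (s := Ioi 0))).and self_mem_nhdsWithin).exists
  refine ⟨η, κ, hη, h4, h3, N, fun i => 1 + η + i * h, by simp, fun i j hij => ?_, h2.trans_eq ?_⟩
  · have : (i : ℝ) < j := by exact_mod_cast hij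
    have := mul_lt_mul_of_pos_right this hh
    simpa using this
  · rw [hS, Finset.mul_sum]
    refine Finset.sum_congr rfl fun i _ => ?_
    have h5 : 1 < 1 + η + (i + 1 : ℕ) * h := by
      nlinarith [mul_nonneg (Nat.cast_nonneg (α := ℝ) (i + 1)) hh.le]
    rw [div_eq_mul_one_div (1 - 4 * κ), Real.mul_rpow (by linarith) (one_div_pos.2 (Num.den_pos h5)).le, Num.g]
    ring

end Pool.Agent.BAC
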