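import Pool.Agent.Lib.BAC.Blue

namespace Pool.Agent.BAC

open Set Filter Topology Metric Polynomial

namespace Open

variable {m : ℕ}

/-- a partial fraction with too many zeros has no top order poles -/
theorem pf_key {ι : Type} [Fintype ι] (n : ℕ) (hn : n ≠ 0) (p : Fin m → ℝ)
    (hp : Function.Injective p) (g : ℝ[X]) (q : Fin m → ℝ[X]) (hg : g.natDegree ≤ 1)
    (hq : ∀ i, (q i).natDegree ≤ 1) (x : ι → ℝ) (hx : Function.Injective x)
    (hxp : ∀ a i, x a ≠ p i) (hc : 1 + n * m < Fintype.card ι)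
    (h0 : ∀ a, g.eval (x a) + ∑ i, (q i).eval (x a) / (x a - p i) ^ n = 0) (i : Fin m) :
    (q i).eval (p i) = 0 := by
  have hd : ∀ s : Finset (Fin m), (∏ k ∈ s, (X - C (p k)) ^ n).natDegree ≤ n * m := fun s => by
    refine (natDegree_prod_le _ _).trans ?_
    refine (Finset.sum_le_card_nsmul _ _ n fun k _ => ?_).trans ?_
    · rw [natDegree_pow, natDegree_X_sub_C, mul_one]
    · rw [smul_eq_mul, mul_comm]
      exact Nat.mul_le_mul_left _ (by simpa using s.card_le_univ)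
  have hN : g * ∏ k, (X - C (p k)) ^ n +
      ∑ j, q j * ∏ k ∈ Finset.univ.erase j, (X - C (p k)) ^ n = 0 := by
    refine eq_zero_of_natDegree_lt_card_of_eval_eq_zero _ hx (fun a => ?_) (lt_of_le_of_lt ?_ hc)
    · have h1 := congrArg (· * ∏ k, (x a - p k) ^ n) (h0 a)
      simp only [zero_mul, add_mul, Finset.sum_mul] at h1
      rw [← h1]
      simp only [eval_add, eval_mul, eval_prod, eval_finsetSum, eval_pow, eval_sub, eval_X,
        eval_C]
      refine congrArg _ (Finset.sum_congr rfl fun j _ => ?_)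
      rw [← Finset.mul_prod_erase _ _ (Finset.mem_univ j), ← mul_assoc,
        div_mul_cancel₀ _ (pow_ne_zero n (sub_ne_zero.2 (hxp a j)))]
    · refine natDegree_add_le_of_degree_le (natDegree_mul_le.trans (add_le_add hg (hd _))) ?_
      exact natDegree_sum_le_of_forall_le _ _ fun j _ =>
        natDegree_mul_le.trans (add_le_add (hq j) (hd _))
  have h2 := congrArg (eval (p i)) hN
  simp only [eval_add, eval_mul, eval_prod, eval_finsetSum, eval_pow, eval_sub, eval_X,
    eval_C, eval_zero] at h2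
  rw [Finset.prod_eq_zero (Finset.mem_univ i) (by rw [sub_self, zero_pow hn]), mul_zero, zero_add,
    Finset.sum_eq_single i (fun j _ hj => by
      rw [Finset.prod_eq_zero (Finset.mem_erase.2 ⟨hj.symm, Finset.mem_univ i⟩)
        (by rw [sub_self, zero_pow hn]), mul_zero]) (by simp)] at h2
  refine (mul_eq_zero.1 h2).resolve_right (Finset.prod_ne_zero_iff.2 fun k hk => ?_)
  exact pow_ne_zero n (sub_ne_zero.2 fun e => (Finset.mem_erase.1 hk).1 (hp e).symm)

/-- the parameter space -/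
abbrev Par (m : ℕ) : Type :=
  (ℝ × ℝ) × ((Fin m → ℝ) × (Fin m → ℝ)) × (Fin (m + 1) → ℝ) × (Fin (m + 1) → ℝ)

/-- the target space -/
abbrev Tar (m : ℕ) : Type :=
  ((Fin (m + 1) → ℝ) × (Fin (m + 1) → ℝ)) × (Fin (m + 1) → ℝ) × (Fin (m + 1) → ℝ)

/-- critical values and critical point equations -/
noncomputable def Phi (Z : Par m) : Tar m :=
  ((fun j => psiR Z.1.1 Z.1.2 Z.2.1.1 Z.2.1.2 (Z.2.2.1 j),
    fun j => psiR Z.1.1 Z.1.2 Z.2.1.1 Z.2.1.2 (Z.2.2.2 j)),
    fun j => dpsiR Z.1.1 Z.2.1.1 Z.2.1.2 (Z.2.2.1 j),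
    fun j => dpsiR Z.1.1 Z.2.1.1 Z.2.1.2 (Z.2.2.2 j))

theorem contDiffAt_Phi (Z : Par m) (hA : ∀ j i, Z.2.2.1 j ≠ Z.2.1.2 i)
    (hB : ∀ j i, Z.2.2.2 j ≠ Z.2.1.2 i) : ContDiffAt ℝ 1 (Phi (m := m)) Z := by
  have h1 : ∀ x : Par m → ℝ, ContDiffAt ℝ 1 x Z → (∀ i, x Z ≠ Z.2.1.2 i) →
      ContDiffAt ℝ 1 (fun Z : Par m => psiR Z.1.1 Z.1.2 Z.2.1.1 Z.2.1.2 (x Z)) Z ∧
      ContDiffAt ℝ 1 (fun Z : Par m => dpsiR Z.1.1 Z.2.1.1 Z.2.1.2 (x Z)) Z := fun x hx h => by
    unfold psiR dpsiR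
    refine ⟨ContDiffAt.add (by fun_prop) (ContDiffAt.sum fun i _ => ?_),
      ContDiffAt.sub (by fun_prop) (ContDiffAt.sum fun i _ => ?_)⟩
    · exact ContDiffAt.div (by fun_prop) (by fun_prop) (sub_ne_zero.2 (h i))
    · exact ContDiffAt.div (by fun_prop) (by fun_prop) (pow_ne_zero 2 (sub_ne_zero.2 (h i)))
  have h2 := fun j => h1 (fun Z => Z.2.2.1 j) (by fun_prop) (hA j)
  have h3 := fun j => h1 (fun Z => Z.2.2.2 j) (by fun_prop) (hB j)
  exact ((contDiffAt_pi.2 fun j => (h2 j).1).prodMk (contDiffAt_pi.2 fun j => (h3 j).1)).prodMk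
    ((contDiffAt_pi.2 fun j => (h2 j).2).prodMk (contDiffAt_pi.2 fun j => (h3 j).2))

theorem line (a a' : ℝ) : HasDerivAt (fun s : ℝ => a + s * a') a' 0 := by
  simpa using ((hasDerivAt_id (0 : ℝ)).mul_const a').const_add a

theorem deriv_psi (c d x c' d' x' : ℝ) (r p r' p' : Fin m → ℝ) (h : ∀ i, x ≠ p i) :
    HasDerivAt (fun s : ℝ => psiR (c + s * c') (d + s * d') (fun i => r i + s * r' i)
      (fun i => p i + s * p' i) (x + s * x'))
      (x' * dpsiR c r p x + (c' * x + d' +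
        ∑ i, (r' i * (x - p i) + r i * p' i) / (x - p i) ^ 2)) 0 := by
  have h1 : ∀ i ∈ Finset.univ, HasDerivAt
      (fun s : ℝ => (r i + s * r' i) / (x + s * x' - (p i + s * p' i)))
      ((r' i * (x - p i) + r i * p' i) / (x - p i) ^ 2 - x' * (r i / (x - p i) ^ 2)) 0 :=
    fun i _ => by
      have h2 := (line (r i) (r' i)).fun_div ((line x x').fun_sub (line (p i) (p' i)))
        (by simpa using sub_ne_zero.2 (h i))
      refine h2.congr_deriv ?_
      simp only [zero_mul, add_zero]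
      ring
  have h3 := ((((line x x').fun_pow 3).fun_neg.fun_add
    ((line c c').fun_mul (line x x'))).fun_add (line d d')).fun_add (HasDerivAt.fun_sum h1)
  refine h3.congr_deriv ?_
  simp only [zero_mul, add_zero, dpsiR, Finset.sum_sub_distrib, ← Finset.mul_sum]
  push_cast
  ring

theorem deriv_dpsi (c x x' : ℝ) (r p : Fin m → ℝ) (h : ∀ i, x ≠ p i) :
    HasDerivAt (fun s : ℝ => dpsiR c r p (x + s * x')) (x' * ddpsiR r p x) 0 := by
  have h1 : ∀ i ∈ Finset.univ, HasDerivAt (fun s : ℝ => r i / (x + s * x' - p i) ^ 2)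
      (-(2 * x') * (r i / (x - p i) ^ 3)) 0 := fun i _ => by
    have h0 := sub_ne_zero.2 (h i)
    have h2 := (hasDerivAt_const (0 : ℝ) (r i)).fun_div (((line x x').sub_const (p i)).fun_pow 2)
      (by simpa using h0)
    refine h2.congr_deriv ?_
    simp only [zero_mul, add_zero]
    push_cast
    field_simp
    ring
  have h3 := ((((line x x').fun_pow 2).const_mul 3).const_sub c).fun_sub (HasDerivAt.fun_sum h1)
  refine h3.congr_deriv ?_
  simp only [zero_mul, add_zero, ddpsiR, ← Finset.mul_sum]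
  push_cast
  ring

theorem inj (hREAL : St_REAL) (U : Uni m) (L : Par m →L[ℝ] Tar m)
    (hL : HasFDerivAt Phi L ((U.c, U.d), (U.r, U.p), U.A, U.B)) (ξ : Par m) (h : L ξ = 0) :
    ξ = 0 := by
  obtain ⟨hp, -, -, hdd, hnp, -, -⟩ := hREAL m U
  have hA : ∀ j i, U.A j ≠ U.p i := fun j => (hnp j _ ⟨le_rfl, (U.hAB j).le⟩).1
  have hB : ∀ j i, U.B j ≠ U.p i := fun j => (hnp j _ ⟨(U.hAB j).le, le_rfl⟩).1
  obtain ⟨⟨c', d'⟩, ⟨r', p'⟩, A', B'⟩ := ξ
  have h1 : HasDerivAt (fun s : ℝ => (((U.c, U.d), (U.r, U.p), U.A, U.B) : Par m) +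
      s • (((c', d'), (r', p'), A', B') : Par m)) ((c', d'), (r', p'), A', B') 0 := by
    simpa using ((hasDerivAt_id (0 : ℝ)).smul_const
      (((c', d'), (r', p'), A', B') : Par m)).const_add ((U.c, U.d), (U.r, U.p), U.A, U.B)
  have h2 := HasFDerivAt.comp_hasDerivAt_of_eq (0 : ℝ) hL h1 (by simp)
  rw [h] at h2
  have e1 := fun j => (deriv_psi U.c U.d (U.A j) c' d' (A' j) U.r U.p r' p' (hA j)).unique
    (hasDerivAt_pi.1 h2.fst.fst j)
  have e2 := fun j => (deriv_psi U.c U.d (U.B j) c' d' (B' j) U.r U.p r' p' (hB j)).unique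
    (hasDerivAt_pi.1 h2.fst.snd j)
  simp only [U.hA, U.hB, mul_zero, zero_add, Prod.fst_zero, Prod.snd_zero, Pi.zero_apply] at e1 e2
  have mA : StrictMono U.A := Fin.strictMono_iff_lt_succ.2 fun i =>
    (U.hAB _).trans ((U.hBp i).trans (U.hpA i))
  have mB : StrictMono U.B := Fin.strictMono_iff_lt_succ.2 fun i =>
    (U.hBp i).trans ((U.hpA i).trans (U.hAB _))
  have hx : Function.Injective (Sum.elim U.A U.B) :=
    mA.injective.sumElim mB.injective fun j k e => by
      have := (hdd j).1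
      rw [e] at this
      exact lt_asymm this (hdd k).2
  have hxp : ∀ a i, Sum.elim U.A U.B a ≠ U.p i := fun a => by
    cases a with
    | inl j => exact hA j
    | inr j => exact hB j
  have e3 : ∀ a, c' * Sum.elim U.A U.B a + d' + ∑ i, (r' i * (Sum.elim U.A U.B a - U.p i) +
      U.r i * p' i) / (Sum.elim U.A U.B a - U.p i) ^ 2 = 0 := fun a => by
    cases a with
    | inl j => exact e1 j
    | inr j => exact e2 j
  have hp' : p' = 0 := funext fun i => by
    have := pf_key 2 two_ne_zero U.p hp.injective (C c' * X + C d')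
      (fun i => C (r' i) * X + C (U.r i * p' i - r' i * U.p i)) natDegree_linear_le
      (fun _ => natDegree_linear_le) _ hx hxp (by simp; omega) (fun a => by
        rw [← e3 a]
        simp only [eval_add, eval_mul, eval_C, eval_X]
        exact congrArg _ (Finset.sum_congr rfl fun i _ => by ring)) i
    simp only [eval_add, eval_mul, eval_C, eval_X] at this
    exact (mul_eq_zero.1 (by linarith : U.r i * p' i = 0)).resolve_left (U.hr i).ne'
  subst hp'
  have hr' : r' = 0 := funext fun i => by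
    have := pf_key 1 one_ne_zero U.p hp.injective (C c' * X + C d')
      (fun i => C (r' i)) natDegree_linear_le
      (fun _ => by simp) _ hx hxp (by simp; omega) (fun a => by
        rw [← e3 a]
        simp only [eval_add, eval_mul, eval_C, eval_X]
        refine congrArg _ (Finset.sum_congr rfl fun i _ => ?_)
        have := sub_ne_zero.2 (hxp a i)
        rw [Pi.zero_apply]
        field_simp
        ring) i
    simpa using this
  subst hr'
  have e4 := e1 0
  have e5 := e2 0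
  simp only [Pi.zero_apply, zero_mul, mul_zero, add_zero, zero_div, Finset.sum_const_zero] at e4 e5
  have hc' : c' = 0 := (mul_eq_zero.1 (by linarith : c' * (U.B 0 - U.A 0) = 0)).resolve_right
    (sub_pos.2 (U.hAB 0)).ne'
  subst hc'
  have hd' : d' = 0 := by linarith
  subst hd'
  have e6 : A' = 0 := funext fun j => by
    have h3 := hasDerivAt_pi.1 h2.snd.fst j
    simp only [Function.comp_def, Phi, Prod.smul_mk, Prod.mk_add_mk, smul_zero, add_zero,
      Pi.add_apply, Pi.smul_apply, smul_eq_mul, mul_zero] at h3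
    exact (mul_eq_zero.1 ((deriv_dpsi U.c (U.A j) (A' j) U.r U.p (hA j)).unique
      h3)).resolve_right (hdd j).1.ne'
  have e7 : B' = 0 := funext fun j => by
    have h3 := hasDerivAt_pi.1 h2.snd.snd j
    simp only [Function.comp_def, Phi, Prod.smul_mk, Prod.mk_add_mk, smul_zero, add_zero,
      Pi.add_apply, Pi.smul_apply, smul_eq_mul, mul_zero] at h3
    exact (mul_eq_zero.1 ((deriv_dpsi U.c (U.B j) (B' j) U.r U.p (hB j)).unique
      h3)).resolve_right (hdd j).2.ne
  rw [e6, e7]; rfl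

end Open

theorem st_OPEN (hREAL : St_REAL) : St_OPEN := by
  intro m U
  obtain ⟨-, -, -, -, hnp, -, -⟩ := hREAL m U
  have hA : ∀ j i, U.A j ≠ U.p i := fun j => (hnp j _ ⟨le_rfl, (U.hAB j).le⟩).1
  have hB : ∀ j i, U.B j ≠ U.p i := fun j => (hnp j _ ⟨(U.hAB j).le, le_rfl⟩).1
  set Z₀ : Open.Par m := ((U.c, U.d), (U.r, U.p), U.A, U.B) with hZ
  have h1 := (Open.contDiffAt_Phi Z₀ hA hB).hasStrictFDerivAt one_ne_zero
  have h2 : Function.Injective (fderiv ℝ Open.Phi Z₀).toLinearMap :=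
    (injective_iff_map_eq_zero _).2 (Open.inj hREAL U _ h1.hasFDerivAt)
  have h3 := h1.map_nhds_eq_of_surj (LinearMap.range_eq_top.2
    ((LinearMap.injective_iff_surjective_of_finrank_eq_finrank (by simp; ring)).1 h2))
  have h4 : ∀ᶠ Z : Open.Par m in 𝓝 Z₀, (∀ i, 0 < Z.2.1.1 i) ∧ (∀ j, Z.2.2.1 j < Z.2.2.2 j) ∧
      (∀ i : Fin m, Z.2.2.2 i.castSucc < Z.2.1.2 i) ∧ ∀ i : Fin m, Z.2.1.2 i < Z.2.2.1 i.succ := by
    refine (eventually_all.2 fun i => ?_).and ((eventually_all.2 fun i => ?_).and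
      ((eventually_all.2 fun i => ?_).and (eventually_all.2 fun i => ?_)))
    · exact ContinuousAt.eventually_lt (by fun_prop) (by fun_prop) (U.hr i)
    · exact ContinuousAt.eventually_lt (by fun_prop) (by fun_prop) (U.hAB i)
    · exact ContinuousAt.eventually_lt (by fun_prop) (by fun_prop) (U.hBp i)
    · exact ContinuousAt.eventually_lt (by fun_prop) (by fun_prop) (U.hpA i)
  have h5 := image_mem_map (m := Open.Phi) h4
  rw [h3] at h5
  obtain ⟨η, hη, h6⟩ := Metric.mem_nhds_iff.1 h5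
  refine ⟨η, hη, fun e f hef => ?_⟩
  have h7 : Open.Phi Z₀ = ((U.e, U.f), 0, 0) :=
    Prod.ext rfl (Prod.ext (funext U.hA) (funext U.hB))
  obtain ⟨Z, ⟨a1, a2, a3, a4⟩, hZ'⟩ := h6 (show (((e, f), 0, 0) : Open.Tar m) ∈ ball _ η by
    rw [h7, mem_ball, Prod.dist_eq, Prod.dist_eq, dist_self]
    exact max_lt (max_lt ((dist_pi_lt_iff hη).2 fun j => (hef j).1)
      ((dist_pi_lt_iff hη).2 fun j => (hef j).2)) hη)
  exact ⟨⟨Z.1.1, Z.1.2, Z.2.1.1, Z.2.1.2, Z.2.2.1, Z.2.2.2, a1, a2, a3, a4,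
    congrFun (congrArg (·.2.1) hZ'), congrFun (congrArg (·.2.2) hZ')⟩,
    congrArg (·.1.1) hZ', congrArg (·.1.2) hZ'⟩

end Pool.Agent.BAC
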