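import Pool.Agent.Lib.BAC.PT

/-! Folding across the real axis: the two step maximum principle. -/

namespace Pool.Agent.BAC

open Set Filter Topology Metric Complex
open scoped ComplexConjugate Real

namespace Pol

/-- reflected set -/
def rf (Ω : Set ℂ) : Set ℂ := {z | conj z ∈ Ω}

theorem rf_open {Ω : Set ℂ} (h : IsOpen Ω) : IsOpen (rf Ω) := h.preimage continuous_conj

theorem tendsto_conj_within (Ω : Set ℂ) (ζ : ℂ) :
    Tendsto (fun z : ℂ => conj z) (𝓝[rf Ω] ζ) (𝓝[Ω] (conj ζ)) :=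
  tendsto_nhdsWithin_iff.2 ⟨continuous_conj.continuousAt.tendsto.mono_left nhdsWithin_le_nhds,
    self_mem_nhdsWithin⟩

theorem tendsto_conj_cocompact : Tendsto (fun z : ℂ => conj z) (cocompact ℂ) (cocompact ℂ) := by
  rw [← Metric.cobounded_eq_cocompact, ← tendsto_norm_atTop_iff_cobounded]
  have h : Tendsto (fun z : ℂ => ‖z‖) (Bornology.cobounded ℂ) atTop :=
    tendsto_norm_cobounded_atTop
  simpa only [norm_conj] using h

theorem conj_mem_ball {c ε : ℝ} {z : ℂ} :
    conj z ∈ closedBall (c : ℂ) ε ↔ z ∈ closedBall (c : ℂ) ε := by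
  rw [mem_closedBall, mem_closedBall, dist_eq_norm, dist_eq_norm, ← norm_conj (z - c)]
  simp

/-- the two facts about `u` at points outside `Ω` that are used -/
structure Bd (Ω B : Set ℂ) (u : ℂ → ℝ) : Prop where
  op : IsOpen Ω
  sub : ∀ z ∈ Ω, SubAt u z
  one : ∀ z ∈ Ω, u z ≤ 1
  out : ∀ ζ, ζ ∉ Ω → ζ ∉ B → BdLe Ω u ζ 0
  inf : InfLe Ω u 0

theorem Bd.of_perron {Ω B : Set ℂ} {u : ℂ → ℝ} (hΩ : IsOpen Ω)
    (hu : Perron Ω (frontier Ω ∩ B) u) : Bd Ω B u := by
  refine ⟨hΩ, hu.1, hu.le_one hΩ, fun ζ h1 h2 η hη => ?_,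
    fun η hη => (hu.2.2 η hη).mono fun z hz hzΩ => by linarith [hz hzΩ]⟩
  by_cases hcl : ζ ∈ closure Ω
  · have hf : ζ ∈ frontier Ω := by rw [hΩ.frontier_eq]; exact ⟨hcl, h1⟩
    have := hu.2.1 ζ hf η hη
    rwa [indicator_of_notMem (fun h => h2 h.2)] at this
  · rw [eventually_nhdsWithin_iff]
    filter_upwards [isClosed_closure.isOpen_compl.mem_nhds hcl] with y hy hy'
    exact absurd (subset_closure hy') hy

theorem Bd.rf {Ω B : Set ℂ} {u : ℂ → ℝ} (h : Bd Ω B u) (hB : ∀ z, conj z ∈ B → z ∈ B) :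
    Bd (rf Ω) B fun z => u (conj z) :=
  ⟨rf_open h.op, fun _ hz => (h.sub _ hz).conj, fun _ hz => h.one _ hz,
    fun ζ h1 h2 η hη => (tendsto_conj_within Ω ζ).eventually
      (h.out (conj ζ) h1 (fun hh => h2 (hB ζ hh)) η hη),
    fun η hη => tendsto_conj_cocompact.eventually (h.inf η hη)⟩

variable {n : ℕ} {ε : ℝ} {c : Fin n → ℝ} {v : ℂ → ℝ} {V : ℕ → ℂ → ℝ}

theorem far_of_mem {Ω : Set ℂ} (hd : ∀ j, ∀ z ∈ closedBall (c j : ℂ) ε, z ∉ Ω) {x : ℝ}
    (hx : (x : ℂ) ∈ Ω) (j : Fin n) : ε < |x - c j| := by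
  by_contra h
  refine hd j x ?_ hx
  rw [mem_closedBall, dist_eq_norm, ← ofReal_sub, norm_real, Real.norm_eq_abs]
  exact not_lt.1 h

/-- step (b): maximum principle on the upper part of `Ω` -/
theorem upper {Ω : Set ℂ} {u : ℂ → ℝ} {M : ℝ} (hM : 0 ≤ M)
    (h : Bd Ω (⋃ j, closedBall (c j : ℂ) ε) u)
    (hd : ∀ j, ∀ z ∈ closedBall (c j : ℂ) ε, z ∉ Ω) (hS : IsSurf ε c v V)
    (hR : ∀ x : ℝ, (x : ℂ) ∈ Ω → u x - 2 * v x ≤ M) :
    ∀ z ∈ Ω, 0 ≤ z.im → u z - 2 * v z ≤ M := by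
  have hW : IsOpen (Ω ∩ {z : ℂ | 0 < z.im}) := h.op.inter (isOpen_lt continuous_const continuous_im)
  have key : ∀ z ∈ Ω ∩ {z : ℂ | 0 < z.im}, u z - 2 * v z ≤ M := by
    refine maxp hW (fun z hz => (h.sub z hz.1).sub_MV ((hS.vMV z hz.2).const_mul 2))
      (fun ζ hζ η hη => ?_) (fun η hη => ?_)
    · have hcl : ζ ∈ closure {z : ℂ | 0 < z.im} :=
        closure_mono inter_subset_right (frontier_subset_closure hζ)
      have hζ0 : 0 ≤ ζ.im := by
        rw [closure_setOfPred_lt_im] at hcl; exact hcl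
      have hnot : ζ ∉ Ω ∩ {z : ℂ | 0 < z.im} := by
        rw [hW.frontier_eq] at hζ; exact hζ.2
      have hle : 𝓝[Ω ∩ {z : ℂ | 0 < z.im}] ζ ≤ 𝓝[{z : ℂ | 0 ≤ z.im}] ζ :=
        nhdsWithin_mono _ fun z hz => (show 0 ≤ z.im from le_of_lt hz.2)
      by_cases hζΩ : ζ ∈ Ω
      · have him : ζ.im = 0 := le_antisymm (not_lt.1 fun hh => hnot ⟨hζΩ, hh⟩) hζ0
        obtain ⟨x, rfl⟩ : ∃ x : ℝ, ζ = x := ⟨ζ.re, Complex.ext rfl (by simpa using him)⟩
        obtain ⟨g, hg, hgv⟩ := hS.gap x (far_of_mem hd hζΩ)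
        have hgx : g x = v x := hgv.self_of_nhds.1 (by simp)
        have h1 := (upperSemicontinuousAt_iff.1 ((h.sub _ hζΩ).sub_MV (hg.const_mul 2)).1)
          (M + η) (by have := hR x hζΩ; rw [hgx]; linarith)
        filter_upwards [nhdsWithin_le_nhds h1, nhdsWithin_le_nhds hgv, self_mem_nhdsWithin]
          with z hz1 hz2 hz3
        rw [← hz2.1 (le_of_lt hz3.2)]
        exact hz1.le
      · by_cases hB : ζ ∈ ⋃ j, closedBall (c j : ℂ) ε
        · obtain ⟨j, hj⟩ := mem_iUnion.1 hB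
          filter_upwards [hle (hS.big j ζ hj hζ0 (1 / 2) (by norm_num)), self_mem_nhdsWithin]
            with z hz1 hz2
          have := h.one z hz2.1
          have hz1' : 1 - 1 / 2 ≤ v z := hz1
          linarith
        · filter_upwards [nhdsWithin_mono _ inter_subset_left (h.out ζ hζΩ hB η hη),
            self_mem_nhdsWithin] with z hz1 hz2
          have := hS.v0 z (le_of_lt hz2.2)
          have hz1' : u z ≤ 0 + η := hz1
          linarith
    · filter_upwards [h.inf η hη] with z hz hzW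
      have := hS.v0 z (le_of_lt hzW.2)
      linarith [hz hzW.1]
  intro z hz hz0
  rcases hz0.eq_or_lt with h0 | h0
  · obtain ⟨x, rfl⟩ : ∃ x : ℝ, z = x := ⟨z.re, Complex.ext rfl (by simpa using h0.symm)⟩
    exact hR x hz
  · exact key z ⟨hz, h0⟩

/-- folding map -/
noncomputable def fold (z : ℂ) : ℂ := z.re + |z.im| * I

theorem fold_cont : Continuous fold := by unfold fold; fun_prop

theorem fold_im (z : ℂ) : (fold z).im = |z.im| := by simp [fold]

theorem fold_of_nonneg {z : ℂ} (h : 0 ≤ z.im) : fold z = z := by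
  apply Complex.ext <;> simp [fold, abs_of_nonneg h]

theorem fold_of_nonpos {z : ℂ} (h : z.im ≤ 0) : fold z = conj z := by
  apply Complex.ext <;> simp [fold, abs_of_nonpos h]

/-- the symmetric comparison function -/
noncomputable def Sg (v : ℂ → ℝ) (V : ℕ → ℂ → ℝ) (κ : ℂ → ℕ) (z : ℂ) : ℝ :=
  2 * v (fold z) + if z.im = 0 then 2 * v z else 2 * V (κ (fold z)) (fold z)

theorem Sg_ge (hS : IsSurf ε c v V) (κ : ℂ → ℕ) (z : ℂ) : 2 * v (fold z) ≤ Sg v V κ z := by
  unfold Sg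
  split_ifs with h
  · linarith [hS.v0 z h.ge]
  · have : 0 < (fold z).im := by rw [fold_im]; exact abs_pos.2 h
    linarith [hS.V0 (κ (fold z)) _ this]

theorem Sg_MV {Ω : Set ℂ} (hd : ∀ j, ∀ z ∈ closedBall (c j : ℂ) ε, z ∉ Ω)
    (hS : IsSurf ε c v V) {κ : ℂ → ℕ}
    (hκ1 : ∀ z : ℂ, 0 < z.im → z ∈ Ω → conj z ∈ Ω → ∀ᶠ y in 𝓝 z, κ y = κ z)
    (hκ2 : ∀ x : ℝ, (x : ℂ) ∈ Ω → ∀ᶠ z in 𝓝 (x : ℂ), 0 < z.im → κ z = lab c x)
    {z : ℂ} (hz : z ∈ Ω) (hz' : conj z ∈ Ω) : MV (Sg v V κ) z := by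
  have up : ∀ w : ℂ, 0 < w.im → w ∈ Ω → conj w ∈ Ω →
      MV (fun y => 2 * v y + 2 * V (κ y) y) w := by
    intro w hw h1 h2
    refine (((hS.vMV w hw).const_mul 2).add ((hS.VMV (κ w) w hw).const_mul 2)).congr ?_
    filter_upwards [hκ1 w hw h1 h2] with y hy
    rw [hy]
  rcases lt_trichotomy z.im 0 with h | h | h
  · have h1 := up (conj z) (by simpa using h) hz' (by simpa using hz)
    refine h1.conj.congr ?_
    filter_upwards [(isOpen_lt continuous_im continuous_const).mem_nhds h] with y hy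
    have hy' : y.im < 0 := hy
    simp only [Sg, fold_of_nonpos hy'.le, if_neg hy'.ne]
  · obtain ⟨x, rfl⟩ : ∃ x : ℝ, z = x := ⟨z.re, Complex.ext rfl (by simpa using h)⟩
    obtain ⟨g, hg, hgv⟩ := hS.gap x (far_of_mem hd hz)
    have hg' : MV (fun y => g (conj y)) x := MV.conj (by simpa using hg)
    refine ((hg.const_mul 2).add (hg'.const_mul 2)).congr ?_
    have hc : Tendsto (fun y : ℂ => conj y) (𝓝 (x : ℂ)) (𝓝 (x : ℂ)) := by
      simpa using (continuous_conj.continuousAt (x := (x : ℂ))).tendsto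
    have hall := hgv.and (hκ2 x hz)
    filter_upwards [hall, hc.eventually hall] with y h1 h2
    rcases lt_trichotomy y.im 0 with hy | hy | hy
    · have hy' : 0 < (conj y).im := by simpa using hy
      have e1 := h2.1.1 hy'.le
      have e2 := h2.1.2 hy'
      rw [conj_conj] at e2
      simp only [Sg, fold_of_nonpos hy.le, if_neg hy.ne, h2.2 hy', ← e1, ← e2]
      ring
    · have e0 : conj y = y := conj_eq_iff_im.2 hy
      simp only [Sg, fold_of_nonneg hy.ge, if_pos hy, e0, h1.1.1 hy.ge]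
    · simp only [Sg, fold_of_nonneg hy.le, if_neg hy.ne', h1.2 hy, h1.1.1 hy.le, h1.1.2 hy]
  · refine (up z h hz hz').congr ?_
    filter_upwards [(isOpen_lt continuous_const continuous_im).mem_nhds h] with y hy
    have hy' : 0 < y.im := hy
    simp only [Sg, fold_of_nonneg hy'.le, if_neg hy'.ne']

end Pol

open Pol in
theorem st_POL (hLAB : St_LAB) : St_POL := by
  intro n ε c Ω u v V hε hΩ hsc hdis hu hS
  have hd : ∀ j, ∀ z ∈ closedBall (c j : ℂ) ε, z ∉ Ω := fun j z hz =>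
    disjoint_left.1 (hdis j) hz
  obtain ⟨κ, hκ1, hκ2⟩ := hLAB n c Ω hΩ hsc fun j => hd j _ (mem_closedBall_self hε.le)
  set B : Set ℂ := ⋃ j, closedBall (c j : ℂ) ε with hBdef
  have hBc : ∀ z, conj z ∈ B ↔ z ∈ B := fun z => by
    simp only [hBdef, mem_iUnion, conj_mem_ball]
  have h1 : Bd Ω B u := Bd.of_perron hΩ hu
  have h2 : Bd (rf Ω) B fun z => u (conj z) := h1.rf fun z => (hBc z).1
  have hd' : ∀ j, ∀ z ∈ closedBall (c j : ℂ) ε, z ∉ rf Ω := fun j z hz =>
    hd j _ (conj_mem_ball.2 hz)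
  have hW : IsOpen (Ω ∩ rf Ω) := hΩ.inter (rf_open hΩ)
  -- one round: a bound `M` for the real values gives the bound `M / 2`
  have round : ∀ M : ℝ, 0 ≤ M → (∀ x : ℝ, (x : ℂ) ∈ Ω → u x - 2 * v x ≤ M) →
      ∀ x : ℝ, (x : ℂ) ∈ Ω → u x - 2 * v x ≤ M / 2 := by
    intro M hM hR
    have a1 := upper hM h1 hd hS hR
    have a2 := upper hM h2 hd' hS fun x hx => by
      have hx' : (x : ℂ) ∈ Ω := by simpa [rf] using hx
      simpa using hR x hx'
    have hfold : ∀ z ∈ Ω ∩ rf Ω, fold z ∈ Ω ∧ conj (fold z) ∈ Ω ∧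
        u z + u (conj z) = u (fold z) + u (conj (fold z)) := by
      intro z hz
      rcases le_total 0 z.im with h | h
      · rw [fold_of_nonneg h]; exact ⟨hz.1, hz.2, rfl⟩
      · rw [fold_of_nonpos h, conj_conj]; exact ⟨hz.2, hz.1, add_comm _ _⟩
    have key : ∀ z ∈ Ω ∩ rf Ω, u z + u (conj z) - Sg v V κ z ≤ M := by
      refine maxp hW (fun z hz => ((h1.sub z hz.1).add (h2.sub z hz.2)).sub_MV
        (Sg_MV hd hS hκ1 hκ2 hz.1 hz.2)) (fun ζ hζ η hη => ?_) (fun η hη => ?_)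
      · have hnot : ζ ∉ Ω ∩ rf Ω := by rw [hW.frontier_eq] at hζ; exact hζ.2
        have hf0 : ∀ z, 0 ≤ (fold z).im := fun z => by rw [fold_im]; exact abs_nonneg _
        have ht : ∀ S : Set ℂ, (∀ z ∈ Ω ∩ rf Ω, fold z ∈ S) →
            Tendsto fold (𝓝[Ω ∩ rf Ω] ζ) (𝓝[S] (fold ζ)) := fun S hSS =>
          tendsto_nhdsWithin_iff.2 ⟨fold_cont.continuousAt.tendsto.mono_left nhdsWithin_le_nhds,
            eventually_nhdsWithin_of_forall hSS⟩
        by_cases hB : fold ζ ∈ B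
        · obtain ⟨j, hj⟩ := mem_iUnion.1 hB
          filter_upwards [(ht _ fun z _ => hf0 z).eventually
            (hS.big j _ hj (hf0 ζ) (η / 2) (by linarith)), self_mem_nhdsWithin] with z hz1 hz2
          have := Sg_ge hS κ z
          have := h1.one z hz2.1
          have := h2.one z hz2.2
          linarith
        · have hor : fold ζ ∉ Ω ∨ fold ζ ∉ rf Ω := by
            by_contra hcon
            push Not at hcon
            apply hnot
            rcases le_total 0 ζ.im with h | h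
            · rw [fold_of_nonneg h] at hcon; exact hcon
            · rw [fold_of_nonpos h] at hcon
              exact ⟨by simpa [rf] using hcon.2, hcon.1⟩
          rcases hor with ho | ho
          · filter_upwards [(ht Ω fun z hz => (hfold z hz).1).eventually (h1.out _ ho hB η hη),
              self_mem_nhdsWithin] with z hz1 hz2
            obtain ⟨e1, e2, e3⟩ := hfold z hz2
            have := a2 (fold z) e2 (hf0 z)
            have := Sg_ge hS κ z
            linarith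
          · filter_upwards [(ht (rf Ω) fun z hz => (hfold z hz).2.1).eventually
              (h2.out _ ho hB η hη), self_mem_nhdsWithin] with z hz1 hz2
            obtain ⟨e1, e2, e3⟩ := hfold z hz2
            have := a1 (fold z) e1 (hf0 z)
            have := Sg_ge hS κ z
            linarith
      · filter_upwards [h1.inf (η / 2) (by linarith), h2.inf (η / 2) (by linarith)]
          with z e1 e2 hz
        have := Sg_ge hS κ z
        have := hS.v0 (fold z) (by rw [fold_im]; exact abs_nonneg _)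
        linarith [e1 hz.1, e2 hz.2]
    intro x hx
    have := key x ⟨hx, by simpa [rf] using hx⟩
    simp only [Sg, fold_of_nonneg (z := (x : ℂ)) (by simp), ofReal_im, if_true,
      conj_ofReal] at this
    linarith
  have iter : ∀ k : ℕ, ∀ x : ℝ, (x : ℂ) ∈ Ω → u x - 2 * v x ≤ (1 / 2) ^ k := by
    intro k
    induction k with
    | zero => intro x hx; have := h1.one _ hx; have := hS.v0 x (by simp); simp; linarith
    | succ k ih =>
      intro x hx
      have := round _ (by positivity) ih x hx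
      rw [pow_succ]; linarith
  have hR : ∀ x : ℝ, (x : ℂ) ∈ Ω → u x - 2 * v x ≤ 0 := fun x hx =>
    ge_of_tendsto' (tendsto_pow_atTop_nhds_zero_of_lt_one (r := (1 / 2 : ℝ)) (by norm_num)
      (by norm_num)) fun k => iter k x hx
  intro z hz
  refine ⟨fun h => ?_, fun h => ?_⟩
  · linarith [upper le_rfl h1 hd hS hR z hz h]
  · have := upper le_rfl h2 hd' hS (fun x hx => by
      have hx' : (x : ℂ) ∈ Ω := by simpa [rf] using hx
      simpa using hR x hx') (conj z) (by simpa [rf] using hz) (by simpa using h)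
    simp only [conj_conj] at this
    linarith

end Pool.Agent.BAC
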