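import Pool.Agent.Lib.BAC.Blue

/-! The uniformiser on the real line. -/

namespace Pool.Agent.BAC

open Set Filter Topology

namespace Real0

variable {m : ℕ} (U : Uni m)

/-- `FR` with only the poles in `s` -/
noncomputable def G0 (s : Finset (Fin m)) (x : ℝ) : ℝ :=
  -x ^ 3 + U.c * x + U.d + ∑ i ∈ s, U.r i / (x - U.p i)

/-- its derivative -/
noncomputable def G1 (s : Finset (Fin m)) (x : ℝ) : ℝ :=
  U.c - 3 * x ^ 2 - ∑ i ∈ s, U.r i / (x - U.p i) ^ 2

/-- its second derivative -/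
noncomputable def G2 (s : Finset (Fin m)) (x : ℝ) : ℝ :=
  -6 * x + 2 * ∑ i ∈ s, U.r i / (x - U.p i) ^ 3

theorem hasDeriv0 (s : Finset (Fin m)) {x : ℝ} (h : ∀ i ∈ s, x ≠ U.p i) :
    HasDerivAt (G0 U s) (G1 U s x) x := by
  have h1 : HasDerivAt (fun x : ℝ => ∑ i ∈ s, U.r i / (x - U.p i))
      (∑ i ∈ s, -(U.r i / (x - U.p i) ^ 2)) x := by
    refine HasDerivAt.fun_sum fun i hi => ?_
    have h0 := sub_ne_zero.2 (h i hi)
    refine ((hasDerivAt_const x (U.r i)).fun_div ((hasDerivAt_id' x).sub_const (U.p i))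
      h0).congr_deriv ?_
    field_simp
    ring
  have h2 : HasDerivAt (fun x : ℝ => -x ^ 3 + U.c * x + U.d) (U.c - 3 * x ^ 2) x := by
    refine ((((hasDerivAt_pow 3 x).fun_neg).fun_add
      ((hasDerivAt_id' x).const_mul U.c)).add_const U.d).congr_deriv ?_
    norm_num
    ring
  refine (h2.fun_add h1).congr_deriv ?_
  rw [Finset.sum_neg_distrib, G1]
  ring

theorem hasDeriv1 (s : Finset (Fin m)) {x : ℝ} (h : ∀ i ∈ s, x ≠ U.p i) :
    HasDerivAt (G1 U s) (G2 U s x) x := by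
  have h1 : HasDerivAt (fun x : ℝ => ∑ i ∈ s, U.r i / (x - U.p i) ^ 2)
      (∑ i ∈ s, -(2 * (U.r i / (x - U.p i) ^ 3))) x := by
    refine HasDerivAt.fun_sum fun i hi => ?_
    have h0 := sub_ne_zero.2 (h i hi)
    refine ((hasDerivAt_const x (U.r i)).fun_div
      (((hasDerivAt_id' x).sub_const (U.p i)).fun_pow 2) (pow_ne_zero 2 h0)).congr_deriv ?_
    norm_num
    field_simp
  have h2 : HasDerivAt (fun x : ℝ => U.c - 3 * x ^ 2) (-6 * x) x := by
    refine (((hasDerivAt_pow 2 x).const_mul 3).const_sub U.c).congr_deriv ?_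
    norm_num
    ring
  refine (h2.fun_sub h1).congr_deriv ?_
  rw [Finset.sum_neg_distrib, G2, Finset.mul_sum]
  ring

/-- the poles in `s` lie on one side of `D` -/
def Side (s : Finset (Fin m)) (D : Set ℝ) : Prop :=
  ∀ i ∈ s, (∀ x ∈ D, U.p i < x) ∨ ∀ x ∈ D, x < U.p i

theorem Side.ne {s : Finset (Fin m)} {D : Set ℝ} (h : Side U s D) {x : ℝ} (hx : x ∈ D) :
    ∀ i ∈ s, x ≠ U.p i := fun i hi =>
  (h i hi).elim (fun h' => (h' x hx).ne') fun h' => (h' x hx).ne

theorem anti2 {s : Finset (Fin m)} {D : Set ℝ} (h : Side U s D) : StrictAntiOn (G2 U s) D := by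
  intro x hx y hy hxy
  have h1 : ∑ i ∈ s, U.r i / (y - U.p i) ^ 3 ≤ ∑ i ∈ s, U.r i / (x - U.p i) ^ 3 := by
    refine Finset.sum_le_sum fun i hi => ?_
    have hr := (U.hr i).le
    rcases h i hi with h' | h'
    · have h2 := sub_pos.2 (h' x hx)
      exact div_le_div_of_nonneg_left hr (pow_pos h2 3) (pow_le_pow_left₀ h2.le (by linarith) 3)
    · have h2 := sub_pos.2 (h' y hy)
      have h3 : U.r i / (U.p i - x) ^ 3 ≤ U.r i / (U.p i - y) ^ 3 :=
        div_le_div_of_nonneg_left hr (pow_pos h2 3) (pow_le_pow_left₀ h2.le (by linarith) 3)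
      have e : ∀ t : ℝ, U.r i / (t - U.p i) ^ 3 = -(U.r i / (U.p i - t) ^ 3) := fun t => by
        rw [show (t - U.p i) ^ 3 = -(U.p i - t) ^ 3 by ring, div_neg]
      rw [e, e]
      linarith
  simp only [G2]
  linarith

theorem conc {s : Finset (Fin m)} {D : Set ℝ} (hD : Convex ℝ D) (h : Side U s D) :
    StrictConcaveOn ℝ D (G1 U s) := by
  refine StrictAntiOn.strictConcaveOn_of_deriv hD
    (fun x hx => (hasDeriv1 U s (h.ne U hx)).continuousAt.continuousWithinAt) ?_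
  intro x hx y hy hxy
  rw [(hasDeriv1 U s (h.ne U (interior_subset hx))).deriv,
    (hasDeriv1 U s (h.ne U (interior_subset hy))).deriv]
  exact anti2 U h (interior_subset hx) (interior_subset hy) hxy

theorem mono0 {s : Finset (Fin m)} {a b : ℝ} (h : Side U s (Icc a b))
    (hp : ∀ x, a < x → x < b → 0 < G1 U s x) : StrictMonoOn (G0 U s) (Icc a b) := by
  refine strictMonoOn_of_deriv_pos (convex_Icc a b)
    (fun x hx => (hasDeriv0 U s (h.ne U hx)).continuousAt.continuousWithinAt) fun x hx => ?_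
  rw [(hasDeriv0 U s (h.ne U (interior_subset hx))).deriv]
  rw [interior_Icc] at hx
  exact hp x hx.1 hx.2

theorem monoA : StrictMono U.A :=
  Fin.strictMono_iff_lt_succ.2 fun i => (U.hAB _).trans ((U.hBp i).trans (U.hpA i))

theorem monoB : StrictMono U.B :=
  Fin.strictMono_iff_lt_succ.2 fun i => (U.hBp i).trans ((U.hpA i).trans (U.hAB _))

theorem p_lt_A {i : Fin m} {j : Fin (m + 1)} (h : i.succ ≤ j) : U.p i < U.A j :=
  (U.hpA i).trans_le ((monoA U).monotone h)

theorem B_lt_p {i : Fin m} {j : Fin (m + 1)} (h : j ≤ i.castSucc) : U.B j < U.p i :=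
  ((monoB U).monotone h).trans_lt (U.hBp i)

theorem monop : StrictMono U.p := fun _ i' h =>
  (p_lt_A U (j := i'.castSucc) (Fin.succ_le_castSucc_iff.2 h)).trans
    ((U.hAB _).trans (U.hBp i'))

/-- the interval between consecutive poles -/
def II (j : Fin (m + 1)) : Set ℝ :=
  {x | ∀ i : Fin m, (i.succ ≤ j → U.p i < x) ∧ (j ≤ i.castSucc → x < U.p i)}

theorem convex_II (j : Fin (m + 1)) : Convex ℝ (II U j) := by
  rw [convex_iff_ordConnected]
  exact ⟨fun x hx y hy z hz i =>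
    ⟨fun h => ((hx i).1 h).trans_le hz.1, fun h => hz.2.trans_lt ((hy i).2 h)⟩⟩

theorem side_II (j : Fin (m + 1)) : Side U Finset.univ (II U j) := fun i _ =>
  (Fin.succ_le_or_le_castSucc j i).imp (fun h _ hx => (hx i).1 h) fun h _ hx => (hx i).2 h

theorem Icc_sub (j : Fin (m + 1)) : Icc (U.A j) (U.B j) ⊆ II U j := fun _ hx _ =>
  ⟨fun h => (p_lt_A U h).trans_le hx.1, fun h => hx.2.trans_lt (B_lt_p U h)⟩

theorem A_mem (j : Fin (m + 1)) : U.A j ∈ II U j := Icc_sub U j (left_mem_Icc.2 (U.hAB j).le)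

theorem B_mem (j : Fin (m + 1)) : U.B j ∈ II U j := Icc_sub U j (right_mem_Icc.2 (U.hAB j).le)

theorem side_Icc (j : Fin (m + 1)) : Side U Finset.univ (Icc (U.A j) (U.B j)) := fun i hi =>
  (side_II U j i hi).imp (fun h x hx => h x (Icc_sub U j hx)) fun h x hx => h x (Icc_sub U j hx)

theorem exists_II {x : ℝ} (hx : ∀ i, x ≠ U.p i) : ∃ j, x ∈ II U j := by
  obtain ⟨j, hj, hmin⟩ := (wellFounded_lt (α := Fin (m + 1))).has_min
    {j | ∀ i : Fin m, j ≤ i.castSucc → x < U.p i}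
    ⟨Fin.last m, fun i h => absurd h (Fin.castSucc_lt_last i).not_ge⟩
  refine ⟨j, fun i => ⟨fun h => ?_, hj i⟩⟩
  by_contra hn
  have h1 : x < U.p i := lt_of_le_of_ne (not_lt.1 hn) (hx i)
  exact hmin i.castSucc
    (fun i' h' => h1.trans_le ((monop U).monotone (Fin.castSucc_le_castSucc_iff.1 h')))
    (Fin.castSucc_lt_succ.trans_le h)

theorem gA (j : Fin (m + 1)) : G1 U Finset.univ (U.A j) = 0 := U.hA j

theorem gB (j : Fin (m + 1)) : G1 U Finset.univ (U.B j) = 0 := U.hB j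

theorem pos_top (j : Fin (m + 1)) (x : ℝ) (h : U.A j < x) (h' : x < U.B j) :
    0 < G1 U Finset.univ x := by
  have h1 := (conc U (convex_II U j) (side_II U j)).lt_on_openSegment (A_mem U j) (B_mem U j)
    (U.hAB j).ne (z := x) (by rw [openSegment_eq_Ioo (U.hAB j)]; exact ⟨h, h'⟩)
  rwa [gA, gB, min_self] at h1

theorem mem_top {x : ℝ} (hx : ∀ i, x ≠ U.p i) (h0 : 0 ≤ G1 U Finset.univ x) :
    ∃ j, x ∈ Icc (U.A j) (U.B j) := by
  obtain ⟨j, hj⟩ := exists_II U hx
  have hc := conc U (convex_II U j) (side_II U j)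
  refine ⟨j, not_lt.1 fun h => ?_, not_lt.1 fun h => ?_⟩
  · have hlt := h.trans (U.hAB j)
    have h1 := hc.lt_on_openSegment hj (B_mem U j) hlt.ne (z := U.A j)
      (by rw [openSegment_eq_Ioo hlt]; exact ⟨h, U.hAB j⟩)
    rw [gA, gB, min_eq_right h0] at h1
    exact lt_irrefl _ h1
  · have hlt := (U.hAB j).trans h
    have h1 := hc.lt_on_openSegment (A_mem U j) hj hlt.ne (z := U.B j)
      (by rw [openSegment_eq_Ioo hlt]; exact ⟨U.hAB j, h⟩)
    rw [gA, gB, min_eq_left h0] at h1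
    exact lt_irrefl _ h1

theorem sign2 (j : Fin (m + 1)) :
    0 < G2 U Finset.univ (U.A j) ∧ G2 U Finset.univ (U.B j) < 0 := by
  have hs := side_Icc U j
  obtain ⟨ξ, hξ, h0⟩ := exists_hasDerivAt_eq_zero (f := G1 U Finset.univ)
    (f' := G2 U Finset.univ) (U.hAB j)
    (fun x hx => (hasDeriv1 U _ (hs.ne U hx)).continuousAt.continuousWithinAt)
    (by rw [gA, gB]) fun x hx => hasDeriv1 U _ (hs.ne U (Ioo_subset_Icc_self hx))
  have ha := anti2 U hs
  have h1 := ha (left_mem_Icc.2 (U.hAB j).le) (Ioo_subset_Icc_self hξ) hξ.1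
  have h2 := ha (Ioo_subset_Icc_self hξ) (right_mem_Icc.2 (U.hAB j).le) hξ.2
  exact ⟨h0 ▸ h1, h0 ▸ h2⟩

theorem mono_top (j : Fin (m + 1)) : StrictMonoOn U.FR (Icc (U.A j) (U.B j)) :=
  mono0 U (side_Icc U j) (pos_top U j)

theorem gap_lt (i : Fin m) : U.f i.castSucc < U.e i.succ := by
  have hb := U.hBp i
  have ha := U.hpA i
  have hr := U.hr i
  have hs : Side U (Finset.univ.erase i) (Icc (U.B i.castSucc) (U.A i.succ)) := by
    intro k hk
    rcases lt_or_gt_of_ne (Finset.ne_of_mem_erase hk) with h | h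
    · exact Or.inl fun x hx => ((p_lt_A U (j := i.castSucc)
        (Fin.succ_le_castSucc_iff.2 h)).trans (U.hAB _)).trans_le hx.1
    · exact Or.inr fun x hx => hx.2.trans_lt ((U.hAB _).trans
        (B_lt_p U (Fin.succ_le_castSucc_iff.2 h)))
  have e1 : ∀ x, G1 U (Finset.univ.erase i) x =
      G1 U Finset.univ x + U.r i / (x - U.p i) ^ 2 := fun x => by
    simp only [G1]
    rw [← Finset.add_sum_erase _ _ (Finset.mem_univ i)]
    ring
  have e0 : ∀ x, U.FR x = G0 U (Finset.univ.erase i) x + U.r i / (x - U.p i) := fun x => by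
    simp only [G0, Uni.FR, psiR]
    rw [← Finset.add_sum_erase _ _ (Finset.mem_univ i)]
    ring
  have hB : 0 < G1 U (Finset.univ.erase i) (U.B i.castSucc) := by
    rw [e1, gB, zero_add]
    exact div_pos hr (sq_pos_of_ne_zero (sub_ne_zero.2 hb.ne))
  have hA : 0 < G1 U (Finset.univ.erase i) (U.A i.succ) := by
    rw [e1, gA, zero_add]
    exact div_pos hr (sq_pos_of_ne_zero (sub_ne_zero.2 ha.ne'))
  have hlt := hb.trans ha
  have hm := mono0 U hs fun x h h' => (lt_min hB hA).trans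
    ((conc U (convex_Icc _ _) hs).lt_on_openSegment (left_mem_Icc.2 hlt.le)
      (right_mem_Icc.2 hlt.le) hlt.ne (by rw [openSegment_eq_Ioo hlt]; exact ⟨h, h'⟩))
  have h1 := hm (left_mem_Icc.2 hlt.le) (right_mem_Icc.2 hlt.le) hlt
  have h2 : U.r i / (U.B i.castSucc - U.p i) < 0 := div_neg_of_pos_of_neg hr (by linarith)
  have h3 : 0 < U.r i / (U.A i.succ - U.p i) := div_pos hr (by linarith)
  simp only [Uni.e, Uni.f, e0]
  linarith

end Real0

open Real0 in
theorem st_REAL : St_REAL := by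
  intro m U
  have hl : ∀ j, U.A j ∈ Icc (U.A j) (U.B j) := fun j => left_mem_Icc.2 (U.hAB j).le
  have hr : ∀ j, U.B j ∈ Icc (U.A j) (U.B j) := fun j => right_mem_Icc.2 (U.hAB j).le
  refine ⟨monop U, pos_top U, fun x hx h0 => mem_top U hx h0, sign2 U, fun j x hx => ⟨?_, ?_⟩,
    fun j y hy => ?_, fun j => mono_top U j (hl j) (hr j) (U.hAB j), gap_lt U⟩
  · exact fun i => (side_Icc U j).ne U hx i (Finset.mem_univ i)
  · exact ⟨(mono_top U j).monotoneOn (hl j) hx hx.1, (mono_top U j).monotoneOn hx (hr j) hx.2⟩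
  · exact intermediate_value_Icc (U.hAB j).le (f := U.FR) (fun x hx =>
      (hasDeriv0 U _ ((side_Icc U j).ne U hx)).continuousAt.continuousWithinAt) hy

end Pool.Agent.BAC
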