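import Pool.Agent.Lib.BAC.Blue

namespace Pool.Agent.BAC

open Set

namespace Ref

lemma jr_lt {s t : ℝ} (hs : 1 ≤ s) (h : s < t) : Jr s < Jr t := by
  have s0 : 0 < s := by linarith
  have t0 : 0 < t := by linarith
  have e : Jr t - Jr s = (t - s) * (s * t - 1) / (2 * (s * t)) := by
    unfold Jr; field_simp; ring
  have : 0 < (t - s) * (s * t - 1) / (2 * (s * t)) :=
    div_pos (mul_pos (by linarith) (by nlinarith)) (by positivity)
  linarith

lemma jr_one : Jr 1 = 1 := by unfold Jr; norm_num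

lemma ld_mono {Ω : Set ℂ} {a b a' b' r : ℝ} (h : LD Ω a b r) (ha : a ≤ a') (hb : b' ≤ b) :
    LD Ω a' b' r := fun α β h1 h2 h3 => h α β (ha.trans_lt h1) h2 (h3.trans_le hb)

lemma sum_range (f : ℕ → ℝ) (n : ℕ) : ((List.range n).map f).sum = ∑ i ∈ Finset.range n, f i := by
  induction n with
  | zero => simp
  | succ n ih => rw [List.range_succ, List.map_append, List.sum_append, ih, Finset.sum_range_succ]; simp

end Ref

open Ref

theorem st_REF (hNUM : St_NUM) (hLOC : St_LOC) (hGOODC : St_GOODC) (hKEEP : St_KEEP)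
    (hGAIN : St_GAIN) : St_REF := by
  intro q hq
  obtain ⟨η, κ, hη, hκ, hκ4, N, T, hT0, hT, hS⟩ := hNUM q hq
  obtain ⟨σ, hσ, hσ1, hloc⟩ := hLOC η κ hη hκ
  have hT1 : ∀ i, 1 + η ≤ T i := fun i => hT0 ▸ hT.monotone (Nat.zero_le i)
  have hJ : StrictMono fun i => Jr (T i) := fun i j h => jr_lt (by linarith [hT1 i]) (hT h)
  have hJ0 : 1 < Jr (T 0) := jr_one ▸ jr_lt le_rfl (by linarith [hT1 0])
  have h2σ : 0 < 2 / σ := by positivity
  obtain ⟨W, hW⟩ : ∃ W, W = 2 / σ + Jr (T N) := ⟨_, rfl⟩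
  obtain ⟨u, hu⟩ : ∃ u : ℕ → ℝ, ∀ i, u i = if i ≤ N then Jr (T i) else W := ⟨_, fun _ => rfl⟩
  obtain ⟨ρ, hρ⟩ : ∃ ρ : ℕ → ℝ, ∀ i, ρ i =
      if i < N then (1 - 4 * κ) / (1 - (T (i + 1) ^ 2)⁻¹) else 1 := ⟨_, fun _ => rfl⟩
  have uW : ∀ i, u i ≤ W := fun i => by
    rw [hu]; split_ifs with h
    · have := hJ.monotone h; linarith
    · exact le_rfl
  have umono : ∀ i j, i ≤ j → u i ≤ u j := fun i j h => by
    by_cases hj : j ≤ N
    · rw [hu, hu, if_pos hj, if_pos (h.trans hj)]; exact hJ.monotone h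
    · rw [hu j, if_neg hj]; exact uW i
  have ult : ∀ i, i ≤ N → u i < u (i + 1) := fun i h => by
    rw [hu, hu, if_pos h]; split_ifs with h1
    · exact hJ (Nat.lt_succ_self i)
    · have := hJ.monotone h; linarith
  have u0 : u 0 = Jr (T 0) := by rw [hu, if_pos (Nat.zero_le N)]
  have uN : u N = Jr (T N) := by rw [hu, if_pos le_rfl]
  have uN1 : u (N + 1) = W := by rw [hu, if_neg (by omega)]
  have u1 : ∀ i, 1 < u i := fun i => (u0 ▸ hJ0).trans_le (umono 0 i (Nat.zero_le i))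
  have W1 : 1 < W := (u1 0).trans_le (uW 0)
  have ρ0 : ∀ i, 0 < ρ i := fun i => by
    rw [hρ]; split_ifs
    · have : (T (i + 1) ^ 2)⁻¹ < 1 := inv_lt_one_of_one_lt₀ (by nlinarith [hT1 (i + 1)])
      exact div_pos (by linarith) (by linarith)
    · exact one_pos
  obtain ⟨S, hSd⟩ : ∃ S, S = ∑ i ∈ Finset.range N,
      (Jr (T (i + 1)) - Jr (T i)) * ((1 - 4 * κ) / (1 - (T (i + 1) ^ 2)⁻¹)) ^ q := ⟨_, rfl⟩
  have hsum : ∑ i ∈ Finset.range (N + 1), (u (i + 1) - u i) * ρ i ^ q = S + W - Jr (T N) := by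
    rw [Finset.sum_range_succ, uN, uN1, hρ N, if_neg (lt_irrefl N), Real.one_rpow, hSd,
      Finset.sum_congr rfl fun i hi => by
        have hi := Finset.mem_range.1 hi
        rw [hu, hu, hρ, if_pos hi, if_pos hi.le, if_pos (Nat.succ_le_of_lt hi)]]
    ring
  refine ⟨(S - Jr (T N)) / W, div_pos (by linarith) (by linarith), ?_⟩
  rintro Ω ⟨a, b, r, τ⟩ hΩ ⟨ha, hab, hb, hr, hτ, hF, hL⟩ hs
  simp only at ha hab hb hr hτ hF hL hs ⊢
  obtain ⟨x, hx⟩ : ∃ x, x = (a + b) / 2 := ⟨_, rfl⟩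
  obtain ⟨δ, hδ, hδW⟩ : ∃ δ, 0 < δ ∧ δ * W = (b - a) / 2 :=
    ⟨(b - a) / 2 / W, div_pos (by linarith) (by linarith), div_mul_cancel₀ _ (by linarith)⟩
  have hδu : ∀ i, δ < δ * u i ∧ δ * u i ≤ (b - a) / 2 := fun i =>
    ⟨by nlinarith [u1 i], hδW ▸ mul_le_mul_of_nonneg_left (uW i) hδ.le⟩
  have e2 : 2 * δ / σ ≤ (b - a) / 2 := by
    have e : 2 * δ / σ = δ * (2 / σ) := by ring
    have := (hδu N).1
    rw [uN] at this
    rw [e, ← hδW, hW]; linarith
  have c1 : a ≤ x - 2 * δ / σ := by linarith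
  have c2 : x + 2 * δ / σ ≤ b := by linarith
  have c3 : 2 * δ / σ ≤ τ := by linarith
  have keep := fun a' b' r' => hKEEP Ω a b τ x δ σ a' b' r' hΩ hF hδ hσ hσ1 c1 c2 c3
  obtain ⟨τ', t0, t1, t2⟩ : ∃ τ', 0 < τ' ∧ τ' ≤ τ ∧ τ' ≤ σ * (δ * u 0 - δ) :=
    ⟨min _ _, lt_min hτ (mul_pos hσ (by linarith [(hδu 0).1])), min_le_left _ _, min_le_right _ _⟩
  have free : ∀ a' b', a ≤ a' → b' ≤ b → (x + δ * u 0 ≤ a' ∨ b' ≤ x - δ * u 0) →
      Free (Ω ∪ Cav x δ σ) a' b' τ' := by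
    rintro a' b' h1 h2 h3 z (hz | ⟨-, -, hz⟩) h4 h5 h6
    · exact hF z hz (h1.trans_lt h4) (h5.trans_le h2) (by linarith)
    · have h7 : -z.im / σ ≤ δ * u 0 - δ := by rw [div_le_iff₀ hσ]; linarith
      rw [neg_div] at h7
      obtain ⟨h8, h9⟩ := abs_lt.1 hz
      rcases h3 with h3 | h3 <;> linarith
  have ld : ∀ i, i ≤ N →
      LD (Ω ∪ Cav x δ σ) (x + δ * u i) (x + δ * u (i + 1)) (r * ρ i) ∧
      LD (Ω ∪ Cav x δ σ) (x - δ * u (i + 1)) (x - δ * u i) (r * ρ i) := fun i hi => by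
    have b1 := hδu i
    have b2 := hδu (i + 1)
    rcases hi.eq_or_lt with h | h
    · rw [hρ, if_neg (by omega), mul_one]
      exact ⟨keep _ _ _ (Or.inr (by linarith)) (ld_mono hL (by linarith) (by linarith)),
        keep _ _ _ (Or.inl (by linarith)) (ld_mono hL (by linarith) (by linarith))⟩
    · rw [hu, if_pos (Nat.succ_le_of_lt h)] at b2
      rw [hu, hu, hρ, if_pos h, if_pos hi, if_pos (Nat.succ_le_of_lt h)]
      exact hGAIN Ω a b τ r x δ σ η κ (T i) (T (i + 1)) hΩ hF hL hr.le hδ hσ hσ1 hη hκ4 c1 c2 c3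
        hloc (hT1 i) (hT (Nat.lt_succ_self i)) (by linarith) (by linarith)
  have dm : ∀ i j, i ≤ j → δ * u i ≤ δ * u j := fun i j h =>
    mul_le_mul_of_nonneg_left (umono i j h) hδ.le
  refine ⟨Ω ∪ Cav x δ σ,
    (List.range (N + 1)).map (fun i => ⟨x + δ * u i, x + δ * u (i + 1), r * ρ i, τ'⟩) ++
    (List.range (N + 1)).map (fun i => ⟨x - δ * u (i + 1), x - δ * u i, r * ρ i, τ'⟩),
    ⟨hGOODC Ω a b τ x δ σ hΩ hF hδ hσ hσ1 c1 c2 c3, ?_, ?_⟩, ?_, ?_, ?_⟩
  · intro p hp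
    simp only [List.mem_append, List.mem_map, List.mem_range] at hp
    rcases hp with ⟨i, hi, rfl⟩ | ⟨i, hi, rfl⟩
    all_goals
      have b1 := hδu i
      have b2 := hδu (i + 1)
      have b3 := mul_lt_mul_of_pos_left (ult i (by omega)) hδ
      have b4 := dm 0 i (Nat.zero_le i)
    · exact ⟨by simp only; linarith, by simp only; linarith, by simp only; linarith,
        mul_pos hr (ρ0 i), t0, free _ _ (by linarith) (by linarith) (Or.inl (by linarith)),
        (ld i (by omega)).1⟩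
    · exact ⟨by simp only; linarith, by simp only; linarith, by simp only; linarith,
        mul_pos hr (ρ0 i), t0, free _ _ (by linarith) (by linarith) (Or.inr (by linarith)),
        (ld i (by omega)).2⟩
  · rw [List.pairwise_append, List.pairwise_map, List.pairwise_map]
    refine ⟨List.pairwise_lt_range.imp fun {i j} h => Or.inl ?_,
      List.pairwise_lt_range.imp fun {i j} h => Or.inr ?_, fun p hp p' hp' => Or.inr ?_⟩
    · have := dm (i + 1) j h; simp only; linarith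
    · have := dm (i + 1) j h; simp only; linarith
    · obtain ⟨i, -, rfl⟩ := List.mem_map.1 hp
      obtain ⟨j, -, rfl⟩ := List.mem_map.1 hp'
      have b1 := hδu i
      have b2 := hδu j
      simp only; linarith
  · intro p hp
    simp only [List.mem_append, List.mem_map, List.mem_range] at hp
    rcases hp with ⟨i, hi, rfl⟩ | ⟨i, hi, rfl⟩
    all_goals
      have b1 := hδu i
      have b2 := hδu (i + 1)
      exact ⟨by simp only; linarith, by simp only; linarith⟩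
  · have e : ∀ i, δ * (u (i + 1) - u i) * (r * ρ i) ^ q =
        δ * r ^ q * ((u (i + 1) - u i) * ρ i ^ q) := fun i => by
      rw [Real.mul_rpow hr.le (ρ0 i).le]; ring
    rw [mass, List.map_append, List.sum_append, List.map_map, List.map_map, sum_range, sum_range,
      ← Finset.sum_add_distrib, Finset.sum_congr rfl (g := fun i =>
        2 * δ * r ^ q * ((u (i + 1) - u i) * ρ i ^ q)) fun i _ => by
          simp only [Function.comp]; linear_combination 2 * e i,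
      ← Finset.mul_sum, hsum]
    have e3 : b - a = 2 * δ * W := by linarith
    rw [e3]
    apply le_of_eq
    field_simp
    ring
  · rintro ⟨a', b', r', τ''⟩ ⟨k1, k2, k3, k4, k5, k6, k7⟩ hsep
    have b1 := hδu 0
    refine ⟨k1, k2, k3, k4, k5, ?_, keep _ _ _ ?_ k7⟩
    · rintro z (hz | ⟨-, hz, -⟩) h4 h5 h6
      · exact k6 z hz h4 h5 h6
      · have h7 := (Complex.abs_re_le_norm (z - x)).trans_lt hz
        rw [Complex.sub_re, Complex.ofReal_re] at h7
        obtain ⟨h8, h9⟩ := abs_lt.1 h7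
        simp only at h4 h5
        rcases hsep with h3 | h3 <;> simp only at h3 <;> linarith
    · rcases hsep with h3 | h3 <;> simp only at h3 ⊢
      · exact Or.inr (by linarith)
      · exact Or.inl (by linarith)

end Pool.Agent.BAC
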