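import Pool.Agent.Lib.BAC.Blue

namespace Pool.Agent.BAC

open Set

namespace Root

variable {m : ℕ} {c : ℝ} {r p : Fin m → ℝ}

theorem cont {S : Set ℝ} (h : ∀ x ∈ S, ∀ i, x ≠ p i) : ContinuousOn (dpsiR c r p) S := by
  refine ContinuousOn.sub (by fun_prop) (continuousOn_finsetSum _ fun i _ => ?_)
  exact ContinuousOn.div continuousOn_const (by fun_prop)
    fun x hx => pow_ne_zero 2 (sub_ne_zero.2 (h x hx i))

theorem le_far (hr : ∀ i, 0 < r i) {x : ℝ} (hx : |c| + 1 ≤ |x|) : dpsiR c r p x ≤ 0 := by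
  have h1 : 0 ≤ ∑ i, r i / (x - p i) ^ 2 :=
    Finset.sum_nonneg fun i _ => div_nonneg (hr i).le (sq_nonneg _)
  have h2 := le_abs_self c
  have h3 := abs_nonneg c
  have h4 := sq_abs x
  unfold dpsiR
  nlinarith

theorem le_near (hr : ∀ i, 0 < r i) (x : ℝ) (i : Fin m) :
    dpsiR c r p x ≤ c - r i / (x - p i) ^ 2 := by
  have h1 : r i / (x - p i) ^ 2 ≤ ∑ i, r i / (x - p i) ^ 2 :=
    Finset.single_le_sum (f := fun i => r i / (x - p i) ^ 2)
      (fun i _ => div_nonneg (hr i).le (sq_nonneg _)) (Finset.mem_univ i)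
  have h2 := sq_nonneg x
  unfold dpsiR
  linarith

theorem exists_small (c : ℝ) {s D : ℝ} (hs : 0 < s) (hD : 0 < D) :
    ∃ t, 0 < t ∧ t < D ∧ c - s / t ^ 2 ≤ 0 := by
  have h0 : 0 < |c| + 1 := by positivity
  refine ⟨min (D / 2) (min 1 (s / (|c| + 1))), by positivity,
    (min_le_left _ _).trans_lt (by linarith), ?_⟩
  set t := min (D / 2) (min 1 (s / (|c| + 1))) with ht
  have h1 : 0 < t := by positivity
  have h2 : t ≤ 1 := (min_le_right _ _).trans (min_le_left _ _)
  have h3 : t ≤ s / (|c| + 1) := (min_le_right _ _).trans (min_le_right _ _)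
  rw [le_div_iff₀ h0] at h3
  rw [sub_nonpos, le_div_iff₀ (by positivity)]
  have h4 := le_abs_self c
  have h5 := abs_nonneg c
  have h6 : t ^ 2 ≤ t := by nlinarith
  nlinarith [sq_nonneg t]

theorem root_left {a y : ℝ} (hay : a < y) (h : ∀ x ∈ Icc a y, ∀ i, x ≠ p i)
    (ha : dpsiR c r p a ≤ 0) (hy : 0 < dpsiR c r p y) :
    ∃ A, a ≤ A ∧ A < y ∧ dpsiR c r p A = 0 := by
  obtain ⟨A, hA, e⟩ := intermediate_value_Icc hay.le (cont h) ⟨ha, hy.le⟩
  exact ⟨A, hA.1, lt_of_le_of_ne hA.2 fun e' => hy.ne' (e' ▸ e), e⟩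

theorem root_right {y b : ℝ} (hyb : y < b) (h : ∀ x ∈ Icc y b, ∀ i, x ≠ p i)
    (hb : dpsiR c r p b ≤ 0) (hy : 0 < dpsiR c r p y) :
    ∃ B, y < B ∧ B ≤ b ∧ dpsiR c r p B = 0 := by
  obtain ⟨B, hB, e⟩ := intermediate_value_Icc' hyb.le (cont h) ⟨hb, hy.le⟩
  exact ⟨B, lt_of_le_of_ne hB.1 fun e' => hy.ne' (e' ▸ e), hB.2, e⟩

end Root

open Root in
theorem st_ROOT : St_ROOT := by
  intro m c r p y hr hp hy
  have hm : StrictMono y := Fin.strictMono_iff_lt_succ.2 fun i => (hp i).1.trans (hp i).2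
  have h1 : ∀ (i : Fin m) (j : Fin (m + 1)), i.val < j.val → p i < y j := fun i j h =>
    (hp i).2.trans_le (hm.monotone (Fin.le_def.2 (by simp only [Fin.val_succ]; omega)))
  have h2 : ∀ (i : Fin m) (j : Fin (m + 1)), j.val ≤ i.val → y j < p i := fun i j h =>
    (hm.monotone (Fin.le_def.2 (by simpa using h))).trans_lt (hp i).1
  have h3 : ∀ i i' : Fin m, i.val ≤ i'.val → p i ≤ p i' := fun i i' h => by
    rcases h.eq_or_lt with e | e
    · rw [Fin.ext e]
    · exact ((h1 i i'.castSucc (by simpa using e)).trans (hp i').1).le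
  have hA : ∀ j, ∃ A, A < y j ∧ dpsiR c r p A = 0 ∧ ∀ i : Fin m, j = i.succ → p i < A := by
    intro j
    refine Fin.cases ?_ (fun i => ?_) j
    · obtain ⟨A, -, e1, e2⟩ := root_left (c := c) (r := r) (p := p)
        (a := min (y 0 - 1) (-(|c| + 1))) (y := y 0)
        ((min_le_left _ _).trans_lt (by linarith))
        (fun x hx i => (hx.2.trans_lt (h2 i 0 (by simp))).ne)
        (le_far hr (le_abs.2 (Or.inr (by linarith [min_le_right (y 0 - 1) (-(|c| + 1))]))))
        (hy 0)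
      exact ⟨A, e1, e2, fun i e => absurd e.symm (Fin.succ_ne_zero i)⟩
    · obtain ⟨t, t0, t1, t2⟩ := exists_small c (hr i) (sub_pos.2 (hp i).2)
      obtain ⟨A, e0, e1, e2⟩ := root_left (c := c) (r := r) (p := p) (a := p i + t)
        (y := y i.succ) (by linarith) (fun x hx i' => by
          rcases le_or_gt i'.val i.val with h | h
          · exact (by linarith [h3 i' i h, hx.1] : p i' < x).ne'
          · exact (hx.2.trans_lt (h2 i' i.succ (by simp only [Fin.val_succ]; omega))).ne)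
        ((le_near hr _ i).trans (by rwa [add_sub_cancel_left])) (hy _)
      refine ⟨A, e1, e2, fun i' e => ?_⟩
      rw [← Fin.succ_injective _ e]
      linarith
  have hB : ∀ j, ∃ B, y j < B ∧ dpsiR c r p B = 0 ∧ ∀ i : Fin m, j = i.castSucc → B < p i := by
    intro j
    refine Fin.lastCases ?_ (fun i => ?_) j
    · obtain ⟨B, e1, -, e2⟩ := root_right (c := c) (r := r) (p := p)
        (b := max (y (Fin.last m) + 1) (|c| + 1)) (y := y (Fin.last m))
        (lt_of_lt_of_le (by linarith) (le_max_left _ _))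
        (fun x hx i => ((h1 i (Fin.last m) (by simp)).trans_le hx.1).ne')
        (le_far hr (le_abs.2 (Or.inl (le_max_right _ _)))) (hy _)
      exact ⟨B, e1, e2, fun i e => absurd e.symm (Fin.castSucc_ne_last i)⟩
    · obtain ⟨t, t0, t1, t2⟩ := exists_small c (hr i) (sub_pos.2 (hp i).1)
      obtain ⟨B, e1, e0, e2⟩ := root_right (c := c) (r := r) (p := p) (b := p i - t)
        (y := y i.castSucc) (by linarith) (fun x hx i' => by
          rcases le_or_gt i.val i'.val with h | h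
          · exact (by linarith [h3 i i' h, hx.2] : x < p i').ne
          · exact ((h1 i' i.castSucc (by simpa using h)).trans_le hx.1).ne')
        ((le_near hr _ i).trans (by rwa [sub_sub_cancel_left, neg_sq])) (hy _)
      refine ⟨B, e1, e2, fun i' e => ?_⟩
      rw [← Fin.castSucc_injective _ e]
      linarith
  choose A hA using hA
  choose B hB using hB
  exact ⟨A, B, fun j => ⟨(hA j).1, (hB j).1⟩,
    fun i => ⟨(hB _).2.2 i rfl, (hA _).2.2 i rfl⟩, fun j => ⟨(hA j).2.1, (hB j).2.1⟩⟩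

end Pool.Agent.BAC
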