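import Pool.Agent.Lib.BAC.Blue

/-! Block SC: a good domain without the discs is contractible. -/

namespace Pool.Agent.BAC

open Set Filter Topology Metric Complex

namespace SC

theorem sc_of (D : Set ℂ) (p : ℂ) (hp : p ∈ D) (H : ℝ × ℂ → ℂ)
    (hc : ContinuousOn H (Icc (0 : ℝ) 1 ×ˢ D)) (hm : ∀ t ∈ Icc (0 : ℝ) 1, ∀ z ∈ D, H (t, z) ∈ D)
    (h0 : ∀ z ∈ D, H (0, z) = z) (h1 : ∀ z ∈ D, H (1, z) = p) : IsSimplyConnected D := by
  have hG : Continuous fun x : unitInterval × D => H ((x.1 : ℝ), (x.2 : ℂ)) :=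
    hc.comp_continuous ((continuous_subtype_val.comp continuous_fst).prodMk
      (continuous_subtype_val.comp continuous_snd)) fun x => ⟨x.1.2, x.2.2⟩
  have : ContractibleSpace D := by
    refine (contractible_iff_id_nullhomotopic D).2 ⟨⟨p, hp⟩, ⟨⟨⟨fun x => ⟨_, hm x.1 x.1.2 x.2 x.2.2⟩,
      hG.subtype_mk _⟩, fun z => Subtype.ext (h0 z z.2), fun z => Subtype.ext (h1 z z.2)⟩⟩⟩
  exact SimplyConnectedSpace.ofContractible D

theorem re_le {z : ℂ} {c ε : ℝ} (h : z ∈ closedBall (c : ℂ) ε) : |z.re - c| ≤ ε ∧ |z.im| ≤ ε := by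
  rw [mem_closedBall, dist_eq_norm] at h
  have h1 := abs_re_le_norm (z - c)
  have h2 := abs_im_le_norm (z - c)
  rw [sub_re, ofReal_re] at h1
  rw [sub_im, ofReal_im, sub_zero] at h2
  exact ⟨h1.trans h, h2.trans h⟩

theorem up {z : ℂ} {c ε s : ℝ} (hz : 0 ≤ z.im) (hs : 0 ≤ s)
    (h : z + s * I ∈ closedBall (c : ℂ) ε) : z ∈ closedBall (c : ℂ) ε := by
  rw [mem_closedBall, dist_eq_norm] at h ⊢
  refine le_trans ?_ h
  rw [← sq_le_sq₀ (norm_nonneg _) (norm_nonneg _), Complex.sq_norm, Complex.sq_norm, normSq_apply,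
    normSq_apply]
  simp only [sub_re, add_re, mul_re, ofReal_re, I_re, mul_zero, ofReal_im, I_im, sub_im, add_im,
    mul_im, mul_one, sub_zero, add_zero]
  nlinarith [mul_nonneg hz hs, mul_nonneg hs hs]

end SC

theorem st_SC : St_SC := by
  rintro Ω n c ε ⟨ho, hH, ⟨M, hM⟩, q, qc, q0, qm, qu⟩ hε hc
  refine ⟨ho.sdiff (isClosed_iUnion_of_finite fun j => isClosed_closedBall), ?_⟩
  set D := Ω \ ⋃ j, closedBall (c j : ℂ) ε with hD
  have mem : ∀ z, z ∈ D ↔ z ∈ Ω ∧ ∀ j, z ∉ closedBall (c j : ℂ) ε := fun z => by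
    rw [hD, Set.mem_sdiff, mem_iUnion, not_exists]
  have top : ∀ z : ℂ, ε < z.im → z ∈ D := fun z hz =>
    (mem z).2 ⟨hH z (hε.trans hz), fun j hj => by
      have := (abs_le.1 (SC.re_le hj).2).2
      linarith⟩
  have a1 : ∀ t ∈ Icc (0 : ℝ) 1, ∀ z ∈ D, q (t, z) ∈ D := by
    intro t ht z hz
    obtain ⟨h1, h2, h3⟩ := qm t ht z hz.1
    rcases le_or_gt 0 z.im with h | h
    · rw [h3 h]
      exact hz
    · refine (mem _).2 ⟨h1, fun j hj => ?_⟩
      have := hc j _ h1 (SC.re_le hj).1 (abs_le.1 (SC.re_le hj).2).1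
      linarith
  have a2 : ∀ z ∈ D, ∀ s : ℝ, 0 ≤ s → q (1, z) + s * I ∈ D := by
    intro z hz s hs
    obtain ⟨h1, h2, h3⟩ := qm 1 ⟨zero_le_one, le_rfl⟩ z hz.1
    refine (mem _).2 ⟨qu z hz.1 s hs, fun j hj => ?_⟩
    rcases le_or_gt 0 z.im with h | h
    · rw [h3 h] at hj
      exact ((mem z).1 hz).2 j (SC.up h hs hj)
    · have h4 := (SC.re_le hj).1
      have e : ∀ u : ℝ, (q (1, z) + u * I).re = (q (1, z)).re := fun u => by simp
      rw [e] at h4
      rcases le_or_gt (-ε) z.im with h5 | h5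
      · have := hc j _ h1 h4 (h2 ▸ h5)
        linarith
      · have e2 : (q (1, z) + ((-ε - z.im : ℝ) : ℂ) * I).im = -ε := by
          simp only [add_im, mul_im, ofReal_re, I_im, ofReal_im, I_re, h2]
          ring
        have := hc j _ (qu z hz.1 (-ε - z.im) (by linarith)) (by rw [e]; exact h4) e2.ge
        linarith
  have pim : ((ε + 1 : ℝ) * I : ℂ).im = ε + 1 := by simp
  have hK : 0 ≤ M + ε + 1 := by
    have := hM I (hH I (by simp))
    have h2 := hM ((ε : ℂ) * I) (hH _ (by simpa using hε))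
    have h3 : ((ε : ℂ) * I).im = ε := by simp
    linarith
  refine SC.sc_of D ((ε + 1 : ℝ) * I) (top _ (by rw [pim]; linarith))
    (fun x => ((1 - max 0 (3 * x.1 - 2) : ℝ) : ℂ) * (q (min (3 * x.1) 1, x.2) +
      ((max 0 (min (3 * x.1 - 1) 1) * (M + ε + 1) : ℝ) : ℂ) * I) +
      ((max 0 (3 * x.1 - 2) : ℝ) : ℂ) * ((ε + 1 : ℝ) * I)) ?_ ?_ ?_ ?_
  · have hq : ContinuousOn (fun x : ℝ × ℂ => q (min (3 * x.1) 1, x.2)) (Icc (0 : ℝ) 1 ×ˢ D) := by
      have h1 : Continuous fun x : ℝ × ℂ => (min (3 * x.1) 1, x.2) := by fun_prop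
      exact qc.comp h1.continuousOn fun x hx =>
        ⟨⟨le_min (by linarith [hx.1.1]) zero_le_one, min_le_right _ _⟩, hx.2.1⟩
    have h2 : Continuous fun x : ℝ × ℂ => ((1 - max 0 (3 * x.1 - 2) : ℝ) : ℂ) := by fun_prop
    have h3 : Continuous fun x : ℝ × ℂ =>
      ((max 0 (min (3 * x.1 - 1) 1) * (M + ε + 1) : ℝ) : ℂ) * I := by fun_prop
    have h4 : Continuous fun x : ℝ × ℂ =>
      ((max 0 (3 * x.1 - 2) : ℝ) : ℂ) * (((ε + 1 : ℝ) : ℂ) * I) := by fun_prop
    exact (h2.continuousOn.mul (hq.add h3.continuousOn)).add h4.continuousOn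
  · intro t ht z hz
    dsimp only
    rcases le_total (3 * t) 1 with h | h
    · rw [max_eq_left (by linarith : 3 * t - 2 ≤ 0), min_eq_left h,
        max_eq_left ((min_le_left _ _).trans (by linarith) : min (3 * t - 1) 1 ≤ 0)]
      simpa using a1 _ ⟨by linarith [ht.1], h⟩ z hz
    rw [min_eq_right h]
    rcases le_total (3 * t) 2 with h' | h'
    · rw [max_eq_left (by linarith : 3 * t - 2 ≤ 0)]
      have := a2 z hz _ (mul_nonneg (le_max_left 0 (min (3 * t - 1) 1)) hK)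
      rwa [sub_zero, ofReal_one, one_mul, ofReal_zero, zero_mul, add_zero]
    · rw [max_eq_right (by linarith : 0 ≤ 3 * t - 2), min_eq_right (by linarith : 1 ≤ 3 * t - 1),
        max_eq_right zero_le_one, one_mul]
      refine top _ ?_
      have h1 := (qm 1 ⟨zero_le_one, le_rfl⟩ z hz.1).2.1
      have h2 := hM z hz.1
      simp only [add_im, mul_im, ofReal_re, ofReal_im, I_im, I_re, zero_mul, add_zero, mul_one,
        mul_zero, h1]
      nlinarith [ht.2, mul_nonneg (by linarith [ht.2] : 0 ≤ 1 - (3 * t - 2))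
        (by linarith : 0 ≤ z.im + M)]
  · intro z hz
    dsimp only
    rw [mul_zero, min_eq_left zero_le_one, q0 z hz.1]
    norm_num
  · intro z _
    dsimp only
    rw [show max 0 (3 * (1 : ℝ) - 2) = 1 by norm_num]
    simp

end Pool.Agent.BAC
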