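import Pool.Agent.Lib.BAC.PT

/-! The block SHEET: exactly one root for each label. -/

namespace Pool.Agent.BAC

open Set Filter Topology Metric Complex Polynomial
open scoped ComplexConjugate Real

namespace Sheet

/-- the equation `F w = z` has at most `m + 3` non-real solutions -/
theorem card_le {m : ℕ} (U : Uni m) (z : ℂ) (S : Finset ℂ)
    (h : ∀ w ∈ S, w.im ≠ 0 ∧ U.F w = z) : S.card ≤ m + 3 := by
  classical
  let Q : ℂ[X] := X ^ 3 - (C (U.c : ℂ) * X + C ((U.d : ℂ) - z))
  let D : ℂ[X] := ∏ i, (X - C (U.p i : ℂ))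
  let R : ℂ[X] := ∑ i, C (U.r i : ℂ) * ∏ k ∈ Finset.univ.erase i, (X - C (U.p k : ℂ))
  have q1 : (C (U.c : ℂ) * X + C ((U.d : ℂ) - z)).natDegree ≤ 1 := natDegree_linear_le
  have q2 : Q.natDegree = 3 := by
    rw [natDegree_sub_eq_left_of_natDegree_lt (by rw [natDegree_X_pow]; omega), natDegree_X_pow]
  have q3 : Q ≠ 0 := fun e => by simp [e] at q2
  have d1 : D.Monic := monic_prod_X_sub_C _ _
  have d2 : D.natDegree = m := by
    rw [natDegree_finsetProd_X_sub_C_eq_card]; simp
  have r1 : R.natDegree ≤ m := by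
    refine natDegree_sum_le_of_forall_le _ _ fun i _ => (natDegree_C_mul_le _ _).trans ?_
    rw [natDegree_finsetProd_X_sub_C_eq_card]
    exact (Finset.card_le_univ _).trans (by simp)
  have p1 : (Q * D).natDegree = m + 3 := by rw [natDegree_mul q3 d1.ne_zero, q2, d2, add_comm]
  have p2 : (Q * D - R).natDegree = m + 3 := by
    rw [natDegree_sub_eq_left_of_natDegree_lt (by omega), p1]
  have p3 : Q * D - R ≠ 0 := fun e => by simp [e] at p2
  rw [← p2]
  refine card_le_degree_of_subset_roots fun w hw => (mem_roots p3).2 ?_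
  obtain ⟨h1, h2⟩ := h w hw
  have hp : ∀ i, w - (U.p i : ℂ) ≠ 0 := fun i e => h1 (by rw [sub_eq_zero.1 e]; simp)
  have e1 : R.eval w = (∑ i, (U.r i : ℂ) / (w - U.p i)) * D.eval w := by
    simp only [R, D, eval_finsetSum, eval_mul, eval_C, eval_prod, eval_sub, eval_X,
      Finset.sum_mul]
    refine Finset.sum_congr rfl fun i _ => ?_
    rw [← Finset.mul_prod_erase _ _ (Finset.mem_univ i), ← mul_assoc, div_mul_cancel₀ _ (hp i)]
  have e2 : Q.eval w = ∑ i, (U.r i : ℂ) / (w - U.p i) := by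
    simp only [Q, eval_sub, eval_add, eval_mul, eval_C, eval_X, eval_pow]
    rw [← h2, Uni.F, psi]; ring
  rw [IsRoot, eval_sub, eval_mul, e1, e2, sub_self]

end Sheet

theorem st_SHEET (hMAIN : St_MAIN) (hSHEETE : St_SHEETE) : St_SHEET := by
  classical
  intro m U c ν hc hν k hk z hz
  obtain ⟨φ, hφ⟩ := hMAIN m U
  have hz' : 0 < (conj z).im := by simpa using hz
  have a1 : (conj (φ (conj z))).im < 0 := by
    simpa using hφ.pos (conj z) hz'.le fun h => absurd h hz'.ne'
  have a2 : U.F (conj (φ (conj z))) = z := by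
    rw [U.F_conj, (hφ.inv _ hz'.le).2.1, conj_conj]
  choose! w hw using fun j (hj : j ≤ m + 1) => hSHEETE m U c ν hc hν j hj z hz
  refine ⟨w k, hw k hk, fun v hv => ?_⟩
  by_contra hne
  have hr : ∀ j ∈ Finset.range (m + 2), j ≤ m + 1 := fun j hj => by
    have := Finset.mem_range.1 hj
    omega
  have b1 : ((Finset.range (m + 2)).image w).card = m + 2 := by
    rw [Finset.card_image_of_injOn fun i hi j hj e => by
      rw [← (hw i (hr i hi)).2.2, e, (hw j (hr j hj)).2.2], Finset.card_range]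
  have b2 : v ∉ (Finset.range (m + 2)).image w := by
    intro h
    obtain ⟨j, hj, rfl⟩ := Finset.mem_image.1 h
    exact hne (by rw [← hv.2.2, (hw j (hr j hj)).2.2])
  have b3 : ∀ y ∈ insert v ((Finset.range (m + 2)).image w), 0 < y.im ∧ U.F y = z := by
    intro y hy
    rcases Finset.mem_insert.1 hy with rfl | h
    · exact ⟨hv.1, hv.2.1⟩
    · obtain ⟨j, hj, rfl⟩ := Finset.mem_image.1 h
      exact ⟨(hw j (hr j hj)).1, (hw j (hr j hj)).2.1⟩
  have b4 : conj (φ (conj z)) ∉ insert v ((Finset.range (m + 2)).image w) := fun h => by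
    linarith [(b3 _ h).1]
  have := Sheet.card_le U z (insert (conj (φ (conj z))) (insert v ((Finset.range (m + 2)).image w)))
    fun y hy => by
      rcases Finset.mem_insert.1 hy with rfl | h
      · exact ⟨a1.ne, a2⟩
      · exact ⟨(b3 y h).1.ne', (b3 y h).2⟩
  rw [Finset.card_insert_of_notMem b4, Finset.card_insert_of_notMem b2, b1] at this
  omega

end Pool.Agent.BAC
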