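import Pool.Agent.Lib.BAC.PT

/-! Every lower sheet of the uniformising function covers the lower half plane. -/

namespace Pool.Agent.BAC

open Set Filter Topology Metric Complex

namespace Sheete

variable {m : ℕ}

theorem contAt_F (U : Uni m) {w : ℂ} (hw : ∀ i, w ≠ U.p i) : ContinuousAt U.F w := by
  have h1 : ContinuousAt (fun y : ℂ => ∑ i, (U.r i : ℂ) / (y - U.p i)) w := by
    refine tendsto_finsetSum _ fun i _ => ?_
    exact ContinuousAt.div continuousAt_const (continuousAt_id.sub continuousAt_const)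
      (sub_ne_zero.2 (hw i))
  have h2 : ContinuousAt (fun y : ℂ => -y ^ 3 + U.c * y + U.d) w := by fun_prop
  exact h2.add h1

/-- a bound for the preimage of a ball -/
theorem norm_le (U : Uni m) (M : ℝ) : ∃ R : ℝ, ∀ w : ℂ, ‖U.F w‖ ≤ M → ‖w‖ ≤ R := by
  refine ⟨|M| + |U.d| + ∑ i, U.r i + |U.c| + 1 + (∑ i, |U.p i| + 1), fun w hw => ?_⟩
  by_contra hc
  push Not at hc
  have hr : 0 ≤ ∑ i, U.r i := Finset.sum_nonneg fun i _ => (U.hr i).le
  have hp : 0 ≤ ∑ i, |U.p i| := Finset.sum_nonneg fun i _ => abs_nonneg _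
  have hM := abs_nonneg M
  have hM' := le_abs_self M
  have hd := abs_nonneg U.d
  have hc0 := abs_nonneg U.c
  have hs : ‖∑ i, (U.r i : ℂ) / (w - U.p i)‖ ≤ ∑ i, U.r i := by
    refine (norm_sum_le _ _).trans (Finset.sum_le_sum fun i _ => ?_)
    have h1 : |U.p i| ≤ ∑ i, |U.p i| :=
      Finset.single_le_sum (f := fun i => |U.p i|) (fun i _ => abs_nonneg _) (Finset.mem_univ i)
    have h2 : ‖w‖ - ‖(U.p i : ℂ)‖ ≤ ‖w - U.p i‖ := norm_sub_norm_le _ _
    rw [Complex.norm_real, Real.norm_eq_abs] at h2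
    rw [norm_div, Complex.norm_real, Real.norm_eq_abs, abs_of_pos (U.hr i)]
    exact div_le_self (U.hr i).le (by linarith)
  have e : w ^ 3 = -(U.F w) + U.c * w + U.d + ∑ i, (U.r i : ℂ) / (w - U.p i) := by
    simp only [Uni.F, psi]; ring
  have h3 : ‖w‖ ^ 3 ≤ M + |U.c| * ‖w‖ + |U.d| + ∑ i, U.r i := by
    rw [← norm_pow, e]
    refine (norm_add_le _ _).trans (add_le_add ?_ hs)
    refine (norm_add_le _ _).trans (add_le_add ?_ (by rw [Complex.norm_real, Real.norm_eq_abs]))
    refine (norm_add_le _ _).trans (add_le_add (by rwa [norm_neg]) ?_)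
    rw [norm_mul, Complex.norm_real, Real.norm_eq_abs]
  have h4 : |U.c| + 1 ≤ ‖w‖ := by linarith
  have h5 : |U.c| + 1 ≤ ‖w‖ ^ 2 := by nlinarith
  have h6 : (|U.c| + 1) * ‖w‖ ≤ ‖w‖ ^ 2 * ‖w‖ := mul_le_mul_of_nonneg_right h5 (norm_nonneg _)
  nlinarith

/-- a limit of points with convergent values is not a pole -/
theorem ne_pole (U : Uni m) (hp : StrictMono U.p) {x : ℕ → ℂ} {w z : ℂ}
    (hx : ∀ n, 0 < (x n).im) (hw : Tendsto x atTop (𝓝 w))
    (hz : Tendsto (fun n => U.F (x n)) atTop (𝓝 z)) (i : Fin m) : w ≠ U.p i := by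
  intro h
  subst h
  set G : ℂ → ℂ := fun y => -y ^ 3 + U.c * y + U.d +
    ∑ j ∈ Finset.univ.erase i, (U.r j : ℂ) / (y - U.p j) with hG
  have hGc : ContinuousAt G (U.p i) := by
    have h1 : ContinuousAt (fun y : ℂ => ∑ j ∈ Finset.univ.erase i, (U.r j : ℂ) / (y - U.p j))
        (U.p i) := by
      refine tendsto_finsetSum _ fun j hj => ?_
      refine ContinuousAt.div continuousAt_const (continuousAt_id.sub continuousAt_const)
        (sub_ne_zero.2 ?_)
      intro h
      exact (Finset.ne_of_mem_erase hj) (hp.injective (Complex.ofReal_injective h)).symm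
    have h2 : ContinuousAt (fun y : ℂ => -y ^ 3 + U.c * y + U.d) (U.p i) := by fun_prop
    exact h2.add h1
  have h0 : Tendsto (fun n => x n - U.p i) atTop (𝓝 0) := by
    simpa using hw.sub_const (U.p i : ℂ)
  have h1 : Tendsto (fun n => (x n - U.p i) * (U.F (x n) - G (x n))) atTop
      (𝓝 (0 * (z - G (U.p i)))) := h0.mul (hz.sub (hGc.tendsto.comp hw))
  have h2 : ∀ n, (x n - U.p i) * (U.F (x n) - G (x n)) = U.r i := by
    intro n
    have hne : x n - U.p i ≠ 0 := by
      intro h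
      have := congrArg Complex.im h
      simp at this
      exact (hx n).ne' this
    have e : U.F (x n) - G (x n) = (U.r i : ℂ) / (x n - U.p i) := by
      simp only [Uni.F, psi, hG]
      rw [← Finset.add_sum_erase _ _ (Finset.mem_univ i)]
      ring
    rw [e]; field_simp
  simp only [h2, zero_mul] at h1
  have h3 : (U.r i : ℂ) = 0 := tendsto_nhds_unique tendsto_const_nhds h1
  exact (U.hr i).ne' (by exact_mod_cast h3)

/-- a real point in the gap with a prescribed label -/
theorem gap_point {e f c : Fin (m + 1) → ℝ} (h : Ord e f) (hc : ∀ j, c j ∈ Icc (e j) (f j))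
    {k : ℕ} (hk : k ≤ m + 1) : ∃ x : ℝ, (∀ j, x ∉ Icc (e j) (f j)) ∧ lab c x = k := by
  have he : StrictMono e := Fin.strictMono_iff_lt_succ.2 fun i => (h.1 _).trans (h.2 i)
  have hf : StrictMono f := Fin.strictMono_iff_lt_succ.2 fun i => (h.2 i).trans (h.1 _)
  have key : ∀ n ≤ m + 1, ∃ x : ℝ, ∀ j : Fin (m + 1),
      (j.val < n → f j < x) ∧ (n ≤ j.val → x < e j) := by
    intro n hn
    rcases Nat.eq_zero_or_pos n with h0 | h0
    · refine ⟨e 0 - 1, fun j => ⟨fun hj => by omega, fun _ => ?_⟩⟩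
      have := he.monotone (Fin.zero_le j)
      linarith
    rcases hn.eq_or_lt with h1 | h1
    · refine ⟨f (Fin.last m) + 1, fun j => ⟨fun _ => ?_, fun hj => by omega⟩⟩
      have := hf.monotone (Fin.le_last j)
      linarith
    · let i : Fin m := ⟨n - 1, by omega⟩
      have hi := h.2 i
      refine ⟨(f i.castSucc + e i.succ) / 2, fun j => ⟨fun hj => ?_, fun hj => ?_⟩⟩
      · have : j ≤ i.castSucc := by
          rw [Fin.le_def]; simp only [Fin.val_castSucc, i]; omega
        have := hf.monotone this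
        linarith
      · have : i.succ ≤ j := by
          rw [Fin.le_def]; simp only [Fin.val_succ, i]; omega
        have := he.monotone this
        linarith
  obtain ⟨x, hx⟩ := key (m + 1 - k) (by omega)
  refine ⟨x, fun j hj => ?_, ?_⟩
  · rcases lt_or_ge j.val (m + 1 - k) with h1 | h1
    · exact absurd hj.2 (not_le.2 ((hx j).1 h1))
    · exact absurd hj.1 (not_le.2 ((hx j).2 h1))
  · have e1 : (Finset.univ.filter fun j : Fin (m + 1) => x < c j) =
        Finset.univ.filter fun j : Fin (m + 1) => ¬ (j.val < m + 1 - k) := by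
      refine Finset.filter_congr fun j _ => ⟨fun h1 h2 => ?_, fun h1 => ?_⟩
      · have := (hx j).1 h2
        have := (hc j).2
        linarith
      · exact ((hx j).2 (not_lt.1 h1)).trans_le (hc j).1
    have e2 := Finset.card_filter_add_card_filter_not (s := (Finset.univ : Finset (Fin (m + 1))))
      (fun j : Fin (m + 1) => j.val < m + 1 - k)
    rw [Fin.card_filter_val_lt, Finset.card_univ, Fintype.card_fin] at e2
    unfold lab
    rw [e1]
    omega

end Sheete

open Sheete in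
theorem st_SHEETE (hREAL : St_REAL) (hMAIN : St_MAIN) (hLOCINV : St_LOCINV) : St_SHEETE := by
  intro m U c ν hc hν k hk
  obtain ⟨hp, -, -, -, -, -, hord⟩ := hREAL m U
  obtain ⟨φ, hφ⟩ := hMAIN m U
  set Y : Set ℂ := {z | z.im < 0 ∧ ∃ w : ℂ, 0 < w.im ∧ U.F w = z ∧ ν w = k} with hY
  have him : ∀ w : ℂ, 0 < w.im → ∀ᶠ y in 𝓝 w, 0 < y.im := fun w hw =>
    continuous_im.continuousAt.eventually (lt_mem_nhds hw)
  have hopen : IsOpen Y := by
    refine isOpen_iff_eventually.2 ?_
    rintro z ⟨hz, w, hw, rfl, hk'⟩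
    obtain ⟨-, χ, hχ, hχw, hχF, -⟩ := hLOCINV m U w hw
    have ht : Tendsto χ (𝓝 (U.F w)) (𝓝 w) := by
      have := hχ.continuousAt.tendsto
      rwa [hχw] at this
    have h1 : ∀ᶠ y in 𝓝 (U.F w), y.im < 0 :=
      continuous_im.continuousAt.eventually (gt_mem_nhds hz)
    filter_upwards [h1, hχF, ht.eventually (him w hw), ht.eventually (hν.loc w hw hz)]
      with y a1 a2 a3 a4
    exact ⟨a1, χ y, a3, a2, a4.trans hk'⟩
  have hne : ({z : ℂ | z.im < 0} ∩ Y).Nonempty := by
    obtain ⟨x, hx, hxk⟩ := gap_point hord hc hk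
    have hx0 : (0 : ℝ) ≤ (x : ℂ).im := by simp
    have hw : 0 < (φ x).im := hφ.pos x hx0 fun _ j => by simpa using hx j
    have hF : U.F (φ x) = x := (hφ.inv x hx0).2.1
    obtain ⟨-, χ, hχ, hχw, hχF, -⟩ := hLOCINV m U (φ x) hw
    have ht : Tendsto χ (𝓝 (U.F (φ x))) (𝓝 (φ x)) := by
      have := hχ.continuousAt.tendsto
      rwa [hχw] at this
    have hg := ht.eventually (hν.gap (φ x) hw (by rw [hF]; simp))
    have hall := hχF.and ((ht.eventually (him _ hw)).and hg)
    rw [hF] at hall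
    have hl : Tendsto (fun t : ℝ => (x : ℂ) - t * I) (𝓝[>] 0) (𝓝 (x : ℂ)) := by
      have : Continuous fun t : ℝ => (x : ℂ) - t * I := by fun_prop
      have h2 := this.tendsto 0
      simp only [ofReal_zero, zero_mul, sub_zero] at h2
      exact h2.mono_left nhdsWithin_le_nhds
    obtain ⟨t, ⟨a1, a2, a3⟩, ht0⟩ := ((hl.eventually hall).and self_mem_nhdsWithin).exists
    have hneg : ((x : ℂ) - t * I).im < 0 := by simpa using ht0
    refine ⟨(x : ℂ) - t * I, hneg, hneg, χ _, a2, a1, ?_⟩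
    rw [a3 (by rw [a1]; exact hneg)]
    simpa using hxk
  have hcl : closure Y ∩ {z : ℂ | z.im < 0} ⊆ Y := by
    rintro z ⟨hz, hz0⟩
    obtain ⟨s, hs, hsz⟩ := mem_closure_iff_seq_limit.1 hz
    choose w hw hwF hwk using fun n => (hs n).2
    obtain ⟨M, hM⟩ := (Metric.isBounded_range_of_tendsto s hsz).exists_norm_le
    obtain ⟨R, hR⟩ := norm_le U M
    have hb : ∀ n, w n ∈ closedBall (0 : ℂ) R := fun n =>
      mem_closedBall_zero_iff.2 (hR _ (by rw [hwF]; exact hM _ (mem_range_self n)))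
    obtain ⟨w0, -, σ, hσ, hlim⟩ := tendsto_subseq_of_bounded isBounded_closedBall hb
    have hFz : Tendsto (fun n => U.F ((w ∘ σ) n)) atTop (𝓝 z) := by
      have := hsz.comp hσ.tendsto_atTop
      refine this.congr fun n => ?_
      simp [hwF]
    have hnp := ne_pole U hp (fun n => hw (σ n)) hlim hFz
    have hF0 : U.F w0 = z := tendsto_nhds_unique ((contAt_F U hnp).tendsto.comp hlim) hFz
    have hge : 0 ≤ w0.im :=
      ge_of_tendsto' ((continuous_im.tendsto w0).comp hlim) fun n => (hw (σ n)).le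
    have hpos : 0 < w0.im := by
      refine hge.lt_of_ne fun h0 => ?_
      have e : w0 = (w0.re : ℂ) := by
        apply Complex.ext <;> simp [← h0]
      have h1 : z.im = 0 := by rw [← hF0, e, U.F_ofReal]; simp
      exact absurd h1 (ne_of_lt hz0)
    have hloc := hlim.eventually (hν.loc w0 hpos (by rw [hF0]; exact hz0))
    obtain ⟨n, hn⟩ := hloc.exists
    exact ⟨hz0, w0, hpos, hF0, hn.symm.trans (hwk (σ n))⟩
  have hsub := (convex_halfSpace_im_lt 0).isPreconnected.subset_of_closure_inter_subset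
    hopen hne hcl
  intro z hz
  exact (hsub hz).2

end Pool.Agent.BAC
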