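import Pool.Agent.Lib.BAC.Blue

/-! Size bounds for the uniformising rational functions. -/

namespace Pool.Agent.BAC

open Set

namespace Size

variable {m : ℕ} (U : Uni m)

theorem monoA : StrictMono U.A :=
  Fin.strictMono_iff_lt_succ.2 fun i => ((U.hAB _).trans (U.hBp i)).trans (U.hpA i)

theorem monoB : StrictMono U.B :=
  Fin.strictMono_iff_lt_succ.2 fun i => ((U.hBp i).trans (U.hpA i)).trans (U.hAB _)

theorem a_lt (i : Fin m) : U.A 0 < U.p i :=
  ((monoA U).monotone (Fin.zero_le _)).trans_lt ((U.hAB _).trans (U.hBp i))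

theorem lt_b (i : Fin m) : U.p i < U.B (Fin.last m) :=
  ((U.hpA i).trans (U.hAB _)).trans_le ((monoB U).monotone (Fin.le_last _))

end Size

open Size

theorem st_SIZE (hREAL : St_REAL) : St_SIZE := by
  intro m U
  obtain ⟨-, -, -, hd, -⟩ := hREAL m U
  have ha := (hd 0).1
  have hb := (hd (Fin.last m)).2
  have hA := U.hA 0
  have hB := U.hB (Fin.last m)
  have hap := a_lt U
  have hpb := lt_b U
  have hr := U.hr
  have hD : U.f (Fin.last m) - U.e 0 =
      psiR U.c U.d U.r U.p (U.B (Fin.last m)) - psiR U.c U.d U.r U.p (U.A 0) := rfl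
  rw [hD]
  have hlast : ∀ j, U.A 0 ≤ U.A j ∧ U.B j ≤ U.B (Fin.last m) := fun j =>
    ⟨(monoA U).monotone (Fin.zero_le _), (monoB U).monotone (Fin.le_last _)⟩
  generalize U.A 0 = a at ha hA hap hlast ⊢
  generalize U.B (Fin.last m) = b at hb hB hpb hlast ⊢
  simp only [ddpsiR, dpsiR, psiR] at ha hb hA hB ⊢
  have h1 : ∑ i, U.r i / (a - U.p i) ^ 3 ≤ 0 := Finset.sum_nonpos fun i _ =>
    div_nonpos_of_nonneg_of_nonpos (hr i).le
      (Odd.pow_nonpos (by decide) (sub_nonpos.2 (hap i).le))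
  have h2 : 0 ≤ ∑ i, U.r i / (b - U.p i) ^ 3 := Finset.sum_nonneg fun i _ =>
    div_nonneg (hr i).le (pow_nonneg (sub_nonneg.2 (hpb i).le) 3)
  have h3 : 0 ≤ ∑ i, U.r i / (a - U.p i) ^ 2 := Finset.sum_nonneg fun i _ =>
    div_nonneg (hr i).le (sq_nonneg _)
  have h4 : 0 ≤ ∑ i, U.r i / (b - U.p i) ^ 2 := Finset.sum_nonneg fun i _ =>
    div_nonneg (hr i).le (sq_nonneg _)
  have h5 : ∑ i, U.r i / (a - U.p i) ≤ 0 := Finset.sum_nonpos fun i _ =>
    div_nonpos_of_nonneg_of_nonpos (hr i).le (sub_nonpos.2 (hap i).le)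
  have h6 : 0 ≤ ∑ i, U.r i / (b - U.p i) := Finset.sum_nonneg fun i _ =>
    div_nonneg (hr i).le (sub_nonneg.2 (hpb i).le)
  have h7 : ∑ i, U.r i / (a - U.p i) ^ 2 ≤ (a - b) * ∑ i, U.r i / (a - U.p i) ^ 3 := by
    rw [Finset.mul_sum]
    refine Finset.sum_le_sum fun i _ => ?_
    have hne : a - U.p i ≠ 0 := (sub_neg.2 (hap i)).ne
    have e1 : U.r i / (a - U.p i) ^ 2 = (a - U.p i) * (U.r i / (a - U.p i) ^ 3) := by
      field_simp
    rw [e1]
    exact mul_le_mul_of_nonpos_right (by linarith [hpb i])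
      (div_nonpos_of_nonneg_of_nonpos (hr i).le
        (Odd.pow_nonpos (by decide) (sub_nonpos.2 (hap i).le)))
  have h8 : ∑ i, U.r i ≤ (b - a) * ∑ i, U.r i / (b - U.p i) := by
    rw [Finset.mul_sum]
    refine Finset.sum_le_sum fun i _ => ?_
    have hne : b - U.p i ≠ 0 := (sub_pos.2 (hpb i)).ne'
    have e1 : U.r i = (b - U.p i) * (U.r i / (b - U.p i)) := by field_simp
    refine e1.le.trans (mul_le_mul_of_nonneg_right (by linarith [hap i])
      (div_nonneg (hr i).le (sub_nonneg.2 (hpb i).le)))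
  generalize ∑ i, U.r i / (a - U.p i) ^ 3 = T at ha h1 h7
  generalize ∑ i, U.r i / (b - U.p i) ^ 3 = T' at hb h2
  generalize ∑ i, U.r i / (a - U.p i) ^ 2 = Q at hA h3 h7
  generalize ∑ i, U.r i / (b - U.p i) ^ 2 = Q' at hB h4
  generalize ∑ i, U.r i / (a - U.p i) = S at h5 ⊢
  generalize ∑ i, U.r i / (b - U.p i) = S' at h6 h8 ⊢
  have a0 : a < 0 := by linarith
  have b0 : 0 < b := by linarith
  have hba : 0 < b - a := by linarith
  have k1 : (b - a) ^ 2 / 2 ≤ U.c - (a ^ 2 + a * b + b ^ 2) := by nlinarith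
  have k2 : (b - a) ^ 3 / 2 ≤ -b ^ 3 + U.c * b - (-a ^ 3 + U.c * a) := by
    have := mul_le_mul_of_nonneg_left k1 hba.le
    nlinarith
  have k3 : 0 < (b - a) ^ 3 := pow_pos hba 3
  have k4 : (a - b) * T ≤ (a - b) * (3 * a) :=
    mul_le_mul_of_nonpos_left (by linarith) (by linarith)
  refine ⟨a0, b0, by nlinarith, by nlinarith, by linarith, ?_, ?_, hlast⟩
  · exact h8.trans (mul_le_mul_of_nonneg_left (by linarith) hba.le)
  · rw [abs_of_nonpos h5]; linarith

end Pool.Agent.BAC
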