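import Pool.Agent.Lib.BAC.Blue

namespace Pool.Agent.BAC

open Set Complex Polynomial

namespace Slit

/-- a sequence interlaced with the poles is strictly increasing and avoids the poles -/
theorem inter {m : ℕ} {p : Fin m → ℝ} {t : Fin (m + 1) → ℝ}
    (h : ∀ i : Fin m, t i.castSucc < p i ∧ p i < t i.succ) :
    StrictMono t ∧ ∀ j i, t j ≠ p i := by
  have hm : StrictMono t := Fin.strictMono_iff_lt_succ.2 fun i => (h i).1.trans (h i).2
  refine ⟨hm, fun j i => ?_⟩
  rcases le_or_gt j i.castSucc with hj | hj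
  · exact ((hm.monotone hj).trans_lt (h i).1).ne
  · exact ((h i).2.trans_le (hm.monotone (Fin.castSucc_lt_iff_succ_le.1 hj))).ne'

/-- the numerator of `dpsi` -/
noncomputable def num {m : ℕ} (c : ℝ) (r p : Fin m → ℝ) : ℂ[X] :=
  (C (c : ℂ) - C 3 * X ^ 2) * ∏ k, (X - C (p k : ℂ)) ^ 2 -
    ∑ i, C (r i : ℂ) * ∏ k ∈ Finset.univ.erase i, (X - C (p k : ℂ)) ^ 2

theorem deg_prod {m : ℕ} (p : Fin m → ℝ) (S : Finset (Fin m)) :
    (∏ k ∈ S, (X - C (p k : ℂ)) ^ 2).natDegree ≤ 2 * m := by
  refine (natDegree_prod_le _ _).trans ?_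
  have : ∀ k ∈ S, ((X - C (p k : ℂ)) ^ 2).natDegree ≤ 2 := fun k _ => by
    rw [natDegree_pow, natDegree_X_sub_C]
  refine (Finset.sum_le_card_nsmul _ _ _ this).trans ?_
  have h2 : S.card ≤ m := by simpa using Finset.card_le_univ S
  rw [smul_eq_mul]
  omega

theorem deg_num {m : ℕ} (c : ℝ) (r p : Fin m → ℝ) : (num c r p).natDegree ≤ 2 * m + 2 := by
  refine (natDegree_sub_le _ _).trans (max_le ?_ ?_)
  · refine natDegree_mul_le.trans ?_
    have h1 : (C (c : ℂ) - C 3 * X ^ 2).natDegree ≤ 2 := by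
      refine (natDegree_sub_le _ _).trans (max_le (by simp) ?_)
      exact (natDegree_C_mul_le _ _).trans (by simp)
    have h2 := deg_prod p Finset.univ
    omega
  · refine natDegree_sum_le_of_forall_le _ _ fun i _ => ?_
    exact (natDegree_C_mul_le _ _).trans ((deg_prod p _).trans (by omega))

theorem eval_num {m : ℕ} (c : ℝ) (r p : Fin m → ℝ) (z : ℂ) (hz : ∀ i, z ≠ p i) :
    (num c r p).eval z = dpsi c r p z * ∏ k, (z - p k) ^ 2 := by
  simp only [num, dpsi, eval_sub, eval_mul, eval_C, eval_pow, eval_X, eval_prod, eval_finsetSum,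
    sub_mul, Finset.sum_mul]
  congr 1
  refine Finset.sum_congr rfl fun i _ => ?_
  rw [← Finset.mul_prod_erase _ _ (Finset.mem_univ i)]
  have : z - p i ≠ 0 := sub_ne_zero.2 (hz i)
  field_simp

theorem dpsi_real {m : ℕ} (c : ℝ) (r p : Fin m → ℝ) (x : ℝ) :
    dpsi c r p x = (dpsiR c r p x : ℝ) := by
  simp [dpsi, dpsiR]

end Slit

theorem st_SLIT (hREAL : St_REAL) (hROOT : St_ROOT) : St_SLIT := by
  intro m U w hw
  by_contra hn
  rw [mem_slitPlane_iff, not_or, not_lt, not_not] at hn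
  obtain ⟨s, hs0, hs⟩ : ∃ s : ℝ, 0 ≤ s ∧ U.dF w = -s :=
    ⟨-(U.dF w).re, by linarith [hn.1], Complex.ext (by simp) (by simp [hn.2])⟩
  have hw0 : dpsi (U.c + s) U.r U.p w = 0 := by
    have : dpsi (U.c + s) U.r U.p w = U.dF w + s := by
      simp only [dpsi, Uni.dF, ofReal_add]; ring
    rw [this, hs, neg_add_cancel]
  obtain ⟨y, hy⟩ : ∃ y : Fin (m + 1) → ℝ, ∀ j, U.A j < y j ∧ y j < U.B j :=
    ⟨fun j => (U.A j + U.B j) / 2, fun j => ⟨by linarith [U.hAB j], by linarith [U.hAB j]⟩⟩
  have hyp : ∀ i : Fin m, y i.castSucc < U.p i ∧ U.p i < y i.succ := fun i =>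
    ⟨(hy _).2.trans (U.hBp i), (U.hpA i).trans (hy _).1⟩
  have hpos : ∀ j, 0 < dpsiR (U.c + s) U.r U.p (y j) := fun j => by
    have h1 := (hREAL m U).2.1 j (y j) (hy j).1 (hy j).2
    have : dpsiR (U.c + s) U.r U.p (y j) = U.dFR (y j) + s := by
      simp only [dpsiR, Uni.dFR]; ring
    linarith
  obtain ⟨A, B, hAB, hp, h0⟩ := hROOT m (U.c + s) U.r U.p y U.hr hyp hpos
  have hlt : ∀ j, A j < B j := fun j => (hAB j).1.trans (hAB j).2
  have hmix : ∀ (P : Fin (m + 1) → Prop) [DecidablePred P], ∀ i : Fin m,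
      (if P i.castSucc then A i.castSucc else B i.castSucc) < U.p i ∧
        U.p i < (if P i.succ then A i.succ else B i.succ) := by
    intro P _ i
    constructor
    · split_ifs
      · exact (hlt _).trans (hp i).1
      · exact (hp i).1
    · split_ifs
      · exact (hp i).2
      · exact (hp i).2.trans (hlt _)
  have hA := Slit.inter (t := A) fun i => by simpa using hmix (fun _ => True) i
  have hB := Slit.inter (t := B) fun i => by simpa using hmix (fun _ => False) i
  have hne : ∀ j j', A j ≠ B j' := by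
    intro j j' h
    by_cases hj : j' = j
    · subst hj; exact (hlt _).ne h
    · have := (Slit.inter (t := fun k => if k = j then A k else B k) (hmix (fun k => k = j))).1
      refine hj (this.injective ?_)
      simp [hj, h]
  let f : Option (Fin (m + 1) ⊕ Fin (m + 1)) → ℂ := fun o =>
    o.elim w (Sum.elim (fun j => (A j : ℂ)) fun j => (B j : ℂ))
  have hwr : ∀ x : ℝ, w ≠ x := fun x h => by rw [h] at hw; simp at hw
  have hf : Function.Injective f := by
    rintro (_ | a | a) (_ | b | b) h <;> simp only [f, Option.elim, Sum.elim_inl, Sum.elim_inr,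
      ofReal_inj] at h
    · rfl
    · exact absurd h (hwr _)
    · exact absurd h (hwr _)
    · exact absurd h.symm (hwr _)
    · rw [hA.1.injective h]
    · exact absurd h (hne _ _)
    · exact absurd h.symm (hwr _)
    · exact absurd h.symm (hne _ _)
    · rw [hB.1.injective h]
  have hz : Slit.num (U.c + s) U.r U.p = 0 := by
    refine eq_zero_of_natDegree_lt_card_of_eval_eq_zero _ hf ?_ ?_
    · rintro (_ | a | a)
      · change (Slit.num (U.c + s) U.r U.p).eval w = 0
        rw [Slit.eval_num _ _ _ _ fun i => hwr _, hw0, zero_mul]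
      · change (Slit.num (U.c + s) U.r U.p).eval (A a : ℂ) = 0
        rw [Slit.eval_num _ _ _ _ fun i => ofReal_injective.ne (hA.2 a i), Slit.dpsi_real, (h0 a).1]
        simp
      · change (Slit.num (U.c + s) U.r U.p).eval (B a : ℂ) = 0
        rw [Slit.eval_num _ _ _ _ fun i => ofReal_injective.ne (hB.2 a i), Slit.dpsi_real, (h0 a).2]
        simp
    · have := Slit.deg_num (U.c + s) U.r U.p
      simp only [Fintype.card_option, Fintype.card_sum, Fintype.card_fin]
      omega
  have hy0 : ∀ i, (y 0 : ℂ) ≠ U.p i := fun i => ofReal_injective.ne ((Slit.inter hyp).2 0 i)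
  have h1 := Slit.eval_num (U.c + s) U.r U.p (y 0) hy0
  rw [hz, eval_zero, Slit.dpsi_real] at h1
  refine mul_ne_zero (ofReal_ne_zero.2 (hpos 0).ne') ?_ h1.symm
  exact Finset.prod_ne_zero_iff.2 fun i _ => pow_ne_zero _ (sub_ne_zero.2 (hy0 i))

end Pool.Agent.BAC
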