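import Pool.Agent.Lib.BAC.Blue

/-! Block SURF: the comparison functions on the surface and their size far from the discs. -/

namespace Pool.Agent.BAC

open Set Filter Topology Metric Complex
open scoped ComplexConjugate Real

namespace Surf

theorem cube_le {t : ℝ} (h : t ^ 3 ≤ 6) : t ≤ 2 := by
  by_contra hc
  have h2 : 2 < t := not_le.1 hc
  have h3 : (2 : ℝ) ^ 3 < t ^ 3 := pow_lt_pow_left₀ h2 (by norm_num) (by norm_num)
  linarith

theorem near {a b d t : ℝ} (hab : a ≤ b) (hd : 0 ≤ d) (ht : t ∈ Icc (a - d) (b + d)) :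
    ∃ x ∈ Icc a b, |t - x| ≤ d := by
  rcases le_total t a with h | h
  · exact ⟨a, ⟨le_rfl, hab⟩, by rw [abs_le]; constructor <;> linarith [ht.1]⟩
  · rcases le_total t b with h' | h'
    · exact ⟨t, ⟨h, h'⟩, by simpa using hd⟩
    · exact ⟨b, ⟨hab, le_rfl⟩, by rw [abs_le]; constructor <;> linarith [ht.2]⟩

theorem rpow_two_mul {y : ℝ} (hy : 0 ≤ y) :
    (2 * y) ^ (1 / 3 : ℝ) ≤ 2 * y ^ (1 / 3 : ℝ) := by
  rw [Real.mul_rpow (by norm_num) hy]
  refine mul_le_mul_of_nonneg_right ?_ (Real.rpow_nonneg hy _)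
  calc (2 : ℝ) ^ (1 / 3 : ℝ) ≤ (2 : ℝ) ^ (1 : ℝ) :=
        Real.rpow_le_rpow_of_exponent_le (by norm_num) (by norm_num)
    _ = 2 := Real.rpow_one 2

/-- Far from the discs the main branch stays away from the intervals `[A j, B j]`. -/
theorem far (hREAL : St_REAL) (hSIZE : St_SIZE) {m : ℕ} {U : Uni m} {φ : ℂ → ℂ}
    (hφ : IsMain U φ) {ε : ℝ} {c : Fin (m + 1) → ℝ} (hε1 : ε < 1)
    (hc : ∀ j, c j ∈ Icc (0 : ℝ) 1) (hef : ∀ j, U.e j = c j - ε ∧ U.f j = c j + ε)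
    {z : ℂ} (hz : 0 ≤ z.im) (hd : ∀ j, 1 ≤ infDist z (closedBall (c j : ℂ) ε))
    (j : Fin (m + 1)) (x : ℝ) (hx : x ∈ Icc (U.A j) (U.B j)) : 1 / 76 ≤ ‖φ z - x‖ := by
  obtain ⟨hA0, hB0, hc0, hc6, hcube, -, -, hbetween⟩ := hSIZE m U
  have hD : U.f (Fin.last m) - U.e 0 ≤ 3 := by
    rw [(hef _).2, (hef _).1]
    linarith [(hc (Fin.last m)).2, (hc 0).1]
  have hba : U.B (Fin.last m) - U.A 0 ≤ 2 := cube_le (by linarith)
  have hc24 : U.c ≤ 24 := by nlinarith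
  have hx2 : |x| ≤ 2 := by
    rw [abs_le]
    constructor <;> linarith [(hbetween j).1, (hbetween j).2, hx.1, hx.2]
  have hK : 2 * U.c + 1 + 3 * (|x| + 1) ^ 2 ≤ 76 := by
    nlinarith [abs_nonneg x]
  by_cases h1 : ‖φ z - x‖ ≤ 1
  · have h2 := hφ.lip z hz j x hx h1
    have hF := ((hREAL m U).2.2.2.2.1 j x hx).2
    rw [(hef j).1, (hef j).2] at hF
    have hmem : ((U.FR x : ℝ) : ℂ) ∈ closedBall (c j : ℂ) ε := by
      rw [mem_closedBall, dist_eq_norm, ← ofReal_sub, norm_real, Real.norm_eq_abs, abs_le]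
      constructor <;> linarith [hF.1, hF.2]
    have h3 : 1 ≤ ‖z - (U.FR x : ℝ)‖ := by
      rw [← dist_eq_norm]
      exact (hd j).trans (infDist_le_dist_of_mem hmem)
    have h4 := mul_le_mul_of_nonneg_right hK (norm_nonneg (φ z - x))
    linarith
  · linarith [not_le.1 h1]

end Surf

theorem st_SURF (hANG : St_ANG) (hREAL : St_REAL) (hSIZE : St_SIZE) (hEXIST : St_EXIST)
    (hLEN : St_LEN) (hMAIN : St_MAIN) (hHARM : St_HARM) (hBIG : St_BIG) : St_SURF := by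
  refine ⟨2 * 152 * 3 * 4 * 2, fun m ε c hε hε1 hc hsep => ?_⟩
  obtain ⟨U, hUe, hUf⟩ := hEXIST m (fun j => c j - ε) (fun j => c j + ε)
    ⟨fun j => by linarith, fun i => by
      have := hsep i.castSucc i.succ Fin.castSucc_lt_succ
      linarith⟩
  have hef : ∀ j, U.e j = c j - ε ∧ U.f j = c j + ε := fun j => ⟨by rw [hUe], by rw [hUf]⟩
  obtain ⟨φ, hφ⟩ := hMAIN m U
  obtain ⟨dl, hdl⟩ : ∃ dl : Fin (m + 1) → ℝ, ∀ j, 0 < dl j ∧ dl j ≤ 1 / 152 ∧
      dl j ≤ U.B j - U.A j :=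
    ⟨fun j => min (1 / 152) (U.B j - U.A j), fun j =>
      ⟨lt_min (by norm_num) (by linarith [U.hAB j]), min_le_left _ _, min_le_right _ _⟩⟩
  have hαβ : ∀ j, U.A j - dl j < U.B j + dl j := fun j => by linarith [U.hAB j, (hdl j).1]
  obtain ⟨V, hV0, hvMV, hVMV, hgap⟩ := hHARM m U φ ε c (fun j => U.A j - dl j)
    (fun j => U.B j + dl j) hφ hε hef hαβ
  have hbig := hBIG m U φ ε c (fun j => U.A j - dl j) (fun j => U.B j + dl j) hφ hε hef
    (fun j => ⟨by linarith [(hdl j).1], by linarith [(hdl j).1]⟩) hvMV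
  refine ⟨fun y => 2 * ∑ j, ang (U.A j - dl j) (U.B j + dl j) (φ y), V,
    ⟨fun z hz => ?_, hV0, hvMV, hVMV, hgap, hbig⟩, fun z hz hd => ?_⟩
  · exact mul_nonneg (by norm_num) (Finset.sum_nonneg fun j _ =>
      ((hANG _ _ (hαβ j)).1 (φ z) (hφ.inv z hz).1).1)
  · have hterm : ∀ j, ang (U.A j - dl j) (U.B j + dl j) (φ z) ≤ 152 * 3 * (U.B j - U.A j) := by
      intro j
      have hD : ∀ t ∈ Icc (U.A j - dl j) (U.B j + dl j), 1 / 152 ≤ ‖φ z - t‖ := by
        intro t ht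
        obtain ⟨x, hx, htx⟩ := Surf.near (U.hAB j).le (hdl j).1.le ht
        have h1 := Surf.far hREAL hSIZE hφ hε1 hc hef hz hd j x hx
        have h2 : ‖φ z - x‖ ≤ ‖φ z - t‖ + ‖(t : ℂ) - x‖ := norm_sub_le_norm_sub_add_norm_sub _ _ _
        have h3 : ‖(t : ℂ) - x‖ = |t - x| := by
          rw [← ofReal_sub, norm_real, Real.norm_eq_abs]
        linarith [(hdl j).2.1]
      have h4 := ((hANG _ _ (hαβ j)).2.2.1 (φ z) (1 / 152) (hφ.inv z hz).1 (by norm_num) hD).2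
      refine h4.trans ?_
      rw [div_le_iff₀ (by positivity)]
      have h5 : 0 < U.B j - U.A j := by linarith [U.hAB j]
      have h6 : (1 : ℝ) ≤ π := by linarith [Real.pi_gt_three]
      nlinarith [(hdl j).2.2, mul_le_mul_of_nonneg_left h6 h5.le]
    have hsum : ∑ j, ang (U.A j - dl j) (U.B j + dl j) (φ z) ≤
        152 * 3 * ∑ j, (U.B j - U.A j) := by
      rw [Finset.mul_sum]
      exact Finset.sum_le_sum fun j _ => hterm j
    have hE : ∑ j, (U.f j - U.e j) = 2 * (((m + 1 : ℕ) : ℝ) * ε) := by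
      rw [Finset.sum_congr rfl (g := fun _ => 2 * ε) fun j _ => by
        rw [(hef j).1, (hef j).2]; ring]
      simp only [Finset.sum_const, Finset.card_univ, Fintype.card_fin, nsmul_eq_mul]
      ring
    have hL := hLEN m U
    rw [hE] at hL
    have hR := Surf.rpow_two_mul (y := ((m + 1 : ℕ) : ℝ) * ε) (by positivity)
    show 2 * ∑ j, ang (U.A j - dl j) (U.B j + dl j) (φ z) ≤ _
    linarith

end Pool.Agent.BAC
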