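import Pool.Agent.Lib.BAC.PT

/-! Block UP: the upper bound with exponent one third. -/

namespace Pool.Agent.BAC

open Set Filter Topology Metric Complex
open scoped ComplexConjugate Real

namespace UPB

theorem sep {a b ε : ℝ} (hab : a ≤ b)
    (h : Disjoint (closedBall (a : ℂ) ε) (closedBall (b : ℂ) ε)) : a + 2 * ε < b := by
  by_contra hc
  have hc' : b ≤ a + 2 * ε := not_lt.mp hc
  have h1 : (((a + b) / 2 : ℝ) : ℂ) ∈ closedBall (a : ℂ) ε := by
    rw [mem_closedBall, Complex.dist_eq, ← Complex.ofReal_sub, Complex.norm_real,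
      Real.norm_eq_abs, abs_le]
    constructor <;> linarith
  have h2 : (((a + b) / 2 : ℝ) : ℂ) ∈ closedBall (b : ℂ) ε := by
    rw [mem_closedBall, Complex.dist_eq, ← Complex.ofReal_sub, Complex.norm_real,
      Real.norm_eq_abs, abs_le]
    constructor <;> linarith
  exact Set.disjoint_left.mp h h1 h2

theorem infDist_conj {a ε : ℝ} (hε : 0 < ε) {z : ℂ}
    (h : 1 ≤ infDist z (closedBall (a : ℂ) ε)) :
    1 ≤ infDist (conj z) (closedBall (a : ℂ) ε) := by
  have hne : (closedBall (a : ℂ) ε).Nonempty := ⟨a, mem_closedBall_self hε.le⟩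
  rw [Metric.le_infDist hne]
  intro y hy
  have hy' : conj y ∈ closedBall (a : ℂ) ε := by
    rw [mem_closedBall] at hy ⊢
    have : dist (conj y) (a : ℂ) = dist y (a : ℂ) := by
      rw [← Complex.dist_conj_conj y a, Complex.conj_ofReal]
    rw [this]
    exact hy
  have h2 : dist (conj z) y = dist z (conj y) := by
    rw [← Complex.dist_conj_conj (conj z) y, Complex.conj_conj]
  rw [h2]
  exact h.trans (infDist_le_dist_of_mem hy')

end UPB

theorem st_UP (hSURF : St_SURF) (hPOL : St_POL) : St_UP := by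
  obtain ⟨C, hC⟩ := hSURF
  refine ⟨2 * C, fun n ε c Ω z₀ h => ?_⟩
  obtain ⟨hn, hε, hε1, hΩ, hsc, hc, hdis, hpair, hz₀, hdist⟩ := h
  obtain ⟨m, rfl⟩ : ∃ m, n = m + 1 := ⟨n - 1, by omega⟩
  have hε1' : ε < 1 := by
    have h1 : (1 : ℝ) ≤ ((m + 1 : ℕ) : ℝ) := by exact_mod_cast hn
    have h2 : 1 / ((m + 1 : ℕ) : ℝ) ≤ 1 := by
      rw [div_le_one (by linarith)]
      exact h1
    linarith
  set σ := Tuple.sort c with hσ
  have hmono : Monotone (c ∘ σ) := Tuple.monotone_sort c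
  have hsep : ∀ i j, i < j → (c ∘ σ) i + 2 * ε < (c ∘ σ) j := fun i j hij =>
    UPB.sep (hmono hij.le) (hpair (fun he => hij.ne (σ.injective he)))
  obtain ⟨v, V, hS, hv⟩ := hC m ε (c ∘ σ) hε hε1' (fun j => hc (σ j)) hsep
  have hU : (⋃ j, closedBall (((c ∘ σ) j : ℝ) : ℂ) ε) = ⋃ j, closedBall ((c j : ℝ) : ℂ) ε :=
    σ.surjective.iUnion_comp fun j => closedBall ((c j : ℝ) : ℂ) ε
  refine hm_le fun u hu => ?_
  rw [← hU] at hu
  have key := hPOL (m + 1) ε (c ∘ σ) Ω u v V hε hΩ hsc (fun j => hdis (σ j)) hu hS z₀ hz₀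
  rcases le_total 0 z₀.im with h0 | h0
  · have h1 := hv z₀ h0 fun j => hdist (σ j)
    have h2 := key.1 h0
    linarith
  · have h1 := hv (conj z₀) (by rw [Complex.conj_im]; linarith)
      fun j => UPB.infDist_conj hε (hdist (σ j))
    have h2 := key.2 h0
    linarith

end Pool.Agent.BAC
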