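import Pool.Agent.Lib.BAC.B_ANG
import Pool.Agent.Lib.BAC.B_REAL
import Pool.Agent.Lib.BAC.B_SIZE
import Pool.Agent.Lib.BAC.B_APR
import Pool.Agent.Lib.BAC.B_CLOSED
import Pool.Agent.Lib.BAC.B_OPEN
import Pool.Agent.Lib.BAC.B_ROOT
import Pool.Agent.Lib.BAC.B_EXIST
import Pool.Agent.Lib.BAC.B_SLIT
import Pool.Agent.Lib.BAC.B_CAU
import Pool.Agent.Lib.BAC.B_LEN
import Pool.Agent.Lib.BAC.B_MAIN
import Pool.Agent.Lib.BAC.B_LOCINV
import Pool.Agent.Lib.BAC.B_WLAB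
import Pool.Agent.Lib.BAC.B_SHEETE
import Pool.Agent.Lib.BAC.B_SHEET
import Pool.Agent.Lib.BAC.B_HARM
import Pool.Agent.Lib.BAC.B_BIG
import Pool.Agent.Lib.BAC.B_SURF
import Pool.Agent.Lib.BAC.B_LAB
import Pool.Agent.Lib.BAC.B_POL
import Pool.Agent.Lib.BAC.B_UP
import Pool.Agent.Lib.BAC.B_LC
import Pool.Agent.Lib.BAC.B_GLUE
import Pool.Agent.Lib.BAC.B_KINT
import Pool.Agent.Lib.BAC.B_LOC
import Pool.Agent.Lib.BAC.B_NUM
import Pool.Agent.Lib.BAC.B_GOODC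
import Pool.Agent.Lib.BAC.B_SC
import Pool.Agent.Lib.BAC.B_KEEP
import Pool.Agent.Lib.BAC.B_EMB
import Pool.Agent.Lib.BAC.B_GAIN
import Pool.Agent.Lib.BAC.B_REF
import Pool.Agent.Lib.BAC.B_BASE
import Pool.Agent.Lib.BAC.B_ITER
import Pool.Agent.Lib.BAC.B_FIN
import Pool.Agent.Lib.BAC.B_LAYER
import Pool.Agent.Lib.BAC.B_LOW

/-! Assembly of the blocks. -/

namespace Pool.Agent.BAC

theorem all_UP : St_UP := by
  have hANG := st_ANG
  have hREAL := st_REAL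
  have hSIZE := st_SIZE hREAL
  have hROOT := st_ROOT
  have hEXIST := st_EXIST hREAL hROOT (st_OPEN hREAL) (st_CLOSED (st_APR hREAL hSIZE))
  have hSLIT := st_SLIT hREAL hROOT
  have hLEN := st_LEN hREAL (st_CAU hREAL hSLIT)
  have hLOCINV := st_LOCINV hSLIT
  have hMAIN := st_MAIN hREAL hSIZE hLOCINV
  have hSHEET := st_SHEET hMAIN (st_SHEETE hREAL hMAIN hLOCINV)
  have hHARM := st_HARM hANG hLOCINV (st_WLAB hREAL hMAIN) hSHEET
  exact st_UP (st_SURF hANG hREAL hSIZE hEXIST hLEN hMAIN hHARM (st_BIG hANG hREAL))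
    (st_POL st_LAB)

theorem all_LOW : St_LOW := by
  have hANG := st_ANG
  have hLOC := st_LOC hANG st_KINT
  have hG := st_GOODC
  have hGAIN := st_GAIN hG st_LC st_GLUE (st_EMB hG)
  have hREF := st_REF st_NUM hLOC hG (st_KEEP hG st_GLUE) hGAIN
  exact st_LOW (st_ITER hREF (st_BASE hANG)) (st_FIN st_SC) st_LAYER

end Pool.Agent.BAC
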