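import Pool.Agent.Lib.BAC.Blue

/-! The angle function of an interval in the upper half plane. -/

namespace Pool.Agent.BAC

open Set Filter Topology Metric Complex
open scoped ComplexConjugate Real

namespace ANG

/-- The imaginary part of an analytic germ has the mean value property. -/
lemma mv_im {G : ℂ → ℂ} {z : ℂ} (h : AnalyticAt ℂ G z) : MV (fun y => (G y).im) z := by
  have hh := h.harmonicAt_im
  refine ⟨continuous_im.continuousAt.comp h.continuousAt, ?_⟩
  have h1 := (eventually_closedBall_subset hh.eventually).filter_mono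
    (nhdsWithin_le_nhds (s := Ioi (0 : ℝ)))
  filter_upwards [h1, self_mem_nhdsWithin] with r hr hr0
  have h2 : InnerProductSpace.HarmonicOnNhd (fun y => (G y).im) (closedBall z |r|) := by
    rw [abs_of_pos hr0]
    exact fun y hy => hr hy
  exact ⟨(h2.continuousOn.mono sphere_subset_closedBall).circleIntegrable', h2.circleAverage_eq⟩

lemma slit {w : ℂ} (hw : 0 < w.im) (t : ℝ) : w - t ∈ slitPlane :=
  Or.inr (by simpa using hw.ne')

lemma deriv_arg {w : ℂ} (hw : 0 < w.im) (t : ℝ) :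
    HasDerivAt (fun s : ℝ => arg (w - s)) (w.im / ‖w - t‖ ^ 2) t := by
  have h1 : HasDerivAt (fun s : ℝ => w - (s : ℂ)) (-1) t := by
    simpa using (ofRealCLM.hasDerivAt (x := t)).const_sub w
  have h2 := imCLM.hasFDerivAt.comp_hasDerivAt t (h1.clog_real (slit hw t))
  have h3 : imCLM (-1 / (w - t)) = w.im / ‖w - t‖ ^ 2 := by
    rw [imCLM_apply, neg_div, one_div, neg_im, inv_im, Complex.sq_norm]
    simp [neg_div]
  rw [h3] at h2
  exact h2.congr_of_eventuallyEq (Eventually.of_forall fun s => (log_im _).symm)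

/-- Mean value form of the angle. -/
lemma mean {α β : ℝ} (h : α < β) {w : ℂ} (hw : 0 < w.im) :
    ∃ t ∈ Icc α β, 0 < ‖w - t‖ ∧ ang α β w = (β - α) * w.im / (π * ‖w - t‖ ^ 2) := by
  obtain ⟨t, ht, he⟩ := exists_hasDerivAt_eq_slope (fun s : ℝ => arg (w - s))
    (fun t : ℝ => w.im / ‖w - t‖ ^ 2) h
    (fun t _ => (deriv_arg hw t).continuousAt.continuousWithinAt) fun t _ => deriv_arg hw t
  have hn : 0 < ‖w - t‖ := norm_pos_iff.2 (slitPlane_ne_zero (slit hw t))
  refine ⟨t, Ioo_subset_Icc_self ht, hn, ?_⟩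
  have hb : β - α ≠ 0 := (sub_pos.2 h).ne'
  have h1 : arg (w - β) - arg (w - α) = (β - α) * (w.im / ‖w - t‖ ^ 2) := by
    rw [he]
    field_simp
  rw [ang, h1]
  field_simp

lemma arg_neg' {w : ℂ} (hw : w.im = 0) {t : ℝ} (h : w.re < t) : arg (w - t) = π :=
  arg_eq_pi_iff.2 ⟨by simpa using h, by simpa using hw⟩

lemma arg_pos' {w : ℂ} (hw : w.im = 0) {t : ℝ} (h : t ≤ w.re) : arg (w - t) = 0 :=
  arg_eq_zero_iff.2 ⟨by simpa using h, by simpa using hw⟩

lemma nonneg {α β : ℝ} (h : α < β) {w : ℂ} (hw : 0 ≤ w.im) : 0 ≤ ang α β w := by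
  rcases hw.eq_or_lt with hw | hw
  · refine div_nonneg (sub_nonneg.2 ?_) Real.pi_pos.le
    rcases lt_or_ge w.re β with h1 | h1
    · rw [arg_neg' hw.symm h1]
      exact arg_le_pi _
    · rw [arg_pos' hw.symm h1, arg_pos' hw.symm (h.le.trans h1)]
  · obtain ⟨t, -, hn, he⟩ := mean h hw
    have := sub_pos.2 h
    have := Real.pi_pos
    rw [he]
    positivity

lemma le_one (α β : ℝ) {w : ℂ} (hw : 0 ≤ w.im) : ang α β w ≤ 1 := by
  have h1 : 0 ≤ arg (w - α) := arg_nonneg_iff.2 (by simpa using hw)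
  have h2 := arg_le_pi (w - β)
  rw [ang, div_le_one Real.pi_pos]
  linarith

lemma upper {α β : ℝ} (h : α < β) {w : ℂ} {D : ℝ} (hw : 0 ≤ w.im) (hD : 0 < D)
    (hd : ∀ t ∈ Icc α β, D ≤ ‖w - t‖) :
    ang α β w ≤ (β - α) * w.im / (π * D ^ 2) ∧ ang α β w ≤ (β - α) / (π * D) := by
  have hb := sub_pos.2 h
  have hp := Real.pi_pos
  rcases hw.eq_or_lt with hw | hw
  · have h0 : ang α β w = 0 := by
      by_cases h1 : w.re < α
      · rw [ang, arg_neg' hw.symm h1, arg_neg' hw.symm (h1.trans h), sub_self, zero_div]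
      by_cases h2 : β < w.re
      · rw [ang, arg_pos' hw.symm h2.le, arg_pos' hw.symm (h.trans h2).le, sub_self, zero_div]
      have h3 := hd w.re ⟨not_lt.1 h1, not_lt.1 h2⟩
      have h4 : w - (w.re : ℂ) = 0 := Complex.ext (by simp) (by simpa using hw.symm)
      rw [h4, norm_zero] at h3
      exact absurd hD h3.not_gt
    rw [h0, ← hw]
    exact ⟨by simp, by positivity⟩
  · obtain ⟨t, ht, hn, he⟩ := mean h hw
    have h1 := hd t ht
    have h2 : w.im ≤ ‖w - t‖ := by simpa using im_le_norm (w - t)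
    rw [he]
    refine ⟨by gcongr, ?_⟩
    calc (β - α) * w.im / (π * ‖w - t‖ ^ 2) ≤ (β - α) * ‖w - t‖ / (π * ‖w - t‖ ^ 2) := by gcongr
      _ = (β - α) / (π * ‖w - t‖) := by field_simp
      _ ≤ (β - α) / (π * D) := by gcongr

lemma lower {α β : ℝ} (h : α < β) {w : ℂ} {D : ℝ} (hw : 0 < w.im)
    (hd : ∀ t ∈ Icc α β, ‖w - t‖ ≤ D) : (β - α) * w.im / (π * D ^ 2) ≤ ang α β w := by
  have hb := sub_pos.2 h
  have hp := Real.pi_pos
  obtain ⟨t, ht, hn, he⟩ := mean h hw
  have h1 := hd t ht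
  rw [he]
  gcongr

lemma lim {α β x : ℝ} (hx : x ∈ Ioo α β) :
    Tendsto (ang α β) (𝓝[{z : ℂ | 0 ≤ z.im}] (x : ℂ)) (𝓝 1) := by
  have h1 : Tendsto (fun w : ℂ => arg (w - β)) (𝓝[{z : ℂ | 0 ≤ z.im}] (x : ℂ)) (𝓝 π) := by
    refine (tendsto_arg_nhdsWithin_im_nonneg_of_re_neg_of_im_zero (z := (x : ℂ) - β)
      (by simpa using hx.2) (by simp)).comp ?_
    refine tendsto_nhdsWithin_iff.2 ⟨?_, ?_⟩
    · exact ((continuous_id.sub continuous_const).tendsto (x : ℂ)).mono_left nhdsWithin_le_nhds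
    · filter_upwards [self_mem_nhdsWithin] with w hw
      simpa using hw
  have h2 : Tendsto (fun w : ℂ => arg (w - α)) (𝓝[{z : ℂ | 0 ≤ z.im}] (x : ℂ)) (𝓝 0) := by
    have h3 : (x : ℂ) - α ∈ slitPlane := Or.inl (by simpa using hx.1)
    have h4 : ContinuousAt (fun w : ℂ => arg (w - α)) (x : ℂ) :=
      ContinuousAt.comp (f := fun w : ℂ => w - α) (continuousAt_arg h3)
        (continuous_id.sub continuous_const).continuousAt
    have h5 := h4.tendsto.mono_left (nhdsWithin_le_nhds (s := {z : ℂ | 0 ≤ z.im}))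
    rwa [arg_pos' (by simp) (by simpa using hx.1.le)] at h5
  have h6 := (h1.sub h2).div_const π
  rwa [sub_zero, div_self Real.pi_pos.ne'] at h6

lemma thales {α β : ℝ} (h : α < β) {w : ℂ} (hw : 0 < w.im)
    (hd : ‖w - ((α + β) / 2 : ℝ)‖ ≤ (β - α) / 2) : 1 / 2 ≤ ang α β w := by
  have hp := Real.pi_pos
  have h0 := nonneg h hw.le
  have hu := slitPlane_ne_zero (slit hw β)
  have hv := slitPlane_ne_zero (slit hw α)
  have hu' := norm_pos_iff.2 hu
  have hv' := norm_pos_iff.2 hv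
  have h1 : (w.re - β) * (w.re - α) + w.im * w.im ≤ 0 := by
    have h2 := pow_le_pow_left₀ (norm_nonneg _) hd 2
    rw [Complex.sq_norm, normSq_apply] at h2
    simp only [sub_re, ofReal_re, sub_im, ofReal_im, sub_zero] at h2
    nlinarith
  have h3 : Real.cos (arg (w - β) - arg (w - α)) ≤ 0 := by
    rw [Real.cos_sub, cos_arg hu, cos_arg hv, sin_arg, sin_arg, div_mul_div_comm,
      div_mul_div_comm, ← add_div]
    refine div_nonpos_of_nonpos_of_nonneg ?_ (by positivity)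
    simpa using h1
  rw [ang] at h0 ⊢
  rw [le_div_iff₀ hp] at h0 ⊢
  by_contra h4
  exact absurd (Real.cos_pos_of_mem_Ioo ⟨by linarith, by linarith⟩) h3.not_gt

end ANG

theorem st_ANG : St_ANG := by
  intro α β h
  refine ⟨fun w hw => ⟨ANG.nonneg h hw, ANG.le_one α β hw⟩, fun χ z hχ hz => ?_,
    fun w D hw hD hd => ANG.upper h hw hD hd, fun w D hw hd => ANG.lower h hw hd,
    fun x hx => ANG.lim hx, fun w hw hd => ANG.thales h hw hd⟩
  have h1 : AnalyticAt ℂ (fun y => (log (χ y - β) - log (χ y - α)) / (π : ℂ)) z :=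
    (((hχ.sub analyticAt_const).clog (ANG.slit hz β)).sub
      ((hχ.sub analyticAt_const).clog (ANG.slit hz α))).div_const
  have h2 : (fun y => ang α β (χ y)) = fun y => ((log (χ y - β) - log (χ y - α)) / (π : ℂ)).im := by
    funext y
    rw [div_ofReal_im, sub_im, log_im, log_im, ang]
  rw [h2]
  exact ANG.mv_im h1

end Pool.Agent.BAC
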