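import Pool.Agent.Lib.BAC.Blue

namespace Pool.Agent.BAC

open Set Filter Topology Metric Complex

namespace GoodC

/-- the horizontal squeeze towards the line `re = x` -/
noncomputable def sq (x c : ℝ) (p : ℝ × ℂ) : ℂ :=
  ((x + (p.2.re - x) / (1 + p.1 * max (-p.2.im) 0 / c) : ℝ) : ℂ) + (p.2.im : ℂ) * I

theorem sq_re (x c : ℝ) (p : ℝ × ℂ) :
    (sq x c p).re = x + (p.2.re - x) / (1 + p.1 * max (-p.2.im) 0 / c) := by
  simp only [sq, add_re, ofReal_re, mul_re, I_re, mul_zero, ofReal_im, I_im, zero_mul, sub_zero,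
    add_zero]

theorem sq_im (x c : ℝ) (p : ℝ × ℂ) : (sq x c p).im = p.2.im := by
  simp only [sq, add_im, ofReal_im, mul_im, ofReal_re, I_im, mul_one, I_re, mul_zero, add_zero,
    zero_add]

theorem one_le_den {c t : ℝ} (hc : 0 < c) (ht : 0 ≤ t) (y : ℝ) : 1 ≤ 1 + t * max y 0 / c :=
  le_add_of_nonneg_right (div_nonneg (mul_nonneg ht (le_max_right _ _)) hc.le)

theorem sq_eq (x c : ℝ) (p : ℝ × ℂ) (h : p.1 * max (-p.2.im) 0 = 0) : sq x c p = p.2 := by
  apply Complex.ext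
  · rw [sq_re, h]; simp
  · rw [sq_im]

theorem sq_cont (x : ℝ) {c : ℝ} (hc : 0 < c) (S : Set ℂ) :
    ContinuousOn (sq x c) (Icc (0 : ℝ) 1 ×ˢ S) := by
  unfold sq
  refine ContinuousOn.add (continuous_ofReal.comp_continuousOn (ContinuousOn.add continuousOn_const
    (ContinuousOn.div (by fun_prop) (by fun_prop) fun p hp => ?_))) (by fun_prop)
  exact (lt_of_lt_of_le one_pos (one_le_den hc hp.1.1 _)).ne'

theorem abs_sq_le (x : ℝ) {c t : ℝ} (hc : 0 < c) (ht : 0 ≤ t) (z : ℂ) :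
    |(sq x c (t, z)).re - x| ≤ |z.re - x| := by
  have h := one_le_den hc ht (-z.im)
  rw [sq_re, add_sub_cancel_left, abs_div, abs_of_pos (lt_of_lt_of_le one_pos h)]
  exact div_le_self (abs_nonneg _) h

theorem norm_le {x : ℝ} {z w : ℂ} (h1 : |w.re - x| ≤ |z.re - x|) (h2 : |w.im| ≤ |z.im|) :
    ‖w - x‖ ≤ ‖z - x‖ := by
  rw [← sq_le_sq₀ (norm_nonneg _) (norm_nonneg _), Complex.sq_norm, Complex.sq_norm,
    normSq_apply, normSq_apply]
  simp only [sub_re, ofReal_re, sub_im, ofReal_im, sub_zero]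
  have h3 := sq_le_sq.2 h1
  have h4 := sq_le_sq.2 h2
  nlinarith

end GoodC

open GoodC in
theorem st_GOODC : St_GOODC := by
  classical
  rintro Ω a b τ x δ σ ⟨ho, hup, ⟨M, hM⟩, q, hq, hq0, hqt, hq1⟩ hF hδ hσ hσ1 ha hb hτ
  have hc : 0 < σ * δ := mul_pos hσ hδ
  have him : ∀ z ∈ Cav x δ σ, -(2 * δ / σ) < z.im := fun z hz => by
    have h1 := (abs_im_le_norm (z - x)).trans_lt hz.2.1
    rw [sub_im, ofReal_im, sub_zero] at h1
    exact (abs_lt.1 h1).1
  have hdis : ∀ z ∈ Ω, z ∉ Cav x δ σ := fun z hz h => by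
    have h1 := (abs_re_le_norm (z - x)).trans_lt h.2.1
    rw [sub_re, ofReal_re] at h1
    have h2 := abs_lt.1 h1
    have h3 := him z h
    exact absurd (hF z hz (by linarith [h2.1]) (by linarith [h2.2]) (by linarith)) (not_lt.2 h.1)
  let V : Set ℂ := {z | ‖z - x‖ < 2 * δ / σ ∧ |z.re - x| < δ - z.im / σ}
  have hV1 : IsOpen {z : ℂ | ‖z - x‖ < 2 * δ / σ} := isOpen_lt (by fun_prop) (by fun_prop)
  have hV2 : IsOpen {z : ℂ | |z.re - x| < δ - z.im / σ} := isOpen_lt (by fun_prop) (by fun_prop)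
  have hV : IsOpen V := hV1.inter hV2
  have hU : Ω ∪ Cav x δ σ = Ω ∪ V := by
    ext z
    refine ⟨fun h => h.imp_right fun h => h.2, fun h => ?_⟩
    rcases h with h | h
    · exact Or.inl h
    · rcases le_or_gt z.im 0 with h1 | h1
      · exact Or.inr ⟨h1, h⟩
      · exact Or.inl (hup z h1)
  let q' : ℝ × ℂ → ℂ := fun p => if p.2 ∈ Cav x δ σ then sq x (σ * δ) p else q p
  have e1 : ∀ t, ∀ z ∈ Ω, q' (t, z) = q (t, z) := fun t z hz => if_neg (hdis z hz)
  have e2 : ∀ t, ∀ z ∈ Cav x δ σ, q' (t, z) = sq x (σ * δ) (t, z) := fun t z hz => if_pos hz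
  have e3 : ∀ t ∈ Icc (0 : ℝ) 1, ∀ z ∈ V, q' (t, z) = sq x (σ * δ) (t, z) := fun t ht z hz => by
    rcases le_or_gt z.im 0 with h1 | h1
    · exact e2 t z ⟨h1, hz⟩
    · rw [e1 t z (hup z h1), (hqt t ht z (hup z h1)).2.2 h1.le, sq_eq]
      rw [max_eq_right (by linarith), mul_zero]
  refine ⟨hU ▸ ho.union hV, fun z hz => Or.inl (hup z hz), ⟨max M (2 * δ / σ), ?_⟩, q', ?_, ?_,
    ?_, ?_⟩
  · rintro z (hz | hz)
    · linarith [hM z hz, le_max_left M (2 * δ / σ)]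
    · linarith [him z hz, le_max_right M (2 * δ / σ)]
  · rintro ⟨t, z⟩ ⟨ht, hz⟩
    rw [hU] at hz
    rcases hz with hz | hz
    · have hn : (univ ×ˢ Ω : Set (ℝ × ℂ)) ∈ 𝓝 (t, z) :=
        (isOpen_univ.prod ho).mem_nhds ⟨mem_univ _, hz⟩
      refine (continuousWithinAt_inter hn).1 ?_
      exact ((hq (t, z) ⟨ht, hz⟩).mono fun p hp => ⟨hp.1.1, hp.2.2⟩).congr
        (fun p hp => e1 p.1 p.2 hp.2.2) (e1 t z hz)
    · have hn : (univ ×ˢ V : Set (ℝ × ℂ)) ∈ 𝓝 (t, z) :=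
        (isOpen_univ.prod hV).mem_nhds ⟨mem_univ _, hz⟩
      refine (continuousWithinAt_inter hn).1 ?_
      exact ((sq_cont x hc V (t, z) ⟨ht, hz⟩).mono fun p hp => ⟨hp.1.1, hp.2.2⟩).congr
        (fun p hp => e3 p.1 hp.1.1 p.2 hp.2.2) (e3 t ht z hz)
  · rintro z (hz | hz)
    · rw [e1 0 z hz, hq0 z hz]
    · rw [e2 0 z hz, sq_eq]
      exact zero_mul _
  · rintro t ht z (hz | hz)
    · rw [e1 t z hz]
      exact ⟨Or.inl (hqt t ht z hz).1, (hqt t ht z hz).2⟩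
    · rw [e2 t z hz]
      have h1 := abs_sq_le x hc ht.1 z
      refine ⟨Or.inr ⟨?_, ?_, ?_⟩, sq_im _ _ _, fun h => ?_⟩
      · rw [sq_im]; exact hz.1
      · exact (norm_le h1 (by rw [sq_im])).trans_lt hz.2.1
      · rw [sq_im]; exact h1.trans_lt hz.2.2
      · rw [sq_eq]
        rw [max_eq_right (by linarith), mul_zero]
  · rintro z (hz | hz) s hs
    · rw [e1 1 z hz]; exact Or.inl (hq1 z hz s hs)
    · rw [e2 1 z hz]
      have hre : (sq x (σ * δ) (1, z) + s * I).re = (sq x (σ * δ) (1, z)).re := by simp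
      have hi : (sq x (σ * δ) (1, z) + s * I).im = z.im + s := by simp [sq_im]
      rcases le_or_gt (z.im + s) 0 with h1 | h1
      · have h0 := hz.1
        have h2 : |(sq x (σ * δ) (1, z)).re - x| < δ := by
          have h3 := one_le_den hc zero_le_one (-z.im)
          rw [sq_re, add_sub_cancel_left, abs_div, abs_of_pos (lt_of_lt_of_le one_pos h3),
            div_lt_iff₀ (lt_of_lt_of_le one_pos h3), max_eq_left (by linarith)]
          refine hz.2.2.trans_eq ?_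
          field_simp
          ring
        refine Or.inr ⟨hi ▸ h1, ?_, ?_⟩
        · refine (norm_le (hre ▸ abs_sq_le x hc zero_le_one z) ?_).trans_lt hz.2.1
          rw [hi, abs_of_nonpos h1, abs_of_nonpos h0]
          linarith
        · rw [hre, hi]
          have h4 : (z.im + s) / σ ≤ 0 := div_nonpos_of_nonpos_of_nonneg h1 hσ.le
          linarith
      · exact Or.inl (hup _ (hi ▸ h1))

end Pool.Agent.BAC
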