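import Pool.Agent.Lib.BAC.B_MAIN

/-! The labelling of the lower sheets: the number of tops to the right of the real part. -/

namespace Pool.Agent.BAC

open Set Filter Topology Complex

namespace Wlab

variable {m : ℕ} (U : Uni m)

theorem bb_lt {w w' : ℂ} (hp : ∀ i, w ≠ U.p i) (hre : w.re = w'.re) (h0 : 0 ≤ w.im)
    (h : w.im < w'.im) : Main.bb U w < Main.bb U w' := by
  have h2 : w.im ^ 2 < w'.im ^ 2 := by nlinarith
  have h1 : ∑ i, U.r i / ‖w' - U.p i‖ ^ 2 ≤ ∑ i, U.r i / ‖w - U.p i‖ ^ 2 := by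
    refine Finset.sum_le_sum fun i _ => div_le_div_of_nonneg_left (U.hr i).le
      (pow_pos (norm_pos_iff.2 (sub_ne_zero.2 (hp i))) 2) ?_
    rw [← Complex.normSq_eq_norm_sq, ← Complex.normSq_eq_norm_sq, normSq_apply, normSq_apply]
    simp only [sub_re, sub_im, ofReal_re, ofReal_im, sub_zero, hre]
    nlinarith
  simp only [Main.bb, hre]
  linarith

theorem off (hREAL : St_REAL) {w : ℂ} (h : 0 < w.im) (h' : (U.F w).im ≤ 0) (j : Fin (m + 1)) :
    w.re ∉ Icc (U.A j) (U.B j) := fun hx => by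
  have h1 := Main.top_mem U hREAL hx
  have h2 := bb_lt U (w' := w) h1.2.1 (ofReal_re _) h1.1 (by simpa using h)
  rw [Main.im_F] at h'
  exact absurd (mul_pos h (h1.2.2.trans_lt h2)) (not_lt.2 h')

theorem loc {n : ℕ} (A : Fin n → ℝ) {w : ℂ} (h : ∀ j, w.re ≠ A j) :
    ∀ᶠ w' in 𝓝 w, lab A w'.re = lab A w.re := by
  have h1 : ∀ j, ∀ᶠ w' in 𝓝 w, (w'.re < A j ↔ w.re < A j) := fun j => by
    rcases lt_or_gt_of_ne (h j) with e | e
    · filter_upwards [continuous_re.continuousAt.eventually_lt_const e] with y hy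
      exact iff_of_true hy e
    · filter_upwards [continuous_re.continuousAt.eventually_const_lt e] with y hy
      exact iff_of_false hy.not_gt e.not_gt
  filter_upwards [eventually_all.2 h1] with y hy
  exact congrArg Finset.card (Finset.filter_congr fun j _ => hy j)

theorem ne_of_lt (hREAL : St_REAL) {φ : ℂ → ℂ} (hφ : IsMain U φ) {s t : ℝ}
    (h : (φ s).im < (φ t).im) : (φ s).re ≠ (φ t).re := fun hre => by
  obtain ⟨s0, s1, s2⟩ := hφ.inv s (by simp)
  obtain ⟨-, t1, -⟩ := hφ.inv t (by simp)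
  have t0 : 0 < (φ t).im := s0.trans_lt h
  have t2 : (U.F (φ t)).im = 0 := by rw [t1, ofReal_im]
  rcases s0.eq_or_lt with e | e
  · by_cases hs : ∀ j, s ∉ Icc (U.e j) (U.f j)
    · exact (hφ.pos s (by simp) fun _ => hs).ne e
    · push Not at hs
      obtain ⟨j, hj⟩ := hs
      obtain ⟨x, hx, rfl⟩ := (hREAL m U).2.2.2.2.2.1 j s hj
      rw [hφ.top j x hx, ofReal_re] at hre
      exact off U hREAL t0 t2.le j (hre ▸ hx)
  · have s3 : (U.F (φ s)).im = 0 := by rw [s1, ofReal_im]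
    have h3 := bb_lt U s2 hre s0 h
    rw [Main.im_F] at s3 t2
    rw [(mul_eq_zero.1 s3).resolve_left e.ne', (mul_eq_zero.1 t2).resolve_left t0.ne'] at h3
    exact lt_irrefl _ h3

theorem mono (hREAL : St_REAL) {φ : ℂ → ℂ} (hφ : IsMain U φ) :
    StrictMono fun t : ℝ => (φ t).re := by
  have hc : Continuous fun t : ℝ => (φ t).re :=
    continuous_re.comp (hφ.cont.comp_continuous continuous_ofReal fun t => by simp)
  have hi : Function.Injective fun t : ℝ => (φ t).re := fun s t hst => by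
    rcases lt_trichotomy (φ s).im (φ t).im with h | h | h
    · exact absurd hst (ne_of_lt U hREAL hφ h)
    · have e := congrArg U.F (Complex.ext hst h)
      rw [(hφ.inv s (by simp)).2.1, (hφ.inv t (by simp)).2.1] at e
      exact ofReal_injective e
    · exact absurd hst.symm (ne_of_lt U hREAL hφ h)
  refine (hc.strictMono_of_inj hi).resolve_right fun ha => ?_
  have h1 : (φ (U.FR (U.B 0))).re < (φ (U.FR (U.A 0))).re := ha ((hREAL m U).2.2.2.2.2.2.1 0)
  rw [hφ.top 0 _ ⟨(U.hAB 0).le, le_rfl⟩, hφ.top 0 _ ⟨le_rfl, (U.hAB 0).le⟩] at h1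
  exact (U.hAB 0).not_gt h1

end Wlab

open Wlab in
theorem st_WLAB (hREAL : St_REAL) (hMAIN : St_MAIN) : St_WLAB := by
  intro m U c hc
  obtain ⟨φ, hφ⟩ := hMAIN m U
  have hne : ∀ w : ℂ, 0 < w.im → (U.F w).im ≤ 0 → ∀ j, w.re ≠ U.A j := fun w h h' j e =>
    off U hREAL h h' j ⟨e.ge, e.le.trans (U.hAB j).le⟩
  refine ⟨fun w => lab U.A w.re, fun w h h' => loc U.A (hne w h h'.le), fun w h h' => ?_⟩
  have e : lab U.A w.re = lab c (U.F w).re := by
    refine congrArg Finset.card (Finset.filter_congr fun j _ => ?_)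
    have e1 : (((U.F w).re : ℝ) : ℂ) = U.F w := Complex.ext rfl (by simpa using h'.symm)
    have e2 : (φ ((U.F w).re : ℝ)).re = w.re := by rw [e1, hφ.left w h h'.ge]
    have eA : (φ (U.e j)).re = U.A j := by
      rw [Uni.e, hφ.top j _ ⟨le_rfl, (U.hAB j).le⟩, ofReal_re]
    have eB : (φ (U.f j)).re = U.B j := by
      rw [Uni.f, hφ.top j _ ⟨(U.hAB j).le, le_rfl⟩, ofReal_re]
    have l1 : w.re < U.A j ↔ (U.F w).re < U.e j := by
      rw [← e2, ← eA]; exact (mono U hREAL hφ).lt_iff_lt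
    have l2 : U.B j < w.re ↔ U.f j < (U.F w).re := by
      rw [← e2, ← eB]; exact (mono U hREAL hφ).lt_iff_lt
    refine ⟨fun h1 => (l1.1 h1).trans_le (hc j).1, fun h1 => not_le.1 fun h2 => ?_⟩
    exact off U hREAL h h'.le j ⟨h2, not_lt.1 fun h3 => (l2.1 h3).not_ge (h1.le.trans (hc j).2)⟩
  filter_upwards [loc U.A (hne w h h'.le)] with y hy _
  exact hy.trans e

end Pool.Agent.BAC
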