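import Pool.Agent.Lib.BAC.Defs

/-! Auxiliary definitions and the block statements of the ball and chain project. -/

namespace Pool.Agent.BAC

open Set Filter Topology Metric Complex
open scoped ComplexConjugate Real

/-! ### Potential theory vocabulary -/

/-- Mean value property at a point (harmonic germ). -/
def MV (f : ℂ → ℝ) (z : ℂ) : Prop :=
  ContinuousAt f z ∧
    ∀ᶠ r in 𝓝[>] (0 : ℝ), CircleIntegrable f z r ∧ Real.circleAverage f z r = f z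

/-- Upper limit of `u` at `ζ` within `Ω` is at most `M`. -/
def BdLe (Ω : Set ℂ) (u : ℂ → ℝ) (ζ : ℂ) (M : ℝ) : Prop :=
  ∀ η > 0, ∀ᶠ z in 𝓝[Ω] ζ, u z ≤ M + η

/-- Upper limit of `u` at infinity within `Ω` is at most `M`. -/
def InfLe (Ω : Set ℂ) (u : ℂ → ℝ) (M : ℝ) : Prop :=
  ∀ η > 0, ∀ᶠ z in cocompact ℂ, z ∈ Ω → u z ≤ M + η

/-- The angle under which `[α, β]` is seen from `w`, divided by `π`. -/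
noncomputable def ang (α β : ℝ) (w : ℂ) : ℝ := (arg (w - β) - arg (w - α)) / π

/-- Number of centres to the right of `x`. -/
noncomputable def lab {n : ℕ} (c : Fin n → ℝ) (x : ℝ) : ℕ :=
  (Finset.univ.filter fun j => x < c j).card

/-- The quantity `w (z₀, Ω)` of the problem. -/
noncomputable def wt {n : ℕ} (ε : ℝ) (c : Fin n → ℝ) (Ω : Set ℂ) (z₀ : ℂ) : ℝ :=
  hm z₀ (frontier Ω ∩ ⋃ j, closedBall (c j : ℂ) ε) Ω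

/-! ### The uniformising rational functions -/

noncomputable def psi {m : ℕ} (c d : ℝ) (r p : Fin m → ℝ) (w : ℂ) : ℂ :=
  -w ^ 3 + c * w + d + ∑ i, (r i : ℂ) / (w - p i)

noncomputable def dpsi {m : ℕ} (c : ℝ) (r p : Fin m → ℝ) (w : ℂ) : ℂ :=
  c - 3 * w ^ 2 - ∑ i, (r i : ℂ) / (w - p i) ^ 2

noncomputable def psiR {m : ℕ} (c d : ℝ) (r p : Fin m → ℝ) (x : ℝ) : ℝ :=
  -x ^ 3 + c * x + d + ∑ i, r i / (x - p i)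

noncomputable def dpsiR {m : ℕ} (c : ℝ) (r p : Fin m → ℝ) (x : ℝ) : ℝ :=
  c - 3 * x ^ 2 - ∑ i, r i / (x - p i) ^ 2

noncomputable def ddpsiR {m : ℕ} (r p : Fin m → ℝ) (x : ℝ) : ℝ :=
  -6 * x + 2 * ∑ i, r i / (x - p i) ^ 3

/-- A rational function `psi` with positive residues and `2 m + 2` real critical points
`A 0 < B 0 < p 0 < A 1 < B 1 < p 1 < ⋯`. -/
structure Uni (m : ℕ) where
  c : ℝ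
  d : ℝ
  r : Fin m → ℝ
  p : Fin m → ℝ
  A : Fin (m + 1) → ℝ
  B : Fin (m + 1) → ℝ
  hr : ∀ i, 0 < r i
  hAB : ∀ j, A j < B j
  hBp : ∀ i : Fin m, B i.castSucc < p i
  hpA : ∀ i : Fin m, p i < A i.succ
  hA : ∀ j, dpsiR c r p (A j) = 0
  hB : ∀ j, dpsiR c r p (B j) = 0

namespace Uni
variable {m : ℕ} (U : Uni m)

noncomputable def F (w : ℂ) : ℂ := psi U.c U.d U.r U.p w
noncomputable def dF (w : ℂ) : ℂ := dpsi U.c U.r U.p w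
noncomputable def FR (x : ℝ) : ℝ := psiR U.c U.d U.r U.p x
noncomputable def dFR (x : ℝ) : ℝ := dpsiR U.c U.r U.p x
/-- critical values: local minima -/
noncomputable def e (j : Fin (m + 1)) : ℝ := U.FR (U.A j)
/-- critical values: local maxima -/
noncomputable def f (j : Fin (m + 1)) : ℝ := U.FR (U.B j)

end Uni

/-- Ordered disjoint intervals `[e j, f j]`. -/
def Ord {m : ℕ} (e f : Fin (m + 1) → ℝ) : Prop :=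
  (∀ j, e j < f j) ∧ ∀ i : Fin m, f i.castSucc < e i.succ

/-- The inverse branch of `U.F` on the closed upper half plane (main sheet). -/
structure IsMain {m : ℕ} (U : Uni m) (φ : ℂ → ℂ) : Prop where
  cont : ContinuousOn φ {z : ℂ | 0 ≤ z.im}
  inv : ∀ z : ℂ, 0 ≤ z.im → 0 ≤ (φ z).im ∧ U.F (φ z) = z ∧ ∀ i, φ z ≠ U.p i
  left : ∀ w : ℂ, 0 < w.im → 0 ≤ (U.F w).im → φ (U.F w) = w
  top : ∀ j, ∀ x ∈ Icc (U.A j) (U.B j), φ (U.FR x) = x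
  pos : ∀ z : ℂ, 0 ≤ z.im → (z.im = 0 → ∀ j, z.re ∉ Icc (U.e j) (U.f j)) → 0 < (φ z).im
  lip : ∀ z : ℂ, 0 ≤ z.im → ∀ j, ∀ x ∈ Icc (U.A j) (U.B j), ‖φ z - x‖ ≤ 1 →
    ‖z - U.FR x‖ ≤ (2 * U.c + 1 + 3 * (|x| + 1) ^ 2) * ‖φ z - x‖

/-- A labelling of the lower sheets. -/
structure IsLab {m : ℕ} (U : Uni m) (c : Fin (m + 1) → ℝ) (ν : ℂ → ℕ) : Prop where
  loc : ∀ w : ℂ, 0 < w.im → (U.F w).im < 0 → ∀ᶠ w' in 𝓝 w, ν w' = ν w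
  gap : ∀ w : ℂ, 0 < w.im → (U.F w).im = 0 →
    ∀ᶠ w' in 𝓝 w, (U.F w').im < 0 → ν w' = lab c (U.F w).re

/-- The comparison functions on the Riemann surface: `v` on the main sheet, `V k` on the
(reflected) lower sheet with label `k`. -/
structure IsSurf {n : ℕ} (ε : ℝ) (c : Fin n → ℝ) (v : ℂ → ℝ) (V : ℕ → ℂ → ℝ) : Prop where
  v0 : ∀ z, 0 ≤ z.im → 0 ≤ v z
  V0 : ∀ k z, 0 < z.im → 0 ≤ V k z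
  vMV : ∀ z : ℂ, 0 < z.im → MV v z
  VMV : ∀ k, ∀ z : ℂ, 0 < z.im → MV (V k) z
  gap : ∀ x : ℝ, (∀ j, ε < |x - c j|) → ∃ g : ℂ → ℝ, MV g x ∧
    ∀ᶠ z in 𝓝 (x : ℂ), (0 ≤ z.im → g z = v z) ∧ (0 < z.im → g (conj z) = V (lab c x) z)
  big : ∀ j, ∀ ζ ∈ closedBall (c j : ℂ) ε, 0 ≤ ζ.im → ∀ η > 0,
    ∀ᶠ z in 𝓝[{z : ℂ | 0 ≤ z.im}] ζ, 1 - η ≤ v z

/-! ### Statements: angle function -/

def St_ANG : Prop :=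
  ∀ α β : ℝ, α < β →
    (∀ w : ℂ, 0 ≤ w.im → 0 ≤ ang α β w ∧ ang α β w ≤ 1) ∧
    (∀ (χ : ℂ → ℂ) (z : ℂ), AnalyticAt ℂ χ z → 0 < (χ z).im → MV (fun y => ang α β (χ y)) z) ∧
    (∀ (w : ℂ) (D : ℝ), 0 ≤ w.im → 0 < D → (∀ t ∈ Icc α β, D ≤ ‖w - t‖) →
      ang α β w ≤ (β - α) * w.im / (π * D ^ 2) ∧ ang α β w ≤ (β - α) / (π * D)) ∧
    (∀ (w : ℂ) (D : ℝ), 0 < w.im → (∀ t ∈ Icc α β, ‖w - t‖ ≤ D) →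
      (β - α) * w.im / (π * D ^ 2) ≤ ang α β w) ∧
    (∀ x ∈ Ioo α β, Tendsto (ang α β) (𝓝[{z : ℂ | 0 ≤ z.im}] (x : ℂ)) (𝓝 1)) ∧
    (∀ w : ℂ, 0 < w.im → ‖w - ((α + β) / 2 : ℝ)‖ ≤ (β - α) / 2 → 1 / 2 ≤ ang α β w)

/-! ### Statements: upper bound -/

def St_REAL : Prop :=
  ∀ (m : ℕ) (U : Uni m),
    StrictMono U.p ∧
    (∀ j x, U.A j < x → x < U.B j → 0 < U.dFR x) ∧
    (∀ x : ℝ, (∀ i, x ≠ U.p i) → 0 ≤ U.dFR x → ∃ j, x ∈ Icc (U.A j) (U.B j)) ∧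
    (∀ j, 0 < ddpsiR U.r U.p (U.A j) ∧ ddpsiR U.r U.p (U.B j) < 0) ∧
    (∀ j, ∀ x ∈ Icc (U.A j) (U.B j), (∀ i, x ≠ U.p i) ∧ U.FR x ∈ Icc (U.e j) (U.f j)) ∧
    (∀ j, ∀ y ∈ Icc (U.e j) (U.f j), ∃ x ∈ Icc (U.A j) (U.B j), U.FR x = y) ∧
    Ord U.e U.f

def St_SIZE : Prop :=
  ∀ (m : ℕ) (U : Uni m),
    U.A 0 < 0 ∧ 0 < U.B (Fin.last m) ∧ 0 < U.c ∧
    U.c ≤ 6 * (U.B (Fin.last m) - U.A 0) ^ 2 ∧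
    (U.B (Fin.last m) - U.A 0) ^ 3 ≤ 2 * (U.f (Fin.last m) - U.e 0) ∧
    ∑ i, U.r i ≤ (U.B (Fin.last m) - U.A 0) * (U.f (Fin.last m) - U.e 0) ∧
    |∑ i, U.r i / (U.A 0 - U.p i)| ≤ U.f (Fin.last m) - U.e 0 ∧
    (∀ j, U.A 0 ≤ U.A j ∧ U.B j ≤ U.B (Fin.last m))

def St_APR : Prop :=
  ∀ (m : ℕ) (η : ℝ), 0 < η → ∃ ρ : ℝ, 0 < ρ ∧ ∀ U : Uni m,
    (∀ j, η ≤ U.f j - U.e j ∧ |U.e j| ≤ 1 / η ∧ |U.f j| ≤ 1 / η) →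
    (∀ i : Fin m, η ≤ U.e i.succ - U.f i.castSucc) →
    |U.c| ≤ 1 / ρ ∧ |U.d| ≤ 1 / ρ ∧
    (∀ j, |U.A j| ≤ 1 / ρ ∧ |U.B j| ≤ 1 / ρ ∧ ρ ≤ U.B j - U.A j) ∧
    (∀ i : Fin m, ρ ≤ U.r i ∧ U.r i ≤ 1 / ρ ∧ ρ ≤ U.p i - U.B i.castSucc ∧
      ρ ≤ U.A i.succ - U.p i)

def St_CLOSED : Prop :=
  ∀ (m : ℕ) (e f : Fin (m + 1) → ℝ), Ord e f →
    (∀ η > 0, ∃ U : Uni m, ∀ j, |U.e j - e j| < η ∧ |U.f j - f j| < η) →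
    ∃ U : Uni m, U.e = e ∧ U.f = f

def St_OPEN : Prop :=
  ∀ (m : ℕ) (U : Uni m), ∃ η > 0, ∀ e f : Fin (m + 1) → ℝ,
    (∀ j, |e j - U.e j| < η ∧ |f j - U.f j| < η) → ∃ U' : Uni m, U'.e = e ∧ U'.f = f

def St_ROOT : Prop :=
  ∀ (m : ℕ) (c : ℝ) (r p : Fin m → ℝ) (y : Fin (m + 1) → ℝ), (∀ i, 0 < r i) →
    (∀ i : Fin m, y i.castSucc < p i ∧ p i < y i.succ) → (∀ j, 0 < dpsiR c r p (y j)) →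
    ∃ A B : Fin (m + 1) → ℝ, (∀ j, A j < y j ∧ y j < B j) ∧
      (∀ i : Fin m, B i.castSucc < p i ∧ p i < A i.succ) ∧
      ∀ j, dpsiR c r p (A j) = 0 ∧ dpsiR c r p (B j) = 0

def St_EXIST : Prop :=
  ∀ (m : ℕ) (e f : Fin (m + 1) → ℝ), Ord e f → ∃ U : Uni m, U.e = e ∧ U.f = f

def St_SLIT : Prop :=
  ∀ (m : ℕ) (U : Uni m) (w : ℂ), 0 < w.im → U.dF w ∈ slitPlane

def St_CAU : Prop :=
  ∀ (m : ℕ) (U : Uni m) (α β : Fin (m + 1) → ℝ),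
    (∀ j, U.A j < α j ∧ α j ≤ β j ∧ β j < U.B j) →
    ∑ j, ∫ x in (α j)..(β j), (U.dFR x) ^ (-(1 / 2 : ℝ)) ≤ 8

def St_LEN : Prop :=
  ∀ (m : ℕ) (U : Uni m),
    ∑ j, (U.B j - U.A j) ≤ 4 * (∑ j, (U.f j - U.e j)) ^ (1 / 3 : ℝ)

def St_MAIN : Prop := ∀ (m : ℕ) (U : Uni m), ∃ φ : ℂ → ℂ, IsMain U φ

def St_LOCINV : Prop :=
  ∀ (m : ℕ) (U : Uni m) (w : ℂ), 0 < w.im → AnalyticAt ℂ U.F w ∧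
    ∃ χ : ℂ → ℂ, AnalyticAt ℂ χ (U.F w) ∧ χ (U.F w) = w ∧
      (∀ᶠ z in 𝓝 (U.F w), U.F (χ z) = z) ∧ ∀ᶠ w' in 𝓝 w, χ (U.F w') = w'

def St_WLAB : Prop :=
  ∀ (m : ℕ) (U : Uni m) (c : Fin (m + 1) → ℝ), (∀ j, c j ∈ Icc (U.e j) (U.f j)) →
    ∃ ν : ℂ → ℕ, IsLab U c ν

def St_SHEETE : Prop :=
  ∀ (m : ℕ) (U : Uni m) (c : Fin (m + 1) → ℝ) (ν : ℂ → ℕ), (∀ j, c j ∈ Icc (U.e j) (U.f j)) →
    IsLab U c ν → ∀ k ≤ m + 1, ∀ z : ℂ, z.im < 0 → ∃ w : ℂ, 0 < w.im ∧ U.F w = z ∧ ν w = k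

def St_SHEET : Prop :=
  ∀ (m : ℕ) (U : Uni m) (c : Fin (m + 1) → ℝ) (ν : ℂ → ℕ), (∀ j, c j ∈ Icc (U.e j) (U.f j)) →
    IsLab U c ν → ∀ k ≤ m + 1, ∀ z : ℂ, z.im < 0 → ∃! w : ℂ, 0 < w.im ∧ U.F w = z ∧ ν w = k

/-- Harmonic part of the surface functions, for any choice of intervals `[α j, β j]`. -/
def St_HARM : Prop :=
  ∀ (m : ℕ) (U : Uni m) (φ : ℂ → ℂ) (ε : ℝ) (c α β : Fin (m + 1) → ℝ), IsMain U φ → 0 < ε →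
    (∀ j, U.e j = c j - ε ∧ U.f j = c j + ε) → (∀ j, α j < β j) →
    ∃ V : ℕ → ℂ → ℝ, (∀ k z, 0 < z.im → 0 ≤ V k z) ∧
      (∀ z : ℂ, 0 < z.im → MV (fun y => 2 * ∑ j, ang (α j) (β j) (φ y)) z) ∧
      (∀ k, ∀ z : ℂ, 0 < z.im → MV (V k) z) ∧
      ∀ x : ℝ, (∀ j, ε < |x - c j|) → ∃ g : ℂ → ℝ, MV g x ∧
        ∀ᶠ z in 𝓝 (x : ℂ), (0 ≤ z.im → g z = 2 * ∑ j, ang (α j) (β j) (φ z)) ∧
          (0 < z.im → g (conj z) = V (lab c x) z)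

def St_BIG : Prop :=
  ∀ (m : ℕ) (U : Uni m) (φ : ℂ → ℂ) (ε : ℝ) (c α β : Fin (m + 1) → ℝ), IsMain U φ → 0 < ε →
    (∀ j, U.e j = c j - ε ∧ U.f j = c j + ε) → (∀ j, α j < U.A j ∧ U.B j < β j) →
    (∀ z : ℂ, 0 < z.im → MV (fun y => 2 * ∑ j, ang (α j) (β j) (φ y)) z) →
    ∀ j, ∀ ζ ∈ closedBall (c j : ℂ) ε, 0 ≤ ζ.im → ∀ η > 0,
      ∀ᶠ z in 𝓝[{z : ℂ | 0 ≤ z.im}] ζ, 1 - η ≤ 2 * ∑ j, ang (α j) (β j) (φ z)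

def St_SURF : Prop :=
  ∃ C : ℝ, ∀ (m : ℕ) (ε : ℝ) (c : Fin (m + 1) → ℝ), 0 < ε → ε < 1 →
    (∀ j, c j ∈ Icc (0 : ℝ) 1) → (∀ i j, i < j → c i + 2 * ε < c j) →
    ∃ (v : ℂ → ℝ) (V : ℕ → ℂ → ℝ), IsSurf ε c v V ∧
      ∀ z : ℂ, 0 ≤ z.im → (∀ j, 1 ≤ infDist z (closedBall (c j : ℂ) ε)) →
        v z ≤ C * (((m + 1 : ℕ) : ℝ) * ε) ^ (1 / 3 : ℝ)

def St_LAB : Prop :=
  ∀ (n : ℕ) (c : Fin n → ℝ) (Ω : Set ℂ), IsOpen Ω → IsSimplyConnected Ω →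
    (∀ j, (c j : ℂ) ∉ Ω) → ∃ κ : ℂ → ℕ,
      (∀ z : ℂ, 0 < z.im → z ∈ Ω → conj z ∈ Ω → ∀ᶠ y in 𝓝 z, κ y = κ z) ∧
      ∀ x : ℝ, (x : ℂ) ∈ Ω → ∀ᶠ z in 𝓝 (x : ℂ), 0 < z.im → κ z = lab c x

def St_POL : Prop :=
  ∀ (n : ℕ) (ε : ℝ) (c : Fin n → ℝ) (Ω : Set ℂ) (u v : ℂ → ℝ) (V : ℕ → ℂ → ℝ), 0 < ε →
    IsOpen Ω → IsSimplyConnected Ω → (∀ j, Disjoint (closedBall (c j : ℂ) ε) Ω) →
    Perron Ω (frontier Ω ∩ ⋃ j, closedBall (c j : ℂ) ε) u → IsSurf ε c v V →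
    ∀ z ∈ Ω, (0 ≤ z.im → u z ≤ 2 * v z) ∧ (z.im ≤ 0 → u z ≤ 2 * v (conj z))

def St_UP : Prop :=
  ∃ C : ℝ, ∀ (n : ℕ) (ε : ℝ) (c : Fin n → ℝ) (Ω : Set ℂ) (z₀ : ℂ), BallChain n ε c Ω z₀ →
    wt ε c Ω z₀ ≤ C * (n * ε) ^ (1 / 3 : ℝ)

/-! ### Lower bound: vocabulary -/

/-- base point -/
noncomputable def zb : ℂ := 1 / 2 + 3 * I

/-- Continuous nonnegative subharmonic minorant on `Ω` for boundary data `G`. -/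
structure MinF (Ω : Set ℂ) (G u : ℂ → ℝ) : Prop where
  cont : ContinuousOn u Ω
  sub : ∀ z ∈ Ω, SubAt u z
  nn : ∀ z ∈ Ω, 0 ≤ u z
  bd : ∀ ζ ∈ frontier Ω, BdLe Ω u ζ (G ζ)
  inf : InfLe Ω u 0

/-- boundary data carried by the real line -/
noncomputable def DR (h : ℝ → ℝ) (ζ : ℂ) : ℝ := if ζ.im = 0 then h ζ.re else 0

/-- harmonic measure from `zb` has density at least `r` on `(a, b)` -/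
def LD (Ω : Set ℂ) (a b r : ℝ) : Prop :=
  ∀ α β : ℝ, a < α → α < β → β < b → ∀ η > 0,
    ∃ u, MinF Ω (DR ((Icc α β).indicator 1)) u ∧ r * (β - α) - η ≤ u zb

/-- real Joukowski map -/
noncomputable def Jr (t : ℝ) : ℝ := (t + t⁻¹) / 2

/-- wedge shaped cavity below the gap `(x - δ, x + δ)` -/
def Cav (x δ σ : ℝ) : Set ℂ :=
  {z | z.im ≤ 0 ∧ ‖z - x‖ < 2 * δ / σ ∧ |z.re - x| < δ - z.im / σ}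

/-- the box `(a, b) × [-τ, 0]` misses `Ω` -/
def Free (Ω : Set ℂ) (a b τ : ℝ) : Prop :=
  ∀ z ∈ Ω, a < z.re → z.re < b → -τ ≤ z.im → 0 < z.im

/-- upper half plane with cavities, together with a horizontal squeeze -/
def Good (Ω : Set ℂ) : Prop :=
  IsOpen Ω ∧ (∀ z : ℂ, 0 < z.im → z ∈ Ω) ∧ (∃ M : ℝ, ∀ z ∈ Ω, -M < z.im) ∧
    ∃ q : ℝ × ℂ → ℂ, ContinuousOn q (Icc (0 : ℝ) 1 ×ˢ Ω) ∧ (∀ z ∈ Ω, q (0, z) = z) ∧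
      (∀ t ∈ Icc (0 : ℝ) 1, ∀ z ∈ Ω, q (t, z) ∈ Ω ∧ (q (t, z)).im = z.im ∧
        (0 ≤ z.im → q (t, z) = z)) ∧
      ∀ z ∈ Ω, ∀ s : ℝ, 0 ≤ s → q (1, z) + s * I ∈ Ω

/-- a piece: interval `(a, b)`, density `r`, free depth `τ` -/
structure Pc where
  a : ℝ
  b : ℝ
  r : ℝ
  τ : ℝ

def OK (Ω : Set ℂ) (p : Pc) : Prop :=
  0 ≤ p.a ∧ p.a < p.b ∧ p.b ≤ 1 ∧ 0 < p.r ∧ 0 < p.τ ∧ Free Ω p.a p.b p.τ ∧ LD Ω p.a p.b p.r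

def Sep (p p' : Pc) : Prop := p.b ≤ p'.a ∨ p'.b ≤ p.a

def Conf (Ω : Set ℂ) (l : List Pc) : Prop := Good Ω ∧ (∀ p ∈ l, OK Ω p) ∧ l.Pairwise Sep

noncomputable def mass (q : ℝ) (l : List Pc) : ℝ := (l.map fun p => (p.b - p.a) * p.r ^ q).sum

/-- total length of the pieces of density at least `s` -/
noncomputable def lenGe (s : ℝ) (l : List Pc) : ℝ :=
  (l.map fun p => if s ≤ p.r then p.b - p.a else 0).sum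

/-- the slit plane of the local model -/
def Slit : Set ℂ := {z | z.im ≠ 0 ∨ |z.re| < 1}

/-- The local model: a subharmonic minorant of the harmonic measure of the upper side of
`[Jr s, Jr t]` in the slit plane, supported inside the unit cavity. -/
structure IsLoc (σ κ s t : ℝ) (h : ℂ → ℝ) : Prop where
  cont : ContinuousOn h Slit
  sub : ∀ z ∈ Slit, SubAt h z
  nn : ∀ z ∈ Slit, 0 ≤ h z ∧ h z ≤ 1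
  supp : ∀ z ∈ Slit, z.im ≤ 0 → h z ≠ 0 → ‖z‖ ≤ 1 / σ ∧ |z.re| ≤ 1 - σ ^ 2 / 2 - z.im / σ
  off : ∀ x : ℝ, 1 ≤ |x| → x ∉ Icc (Jr s) (Jr t) → ∀ᶠ z in 𝓝 (x : ℂ), 0 < z.im → h z = 0
  inf : ∀ᶠ z in cocompact ℂ, z ∈ Slit → h z = 0
  int : (t - s) / (2 * s * t) - 2 * κ * (t - s) ≤ ∫ y in (-1 : ℝ)..1, h y

/-! ### Statements: lower bound -/

def St_LC : Prop :=
  ∀ (Ω : Set ℂ) (a b r α β : ℝ) (h : ℝ → ℝ), LD Ω a b r → 0 ≤ r → a < α → α < β → β < b →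
    ContinuousOn h (Icc α β) → (∀ y, 0 ≤ h y) → ∀ η > 0,
      ∃ u, MinF Ω (DR h) u ∧ r * (∫ y in α..β, h y) - η ≤ u zb

def St_GLUE : Prop :=
  ∀ (Ω Ω' : Set ℂ) (G G' G'' u h : ℂ → ℝ), IsOpen Ω → IsOpen Ω' → Ω ⊆ Ω' →
    MinF Ω G u → MinF Ω' G' h → (∀ ζ ∈ frontier Ω, ζ ∈ Ω' → G ζ ≤ h ζ) →
    (∀ ζ ∈ frontier Ω', G ζ ≤ G'' ζ ∧ G' ζ ≤ G'' ζ) →
    ∃ u', MinF Ω' G'' u' ∧ ∀ z ∈ Ω, u z ≤ u' z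

def St_KINT : Prop :=
  ∀ s t : ℝ, 1 < |s| → 1 < |t| → s < t → 0 < s * t →
    ∫ y in (-1 : ℝ)..1, ang s t (y + Real.sqrt (1 - y ^ 2) * I) = (t - s) / (2 * s * t)

def St_LOC : Prop :=
  ∀ η κ : ℝ, 0 < η → 0 < κ → ∃ σ : ℝ, 0 < σ ∧ σ < 1 ∧ ∀ s t : ℝ, 1 + η ≤ |s| → 1 + η ≤ |t| →
    s < t → 0 < s * t → ∃ h : ℂ → ℝ, IsLoc σ κ s t h

def St_NUM : Prop :=
  ∀ q : ℝ, 3 / 2 < q → ∃ η κ : ℝ, 0 < η ∧ 0 < κ ∧ κ < 1 / 4 ∧ ∃ (N : ℕ) (T : ℕ → ℝ),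
    T 0 = 1 + η ∧ StrictMono T ∧
    Jr (T N) < ∑ i ∈ Finset.range N,
      (Jr (T (i + 1)) - Jr (T i)) * ((1 - 4 * κ) / (1 - (T (i + 1) ^ 2)⁻¹)) ^ q

def St_GOODC : Prop :=
  ∀ (Ω : Set ℂ) (a b τ x δ σ : ℝ), Good Ω → Free Ω a b τ → 0 < δ → 0 < σ → σ < 1 →
    a ≤ x - 2 * δ / σ → x + 2 * δ / σ ≤ b → 2 * δ / σ ≤ τ → Good (Ω ∪ Cav x δ σ)

def St_SC : Prop :=
  ∀ (Ω : Set ℂ) (n : ℕ) (c : Fin n → ℝ) (ε : ℝ), Good Ω → 0 < ε →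
    (∀ j, ∀ z ∈ Ω, |z.re - c j| ≤ ε → -ε ≤ z.im → 0 < z.im) →
    IsOpen (Ω \ ⋃ j, closedBall (c j : ℂ) ε) ∧
      IsSimplyConnected (Ω \ ⋃ j, closedBall (c j : ℂ) ε)

def St_KEEP : Prop :=
  ∀ (Ω : Set ℂ) (a b τ x δ σ a' b' r : ℝ), Good Ω → Free Ω a b τ → 0 < δ → 0 < σ → σ < 1 →
    a ≤ x - 2 * δ / σ → x + 2 * δ / σ ≤ b → 2 * δ / σ ≤ τ →
    (b' ≤ x - δ ∨ x + δ ≤ a') → LD Ω a' b' r → LD (Ω ∪ Cav x δ σ) a' b' r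

/-- the scaled local model is a minorant on the enlarged domain -/
def St_EMB : Prop :=
  ∀ (Ω : Set ℂ) (a b τ x δ σ κ s t : ℝ) (h : ℂ → ℝ), Good Ω → Free Ω a b τ → 0 < δ → 0 < σ →
    σ < 1 → a ≤ x - 2 * δ / σ → x + 2 * δ / σ ≤ b → 2 * δ / σ ≤ τ →
    a < x + δ * Jr s → x + δ * Jr t < b → IsLoc σ κ s t h →
    ∃ H : ℂ → ℝ,
      MinF (Ω ∪ Cav x δ σ) (DR ((Icc (x + δ * Jr s) (x + δ * Jr t)).indicator 1)) H ∧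
      ∀ y : ℝ, |y - x| < δ → H y = h (((y - x) / δ : ℝ) : ℂ)

def St_GAIN : Prop :=
  ∀ (Ω : Set ℂ) (a b τ r x δ σ η κ T₀ T₁ : ℝ), Good Ω → Free Ω a b τ → LD Ω a b r → 0 ≤ r →
    0 < δ → 0 < σ → σ < 1 → 0 < η → κ < 1 / 4 →
    a ≤ x - 2 * δ / σ → x + 2 * δ / σ ≤ b → 2 * δ / σ ≤ τ →
    (∀ s t : ℝ, 1 + η ≤ |s| → 1 + η ≤ |t| → s < t → 0 < s * t → ∃ h, IsLoc σ κ s t h) →
    1 + η ≤ T₀ → T₀ < T₁ → a ≤ x - δ * Jr T₁ → x + δ * Jr T₁ ≤ b →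
    LD (Ω ∪ Cav x δ σ) (x + δ * Jr T₀) (x + δ * Jr T₁) (r * ((1 - 4 * κ) / (1 - (T₁ ^ 2)⁻¹))) ∧
    LD (Ω ∪ Cav x δ σ) (x - δ * Jr T₁) (x - δ * Jr T₀) (r * ((1 - 4 * κ) / (1 - (T₁ ^ 2)⁻¹)))

def St_REF : Prop :=
  ∀ q : ℝ, 3 / 2 < q → ∃ g : ℝ, 0 < g ∧ ∀ (Ω : Set ℂ) (p : Pc), Good Ω → OK Ω p →
    p.b - p.a ≤ p.τ → ∃ (Ω' : Set ℂ) (l : List Pc), Conf Ω' l ∧
      (∀ p' ∈ l, p.a ≤ p'.a ∧ p'.b ≤ p.b) ∧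
      (1 + g) * ((p.b - p.a) * p.r ^ q) ≤ mass q l ∧
      ∀ p' : Pc, OK Ω p' → Sep p p' → OK Ω' p'

def St_BASE : Prop := Conf {z : ℂ | 0 < z.im} [⟨0, 1, 1 / 20, 1⟩]

def St_ITER : Prop :=
  ∀ q : ℝ, 3 / 2 < q → ∀ K : ℝ, ∃ (Ω : Set ℂ) (l : List Pc), Conf Ω l ∧ K ≤ mass q l

def St_FIN : Prop :=
  ∀ γ C : ℝ, 0 < γ → γ < 1 → 0 < C →
    (∀ (n : ℕ) (ε : ℝ) (c : Fin n → ℝ) (Ω : Set ℂ) (z₀ : ℂ), BallChain n ε c Ω z₀ →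
      wt ε c Ω z₀ ≤ C * (n * ε) ^ γ) →
    ∀ (Ω : Set ℂ) (l : List Pc) (s : ℝ), Conf Ω l → 0 < s →
      lenGe s l ≤ 6 * (C / s) ^ (1 / (1 - γ))

def St_LAYER : Prop :=
  ∀ q P K : ℝ, 0 < q → q < P → 0 < K → ∃ M : ℝ, ∀ l : List Pc,
    (∀ p ∈ l, p.a < p.b ∧ 0 < p.r) → (l.map fun p => p.b - p.a).sum ≤ 1 →
    (∀ s > 0, lenGe s l ≤ K / s ^ P) → mass q l ≤ M

def St_LOW : Prop :=
  ∀ γ C : ℝ, (∀ (n : ℕ) (ε : ℝ) (c : Fin n → ℝ) (Ω : Set ℂ) (z₀ : ℂ), BallChain n ε c Ω z₀ →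
      wt ε c Ω z₀ ≤ C * (n * ε) ^ γ) → γ ≤ 1 / 3

end Pool.Agent.BAC
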