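import Mathlib

/-! Ball and chain domains: subharmonic functions, the Perron family of an indicator,
harmonic measure as the Perron function, and the geometric data of the problem. -/

namespace Pool.Agent.BAC

open Set Filter Topology Metric

/-- `u` is subharmonic at `z`: upper semicontinuous at `z`, with the sub-mean value
inequality on all small circles about `z`. -/
def SubAt (u : ℂ → ℝ) (z : ℂ) : Prop :=
  UpperSemicontinuousAt u z ∧
    ∀ᶠ r in 𝓝[>] (0 : ℝ), CircleIntegrable u z r ∧ u z ≤ Real.circleAverage u z r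

/-- The Perron family of the indicator of `E`: `u` is subharmonic on `Ω`, its upper limit at
each boundary point `ζ` is at most `1` if `ζ ∈ E` and at most `0` otherwise, and its upper limit
at infinity is at most `0`. -/
def Perron (Ω E : Set ℂ) (u : ℂ → ℝ) : Prop :=
  (∀ z ∈ Ω, SubAt u z) ∧
    (∀ ζ ∈ frontier Ω, ∀ η > 0, ∀ᶠ z in 𝓝[Ω] ζ, u z ≤ E.indicator 1 ζ + η) ∧
    (∀ η > 0, ∀ᶠ z in cocompact ℂ, z ∈ Ω → u z ≤ η)

/-- Harmonic measure of `E` in `Ω` at `z`: the Perron function of the indicator of `E`. -/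
noncomputable def hm (z : ℂ) (E Ω : Set ℂ) : ℝ :=
  sSup {t : ℝ | ∃ u : ℂ → ℝ, Perron Ω E u ∧ t = u z}

/-- The data of the problem: a simply connected domain `Ω` missing `n` pairwise disjoint closed
discs of radius `ε < 1 / n` centred in `[0, 1]`, and `z₀ ∈ Ω` at distance `≥ 1` from each. -/
def BallChain (n : ℕ) (ε : ℝ) (c : Fin n → ℝ) (Ω : Set ℂ) (z₀ : ℂ) : Prop :=
  1 ≤ n ∧ 0 < ε ∧ ε < 1 / n ∧ IsOpen Ω ∧ IsSimplyConnected Ω ∧
    (∀ j, c j ∈ Icc (0 : ℝ) 1) ∧ (∀ j, Disjoint (closedBall (c j : ℂ) ε) Ω) ∧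
    (Pairwise fun i j => Disjoint (closedBall (c i : ℂ) ε) (closedBall (c j : ℂ) ε)) ∧
    z₀ ∈ Ω ∧ ∀ j, 1 ≤ infDist z₀ (closedBall (c j : ℂ) ε)

end Pool.Agent.BAC
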