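import Pool.Agent.Lib.BAC.Blue

/-! Proved potential theory API: germs of subharmonic and harmonic functions, the maximum
principle, and the calculus of minorants. -/

namespace Pool.Agent.BAC

open Set Filter Topology Metric Complex MeasureTheory
open scoped ComplexConjugate Real

theorem ev_sphere {p : ℂ → Prop} {z : ℂ} (h : ∀ᶠ y in 𝓝 z, p y) :
    ∀ᶠ r in 𝓝[>] (0 : ℝ), 0 < r ∧ ∀ y ∈ closedBall z r, p y := by
  obtain ⟨ρ, hρ, hb⟩ := Metric.eventually_nhds_iff_ball.1 h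
  have h1 : ∀ᶠ r in 𝓝[>] (0 : ℝ), r < ρ := nhdsWithin_le_nhds (Iio_mem_nhds hρ)
  filter_upwards [h1, self_mem_nhdsWithin] with r hr hr0
  exact ⟨hr0, fun y hy => hb y (closedBall_subset_ball hr hy)⟩

theorem ev_congr {u v : ℂ → ℝ} {z : ℂ} (h : u =ᶠ[𝓝 z] v) :
    ∀ᶠ r in 𝓝[>] (0 : ℝ), EqOn u v (sphere z |r|) := by
  filter_upwards [ev_sphere h] with r hr y hy
  rw [abs_of_pos hr.1] at hy
  exact hr.2 y (sphere_subset_closedBall hy)

theorem SubAt.congr {u v : ℂ → ℝ} {z : ℂ} (hu : SubAt u z) (h : u =ᶠ[𝓝 z] v) : SubAt v z := by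
  have hz : u z = v z := h.eq_of_nhds
  refine ⟨?_, ?_⟩
  · rw [upperSemicontinuousAt_iff]
    intro y hy
    have := (upperSemicontinuousAt_iff.1 hu.1) y (hz ▸ hy)
    filter_upwards [this, h] with w hw hw'
    rwa [← hw']
  · filter_upwards [hu.2, ev_congr h] with r hr he
    exact ⟨(circleIntegrable_congr he).1 hr.1, by
      rw [← hz, ← Real.circleAverage_congr_sphere he]; exact hr.2⟩

theorem MV.congr {u v : ℂ → ℝ} {z : ℂ} (hu : MV u z) (h : u =ᶠ[𝓝 z] v) : MV v z := by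
  have hz : u z = v z := h.eq_of_nhds
  refine ⟨hu.1.congr h, ?_⟩
  filter_upwards [hu.2, ev_congr h] with r hr he
  exact ⟨(circleIntegrable_congr he).1 hr.1, by
    rw [← hz, ← Real.circleAverage_congr_sphere he]; exact hr.2⟩

theorem MV.subAt {u : ℂ → ℝ} {z : ℂ} (hu : MV u z) : SubAt u z :=
  ⟨hu.1.upperSemicontinuousAt, hu.2.mono fun _ hr => ⟨hr.1, hr.2.ge⟩⟩

theorem MV.const (a : ℝ) (z : ℂ) : MV (fun _ => a) z :=
  ⟨continuousAt_const, Eventually.of_forall fun r =>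
    ⟨circleIntegrable_const a z r, Real.circleAverage_const a z r⟩⟩

theorem SubAt.const (a : ℝ) (z : ℂ) : SubAt (fun _ => a) z := (MV.const a z).subAt

theorem avg_const_mul (a : ℝ) (u : ℂ → ℝ) (z : ℂ) (r : ℝ) :
    Real.circleAverage (fun y => a * u y) z r = a * Real.circleAverage u z r := by
  have := Real.circleAverage_fun_smul (a := a) (f := u) (c := z) (R := r)
  simpa only [smul_eq_mul] using this

theorem ci_const_mul (a : ℝ) {u : ℂ → ℝ} {z : ℂ} {r : ℝ} (h : CircleIntegrable u z r) :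
    CircleIntegrable (fun y => a * u y) z r :=
  IntervalIntegrable.const_mul h a

theorem MV.const_mul (a : ℝ) {u : ℂ → ℝ} {z : ℂ} (hu : MV u z) : MV (fun y => a * u y) z :=
  ⟨continuousAt_const.mul hu.1, hu.2.mono fun r hr =>
    ⟨ci_const_mul a hr.1, by rw [avg_const_mul, hr.2]⟩⟩

theorem MV.add {u v : ℂ → ℝ} {z : ℂ} (hu : MV u z) (hv : MV v z) :
    MV (fun y => u y + v y) z := by
  refine ⟨hu.1.add hv.1, ?_⟩
  filter_upwards [hu.2, hv.2] with r h1 h2
  exact ⟨IntervalIntegrable.add h1.1 h2.1, by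
    rw [Real.circleAverage_fun_add h1.1 h2.1, h1.2, h2.2]⟩

theorem MV.neg {u : ℂ → ℝ} {z : ℂ} (hu : MV u z) : MV (fun y => -u y) z := by
  simpa using hu.const_mul (-1)

theorem MV.sub {u v : ℂ → ℝ} {z : ℂ} (hu : MV u z) (hv : MV v z) :
    MV (fun y => u y - v y) z := by
  simpa [sub_eq_add_neg] using hu.add hv.neg

theorem MV.sum {ι : Type*} (s : Finset ι) {u : ι → ℂ → ℝ} {z : ℂ} (h : ∀ i ∈ s, MV (u i) z) :
    MV (fun y => ∑ i ∈ s, u i y) z := by
  classical
  induction s using Finset.induction_on with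
  | empty => simpa using MV.const 0 z
  | insert a s ha ih =>
    simp only [Finset.sum_insert ha]
    exact (h a (Finset.mem_insert_self _ _)).add
      (ih fun i hi => h i (Finset.mem_insert_of_mem hi))

theorem SubAt.add {u v : ℂ → ℝ} {z : ℂ} (hu : SubAt u z) (hv : SubAt v z) :
    SubAt (fun y => u y + v y) z := by
  refine ⟨hu.1.add hv.1, ?_⟩
  filter_upwards [hu.2, hv.2] with r h1 h2
  exact ⟨IntervalIntegrable.add h1.1 h2.1, by
    rw [Real.circleAverage_fun_add h1.1 h2.1]; exact add_le_add h1.2 h2.2⟩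

theorem SubAt.sub_MV {u v : ℂ → ℝ} {z : ℂ} (hu : SubAt u z) (hv : MV v z) :
    SubAt (fun y => u y - v y) z := by
  simpa [sub_eq_add_neg] using hu.add hv.neg.subAt

theorem SubAt.const_mul {a : ℝ} (ha : 0 ≤ a) {u : ℂ → ℝ} {z : ℂ} (hu : SubAt u z) :
    SubAt (fun y => a * u y) z := by
  refine ⟨?_, hu.2.mono fun r hr => ⟨ci_const_mul a hr.1, ?_⟩⟩
  · exact (continuous_const_mul a).continuousAt.comp_upperSemicontinuousAt hu.1
      (monotone_mul_left_of_nonneg ha)
  · rw [avg_const_mul]; exact mul_le_mul_of_nonneg_left hr.2 ha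

theorem SubAt.sum {ι : Type*} (s : Finset ι) {u : ι → ℂ → ℝ} {z : ℂ}
    (h : ∀ i ∈ s, SubAt (u i) z) : SubAt (fun y => ∑ i ∈ s, u i y) z := by
  classical
  induction s using Finset.induction_on with
  | empty => simpa using SubAt.const 0 z
  | insert a s ha ih =>
    simp only [Finset.sum_insert ha]
    exact (h a (Finset.mem_insert_self _ _)).add
      (ih fun i hi => h i (Finset.mem_insert_of_mem hi))

theorem ci_max {u v : ℂ → ℝ} {z : ℂ} {r : ℝ} (h1 : CircleIntegrable u z r)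
    (h2 : CircleIntegrable v z r) : CircleIntegrable (fun y => max (u y) (v y)) z r :=
  ⟨h1.1.sup h2.1, h1.2.sup h2.2⟩

theorem SubAt.max {u v : ℂ → ℝ} {z : ℂ} (hu : SubAt u z) (hv : SubAt v z) :
    SubAt (fun y => max (u y) (v y)) z := by
  refine ⟨hu.1.sup hv.1, ?_⟩
  filter_upwards [hu.2, hv.2] with r h1 h2
  have hm := ci_max h1.1 h2.1
  refine ⟨hm, max_le ?_ ?_⟩
  · exact h1.2.trans (Real.circleAverage_mono h1.1 hm fun _ _ => le_max_left _ _)
  · exact h2.2.trans (Real.circleAverage_mono h2.1 hm fun _ _ => le_max_right _ _)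

/-- Gluing: a function continuous near `z`, above a subharmonic germ and equal to it at `z`. -/
theorem SubAt.of_ge {u h : ℂ → ℝ} {z : ℂ} (hh : SubAt h z)
    (hc : ∀ᶠ y in 𝓝 z, ContinuousAt u y) (hle : ∀ᶠ y in 𝓝 z, h y ≤ u y) (hz : u z = h z) :
    SubAt u z := by
  refine ⟨hc.self_of_nhds.upperSemicontinuousAt, ?_⟩
  filter_upwards [hh.2, ev_sphere (hc.and hle)] with r h1 h2
  have hi : CircleIntegrable u z r := ContinuousOn.circleIntegrable h2.1.le fun y hy =>
    (h2.2 y (sphere_subset_closedBall hy)).1.continuousWithinAt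
  refine ⟨hi, ?_⟩
  rw [hz]
  refine h1.2.trans (Real.circleAverage_mono h1.1 hi fun y hy => ?_)
  rw [abs_of_pos h2.1] at hy
  exact (h2.2 y (sphere_subset_closedBall hy)).2

theorem conj_cm (z : ℂ) (r θ : ℝ) :
    conj (circleMap z r θ) = circleMap (conj z) r (2 * π - θ) := by
  rw [conj_circleMap, ← (periodic_circleMap (conj z) r) (-θ)]
  ring_nf

theorem ci_conj {u : ℂ → ℝ} {z : ℂ} {r : ℝ} (h : CircleIntegrable u (conj z) r) :
    CircleIntegrable (fun y => u (conj y)) z r := by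
  unfold CircleIntegrable at h ⊢
  simp only [conj_cm]
  have := (IntervalIntegrable.comp_sub_left h (2 * π)).symm
  simpa using this

theorem avg_conj (u : ℂ → ℝ) (z : ℂ) (r : ℝ) :
    Real.circleAverage (fun y => u (conj y)) z r = Real.circleAverage u (conj z) r := by
  unfold Real.circleAverage
  simp only [conj_cm]
  rw [intervalIntegral.integral_comp_sub_left (fun θ => u (circleMap (conj z) r θ)) (2 * π)]
  simp

theorem SubAt.conj {u : ℂ → ℝ} {z : ℂ} (hu : SubAt u (conj z)) :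
    SubAt (fun y => u (conj y)) z :=
  ⟨hu.1.comp continuous_conj.continuousAt, hu.2.mono fun r hr =>
    ⟨ci_conj hr.1, by rw [avg_conj]; exact hr.2⟩⟩

theorem MV.conj {u : ℂ → ℝ} {z : ℂ} (hu : MV u (conj z)) : MV (fun y => u (conj y)) z :=
  ⟨hu.1.comp continuous_conj.continuousAt, hu.2.mono fun r hr =>
    ⟨ci_conj hr.1, by rw [avg_conj]; exact hr.2⟩⟩

theorem affine_cm (z x : ℂ) (δ r θ : ℝ) :
    (circleMap z r θ - x) / δ = circleMap ((z - x) / δ) (r / δ) θ := by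
  simp only [circleMap]; push_cast; ring

theorem SubAt.affine {u : ℂ → ℝ} {z x : ℂ} {δ : ℝ} (hδ : 0 < δ)
    (hu : SubAt u ((z - x) / δ)) : SubAt (fun y => u ((y - x) / δ)) z := by
  refine ⟨hu.1.comp (g := fun y : ℂ => (y - x) / δ) (by fun_prop), ?_⟩
  have ht : Tendsto (fun r : ℝ => r / δ) (𝓝[>] 0) (𝓝[>] 0) := by
    refine tendsto_nhdsWithin_iff.2 ⟨?_, ?_⟩
    · have : Tendsto (fun r : ℝ => r / δ) (𝓝 0) (𝓝 (0 / δ)) := tendsto_id.div_const δ
      rw [zero_div] at this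
      exact this.mono_left nhdsWithin_le_nhds
    · filter_upwards [self_mem_nhdsWithin] with r hr using div_pos hr hδ
  filter_upwards [ht.eventually hu.2] with r hr
  unfold CircleIntegrable Real.circleAverage at *
  simpa only [affine_cm] using hr

/-- The imaginary part of an analytic germ has the mean value property. -/
theorem MV.of_im {F : ℂ → ℂ} {z : ℂ} (hF : AnalyticAt ℂ F z) : MV (fun y => (F y).im) z := by
  refine ⟨continuous_im.continuousAt.comp hF.continuousAt, ?_⟩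
  filter_upwards [ev_sphere hF.eventually_analyticAt] with r hr
  have hc : ContinuousOn F (sphere z r) := fun y hy =>
    (hr.2 y (sphere_subset_closedBall hy)).continuousAt.continuousWithinAt
  have hi : CircleIntegrable F z r := hc.circleIntegrable hr.1.le
  refine ⟨(continuous_im.comp_continuousOn hc).circleIntegrable hr.1.le, ?_⟩
  have h1 : Real.circleAverage F z r = F z := by
    apply DiffContOnCl.circleAverage
    rw [abs_of_pos hr.1]
    refine DifferentiableOn.diffContOnCl ?_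
    rw [closure_ball z hr.1.ne']
    exact fun y hy => (hr.2 y hy).differentiableAt.differentiableWithinAt
  have h2 := imCLM.circleAverage_comp_comm hi
  rw [h1] at h2
  exact h2

theorem compact_level {W : Set ℂ} {f : ℂ → ℝ} {M s : ℝ} (hW : IsOpen W)
    (hs : ∀ z ∈ W, SubAt f z) (hb : ∀ ζ ∈ frontier W, BdLe W f ζ M) (hi : InfLe W f M)
    (hM : M < s) : IsCompact {z ∈ W | s ≤ f z} := by
  have hη : 0 < (s - M) / 2 := by linarith
  obtain ⟨C, hC, hC'⟩ := (hasBasis_cocompact.eventually_iff).1 (hi _ hη)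
  refine hC.of_isClosed_subset ?_ ?_
  · rw [← isOpen_compl_iff, isOpen_iff_mem_nhds]
    intro z hz
    by_cases hzW : z ∈ W
    · have hlt : f z < s := by
        by_contra hcon
        exact hz ⟨hzW, not_lt.1 hcon⟩
      filter_upwards [(upperSemicontinuousAt_iff.1 (hs z hzW).1) s hlt] with y hy hy'
      exact absurd hy'.2 (not_le.2 hy)
    · by_cases hcl : z ∈ closure W
      · have hf : z ∈ frontier W := by
          rw [hW.frontier_eq]; exact ⟨hcl, hzW⟩
        have := eventually_nhdsWithin_iff.1 (hb z hf _ hη)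
        filter_upwards [this] with y hy hy'
        have := hy hy'.1
        have := hy'.2
        linarith
      · filter_upwards [isClosed_closure.isOpen_compl.mem_nhds hcl] with y hy hy'
        exact hy (subset_closure hy'.1)
  · intro z hz
    by_contra hzC
    have := hC' hzC hz.1
    have := hz.2
    linarith

/-- **Maximum principle.** -/
theorem maxp {W : Set ℂ} {f : ℂ → ℝ} {M : ℝ} (hW : IsOpen W) (hs : ∀ z ∈ W, SubAt f z)
    (hb : ∀ ζ ∈ frontier W, BdLe W f ζ M) (hi : InfLe W f M) : ∀ z ∈ W, f z ≤ M := by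
  intro z₀ hz₀
  by_contra hcon
  have hM : M < f z₀ := not_le.1 hcon
  obtain ⟨a, ha, hmax⟩ := UpperSemicontinuousOn.exists_isMaxOn (f := f)
    (s := {z ∈ W | f z₀ ≤ f z}) ⟨z₀, hz₀, le_rfl⟩ (compact_level hW hs hb hi hM)
    (fun z hz => (hs z hz.1).1.upperSemicontinuousWithinAt _)
  have hall : ∀ z ∈ W, f z ≤ f a := by
    intro z hz
    by_cases h : f z₀ ≤ f z
    · exact hmax ⟨hz, h⟩
    · exact (not_le.1 h).le.trans ha.2
  obtain ⟨b, hb', hbmax⟩ := (compact_level hW hs hb hi (hM.trans_le ha.2)).exists_isMaxOn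
    ⟨a, ha.1, le_rfl⟩ continuous_re.continuousOn
  obtain ⟨r, ⟨hr1, hr2⟩, hr0, hrW⟩ :=
    ((hs b hb'.1).2.and (ev_sphere (hW.mem_nhds hb'.1))).exists
  have hmem : ∀ θ, circleMap b r θ ∈ W := fun θ => hrW _ (circleMap_mem_closedBall b hr0.le θ)
  have hpi : (1 : ℝ) < π := by linarith [Real.pi_gt_three]
  have hlt : ∫ θ in (0 : ℝ)..2 * π, f (circleMap b r θ) < ∫ _ in (0 : ℝ)..2 * π, f a := by
    refine intervalIntegral.integral_lt_integral_of_ae_le_of_measure_setOfPred_lt_ne_zero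
      (by linarith) hr1 intervalIntegrable_const
      (Eventually.of_forall fun θ => hall _ (hmem θ)) ?_
    have hsub : Ioo (0 : ℝ) 1 ⊆ {θ | f (circleMap b r θ) < f a} := by
      intro θ hθ
      by_contra hc
      have h1 : (circleMap b r θ).re ≤ b.re := hbmax ⟨hmem θ, not_lt.1 hc⟩
      have h2 : (circleMap b r θ).re = b.re + r * Real.cos θ := by
        simp [circleMap, exp_ofReal_mul_I_re]
      have h3 : 0 < Real.cos θ := Real.cos_pos_of_le_one (by rw [abs_of_pos hθ.1]; exact hθ.2.le)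
      nlinarith [mul_pos hr0 h3]
    intro h0
    have h1 := measure_mono_null hsub h0
    have hI : Ioo (0 : ℝ) 1 ⊆ Ioc 0 (2 * π) := fun θ hθ => ⟨hθ.1, by linarith [hθ.2]⟩
    rw [Measure.restrict_apply measurableSet_Ioo, inter_eq_left.2 hI] at h1
    simp at h1
  have h2 : f a ≤ f b := hb'.2
  rw [Real.circleAverage_def, smul_eq_mul] at hr2
  simp only [intervalIntegral.integral_const, sub_zero, smul_eq_mul] at hlt
  have h3 : (2 * π)⁻¹ * ∫ θ in (0 : ℝ)..2 * π, f (circleMap b r θ) < f a := by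
    rw [inv_mul_lt_iff₀ (by linarith)]; exact hlt
  linarith

theorem Perron.le_one {Ω E : Set ℂ} {u : ℂ → ℝ} (hΩ : IsOpen Ω) (hu : Perron Ω E u) :
    ∀ z ∈ Ω, u z ≤ 1 := by
  refine maxp hΩ hu.1 (fun ζ hζ η hη => (hu.2.1 ζ hζ η hη).mono fun z hz => ?_)
    (fun η hη => (hu.2.2 η hη).mono fun z hz hzΩ => by linarith [hz hzΩ])
  have : E.indicator (1 : ℂ → ℝ) ζ ≤ 1 := by
    by_cases h : ζ ∈ E <;> simp [h]
  linarith

theorem Perron.zero (Ω E : Set ℂ) : Perron Ω E fun _ => 0 := by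
  refine ⟨fun z _ => SubAt.const 0 z, fun ζ _ η hη => Eventually.of_forall fun _ => ?_,
    fun η hη => Eventually.of_forall fun _ _ => hη.le⟩
  have : 0 ≤ E.indicator (1 : ℂ → ℝ) ζ := by
    by_cases h : ζ ∈ E <;> simp [h]
  linarith

theorem le_hm {Ω E : Set ℂ} {u : ℂ → ℝ} {z : ℂ} (hΩ : IsOpen Ω) (hz : z ∈ Ω)
    (hu : Perron Ω E u) : u z ≤ hm z E Ω :=
  le_csSup ⟨1, by rintro _ ⟨v, hv, rfl⟩; exact hv.le_one hΩ z hz⟩ ⟨u, hu, rfl⟩

theorem hm_le {Ω E : Set ℂ} {z : ℂ} {M : ℝ} (h : ∀ u, Perron Ω E u → u z ≤ M) :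
    hm z E Ω ≤ M :=
  csSup_le ⟨0, _, Perron.zero Ω E, rfl⟩ (by rintro _ ⟨v, hv, rfl⟩; exact h v hv)

theorem MinF.zero {Ω : Set ℂ} {G : ℂ → ℝ} (hG : ∀ ζ ∈ frontier Ω, 0 ≤ G ζ) :
    MinF Ω G fun _ => 0 :=
  ⟨continuousOn_const, fun z _ => SubAt.const 0 z, fun _ _ => le_rfl,
    fun ζ hζ η hη => Eventually.of_forall fun _ => by linarith [hG ζ hζ],
    fun η hη => Eventually.of_forall fun _ _ => by linarith⟩

theorem MinF.mono {Ω : Set ℂ} {G G' u : ℂ → ℝ} (h : MinF Ω G u)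
    (hG : ∀ ζ ∈ frontier Ω, G ζ ≤ G' ζ) : MinF Ω G' u :=
  ⟨h.cont, h.sub, h.nn, fun ζ hζ η hη => (h.bd ζ hζ η hη).mono fun _ hz => by
    linarith [hG ζ hζ], h.inf⟩

theorem MinF.add {Ω : Set ℂ} {G G' u u' : ℂ → ℝ} (h : MinF Ω G u) (h' : MinF Ω G' u') :
    MinF Ω (fun ζ => G ζ + G' ζ) fun z => u z + u' z := by
  refine ⟨h.cont.add h'.cont, fun z hz => (h.sub z hz).add (h'.sub z hz),
    fun z hz => add_nonneg (h.nn z hz) (h'.nn z hz), fun ζ hζ η hη => ?_, fun η hη => ?_⟩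
  · filter_upwards [h.bd ζ hζ (η / 2) (by linarith), h'.bd ζ hζ (η / 2) (by linarith)]
      with z h1 h2
    linarith
  · filter_upwards [h.inf (η / 2) (by linarith), h'.inf (η / 2) (by linarith)] with z h1 h2 hz
    linarith [h1 hz, h2 hz]

theorem MinF.const_mul {Ω : Set ℂ} {G u : ℂ → ℝ} {a : ℝ} (ha : 0 ≤ a) (h : MinF Ω G u) :
    MinF Ω (fun ζ => a * G ζ) fun z => a * u z := by
  have key : ∀ η > 0, 0 < η / (a + 1) ∧ a * (η / (a + 1)) ≤ η := by
    intro η hη
    refine ⟨by positivity, ?_⟩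
    rw [← mul_div_assoc, div_le_iff₀ (by linarith)]
    nlinarith
  refine ⟨continuousOn_const.mul h.cont, fun z hz => (h.sub z hz).const_mul ha,
    fun z hz => mul_nonneg ha (h.nn z hz), fun ζ hζ η hη => ?_, fun η hη => ?_⟩
  · filter_upwards [h.bd ζ hζ _ (key η hη).1] with z h1
    nlinarith [mul_le_mul_of_nonneg_left h1 ha, (key η hη).2]
  · filter_upwards [h.inf _ (key η hη).1] with z h1 hz
    nlinarith [mul_le_mul_of_nonneg_left (h1 hz) ha, (key η hη).2]

theorem MinF.sum {Ω : Set ℂ} {ι : Type*} (s : Finset ι) {G u : ι → ℂ → ℝ}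
    (h : ∀ i ∈ s, MinF Ω (G i) (u i)) :
    MinF Ω (fun ζ => ∑ i ∈ s, G i ζ) fun z => ∑ i ∈ s, u i z := by
  classical
  induction s using Finset.induction_on with
  | empty => simpa using MinF.zero (Ω := Ω) (G := fun _ => 0) fun _ _ => le_rfl
  | insert a s ha ih =>
    simp only [Finset.sum_insert ha]
    exact (h a (Finset.mem_insert_self _ _)).add
      (ih fun i hi => h i (Finset.mem_insert_of_mem hi))

theorem MinF.le {Ω : Set ℂ} {G u : ℂ → ℝ} {M : ℝ} (hΩ : IsOpen Ω) (h : MinF Ω G u)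
    (hM : 0 ≤ M) (hG : ∀ ζ ∈ frontier Ω, G ζ ≤ M) : ∀ z ∈ Ω, u z ≤ M :=
  maxp hΩ h.sub (fun ζ hζ η hη => (h.bd ζ hζ η hη).mono fun _ hz => by linarith [hG ζ hζ])
    fun η hη => (h.inf η hη).mono fun _ hz hzΩ => by linarith [hz hzΩ]

theorem LD.mono {Ω : Set ℂ} {a b r a' b' : ℝ} (h : LD Ω a b r) (ha : a ≤ a') (hb : b' ≤ b) :
    LD Ω a' b' r :=
  fun α β h1 h2 h3 => h α β (ha.trans_lt h1) h2 (h3.trans_le hb)

theorem Uni.F_ofReal {m : ℕ} (U : Uni m) (x : ℝ) : U.F x = (U.FR x : ℂ) := by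
  simp only [Uni.F, Uni.FR, psi, psiR]; push_cast; rfl

theorem Uni.dF_ofReal {m : ℕ} (U : Uni m) (x : ℝ) : U.dF x = (U.dFR x : ℂ) := by
  simp only [Uni.dF, Uni.dFR, dpsi, dpsiR]; push_cast; rfl

theorem Uni.F_conj {m : ℕ} (U : Uni m) (w : ℂ) : U.F (conj w) = conj (U.F w) := by
  simp [Uni.F, psi, map_sum]

end Pool.Agent.BAC
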